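import Pool.Agent.H775.GlFin2
import Pool.Agent.H775.Bas

set_option autoImplicit false
set_option maxRecDepth 1000000
set_option maxHeartbeats 0

namespace Pool.Agent.H775

open Pool.Agent.TH651.RP5

theorem fall0 : F0.all (fun F => Nat.ble (F + 1) (2 ^ 22)) = true := by decide +kernel

theorem fall1 : F1.all (fun F => Nat.ble (F + 1) (2 ^ 22)) = true := by decide +kernel

theorem fall2 : F2.all (fun F => Nat.ble (F + 1) (2 ^ 22)) = true := by decide +kernel

theorem fall3 : F3.all (fun F => Nat.ble (F + 1) (2 ^ 22)) = true := by decide +kernel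

end Pool.Agent.H775
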