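import Pool.Graph.R_seed8.TH651.RP5.Enum

/-!
A checker for fractional covering bounds: sign vectors `v < 2^n` are the digits of a big number in
base `2^D`; the digit of `v` is the weight of the faces covered by `v`.
-/

set_option autoImplicit false

namespace Pool.Agent.H775

open Pool.Agent.TH651.RP5

/-- `w` times the sum of `2^(D*v)` over the vectors `v < 2^n` covering the face `F` -/
noncomputable def mkc (D F w n : ℕ) : ℕ :=
  Nat.rec (motive := fun _ => ℕ) w (fun i ih =>
    Bool.rec (Bool.rec (Bool.rec 0 (Nat.shiftLeft ih (Nat.shiftLeft D i))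
        (Nat.beq (Nat.mod (Nat.shiftRight F (Nat.mul 2 i)) 4) 2))
      ih (Nat.beq (Nat.mod (Nat.shiftRight F (Nat.mul 2 i)) 4) 1))
      (Nat.add ih (Nat.shiftLeft ih (Nat.shiftLeft D i)))
      (Nat.beq (Nat.mod (Nat.shiftRight F (Nat.mul 2 i)) 4) 0)) n

/-- sum of the columns of a weighted list of faces -/
noncomputable def smc (D n : ℕ) (L : List (ℕ × ℕ)) : ℕ :=
  List.rec (motive := fun _ => ℕ) 0 (fun p _ ih => Nat.add (mkc D p.1 p.2 n) ih) L

/-- total weight -/
noncomputable def tw (L : List (ℕ × ℕ)) : ℕ :=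
  List.rec (motive := fun _ => ℕ) 0 (fun p _ ih => Nat.add p.2 ih) L

/-- vectors containing one of the cliques `K` -/
noncomputable def exc (D n : ℕ) (Ks : List ℕ) : ℕ :=
  List.rec (motive := fun _ => ℕ) 0 (fun K _ ih => Nat.lor (mkc D K 1 n) ih) Ks

/-- the listed vectors -/
noncomputable def tops (D : ℕ) (T : List ℕ) : ℕ :=
  List.rec (motive := fun _ => ℕ) 0 (fun v _ ih => Nat.lor (Nat.shiftLeft 1 (Nat.mul D v)) ih) T

/-- all vectors `v < 2^n` outside the mask `X` have weight at most `M`, and `m * M` is less than the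
total weight -/
noncomputable def bndB (D n m M X : ℕ) (L : List (ℕ × ℕ)) : Bool :=
  Bool.rec false
  (Bool.rec false
  (Bool.rec false
    (Nat.beq (Nat.lor (Nat.land (Nat.shiftRight (Nat.add (smc D n L)
        (Nat.mul (Nat.sub (Nat.sub (Nat.pow 2 (Nat.sub D 1)) 1) M) (mkc D 0 1 n)))
        (Nat.sub D 1)) (mkc D 0 1 n)) X) X)
    (Nat.ble (Nat.add (tw L) 1) (Nat.pow 2 (Nat.sub D 1))))
    (Nat.ble (Nat.add (Nat.mul m M) 1) (tw L)))
    (Nat.ble (Nat.add M 1) (Nat.pow 2 (Nat.sub D 1)))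

/-- the face `F` is one of `Fs` and is not covered by `v` -/
noncomputable def subB (n v : ℕ) (Fs : List ℕ) (L : List (ℕ × ℕ)) : Bool :=
  L.all (fun p => Fs.any (fun F => Nat.beq F p.1) && !(inclB n v p.1))

/-- a node: faces with weights, bound `M`, exceptional vectors with their own weighted faces -/
noncomputable def nodeB (D D' n m : ℕ) (Ks : List ℕ) (L : List (ℕ × ℕ)) (M : ℕ)
    (C : List (ℕ × ℕ × List (ℕ × ℕ))) : Bool :=
  bc (bndB D n m M (Nat.lor (exc D n Ks) (tops D (C.map Prod.fst))) L)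
    (C.all (fun c => bc (subB n c.1 (L.map Prod.fst) c.2.2)
      (bndB D' n (Nat.sub m 1) c.2.1 (exc D' n Ks) c.2.2) false)) false

end Pool.Agent.H775
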