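import Pool.Agent.H775.EngDef
import Pool.Agent.H775.CovDef

/-!
Definitions of the checks on matrices of signs, blocked solutions, axioms of a case.
Written with the functions the kernel evaluates directly.
-/

set_option autoImplicit false

namespace Pool.Agent.H775

open Pool.Agent.TH651.RP5

/-- adds the non-adjacencies of column `j` given by the row of signs `r` (entries `i' < i`) -/
noncomputable def nrow (r j N : ℕ) (i : ℕ) : ℕ :=
  Nat.rec (motive := fun _ => ℕ) N (fun i' ih =>
    nad ih (Nat.add (Nat.mul 2 i') (Nat.mod (Nat.shiftRight r i') 2)) (Nat.mul 2 j)) i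

/-- matrix of a list of rows of signs, the first one having index `j` -/
noncomputable def nmat (C : List ℕ) : ℕ → ℕ → ℕ :=
  List.rec (motive := fun _ => ℕ → ℕ → ℕ) (fun _ N => N)
    (fun r _ ih j N => ih (Nat.add j 1) (nrow r j N j)) C

/-- positive signs between `n1 + i'` (`i' < i`) and `n1 + k` -/
noncomputable def nrowb (n1 k N : ℕ) (i : ℕ) : ℕ :=
  Nat.rec (motive := fun _ => ℕ) N (fun i' ih =>
    nad ih (Nat.mul 2 (Nat.add n1 i')) (Nat.mul 2 (Nat.add n1 k))) i

/-- positive signs inside the block `n1, ..., n1 + m - 1` -/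
noncomputable def nblk (n1 N m : ℕ) : ℕ :=
  Nat.rec (motive := fun _ => ℕ) N (fun k ih => nrowb n1 k ih k) m

/-- the entries `(2p,2p), (2p,2p+1), (2p+1,2p), (2p+1,2p+1)` -/
noncomputable def ndia (n : ℕ) : ℕ :=
  Nat.rec (motive := fun _ => ℕ) 0 (fun p ih =>
    Nat.lor (Nat.lor ih (Nat.shiftLeft 3 (Nat.add (Nat.mul 128 p) (Nat.mul 2 p))))
      (Nat.shiftLeft 3 (Nat.add (Nat.add (Nat.mul 128 p) 64) (Nat.mul 2 p)))) n

/-- matrix of the base with signs `C` (rows `0..n1-1`) and of the block -/
noncomputable def nbase (C : List ℕ) (n1 m : ℕ) : ℕ :=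
  nblk n1 (nmat C 0 (ndia (Nat.add n1 m))) m

/-- adding the adjacencies given by codes -/
noncomputable def ncod (b2 : ℕ) (L : List ℕ) (N : ℕ) : ℕ :=
  List.rec (motive := fun _ => ℕ) N (fun c _ ih =>
    nad ih (Nat.mod c b2) (Nat.add b2 (Nat.mul 2 (Nat.div c b2)))) L

noncomputable def ecod (L : List ℕ) : ℕ :=
  List.rec (motive := fun _ => ℕ) 0 (fun c _ ih => Nat.lor ih (Nat.shiftLeft 1 c)) L

/-- bit -/
noncomputable def tb (N i : ℕ) : Bool := Nat.beq (Nat.mod (Nat.shiftRight N i) 2) 1

/-- adjacency of the literals `l, z < 34` as given by the matrix `BN` of the base (11 pairs) and the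
set `D` of codes of adjacencies between base and block -/
noncomputable def adB (BN D l z : ℕ) : Bool :=
  Bool.rec
    (Bool.rec (tb BN (Nat.add (Nat.mul 64 l) (Nat.xor z 1)))
      (tb D (Nat.add (Nat.mul 22 (Nat.div (Nat.sub l 22) 2)) (Nat.xor z (Nat.mod l 2))))
      (Nat.ble 22 l))
    (Bool.rec (tb D (Nat.add (Nat.mul 22 (Nat.div (Nat.sub z 22) 2)) (Nat.xor l (Nat.mod z 2))))
      (Nat.beq (Nat.mod (Nat.add l z) 2) 0)
      (Nat.ble 22 l))
    (Nat.ble 22 z)

/-- literal `z` against the earlier literals (last one first; `i` of them), signs in the row `r` -/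
noncomputable def solI (BN D r z : ℕ) (prev : List ℕ) : ℕ → Bool :=
  List.rec (motive := fun _ => ℕ → Bool) (fun _ => true) (fun l _ ih i =>
    Bool.rec false (Bool.rec (ih (Nat.sub i 1)) false (Nat.beq (Nat.div l 2) (Nat.div z 2)))
      (adB BN D l (Nat.xor z (Nat.mod (Nat.shiftRight r (Nat.sub i 1)) 2)))) prev

/-- the `n` literals given by the digits of `lam` in base 64 have the signs given by the
digits of `cls` in base `2^16` -/
noncomputable def solO (BN D : ℕ) (n : ℕ) : ℕ → ℕ → List ℕ → ℕ → Bool :=
  Nat.rec (motive := fun _ => ℕ → ℕ → List ℕ → ℕ → Bool) (fun _ _ _ _ => true)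
    (fun _ ih lam cls prev j =>
      Bool.rec false
        (Bool.rec false
          (ih (Nat.div lam 64) (Nat.div cls 65536) (Nat.mod lam 64 :: prev) (Nat.add j 1))
          (solI BN D (Nat.mod cls 65536) (Nat.mod lam 64) prev j))
        (Nat.ble (Nat.mod lam 64) 33)) n

/-- `∑_{b < n} 2^(2b + bit b of v)` -/
noncomputable def spr (v : ℕ) (n : ℕ) : ℕ :=
  Nat.rec (motive := fun _ => ℕ) 0 (fun b ih =>
    Nat.lor ih (Nat.shiftLeft 1 (Nat.add (Nat.mul 2 b) (Nat.mod (Nat.shiftRight v b) 2)))) n

/-- mask of 272 bits -/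
abbrev M272 : ℕ :=
  7588550360256754183279148073529370729071901715047420004889892225542594864082845695

/-- mask of 132 bits -/
abbrev M132 : ℕ := 5444517870735015415413993718908291383295

/-- check of one axiom `e` for the clause `D`: the type is `e % 4`; let `e' = e / 2^22` (the other
bits only make the hash codes of the numbers different).
type 0 (blocked solution): `e' = lam + 2^102 * idx`;
type 1 (clique with 7 elements): `e' = lam`;
type 2 (forbidden row): `e' = k + 8 * v`, the row `v` has been eliminated before step `s`, i.e.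
`1 ≤ JT v ≤ s` for the entry `JT v` of the table `JT` with entries of 8 bits. -/
noncomputable def axB (BN CT JT s D e : ℕ) : Bool :=
  Bool.rec
    (Bool.rec
      (Bool.rec false
        (Bool.rec false
          (Bool.rec false
            (Bool.rec
              (Bool.rec false
                (Nat.beq D (Nat.shiftLeft (spr (Nat.div (Nat.div e 4194304) 8) 11)
                  (Nat.mul 22 (Nat.mod (Nat.div e 4194304) 8))))
                (Nat.ble (ent JT 8 255 (Nat.div (Nat.div e 4194304) 8)) s))
              false (Nat.beq (ent JT 8 255 (Nat.div (Nat.div e 4194304) 8)) 0))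
            (Nat.ble (Nat.mod (Nat.div e 4194304) 8) 5))
          (Nat.ble (Nat.div (Nat.div e 4194304) 8) 2047))
        (Nat.beq (Nat.mod e 4) 2))
      (solO BN D 7 (Nat.div e 4194304) 0 List.nil 0)
      (Nat.beq (Nat.mod e 4) 1))
    (Bool.rec
      (solO BN D 17 (Nat.mod (Nat.div e 4194304) 5070602400912917605986812821504)
        (ent CT 272 M272 (Nat.div (Nat.div e 4194304) 5070602400912917605986812821504)) List.nil 0)
      false
      (Nat.beq (ent CT 272 M272
        (Nat.div (Nat.div e 4194304) 5070602400912917605986812821504)) 0))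
    (Nat.beq (Nat.mod e 4) 0)

/-- check of a list of axioms for the clauses with indices `i, i+1, ...` -/
noncomputable def axA (BN CT JT DB s : ℕ) (L : List ℕ) : ℕ → Bool :=
  List.rec (motive := fun _ => ℕ → Bool) (fun _ => true) (fun e _ ih i =>
    Bool.rec false (st (Nat.add i 1) ih) (axB BN CT JT s (ent DB 132 M132 i) e)) L

/-- rows of a class -/
def rowsOf (c : ℕ) : List ℕ := (List.range 17).map (fun j => c / 65536 ^ j % 65536)

/-- initial codes of a case: the first block vertex has row `rep` if `off = 1`, the block vertex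
`t + off` covers the face `N_t` -/
def e0L (off rep : ℕ) (Ns : List ℕ) : List ℕ :=
  (if off = 1 then (List.range 11).map (fun b => 2 * b + rep / 2 ^ b % 2) else []) ++
  (List.range Ns.length).flatMap (fun t => ((List.range 22).filter (fun l =>
    (Ns.getD t 0).testBit l)).map (fun l => 22 * (t + off) + l))

/-- the check of the axioms of a case -/
noncomputable def caseA (B CLS JTL DBL AXL : List ℕ) (s i0 : ℕ) : Bool :=
  st (nbase B 11 6) fun BN => st (tblK 272 CLS) fun CT => st (tblK 8 JTL) fun JT =>
  st (tblK 132 DBL) fun DB => axA BN CT JT DB s AXL i0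

/-- the check of the learned clauses of a case -/
noncomputable def caseC (B full DBL E0L HL : List ℕ) (i0 : ℕ) : Bool :=
  st (tblK 32 (gtL full)) fun GT => st (tblK 132 DBL) fun DB =>
  st (ecod E0L) fun E0 => st (ncod 22 E0L (nbase B 11 6)) fun N0 =>
  chk 22 6 4 17179869183 GT DB E0 N0 HL i0

/-! ### derivation of full faces -/

noncomputable def facesB (Y : ℕ) (L : List (ℕ × ℕ)) : Bool :=
  List.rec (motive := fun _ => Bool) true (fun p _ ih =>
    Bool.rec false ih (Nat.beq (slt Y p.2) (Nat.add (Nat.mul 2 p.1) 1))) L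

/-- the faces `p.1` of the list have value 1 in every good cycle -/
noncomputable def deriveB (C full : List ℕ) (n1 m rc fuel h : ℕ) (L : List (ℕ × ℕ)) : Bool :=
  st (tblK 32 (gtL full)) fun GT => st (nmat C 0 (ndia (Nat.add n1 m))) fun N =>
  st (Nat.sub (Nat.pow 2 (Nat.mul 2 (Nat.add n1 m))) 1) fun FM =>
  run (Nat.mul 2 n1) m rc FM GT 0 0 (fun Y => facesB Y L) fuel h 0 N 0

/-! ### cliques -/

/-- `l` is adjacent to all literals of `L`, according to the matrix `N` -/
noncomputable def adA (N l : ℕ) (L : List ℕ) : Bool :=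
  List.rec (motive := fun _ => Bool) true (fun z _ ih =>
    Bool.rec false (Bool.rec ih false (Nat.beq (Nat.div l 2) (Nat.div z 2)))
      (tb N (Nat.add (Nat.mul 64 l) (Nat.xor z 1)))) L

noncomputable def clqB (N b : ℕ) (L : List ℕ) : Bool :=
  List.rec (motive := fun _ => Bool) true (fun l T ih =>
    Bool.rec false (Bool.rec false ih (adA N l T)) (Nat.ble (Nat.add l 1) b)) L

/-- mask of a list -/
noncomputable def mkK (L : List ℕ) : ℕ :=
  List.rec (motive := fun _ => ℕ) 0 (fun l _ ih => Nat.lor ih (Nat.shiftLeft 1 l)) L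

/-- the check of a class: the lists in `Ks` are cliques with 6 elements; covering bound -/
noncomputable def clsB (C : List ℕ) (n D D' m M : ℕ) (Ks : List (List ℕ)) (L : List (ℕ × ℕ))
    (T : List (ℕ × ℕ × List (ℕ × ℕ))) : Bool :=
  bc (st (nmat C 0 (ndia n)) fun N => Ks.all (fun K => bc (Nat.beq K.length 6)
      (clqB N (Nat.mul 2 n) K) false))
    (nodeB D D' n m (Ks.map mkK) L M T) false

/-! ### automorphisms -/

/-- the row of signs after relabelling, `lam` in base 64 -/
noncomputable def rmap (lam v : ℕ) (n : ℕ) : ℕ :=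
  Nat.rec (motive := fun _ => ℕ) 0 (fun i ih =>
    Nat.lor ih (Nat.shiftLeft (Nat.mod (Nat.add
      (Nat.shiftRight v (Nat.div (Nat.mod (Nat.shiftRight lam (Nat.mul 6 i)) 64) 2))
      (Nat.mod (Nat.shiftRight lam (Nat.mul 6 i)) 64)) 2) i)) n

/-- `AT`: table of automorphisms (`6 * n` bits each), `VT v`: index of an automorphism moving `v` to
the representative with number `JT v` (table `RT`, entries of 16 bits, numbers from 1) -/
noncomputable def autB (n wA mA AT VT RT JT : ℕ) (N : ℕ) : Bool :=
  Nat.rec (motive := fun _ => Bool) true (fun v ih =>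
    Bool.rec (Bool.rec false ih
      (Nat.beq (rmap (ent AT wA mA (ent VT 8 255 v)) v n) (ent RT 16 65535 (ent JT 8 255 v))))
      ih (Nat.beq (ent JT 8 255 v) 0)) N

end Pool.Agent.H775
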