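import Pool.Agent.H775.CaseDef

/-!
Faster form of the check of the children of a node, and pieces of the checks.
-/

set_option autoImplicit false

namespace Pool.Agent.H775

open Pool.Agent.TH651.RP5

/-- the first components of `L` form a sublist of `Fs` and are not subsets of the mask `S` -/
noncomputable def mrg (S : ℕ) (Fs : List ℕ) : List (ℕ × ℕ) → Bool :=
  List.rec (motive := fun _ => List (ℕ × ℕ) → Bool)
    (fun L => List.rec (motive := fun _ => Bool) true (fun _ _ _ => false) L)
    (fun F _ ih L => List.rec (motive := fun _ => Bool) true (fun p T _ =>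
      Bool.rec (ih L) (Bool.rec (ih T) false (Nat.beq (Nat.land p.1 S) p.1)) (Nat.beq F p.1)) L) Fs

/-- the check of a child of a node -/
noncomputable def leafB (D' n m : ℕ) (Ks Fs : List ℕ) (c : ℕ × ℕ × List (ℕ × ℕ)) : Bool :=
  bc (st (spr c.1 n) fun S => mrg S Fs c.2.2)
    (bndB D' n (Nat.sub m 1) c.2.1 (exc D' n Ks) c.2.2) false

/-- the check of the root of a node -/
noncomputable def rootB (D n m : ℕ) (Ks : List ℕ) (L : List (ℕ × ℕ)) (M : ℕ) (vs : List ℕ) : Bool :=
  bndB D n m M (Nat.lor (exc D n Ks) (tops D vs)) L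

theorem cd2_spr_succ (v n : ℕ) : spr v (n + 1) = spr v n ||| (1 <<< (2 * n + v / 2 ^ n % 2)) := by
  have h : spr v (n + 1) = spr v n ||| (1 <<< (2 * n + (v >>> n) % 2)) := rfl
  rw [h, Nat.shiftRight_eq_div_pow]

theorem cd2_spr_testBit (v : ℕ) : ∀ (n l : ℕ), l / 2 < n → l % 2 = v / 2 ^ (l / 2) % 2 →
    (spr v n).testBit l = true
  | 0, l, h, _ => absurd h (by omega)
  | n + 1, l, h, h2 => by
    rw [cd2_spr_succ, Nat.testBit_or, Bool.or_eq_true]
    by_cases h3 : l / 2 < n
    · exact Or.inl (cd2_spr_testBit v n l h3 h2)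
    · right
      have h4 : l / 2 = n := by omega
      rw [h4] at h2
      have h5 : l = 2 * n + v / 2 ^ n % 2 := by omega
      rw [Nat.one_shiftLeft, Nat.testBit_two_pow, ← h5]
      simp

/-- a face which is not a subset of `spr v n` is not covered, if it lies in the first `2 n` bits -/
theorem cd2_incl {n v F : ℕ} (hF : F < 2 ^ (2 * n)) (h : inclB n v F = true) :
    Nat.land F (spr v n) = F := by
  show F &&& spr v n = F
  apply Nat.eq_of_testBit_eq
  intro l
  rw [Nat.testBit_and]
  by_cases h1 : F.testBit l = true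
  · have hl : l < 2 * n := by
      by_contra hcon
      rw [Nat.testBit_lt_two_pow (lt_of_lt_of_le hF (Nat.pow_le_pow_right (by norm_num)
        (by omega)))] at h1
      exact absurd h1 (by simp)
    rw [inclB, List.all_eq_true] at h
    have h2 := h l (List.mem_range.mpr hl)
    rw [h1, Bool.not_true, Bool.false_or, beq_iff_eq] at h2
    have h3 : (spr v n).testBit l = true := by
      apply cd2_spr_testBit v n l (by omega)
      have h4 : v.testBit (l / 2) = true ↔ v / 2 ^ (l / 2) % 2 = 1 := by
        rw [Nat.testBit_eq_decide_div_mod_eq, decide_eq_true_eq]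
      rcases Nat.mod_two_eq_zero_or_one l with h5 | h5
      · rw [h5] at h2 ⊢
        have h6 : ¬ v / 2 ^ (l / 2) % 2 = 1 := by rw [← h4, h2]; decide
        omega
      · rw [h5] at h2 ⊢
        exact (h4.mp (by rw [h2]; decide)).symm
    rw [h1, h3]; rfl
  · rw [Bool.not_eq_true] at h1
    rw [h1]; rfl

theorem mrg_sound {S : ℕ} : ∀ (Fs : List ℕ) (L : List (ℕ × ℕ)), mrg S Fs L = true →
    ∀ p ∈ L, p.1 ∈ Fs ∧ ¬ Nat.land p.1 S = p.1 := by
  intro Fs
  induction Fs with
  | nil =>
    intro L h p hp
    cases L with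
    | nil => exact absurd hp (by simp)
    | cons q T => exact absurd h (by simp [mrg])
  | cons F Fs ih =>
    intro L h p hp
    cases L with
    | nil => exact absurd hp (by simp)
    | cons q T =>
      have e : mrg S (F :: Fs) (q :: T) = (Bool.rec (motive := fun _ => Bool) (mrg S Fs (q :: T))
        (Bool.rec (motive := fun _ => Bool) (mrg S Fs T) false (Nat.beq (Nat.land q.1 S) q.1))
        (Nat.beq F q.1)) := rfl
      rw [e] at h
      cases h1 : Nat.beq F q.1 with
      | false =>
        rw [h1] at h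
        obtain ⟨h2, h3⟩ := ih _ h p hp
        exact ⟨List.mem_cons_of_mem _ h2, h3⟩
      | true =>
        rw [h1] at h
        cases h4 : Nat.beq (Nat.land q.1 S) q.1 with
        | true => rw [h4] at h; exact absurd h (by simp)
        | false =>
          rw [h4] at h
          rw [List.mem_cons] at hp
          rcases hp with rfl | hp
          · refine ⟨?_, ?_⟩
            · rw [← Nat.eq_of_beq_eq_true h1]; exact List.mem_cons_self
            · intro h5
              have := Nat.ne_of_beq_eq_false h4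
              exact this h5
          · obtain ⟨h2, h3⟩ := ih _ h p hp
            exact ⟨List.mem_cons_of_mem _ h2, h3⟩

theorem subB_of {n v S : ℕ} {Fs : List ℕ} {L : List (ℕ × ℕ)} (hS : S = spr v n)
    (hF : ∀ F ∈ Fs, F < 2 ^ (2 * n)) (h : mrg S Fs L = true) : subB n v Fs L = true := by
  subst hS
  rw [subB, List.all_eq_true]
  intro p hp
  obtain ⟨h1, h2⟩ := mrg_sound Fs L h p hp
  rw [Bool.and_eq_true, List.any_eq_true]
  refine ⟨⟨p.1, h1, Nat.beq_refl _⟩, ?_⟩
  rw [Bool.not_eq_true']
  by_contra h3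
  rw [Bool.not_eq_false] at h3
  exact h2 (cd2_incl (hF _ h1) h3)

/-- the check of a node from its pieces -/
theorem nodeB_of {D D' n m M : ℕ} {Ks : List ℕ} {L : List (ℕ × ℕ)}
    {C : List (ℕ × ℕ × List (ℕ × ℕ))} (hF : ∀ F ∈ L.map Prod.fst, F < 2 ^ (2 * n))
    (hr : rootB D n m Ks L M (C.map Prod.fst) = true)
    (hc : ∀ c ∈ C, leafB D' n m Ks (L.map Prod.fst) c = true) :
    nodeB D D' n m Ks L M C = true := by
  unfold nodeB
  unfold rootB at hr
  rw [bc_eq, if_pos hr, List.all_eq_true]
  intro c hcC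
  have h := hc c hcC
  unfold leafB at h
  rw [bc_eq, st_eq] at h
  by_cases h1 : mrg (spr c.1 n) (L.map Prod.fst) c.2.2 = true
  · rw [if_pos h1] at h
    rw [bc_eq, if_pos (subB_of rfl hF h1)]
    exact h
  · rw [if_neg h1] at h
    exact absurd h (by simp)

/-- the lists in `Ks` are cliques with 6 elements -/
noncomputable def clsK (C : List ℕ) (n : ℕ) (Ks : List (List ℕ)) : Bool :=
  st (nmat C 0 (ndia n)) fun N => Ks.all (fun K => bc (Nat.beq K.length 6)
      (clqB N (Nat.mul 2 n) K) false)

theorem clsB_of {C : List ℕ} {n D D' m M : ℕ} {Ks : List (List ℕ)} {L : List (ℕ × ℕ)}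
    {T : List (ℕ × ℕ × List (ℕ × ℕ))} (hK : clsK C n Ks = true)
    (hn : nodeB D D' n m (Ks.map mkK) L M T = true) : clsB C n D D' m M Ks L T = true := by
  unfold clsK at hK
  unfold clsB
  rw [hK, hn]; rfl

end Pool.Agent.H775
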