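import Pool.Agent.H775.CovDef

/-!
C1: digits of the covering checker.
-/

set_option autoImplicit false

namespace Pool.Agent.H775

open Pool.Agent.TH651.RP5

/-- the recursion of `mkc` -/
theorem mkc_zero (D F w : ℕ) : mkc D F w 0 = w := rfl

theorem mkc_succ (D F w n : ℕ) : mkc D F w (n + 1) =
    if (F >>> (2 * n)) % 4 = 0 then mkc D F w n + mkc D F w n * 2 ^ (D * 2 ^ n)
    else if (F >>> (2 * n)) % 4 = 1 then mkc D F w n
    else if (F >>> (2 * n)) % 4 = 2 then mkc D F w n * 2 ^ (D * 2 ^ n)
    else 0 := by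
  have h : mkc D F w (n + 1) = Bool.rec (Bool.rec (Bool.rec 0
      (Nat.shiftLeft (mkc D F w n) (Nat.shiftLeft D n))
        (Nat.beq (Nat.mod (Nat.shiftRight F (Nat.mul 2 n)) 4) 2))
      (mkc D F w n) (Nat.beq (Nat.mod (Nat.shiftRight F (Nat.mul 2 n)) 4) 1))
      (Nat.add (mkc D F w n) (Nat.shiftLeft (mkc D F w n) (Nat.shiftLeft D n)))
      (Nat.beq (Nat.mod (Nat.shiftRight F (Nat.mul 2 n)) 4) 0) := rfl
  have hs : ∀ x y : ℕ, Nat.shiftLeft x y = x * 2 ^ y := fun x y => Nat.shiftLeft_eq x y
  rw [h, hs, hs]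
  have e : Nat.mod (Nat.shiftRight F (Nat.mul 2 n)) 4 = (F >>> (2 * n)) % 4 := rfl
  rw [e]
  have hlt : (F >>> (2 * n)) % 4 < 4 := Nat.mod_lt _ (by norm_num)
  generalize (F >>> (2 * n)) % 4 = r at hlt
  interval_cases r <;> simp <;> rfl

theorem inclB_iff (n v F : ℕ) : inclB n v F = true ↔
    ∀ l < 2 * n, F.testBit l = true → v.testBit (l / 2) = decide (l % 2 = 1) := by
  rw [inclB, List.all_eq_true]
  simp only [List.mem_range]
  constructor
  · intro h l hl hF
    have := h l hl
    rw [hF] at this
    simp at this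
    rw [this]
    by_cases h2 : l % 2 = 1 <;> simp [h2]
  · intro h l hl
    by_cases hF : F.testBit l = true
    · rw [hF, h l hl hF]
      by_cases h2 : l % 2 = 1 <;> simp [h2]
    · simp [hF]

theorem bits_mod (F n : ℕ) : F.testBit (2 * n) = ((F >>> (2 * n)) % 4).testBit 0 ∧
    F.testBit (2 * n + 1) = ((F >>> (2 * n)) % 4).testBit 1 := by
  have h : ∀ i, ((F >>> (2 * n)) % 4).testBit i = (decide (i < 2) && F.testBit (2 * n + i)) := by
    intro i
    rw [show (4 : ℕ) = 2 ^ 2 by norm_num, Nat.testBit_mod_two_pow, Nat.testBit_shiftRight]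
  exact ⟨by rw [h]; simp, by rw [h]; simp⟩

theorem inclB_low {n v F : ℕ} (hv : v < 2 ^ n) :
    inclB (n + 1) v F = true ↔ inclB n v F = true ∧ F.testBit (2 * n + 1) = false := by
  rw [inclB_iff, inclB_iff]
  have hn : v.testBit n = false := Nat.testBit_lt_two_pow hv
  constructor
  · intro h
    refine ⟨fun l hl => h l (by omega), ?_⟩
    by_contra hF
    have hF' : F.testBit (2 * n + 1) = true := by simpa using hF
    have h1 := h (2 * n + 1) (by omega) hF'
    have h2 : (2 * n + 1) / 2 = n := by omega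
    have h3 : (2 * n + 1) % 2 = 1 := by omega
    rw [h2, h3, hn] at h1
    simp at h1
  · rintro ⟨h, hF⟩ l hl hFl
    by_cases h1 : l < 2 * n
    · exact h l h1 hFl
    · have h2 : l = 2 * n ∨ l = 2 * n + 1 := by omega
      rcases h2 with rfl | rfl
      · have h3 : 2 * n / 2 = n := by omega
        have h4 : 2 * n % 2 = 0 := by omega
        rw [h3, h4, hn]
        simp
      · rw [hF] at hFl
        exact absurd hFl (by simp)

theorem inclB_high {n v F : ℕ} (hv : v < 2 ^ n) :
    inclB (n + 1) (v + 2 ^ n) F = true ↔ inclB n v F = true ∧ F.testBit (2 * n) = false := by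
  rw [inclB_iff, inclB_iff]
  have hb : ∀ i, (v + 2 ^ n).testBit i = if i < n then v.testBit i else Nat.testBit 1 (i - n) := by
    intro i
    have h1 : v + 2 ^ n = 2 ^ n * 1 + v := by ring
    rw [h1, Nat.testBit_two_pow_mul_add 1 hv]
  have hn : (v + 2 ^ n).testBit n = true := by
    rw [hb]
    simp
  constructor
  · intro h
    refine ⟨fun l hl hFl => ?_, ?_⟩
    · rw [← h l (by omega) hFl, hb, if_pos (by omega)]
    · by_contra hF
      have hF' : F.testBit (2 * n) = true := by simpa using hF
      have h1 := h (2 * n) (by omega) hF'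
      have h2 : 2 * n / 2 = n := by omega
      have h3 : 2 * n % 2 = 0 := by omega
      rw [h2, h3, hn] at h1
      simp at h1
  · rintro ⟨h, hF⟩ l hl hFl
    by_cases h1 : l < 2 * n
    · rw [hb, if_pos (by omega)]
      exact h l h1 hFl
    · have h2 : l = 2 * n ∨ l = 2 * n + 1 := by omega
      rcases h2 with rfl | rfl
      · rw [hF] at hFl
        exact absurd hFl (by simp)
      · have h3 : (2 * n + 1) / 2 = n := by omega
        have h4 : (2 * n + 1) % 2 = 1 := by omega
        rw [h3, h4, hn]
        simp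

/-- C1a. -/
theorem mkc_eq (D F w n : ℕ) :
    mkc D F w n = ∑ v ∈ Finset.range (2 ^ n), (if inclB n v F = true then w else 0) * 2 ^ (D * v) := by
  induction n with
  | zero =>
    have h : inclB 0 0 F = true := by
      rw [inclB_iff]
      intro l hl
      omega
    simp [mkc_zero, h]
  | succ n ih =>
    have hsplit : ∑ v ∈ Finset.range (2 ^ (n + 1)),
        (if inclB (n + 1) v F = true then w else 0) * 2 ^ (D * v) =
        ∑ v ∈ Finset.range (2 ^ n), (if inclB (n + 1) v F = true then w else 0) * 2 ^ (D * v) +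
        ∑ v ∈ Finset.range (2 ^ n),
          (if inclB (n + 1) (v + 2 ^ n) F = true then w else 0) * 2 ^ (D * (v + 2 ^ n)) := by
      rw [pow_succ, mul_two, Finset.sum_range_add]
      simp only [add_comm (2 ^ n)]
    have hlow : ∑ v ∈ Finset.range (2 ^ n),
        (if inclB (n + 1) v F = true then w else 0) * 2 ^ (D * v) =
        if F.testBit (2 * n + 1) = false then mkc D F w n else 0 := by
      rw [ih]
      split_ifs with h
      · apply Finset.sum_congr rfl
        intro v hv
        have h1 := inclB_low (F := F) (Finset.mem_range.1 hv)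
        congr 1
        simp only [h1, h, and_true]
      · apply Finset.sum_eq_zero
        intro v hv
        have h1 := inclB_low (F := F) (Finset.mem_range.1 hv)
        rw [if_neg]
        · simp
        · rw [h1]
          exact fun h2 => h h2.2
    have hhigh : ∑ v ∈ Finset.range (2 ^ n),
          (if inclB (n + 1) (v + 2 ^ n) F = true then w else 0) * 2 ^ (D * (v + 2 ^ n)) =
        if F.testBit (2 * n) = false then mkc D F w n * 2 ^ (D * 2 ^ n) else 0 := by
      rw [ih]
      split_ifs with h
      · rw [Finset.sum_mul]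
        apply Finset.sum_congr rfl
        intro v hv
        have h1 := inclB_high (F := F) (Finset.mem_range.1 hv)
        rw [mul_add, pow_add, ← mul_assoc]
        congr 2
        simp only [h1, h, and_true]
      · apply Finset.sum_eq_zero
        intro v hv
        have h1 := inclB_high (F := F) (Finset.mem_range.1 hv)
        rw [if_neg]
        · simp
        · rw [h1]
          exact fun h2 => h h2.2
    rw [hsplit, hlow, hhigh, mkc_succ, (bits_mod F n).1, (bits_mod F n).2]
    have hlt : (F >>> (2 * n)) % 4 < 4 := Nat.mod_lt _ (by norm_num)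
    generalize (F >>> (2 * n)) % 4 = r at hlt
    have e0 : ∀ k : ℕ, k < 4 → (k.testBit 0 = false ↔ k = 0 ∨ k = 2) ∧
        (k.testBit 1 = false ↔ k = 0 ∨ k = 1) := by decide
    obtain ⟨e1, e2⟩ := e0 r hlt
    rw [if_congr e1 rfl rfl, if_congr e2 rfl rfl]
    interval_cases r <;> simp

/-- C1b. -/
theorem smc_eq (D n : ℕ) (L : List (ℕ × ℕ)) :
    smc D n L = ∑ v ∈ Finset.range (2 ^ n),
      (L.map (fun p => if inclB n v p.1 = true then p.2 else 0)).sum * 2 ^ (D * v) := by
  induction L with
  | nil => simp [smc]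
  | cons p L ih =>
    have h : smc D n (p :: L) = mkc D p.1 p.2 n + smc D n L := rfl
    rw [h, ih, mkc_eq, ← Finset.sum_add_distrib]
    apply Finset.sum_congr rfl
    intro v _
    rw [List.map_cons, List.sum_cons, add_mul]

theorem sum_digits_lt (D : ℕ) (t : ℕ → ℕ) (ht : ∀ v, t v < 2 ^ D) (N : ℕ) :
    ∑ u ∈ Finset.range N, t u * 2 ^ (D * u) < 2 ^ (D * N) := by
  induction N with
  | zero => simp
  | succ N ih =>
    rw [Finset.sum_range_succ]
    have h1 := ht N
    have h2 : t N * 2 ^ (D * N) + 2 ^ (D * N) ≤ 2 ^ D * 2 ^ (D * N) := by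
      rw [← Nat.succ_mul]
      exact Nat.mul_le_mul_right _ h1
    have h3 : 2 ^ (D * (N + 1)) = 2 ^ D * 2 ^ (D * N) := by
      rw [mul_add, pow_add, mul_one, mul_comm]
    rw [h3]
    omega

/-- C1c. Bits of a number given by its digits in base `2^D`. -/
theorem testBit_digits (D : ℕ) (t : ℕ → ℕ) (ht : ∀ v, t v < 2 ^ D) (N v j : ℕ) (hv : v < N)
    (hj : j < D) :
    (∑ u ∈ Finset.range N, t u * 2 ^ (D * u)).testBit (D * v + j) = (t v).testBit j := by
  induction N with
  | zero => omega
  | succ N ih =>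
    have h1 : ∑ u ∈ Finset.range (N + 1), t u * 2 ^ (D * u) =
        2 ^ (D * N) * t N + ∑ u ∈ Finset.range N, t u * 2 ^ (D * u) := by
      rw [Finset.sum_range_succ, mul_comm (t N), add_comm]
    rw [h1, Nat.testBit_two_pow_mul_add _ (sum_digits_lt D t ht N)]
    by_cases h2 : v = N
    · subst h2
      rw [if_neg (by omega), Nat.add_sub_cancel_left]
    · have h3 : v < N := by omega
      have h4 : D * (v + 1) ≤ D * N := Nat.mul_le_mul_left D h3
      rw [mul_add, mul_one] at h4
      rw [if_pos (by omega)]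
      exact ih h3

end Pool.Agent.H775
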