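import Pool.Agent.H775.CovE1

set_option autoImplicit false

namespace Pool.Agent.H775

open Pool.Agent.TH651.RP5

/-! C1 (proved by others) -/

/-! C2 -/

theorem mkc_testBit {D n : ℕ} (hD : 0 < D) (K : ℕ) {v : ℕ} (hv : v < 2 ^ n) :
    (mkc D K 1 n).testBit (D * v) = inclB n v K := by
  have h2 : 1 < 2 ^ D := Nat.one_lt_two_pow hD.ne'
  have h1 := testBit_digits D (fun v => if inclB n v K = true then 1 else 0)
    (fun v => by split_ifs <;> omega) (2 ^ n) v 0 hv hD
  rw [Nat.add_zero] at h1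
  rw [mkc_eq, h1]
  cases inclB n v K <;> simp

/-- C2a. -/
theorem exc_testBit {D n : ℕ} (hD : 0 < D) (Ks : List ℕ) {v : ℕ} (hv : v < 2 ^ n) :
    (exc D n Ks).testBit (D * v) = true ↔ ∃ K ∈ Ks, inclB n v K = true := by
  induction Ks with
  | nil =>
    have e : exc D n [] = 0 := rfl
    rw [e]
    simp
  | cons K Ks ih =>
    have e : exc D n (K :: Ks) = mkc D K 1 n ||| exc D n Ks := rfl
    rw [e, Nat.testBit_or, Bool.or_eq_true, ih, mkc_testBit hD K hv]
    simp

/-- C2b. -/
theorem tops_testBit {D : ℕ} (hD : 0 < D) (T : List ℕ) (v : ℕ) :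
    (tops D T).testBit (D * v) = true ↔ v ∈ T := by
  induction T with
  | nil =>
    have e : tops D [] = 0 := rfl
    rw [e]
    simp
  | cons a T ih =>
    have e : tops D (a :: T) = (1 <<< (D * a)) ||| tops D T := rfl
    rw [e, Nat.testBit_or, Bool.or_eq_true, ih, Nat.one_shiftLeft, Nat.testBit_two_pow,
      decide_eq_true_iff, List.mem_cons]
    have h1 : D * a = D * v ↔ v = a := by
      constructor
      · intro h
        exact (Nat.eq_of_mul_eq_mul_left hD h).symm
      · rintro rfl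
        rfl
    rw [h1]

theorem tw_eq (L : List (ℕ × ℕ)) : tw L = (L.map Prod.snd).sum := by
  induction L with
  | nil => rfl
  | cons p L ih =>
    have e : tw (p :: L) = p.2 + tw L := rfl
    rw [e, ih]
    simp

theorem sv_le (n v : ℕ) (L : List (ℕ × ℕ)) :
    (L.map (fun p => if inclB n v p.1 = true then p.2 else 0)).sum ≤ tw L := by
  induction L with
  | nil => simp
  | cons p L ih =>
    have e : tw (p :: L) = p.2 + tw L := rfl
    rw [e, List.map_cons, List.sum_cons]
    have : (if inclB n v p.1 = true then p.2 else 0) ≤ p.2 := by split_ifs <;> omega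
    omega

theorem inclB_zero (n v : ℕ) : inclB n v 0 = true := by
  rw [inclB, List.all_eq_true]
  intro l _
  simp

theorem rec_and (b1 b2 b3 b4 : Bool) (h : (Bool.rec (motive := fun _ => Bool) false
    (Bool.rec (motive := fun _ => Bool) false (Bool.rec (motive := fun _ => Bool) false b4 b3) b2)
      b1) = true) : b1 = true ∧ b2 = true ∧ b3 = true ∧ b4 = true := by
  cases b1 <;> cases b2 <;> cases b3 <;> cases b4 <;> simp_all

/-- C2c. Let `s v` be the weight of the faces covered by `v`; `s v ≤ W < 2^(D-1)` where `W = tw L`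
is the total weight. The number tested is `∑ (s v + (2^(D-1) - 1 - M)) 2^(D v)`, whose digits are
`< 2^D`, and bit `D-1` of the digit of `v` is set iff `s v > M`. -/
theorem bnd_sound {D n m M X : ℕ} (hD : 0 < D) {L : List (ℕ × ℕ)} (h : bndB D n m M X L = true) :
    m * M < (L.map Prod.snd).sum ∧ ∀ v < 2 ^ n, X.testBit (D * v) = false →
      (L.map (fun p => if inclB n v p.1 = true then p.2 else 0)).sum ≤ M := by
  obtain ⟨g1, g2, g3, g4⟩ := rec_and _ _ _ _ h
  have h1 : M + 1 ≤ 2 ^ (D - 1) := Nat.ble_eq.mp g1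
  have h2 : m * M + 1 ≤ tw L := Nat.ble_eq.mp g2
  have h3 : tw L + 1 ≤ 2 ^ (D - 1) := Nat.ble_eq.mp g3
  have h4 : (((smc D n L + (2 ^ (D - 1) - 1 - M) * mkc D 0 1 n) >>> (D - 1)) &&& mkc D 0 1 n) ||| X
      = X := Nat.eq_of_beq_eq_true g4
  refine ⟨by rw [← tw_eq]; omega, fun v hv hX => ?_⟩
  set s : ℕ → ℕ := fun v => (L.map (fun p => if inclB n v p.1 = true then p.2 else 0)).sum with hs
  have hsle : ∀ v, s v ≤ tw L := fun v => sv_le n v L
  have hpow : 2 ^ D = 2 ^ (D - 1) + 2 ^ (D - 1) := by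
    obtain ⟨k, rfl⟩ : ∃ k, D = k + 1 := ⟨D - 1, by omega⟩
    rw [Nat.add_sub_cancel, pow_succ]
    ring
  set c := 2 ^ (D - 1) - 1 - M with hc
  have hnum : smc D n L + c * mkc D 0 1 n =
      ∑ u ∈ Finset.range (2 ^ n), (s u + c) * 2 ^ (D * u) := by
    rw [smc_eq, mkc_eq, Finset.mul_sum, ← Finset.sum_add_distrib]
    refine Finset.sum_congr rfl fun u _ => ?_
    rw [if_pos (inclB_zero n u)]
    ring
  have hlt : ∀ u, s u + c < 2 ^ D := by
    intro u
    have := hsle u
    omega
  have hbit := testBit_digits D (fun u => s u + c) hlt (2 ^ n) v (D - 1) hv (by omega)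
  have h5 := congrArg (fun x => x.testBit (D * v)) h4
  rw [Nat.testBit_or, hX, Bool.or_false, Nat.testBit_and, Nat.testBit_shiftRight,
    mkc_testBit hD 0 hv, inclB_zero, Bool.and_true, hnum, Nat.add_comm (D - 1), hbit] at h5
  have h6 : s v + c < 2 ^ (D - 1) := by
    by_contra hge
    push Not at hge
    have h7 : (s v + c) / 2 ^ (D - 1) = 1 := by
      rw [Nat.div_eq_iff (by positivity)]
      have := hlt v
      omega
    rw [Nat.testBit_eq_decide_div_mod_eq, h7] at h5
    simp at h5
  change s v ≤ M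
  omega

end Pool.Agent.H775
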