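import Pool.Agent.H775.CovE2

/-!
C3: `bnd_exists`, `node_sound` (from C2: `exc_testBit`, `tops_testBit`, `bnd_sound`)
-/

set_option autoImplicit false

namespace Pool.Agent.H775

open Pool.Agent.TH651.RP5 in
/-- no `m` sign vectors, none of which contains a clique of `Ks`, cover the faces `Fs` -/
def NoCov (n m : ℕ) (Ks Fs : List ℕ) : Prop :=
  ∀ (ι : Type) (P : Finset ι) (r : ι → ℕ), P.card ≤ m → (∀ p ∈ P, r p < 2 ^ n) →
    (∀ p ∈ P, ∀ K ∈ Ks, inclB n (r p) K = false) →
    ¬ ∀ F ∈ Fs, ∃ p ∈ P, inclB n (r p) F = true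

open Pool.Agent.TH651.RP5

theorem sum_cover {n : ℕ} {ι : Type} (P : Finset ι) (r : ι → ℕ) : ∀ L : List (ℕ × ℕ),
    (∀ F ∈ L.map Prod.fst, ∃ p ∈ P, inclB n (r p) F = true) →
    (L.map Prod.snd).sum ≤
      ∑ p ∈ P, (L.map (fun q => if inclB n (r p) q.1 = true then q.2 else 0)).sum
  | [], _ => by simp
  | q :: L, h => by
    have h1 := sum_cover P r L (fun F hF => h F (by
      rw [List.map_cons]; exact List.mem_cons_of_mem _ hF))
    obtain ⟨p, hp, hq⟩ := h q.1 (by rw [List.map_cons]; exact List.mem_cons_self)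
    simp only [List.map_cons, List.sum_cons, Finset.sum_add_distrib]
    refine add_le_add ?_ h1
    have h2 := Finset.single_le_sum (f := fun p => if inclB n (r p) q.1 = true then q.2 else 0)
      (fun _ _ => Nat.zero_le _) hp
    simpa [hq] using h2

/-- C3a. Sum the weights: `∑_{p ∈ P} s (r p) ≥ ∑_F w_F > m * M`. -/
theorem bnd_exists {D n m M X : ℕ} (hD : 0 < D) {L : List (ℕ × ℕ)} (h : bndB D n m M X L = true)
    {ι : Type} (P : Finset ι) (r : ι → ℕ) (hP : P.card ≤ m) (hr : ∀ p ∈ P, r p < 2 ^ n)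
    (hc : ∀ F ∈ L.map Prod.fst, ∃ p ∈ P, inclB n (r p) F = true) :
    ∃ p ∈ P, X.testBit (D * r p) = true := by
  by_contra hcon
  push Not at hcon
  obtain ⟨h1, h2⟩ := bnd_sound hD h
  have h3 := sum_cover P r L hc
  have h4 : ∑ p ∈ P, (L.map (fun q => if inclB n (r p) q.1 = true then q.2 else 0)).sum ≤
      ∑ _p ∈ P, M := by
    refine Finset.sum_le_sum fun p hp => h2 _ (hr p hp) ?_
    exact Bool.eq_false_of_not_eq_true (hcon p hp)
  rw [Finset.sum_const, smul_eq_mul] at h4
  have h5 : P.card * M ≤ m * M := Nat.mul_le_mul_right M hP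
  omega

/-- C3b. By C3a some `p ∈ P` has `r p` among the listed exceptional vectors `v`; the faces of the
child are faces of `L` not covered by `v`, so they are covered by `P.erase p` (card `≤ m - 1`):
contradiction to `bnd_exists` for the child. -/
theorem node_sound {D D' n m : ℕ} (hD : 0 < D) (hD' : 0 < D') (hm : 1 ≤ m) {Ks : List ℕ}
    {L : List (ℕ × ℕ)} {M : ℕ} {C : List (ℕ × ℕ × List (ℕ × ℕ))}
    (h : nodeB D D' n m Ks L M C = true) : NoCov n m Ks (L.map Prod.fst) := by
  classical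
  intro ι P r hP hr hK hc
  unfold nodeB at h
  rw [bc_eq] at h
  by_cases hb : bndB D n m M (Nat.lor (exc D n Ks) (tops D (C.map Prod.fst))) L = true
  swap
  · rw [if_neg hb] at h; exact absurd h (by simp)
  rw [if_pos hb, List.all_eq_true] at h
  obtain ⟨p, hp, hX⟩ := bnd_exists hD hb P r hP hr hc
  have hX' : (exc D n Ks).testBit (D * r p) = true ∨
      (tops D (C.map Prod.fst)).testBit (D * r p) = true := by
    have e : Nat.lor (exc D n Ks) (tops D (C.map Prod.fst)) =
      (exc D n Ks) ||| (tops D (C.map Prod.fst)) := rfl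
    rw [e, Nat.testBit_or, Bool.or_eq_true] at hX
    exact hX
  rcases hX' with hX' | hX'
  · obtain ⟨K, hK1, hK2⟩ := (exc_testBit hD Ks (hr p hp)).1 hX'
    rw [hK p hp K hK1] at hK2
    exact absurd hK2 (by simp)
  · have hmem := (tops_testBit hD _ _).1 hX'
    obtain ⟨c, hcC, hcr⟩ := List.mem_map.1 hmem
    have h1 := h c hcC
    rw [bc_eq] at h1
    by_cases hs : subB n c.1 (L.map Prod.fst) c.2.2 = true
    swap
    · rw [if_neg hs] at h1; exact absurd h1 (by simp)
    rw [if_pos hs] at h1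
    unfold subB at hs
    rw [List.all_eq_true] at hs
    have hcov : ∀ F ∈ c.2.2.map Prod.fst, ∃ q ∈ P.erase p, inclB n (r q) F = true := by
      intro F hF
      obtain ⟨f, hf, rfl⟩ := List.mem_map.1 hF
      have h2 := hs f hf
      rw [Bool.and_eq_true, List.any_eq_true] at h2
      obtain ⟨⟨F', hF', he⟩, h3⟩ := h2
      have he' : F' = f.1 := Nat.eq_of_beq_eq_true he
      subst he'
      obtain ⟨q, hq, hqF⟩ := hc f.1 hF'
      refine ⟨q, Finset.mem_erase.2 ⟨?_, hq⟩, hqF⟩
      rintro rfl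
      rw [hcr, hqF] at h3
      exact absurd h3 (by simp)
    have hcard : (P.erase p).card ≤ Nat.sub m 1 := by
      rw [Finset.card_erase_of_mem hp]
      exact Nat.sub_le_sub_right hP 1
    obtain ⟨q, hq, hXq⟩ := bnd_exists hD' h1 (P.erase p) r hcard
      (fun q hq => hr q (Finset.mem_of_mem_erase hq)) hcov
    have hqP := Finset.mem_of_mem_erase hq
    obtain ⟨K, hK1, hK2⟩ := (exc_testBit hD' Ks (hr q hqP)).1 hXq
    rw [hK q hqP K hK1] at hK2
    exact absurd hK2 (by simp)

end Pool.Agent.H775
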