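import Pool.Graph.R_seed8.TH651.RP5.Engine

/-!
A proof checker for signed graph / mod 2 cycle constraints, evaluated by the kernel.
All arithmetic is written with the functions the kernel knows, and evaluated lazily.
-/

set_option autoImplicit false

namespace Pool.Agent.H775

open Pool.Agent.TH651.RP5 (st bc st_eq bc_eq)

/-- table with entries of `w` bits -/
noncomputable def tblK (w : ℕ) (L : List ℕ) : ℕ :=
  List.rec (motive := fun _ => ℕ) 0 (fun a _ ih => Nat.add a (Nat.shiftLeft ih w)) L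

/-- entry of a table; `M = 2^w - 1` -/
noncomputable def ent (T w M i : ℕ) : ℕ := Nat.land (Nat.shiftRight T (Nat.mul w i)) M

/-- slot of the value store -/
noncomputable def slt (Y s : ℕ) : ℕ := Nat.land (Nat.shiftRight Y (Nat.mul 64 s)) 18446744073709551615

noncomputable def kt (b2 E G k : ℕ) (m : ℕ) : Bool :=
  Nat.rec (motive := fun _ => Bool) true (fun k' ih =>
    Bool.rec (Bool.rec ih false (Nat.beq (Nat.land E (Nat.shiftLeft G (Nat.mul b2 k'))) 0))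
      ih (Nat.beq k' k)) m

/-- read `rc` literals -/
noncomputable def rdR (N : ℕ) (rc : ℕ) : ℕ → ℕ → ℕ → (ℕ → ℕ → ℕ → Bool) → Bool :=
  Nat.rec (motive := fun _ => ℕ → ℕ → ℕ → (ℕ → ℕ → ℕ → Bool) → Bool)
    (fun h R X κ => κ h R X)
    (fun _ ih h R X κ => ih (Nat.div h 64) (Nat.lor R (Nat.shiftLeft 1 (Nat.mod h 64)))
      (Nat.lor X (Nat.shiftRight N (Nat.mul 64 (Nat.mod h 64)))) κ) rc

/-- read items -/
noncomputable def rdI (Y R : ℕ) (cnt : ℕ) : ℕ → ℕ → ℕ → (ℕ → ℕ → ℕ → Bool) → Bool :=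
  Nat.rec (motive := fun _ => ℕ → ℕ → ℕ → (ℕ → ℕ → ℕ → Bool) → Bool)
    (fun h acc par κ => κ h acc par)
    (fun _ ih h acc par κ =>
      Bool.rec false
        (ih (Nat.div h 65536) (Nat.xor acc (Nat.shiftLeft 1 (Nat.mod h 64)))
          (Nat.add par (Nat.mod (Nat.div h 64) 2)) κ)
      (Nat.beq (slt Y (Nat.mod (Nat.div h 128) 512))
        (Nat.add (Nat.mul 2 (Nat.lor R (Nat.shiftLeft 1 (Nat.mod h 64))))
          (Nat.mod (Nat.div h 64) 2)))) cnt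

noncomputable def linE (M z R Y : ℕ) (κ : ℕ → ℕ → Bool) (h acc par : ℕ) : Bool :=
  Bool.rec false
    (Bool.rec
      (κ h (Nat.lor (Nat.shiftLeft Y 64)
        (Nat.add (Nat.mul 2 (Nat.lor R (Nat.land (Nat.shiftLeft 1 z) M))) (Nat.mod par 2))))
      (Nat.beq (Nat.mod par 2) 1)
      (Nat.beq (Nat.land (Nat.shiftLeft 1 z) M) 0))
    (Nat.beq (Nat.xor acc (Nat.land (Nat.shiftLeft 1 z) M)) M)

/-- linear step: mask `M`, right hand side `rhs` -/
noncomputable def lin (Y M rhs z cnt h R X : ℕ) (κ : ℕ → ℕ → Bool) : Bool :=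
  rdI Y R cnt h (Nat.land X M) rhs (linE M z R Y κ)

noncomputable def sCOV (b2 m GT h : ℕ) (E N Y : ℕ) (ih : ℕ → ℕ → ℕ → ℕ → Bool) : Bool :=
  Bool.rec false
    (ih (Nat.div h 2048)
      (Nat.lor E (Nat.shiftLeft (ent GT 32 4294967295 (Nat.xor (Nat.mod h 256) 1))
        (Nat.mul b2 (Nat.mod (Nat.div h 256) 8)))) N Y)
    (kt b2 E (ent GT 32 4294967295 (Nat.mod h 256)) (Nat.mod (Nat.div h 256) 8) m)

noncomputable def sCOVS (b2 m GT h : ℕ) (E N Y : ℕ) (ih : ℕ → ℕ → ℕ → ℕ → Bool) : Bool :=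
  Bool.rec false
    (ih (Nat.div h 2048)
      (Nat.lor E (Nat.shiftLeft (ent GT 32 4294967295 (Nat.xor (Nat.mod h 256) 1))
        (Nat.mul b2 (Nat.mod (Nat.div h 256) 8)))) N
      (Nat.lor (Nat.shiftLeft Y 64) (Nat.add (Nat.mul 2
        (Nat.lor (ent GT 32 4294967295 (Nat.lor (Nat.mod h 256) 1))
          (Nat.shiftLeft 1 (Nat.add (Nat.add b2 (Nat.mul 2 (Nat.mod (Nat.div h 256) 8)))
            (Nat.mod h 2))))) 1)))
    (kt b2 E (ent GT 32 4294967295 (Nat.mod h 256)) (Nat.mod (Nat.div h 256) 8) m)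

noncomputable def sUNIT (DB bound h : ℕ) (E N Y : ℕ) (ih : ℕ → ℕ → ℕ → ℕ → Bool) : Bool :=
  Bool.rec
    (Bool.rec false
      (ih (Nat.div h 4194304) (Nat.lor E (Nat.shiftLeft 1 (Nat.mod h 256))) N Y)
      (Nat.beq
        (Nat.lor (Nat.lor E (Nat.shiftLeft 1 (Nat.xor (Nat.mod h 256) 1)))
          (ent DB 132 5444517870735015415413993718908291383295
            (Nat.mod (Nat.div h 256) 16384)))
        (Nat.lor E (Nat.shiftLeft 1 (Nat.xor (Nat.mod h 256) 1)))))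
    false (Nat.ble bound (Nat.mod (Nat.div h 256) 16384))

/-- the four entries given by adjacency of `l` and `q` -/
noncomputable def nad (N l q : ℕ) : ℕ :=
  Nat.lor (Nat.lor (Nat.lor (Nat.lor N
    (Nat.shiftLeft 1 (Nat.add (Nat.mul 64 l) (Nat.add q 1))))
    (Nat.shiftLeft 1 (Nat.add (Nat.mul 64 (Nat.add q 1)) l)))
    (Nat.shiftLeft 1 (Nat.add (Nat.mul 64 (Nat.xor l 1)) q)))
    (Nat.shiftLeft 1 (Nat.add (Nat.mul 64 q) (Nat.xor l 1)))

noncomputable def sNADD (b2 h : ℕ) (E N Y : ℕ) (ih : ℕ → ℕ → ℕ → ℕ → Bool) : Bool :=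
  Bool.rec
    (ih (Nat.div h 256) E
      (nad N (Nat.mod (Nat.mod h 256) b2) (Nat.add b2 (Nat.mul 2 (Nat.div (Nat.mod h 256) b2)))) Y)
    false (Nat.beq (Nat.mod (Nat.shiftRight E (Nat.mod h 256)) 2) 0)

noncomputable def epm (b2 c u : ℕ) : ℕ :=
  Nat.lor (Nat.lor (Nat.shiftLeft 2 (Nat.xor (Nat.mod c b2) u))
    (Nat.shiftLeft 2 (Nat.add (Nat.add b2 (Nat.mul 2 (Nat.div c b2))) u))) 1

noncomputable def sEDGE (b2 h : ℕ) (E N Y : ℕ) (ih : ℕ → ℕ → ℕ → ℕ → Bool) : Bool :=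
  Bool.rec false
    (ih (Nat.div h 262144) (Nat.lor E (Nat.shiftLeft 1 (Nat.mod h 256))) N Y)
    (Nat.beq (Nat.land (slt Y (Nat.mod (Nat.div h 512) 512))
        (epm b2 (Nat.mod h 256) (Nat.mod (Nat.div h 256) 2)))
      (epm b2 (Nat.mod h 256) (Nat.mod (Nat.div h 256) 2)))

noncomputable def sXOR (FM rc h : ℕ) (E N Y : ℕ) (ih : ℕ → ℕ → ℕ → ℕ → Bool) : Bool :=
  rdR N rc (Nat.div h 2048) 0 0 fun h3 R X =>
    Bool.rec false
      (lin Y FM 0 (Nat.mod h 64) (Nat.mod (Nat.div h 64) 32) h3 R X fun h' Y' => ih h' E N Y')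
      (Nat.ble R FM)

noncomputable def sFULL (b2 m GT rc h : ℕ) (E N Y : ℕ) (ih : ℕ → ℕ → ℕ → ℕ → Bool) : Bool :=
  rdR N rc (Nat.div h 524288) 0 0 fun h3 R X =>
    Bool.rec false
      (lin Y (Nat.shiftLeft (Nat.div (Nat.sub (Nat.pow 4 m) 1) 3) (Nat.add b2 (Nat.mod h 2))) 1
        (Nat.mod (Nat.div h 256) 64) (Nat.mod (Nat.div h 16384) 32) h3 R X
        fun h' Y' => ih h' E N Y')
      (Nat.beq (ent GT 32 4294967295 (Nat.lor (Nat.mod h 256) 1)) R)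

noncomputable def sEND (κ : ℕ → Bool) (h E Y : ℕ) : Bool :=
  Bool.rec (κ Y) (Bool.rec (κ Y) true
      (Nat.beq (Nat.mod (Nat.shiftRight E (Nat.xor (Nat.mod h 256) 1)) 2) 1))
    (Nat.beq (Nat.mod (Nat.shiftRight E (Nat.mod h 256)) 2) 1)

noncomputable def run (b2 m rc FM GT DB bound : ℕ) (κ : ℕ → Bool) (fuel : ℕ) :
    ℕ → ℕ → ℕ → ℕ → Bool :=
  Nat.rec (motive := fun _ => ℕ → ℕ → ℕ → ℕ → Bool) (fun _ _ _ _ => false)
    (fun _ ih h E N Y =>
      Bool.rec (Bool.rec (Bool.rec (Bool.rec (Bool.rec (Bool.rec (Bool.rec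
        (sEND κ (Nat.div h 8) E Y)
        (sFULL b2 m GT rc (Nat.div h 8) E N Y ih) (Nat.beq (Nat.mod h 8) 5))
        (sEDGE b2 (Nat.div h 8) E N Y ih) (Nat.beq (Nat.mod h 8) 3))
        (sCOVS b2 m GT (Nat.div h 8) E N Y ih) (Nat.beq (Nat.mod h 8) 6))
        (sXOR FM rc (Nat.div h 8) E N Y ih) (Nat.beq (Nat.mod h 8) 4))
        (sNADD b2 (Nat.div h 8) E N Y ih) (Nat.beq (Nat.mod h 8) 2))
        (sUNIT DB bound (Nat.div h 8) E N Y ih) (Nat.beq (Nat.mod h 8) 1))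
        (sCOV b2 m GT (Nat.div h 8) E N Y ih) (Nat.beq (Nat.mod h 8) 0))
    fuel

/-- check learned clauses -/
noncomputable def chk (b2 m rc FM GT DB E0 N0 : ℕ) (L : List ℕ) : ℕ → Bool :=
  List.rec (motive := fun _ => ℕ → Bool) (fun _ => true)
    (fun h _ ih i => Bool.rec false (st (Nat.add i 1) ih)
      (run b2 m rc FM GT DB i (fun _ => false) 2000 (Nat.div h 1048576)
        (Nat.lor E0 (ent DB 132 5444517870735015415413993718908291383295 i)) N0 0)) L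

end Pool.Agent.H775
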