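import Pool.Agent.H775.Eng
import Pool.Graph.R_seed8.TH651.RP5.Cert

/-!
Definitions for the soundness of the checker in `Eng.lean` (definitions there are fixed and tested: do not
change them). All `Nat.land`, `Nat.lor`, ... are definitionally the usual operations `&&&`, `|||`, ...
(`Nat.land a b = a &&& b` is `rfl`), `Bool.rec f t b` is `if b then t else f` (`cases b <;> rfl`), and
`Nat.rec` unfolds by `rfl` on `n + 1`.
`mkM : List ℕ → ℕ` and `testBit_mkM : (mkM L).testBit l = true ↔ l ∈ L` are in the library file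
`Pool/Graph/R_seed8/TH651/RP5/Cert.lean`.
-/

set_option autoImplicit false

namespace Pool.Agent.H775

open Pool.Agent.TH651.RP5 (mkM testBit_mkM)

/-- exchange the bits `2i` and `2i+1` (32 bits) -/
def swp (F : ℕ) : ℕ :=
  Nat.lor (Nat.shiftLeft (Nat.land F 1431655765) 1) (Nat.land (Nat.shiftRight F 1) 1431655765)

/-- table of the full ridges and their antipodes -/
def gtL (full : List ℕ) : List ℕ := full.flatMap (fun F => [swp F, F])

/-- the model: `adj` is adjacency of literals, `val F` the value of the cycle on the face with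
mask `F`; literals `< b2` form the base, literals `b2 + 2 k + u` the block (`u = 1`: antipodes);
faces have `rc + 1` elements -/
structure Mdl (b2 m rc : ℕ) (full : List ℕ) (adj : ℕ → ℕ → Prop) (val : ℕ → ZMod 2) : Prop where
  even : b2 % 2 = 0
  b32 : b2 ≤ 32
  hm : 2 ≤ m
  hrc : 1 ≤ rc
  hnl : b2 + 2 * m ≤ 62
  symm : ∀ l z, adj l z → adj z l
  excl : ∀ l z, adj l z → ¬ adj l (z ^^^ 1)
  anti : ∀ l z, adj l z → adj (l ^^^ 1) (z ^^^ 1)
  tot : ∀ l z, l < b2 + 2 * m → z < b2 + 2 * m → l / 2 ≠ z / 2 → adj l z ∨ adj l (z ^^^ 1)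
  clq : ∀ F l z, val F = 1 → F.testBit l = true → F.testBit z = true → l ≠ z →
    l < b2 + 2 * m → z < b2 + 2 * m → adj l z
  zero : ∀ L : List ℕ, L.length ≤ rc → val (mkM L) = 0
  cyc : ∀ L : List ℕ, L.length = rc → (∀ l ∈ L, l < b2 + 2 * m) →
    ∑ z ∈ Finset.range (b2 + 2 * m), val (mkM L ||| (1 <<< z)) = 0
  ful : ∀ F ∈ full, ∀ u ≤ 1, ∑ k ∈ Finset.range m, val (F ||| (1 <<< (b2 + 2 * k + u))) = 1
  fullb : ∀ F ∈ full, F < 2 ^ b2

/-- code `c = b2 * k + l`: the base literal `l` is adjacent to the block vertex `k` -/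
def AdjC (b2 : ℕ) (adj : ℕ → ℕ → Prop) (c : ℕ) : Prop := adj (c % b2) (b2 + 2 * (c / b2))

/-- a clause: one of the codes is not an adjacency -/
def clT (b2 m : ℕ) (adj : ℕ → ℕ → Prop) (D : ℕ) : Prop :=
  ∃ c < b2 * m, D.testBit c = true ∧ ¬ AdjC b2 adj c

def InvE (b2 m : ℕ) (adj : ℕ → ℕ → Prop) (E : ℕ) : Prop :=
  ∀ c, E.testBit c = true → c < b2 * m ∧ AdjC b2 adj c

def InvN (b2 m : ℕ) (adj : ℕ → ℕ → Prop) (N : ℕ) : Prop :=
  ∀ r z, r < b2 + 2 * m → z < b2 + 2 * m → N.testBit (64 * r + z) = true → ¬ adj r z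

def InvY (b2 m : ℕ) (val : ℕ → ZMod 2) (Y : ℕ) : Prop :=
  ∀ s, slt Y s / 2 < 2 ^ (b2 + 2 * m) ∧ (slt Y s % 2 = 1 → val (slt Y s / 2) = 1) ∧
    (slt Y s % 2 = 0 → val (slt Y s / 2) = 0)

/-- what is used about the table `GT`, with `G = ent GT fu`, `H = ent GT (fu ^^^ 1)`,
`F = ent GT (fu ||| 1)` -/
def GTok (full : List ℕ) (GT : ℕ) : Prop :=
  ∀ fu : ℕ, (ent GT 32 4294967295 fu = 0 ∧ ent GT 32 4294967295 (fu ^^^ 1) = 0 ∧
      ent GT 32 4294967295 (fu ||| 1) = 0) ∨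
    (ent GT 32 4294967295 (fu ||| 1) ∈ full ∧
      (fu % 2 = 0 → ent GT 32 4294967295 fu = swp (ent GT 32 4294967295 (fu ||| 1)) ∧
        ent GT 32 4294967295 (fu ^^^ 1) = ent GT 32 4294967295 (fu ||| 1)) ∧
      (fu % 2 = 1 → ent GT 32 4294967295 fu = ent GT 32 4294967295 (fu ||| 1) ∧
        ent GT 32 4294967295 (fu ^^^ 1) = swp (ent GT 32 4294967295 (fu ||| 1))))

/-- the linear functional `∑_{z ∈ S} val (R ∪ z)` -/
noncomputable def phi (val : ℕ → ZMod 2) (NL R S : ℕ) : ZMod 2 :=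
  ∑ z ∈ Finset.range NL, if S.testBit z = true then val (R ||| (1 <<< z)) else 0

end Pool.Agent.H775
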