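import Pool.Agent.H775.EngDef

set_option autoImplicit false

namespace Pool.Agent.H775

open Pool.Agent.TH651.RP5 (mkM testBit_mkM)

theorem E1_ent_eq (T w i : ℕ) : ent T w (2 ^ w - 1) i = T / 2 ^ (w * i) % 2 ^ w := by
  have h : ent T w (2 ^ w - 1) i = (T >>> (w * i)) &&& (2 ^ w - 1) := rfl
  rw [h, Nat.shiftRight_eq_div_pow, Nat.and_two_pow_sub_one_eq_mod]

theorem E1_tblK_cons (w a : ℕ) (L : List ℕ) : tblK w (a :: L) = a + tblK w L * 2 ^ w := by
  have h : tblK w (a :: L) = a + (tblK w L) <<< w := rfl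
  rw [h, Nat.shiftLeft_eq]

/-- E1a -/
theorem ent_tblK (w : ℕ) (L : List ℕ) (hL : ∀ a ∈ L, a < 2 ^ w) (i : ℕ) :
    ent (tblK w L) w (2 ^ w - 1) i = L.getD i 0 := by
  rw [E1_ent_eq]
  induction L generalizing i with
  | nil =>
    have : tblK w [] = 0 := rfl
    simp [this]
  | cons a L ihL =>
    have ha : a < 2 ^ w := hL a (by simp)
    have hp : 0 < 2 ^ w := Nat.two_pow_pos w
    rw [E1_tblK_cons]
    cases i with
    | zero =>
      simp [Nat.add_mul_mod_self_right, Nat.mod_eq_of_lt ha]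
    | succ j =>
      have hd : (a + tblK w L * 2 ^ w) / 2 ^ w = tblK w L := by
        rw [Nat.add_mul_div_right _ _ hp, Nat.div_eq_of_lt ha, Nat.zero_add]
      have : (a + tblK w L * 2 ^ w) / 2 ^ (w * (j + 1)) = tblK w L / 2 ^ (w * j) := by
        rw [show w * (j + 1) = w + w * j by ring, pow_add, ← Nat.div_div_eq_div_mul, hd]
      rw [this, ihL (fun b hb => hL b (by simp [hb])) j]
      simp

theorem E1_mask (i : ℕ) : (1431655765 : ℕ).testBit i = (decide (i < 32) && decide (i % 2 = 0)) := by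
  by_cases h : i < 32
  · interval_cases i <;> decide
  · rw [Nat.testBit_lt_two_pow (show (1431655765 : ℕ) < 2 ^ i from
      lt_of_lt_of_le (by norm_num : (1431655765 : ℕ) < 2 ^ 32)
        (Nat.pow_le_pow_right (by norm_num) (by omega)))]
    simp [h]

theorem E1_xor_one_even {l : ℕ} (h : l % 2 = 0) : l ^^^ 1 = l + 1 := by
  obtain ⟨k, rfl⟩ : ∃ k, l = 2 * k := ⟨l / 2, by omega⟩
  apply Nat.eq_of_testBit_eq
  intro i
  cases i with
  | zero => simp
  | succ i => simp [Nat.testBit_succ]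

theorem E1_xor_one_odd {l : ℕ} (h : l % 2 = 1) : l ^^^ 1 = l - 1 := by
  obtain ⟨k, rfl⟩ : ∃ k, l = 2 * k + 1 := ⟨l / 2, by omega⟩
  have := E1_xor_one_even (l := 2 * k) (by omega)
  rw [← this, Nat.xor_assoc, Nat.xor_self, Nat.xor_zero, this]
  rfl

/-- E1b -/
theorem swp_testBit {F : ℕ} (hF : F < 2 ^ 32) (l : ℕ) :
    (swp F).testBit l = F.testBit (l ^^^ 1) := by
  have h : swp F = ((F &&& 1431655765) <<< 1) ||| ((F >>> 1) &&& 1431655765) := rfl
  rw [h, Nat.testBit_or, Nat.testBit_shiftLeft, Nat.testBit_and, Nat.testBit_and,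
    Nat.testBit_shiftRight, E1_mask, E1_mask]
  have hbig : ∀ i, 32 ≤ i → F.testBit i = false := fun i hi =>
    Nat.testBit_lt_two_pow (lt_of_lt_of_le hF (Nat.pow_le_pow_right (by norm_num) hi))
  rcases Nat.mod_two_eq_zero_or_one l with hl | hl
  · rw [E1_xor_one_even hl]
    have h1 : (l - 1) % 2 = 0 → ¬ (1 ≤ l) := by omega
    by_cases h32 : l < 32
    · have h2 : l ≥ 1 → ¬ ((l - 1) % 2 = 0) := by omega
      by_cases hl1 : l ≥ 1
      · simp [hl, h32, h2 hl1, Nat.add_comm]
      · have : l = 0 := by omega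
        subst this; simp
    · rw [hbig (l + 1) (by omega)]
      by_cases hl1 : l ≥ 1
      · have h2 : ¬ ((l - 1) % 2 = 0) := by omega
        simp [h32, h2]
      · omega
  · rw [E1_xor_one_odd hl]
    have hl1 : l ≥ 1 := by omega
    have h2 : (l - 1) % 2 = 0 := by omega
    by_cases h32 : l - 1 < 32
    · simp [hl, hl1, h2, h32]
    · rw [hbig (l - 1) (by omega)]
      simp [hl]

/-- E1c -/
theorem swp_lt {F b2 : ℕ} (he : b2 % 2 = 0) (hb : b2 ≤ 32) (hF : F < 2 ^ b2) : swp F < 2 ^ b2 := by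
  apply Nat.lt_pow_two_of_testBit
  intro i hi
  rw [swp_testBit (lt_of_lt_of_le hF (Nat.pow_le_pow_right (by norm_num) hb))]
  apply Nat.testBit_lt_two_pow
  apply lt_of_lt_of_le hF
  apply Nat.pow_le_pow_right (by norm_num)
  rcases Nat.mod_two_eq_zero_or_one i with hl | hl
  · rw [E1_xor_one_even hl]; omega
  · rw [E1_xor_one_odd hl]; omega

theorem E1_gtL_even (full : List ℕ) (i : ℕ) :
    (gtL full).getD (2 * i) 0 = (full.map swp).getD i 0 := by
  induction full generalizing i with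
  | nil => simp [gtL]
  | cons F L ihL =>
    have : gtL (F :: L) = swp F :: F :: gtL L := by simp [gtL]
    rw [this]
    cases i with
    | zero => simp
    | succ j =>
      rw [show 2 * (j + 1) = 2 * j + 1 + 1 by ring]
      simp only [List.getD_cons_succ, List.map_cons]
      exact ihL j

theorem E1_gtL_odd (full : List ℕ) (i : ℕ) :
    (gtL full).getD (2 * i + 1) 0 = full.getD i 0 := by
  induction full generalizing i with
  | nil => simp [gtL]
  | cons F L ihL =>
    have : gtL (F :: L) = swp F :: F :: gtL L := by simp [gtL]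
    rw [this]
    cases i with
    | zero => simp
    | succ j =>
      rw [show 2 * (j + 1) + 1 = (2 * j + 1) + 1 + 1 by ring]
      simp only [List.getD_cons_succ]
      exact ihL j

theorem E1_or_one (l : ℕ) : l ||| 1 = 2 * (l / 2) + 1 := by
  apply Nat.eq_of_testBit_eq
  intro i
  cases i with
  | zero => simp
  | succ i =>
    rw [Nat.testBit_succ, Nat.testBit_succ, Nat.or_div_two]
    congr 1
    simp
    omega

/-- E1d -/
theorem gt_ok {full : List ℕ} (hf : ∀ F ∈ full, F < 2 ^ 32) : GTok full (tblK 32 (gtL full)) := by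
  have hL : ∀ a ∈ gtL full, a < 2 ^ 32 := by
    intro a ha
    simp only [gtL, List.mem_flatMap, List.mem_cons, List.not_mem_nil, or_false] at ha
    obtain ⟨F, hFm, h | h⟩ := ha
    · rw [h]; exact swp_lt (by norm_num) le_rfl (hf F hFm)
    · rw [h]; exact hf F hFm
  have key : ∀ i, ent (tblK 32 (gtL full)) 32 4294967295 i = (gtL full).getD i 0 := fun i =>
    ent_tblK 32 (gtL full) hL i
  intro fu
  rw [key, key, key, E1_or_one, E1_gtL_odd]
  by_cases hlt : fu / 2 < full.length
  · right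
    have hmem : full.getD (fu / 2) 0 ∈ full := by
      rw [List.getD_eq_getElem _ _ hlt]; exact List.getElem_mem hlt
    have hmap : (full.map swp).getD (fu / 2) 0 = swp (full.getD (fu / 2) 0) := by
      rw [List.getD_eq_getElem _ _ (by simpa using hlt), List.getD_eq_getElem _ _ hlt]
      simp
    refine ⟨hmem, fun h0 => ⟨?_, ?_⟩, fun h1 => ⟨?_, ?_⟩⟩
    · conv_lhs => rw [show fu = 2 * (fu / 2) by omega]
      rw [E1_gtL_even, hmap]
    · rw [E1_xor_one_even h0, show fu + 1 = 2 * (fu / 2) + 1 by omega, E1_gtL_odd]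
    · conv_lhs => rw [show fu = 2 * (fu / 2) + 1 by omega]
      rw [E1_gtL_odd]
    · rw [E1_xor_one_odd h1, show fu - 1 = 2 * (fu / 2) by omega, E1_gtL_even, hmap]
  · left
    have h1 : full.getD (fu / 2) 0 = 0 := by
      rw [List.getD_eq_default _ _ (by omega)]
    have h2 : (full.map swp).getD (fu / 2) 0 = 0 := by
      rw [List.getD_eq_default _ _ (by simp; omega)]
    rcases Nat.mod_two_eq_zero_or_one fu with h0 | h0
    · refine ⟨?_, ?_, h1⟩
      · conv_lhs => rw [show fu = 2 * (fu / 2) by omega]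
        rw [E1_gtL_even, h2]
      · rw [E1_xor_one_even h0, show fu + 1 = 2 * (fu / 2) + 1 by omega, E1_gtL_odd, h1]
    · refine ⟨?_, ?_, h1⟩
      · conv_lhs => rw [show fu = 2 * (fu / 2) + 1 by omega]
        rw [E1_gtL_odd, h1]
      · rw [E1_xor_one_odd h0, show fu - 1 = 2 * (fu / 2) by omega, E1_gtL_even, h2]

end Pool.Agent.H775
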