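import Pool.Agent.H775.EngE1

/-!
Skeleton: soundness of the checker in `Eng.lean` (definitions there are fixed and tested: do not
change them). All `Nat.land`, `Nat.lor`, ... are definitionally the usual operations `&&&`, `|||`, ...
(`Nat.land a b = a &&& b` is `rfl`), `Bool.rec f t b` is `if b then t else f` (`cases b <;> rfl`), and
`Nat.rec` unfolds by `rfl` on `n + 1`.
`mkM : List ℕ → ℕ` and `testBit_mkM : (mkM L).testBit l = true ↔ l ∈ L` are in the library file
`Pool/Graph/R_seed8/TH651/RP5/Cert.lean`.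
-/

set_option autoImplicit false

namespace Pool.Agent.H775

open Pool.Agent.TH651.RP5 (mkM testBit_mkM)

/-! ### E1: tables -/

/-! ### E2, E3, E4: the steps -/

section Steps

variable {b2 m rc FM DB bound GT : ℕ} {full : List ℕ} {adj : ℕ → ℕ → Prop} {val : ℕ → ZMod 2}
variable {κ : ℕ → Bool} {G : Prop} {ih : ℕ → ℕ → ℕ → ℕ → Bool}

/-- E2a: meaning of `kt` -/
theorem kt_iff (E g k : ℕ) : kt b2 E g k m = true ↔
    ∀ k' < m, k' ≠ k → ∃ l, g.testBit l = true ∧ E.testBit (b2 * k' + l) = true := by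
  induction m with
  | zero =>
    constructor
    · intro _ k' hk'
      exact absurd hk' (Nat.not_lt_zero _)
    · intro _
      rfl
  | succ n ihn =>
    have hstep : kt b2 E g k (n + 1) = if n = k then kt b2 E g k n else
        if E &&& (g <<< (b2 * n)) = 0 then false else kt b2 E g k n := by
      show Bool.rec (motive := fun _ => Bool) (Bool.rec (motive := fun _ => Bool)
        (kt b2 E g k n) false
        (Nat.beq (Nat.land E (Nat.shiftLeft g (Nat.mul b2 n))) 0)) (kt b2 E g k n)
        (Nat.beq n k) = _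
      by_cases h1 : n = k
      · have : Nat.beq n k = true := by rw [h1]; exact Nat.beq_refl k
        rw [this, if_pos h1]
      · have h1' : Nat.beq n k = false := by
          rcases hb : Nat.beq n k with _ | _
          · rfl
          · exact absurd (Nat.eq_of_beq_eq_true hb) h1
        rw [h1', if_neg h1]
        show Bool.rec (motive := fun _ => Bool) (kt b2 E g k n) false
          (Nat.beq (E &&& (g <<< (b2 * n))) 0) = _
        by_cases h2 : E &&& (g <<< (b2 * n)) = 0
        · rw [if_pos h2, h2]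
          rfl
        · rw [if_neg h2]
          have : Nat.beq (E &&& (g <<< (b2 * n))) 0 = false := by
            rcases hb : Nat.beq (E &&& (g <<< (b2 * n))) 0 with _ | _
            · rfl
            · exact absurd (Nat.eq_of_beq_eq_true hb) h2
          rw [this]
    have hbit : E &&& (g <<< (b2 * n)) ≠ 0 ↔
        ∃ l, g.testBit l = true ∧ E.testBit (b2 * n + l) = true := by
      constructor
      · intro h
        obtain ⟨j, hj⟩ := Nat.exists_testBit_of_ne_zero h
        rw [Nat.testBit_and, Nat.testBit_shiftLeft, Bool.and_eq_true, Bool.and_eq_true,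
          decide_eq_true_eq] at hj
        obtain ⟨h1, h2, h3⟩ := hj
        refine ⟨j - b2 * n, h3, ?_⟩
        rwa [Nat.add_sub_cancel' h2]
      · rintro ⟨l, h1, h2⟩ h
        have h3 : (E &&& (g <<< (b2 * n))).testBit (b2 * n + l) = true := by
          rw [Nat.testBit_and, Nat.testBit_shiftLeft, h2]
          simp [h1]
        rw [h] at h3
        simp at h3
    rw [hstep]
    by_cases h1 : n = k
    · rw [if_pos h1, ihn]
      constructor
      · intro h k' hk' hne
        exact h k' (by omega) hne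
      · intro h k' hk' hne
        exact h k' (by omega) hne
    · rw [if_neg h1]
      by_cases h2 : E &&& (g <<< (b2 * n)) = 0
      · rw [if_pos h2]
        constructor
        · intro h
          exact absurd h (by decide)
        · intro h
          exact absurd h2 (hbit.2 (h n (by omega) h1))
      · rw [if_neg h2, ihn]
        constructor
        · intro h k' hk' hne
          rcases Nat.lt_succ_iff_lt_or_eq.1 hk' with h3 | rfl
          · exact h k' h3 hne
          · exact hbit.1 h2
        · intro h k' hk' hne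
          exact h k' (by omega) hne

/-- E2b: if for every block index `k' ≠ k` a literal of `G` is adjacent (recorded in `E`) to block
vertex `k'`, then all faces `F ∪ {b2 + 2 k' + u}`, `k' ≠ k`, have value 0 (for `u = 0`: `l ∈ swp F`,
`l ^^^ 1 ∈ F` is not adjacent to the vertex; for `u = 1`: `l ∈ F` is adjacent to the vertex hence not
to its antipode), so by `ful` the face `F ∪ {b2 + 2 k + u}` has value 1 (and `k < m`), hence by `clq`
its literals are adjacent, which gives the new codes. -/
theorem cov_main (M : Mdl b2 m rc full adj val) (hG : GTok full GT) {E fu k : ℕ}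
    (hE : InvE b2 m adj E) (hk : kt b2 E (ent GT 32 4294967295 fu) k m = true) :
    InvE b2 m adj (E ||| (ent GT 32 4294967295 (fu ^^^ 1) <<< (b2 * k))) ∧ k < m ∧
    ent GT 32 4294967295 (fu ||| 1) < 2 ^ b2 ∧
    val (ent GT 32 4294967295 (fu ||| 1) ||| (1 <<< (b2 + 2 * k + fu % 2))) = 1 := by
  rw [kt_iff] at hk
  have hm2 := M.hm
  have hev := M.even
  rcases hG fu with ⟨h0, -, -⟩ | ⟨hF, hu0, hu1⟩
  · exfalso
    rw [h0] at hk
    obtain ⟨k', hk', hne⟩ : ∃ k' < m, k' ≠ k := by
      rcases Nat.eq_zero_or_pos k with rfl | hk0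
      · exact ⟨1, by omega, by omega⟩
      · exact ⟨0, by omega, by omega⟩
    obtain ⟨l, hl, -⟩ := hk k' hk' hne
    simp at hl
  set g := ent GT 32 4294967295 fu with hg
  set g' := ent GT 32 4294967295 (fu ^^^ 1) with hg'
  set F := ent GT 32 4294967295 (fu ||| 1) with hFd
  have hFb : F < 2 ^ b2 := M.fullb F hF
  have hF32 : F < 2 ^ 32 := lt_of_lt_of_le hFb (Nat.pow_le_pow_right (by norm_num) M.b32)
  have hsw := swp_lt hev M.b32 hFb
  have hlt : ∀ {X l : ℕ}, X < 2 ^ b2 → X.testBit l = true → l < b2 := by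
    intro X l hX hl
    by_contra hcon
    push Not at hcon
    have h1 := Nat.testBit_lt_two_pow (lt_of_lt_of_le hX (Nat.pow_le_pow_right (by norm_num) hcon))
    rw [hl] at h1
    exact absurd h1 (by decide)
  have hxor : ∀ l, l < b2 → l ^^^ 1 < b2 := by
    intro l hl
    rcases Nat.even_or_odd' l with ⟨i, rfl | rfl⟩
    · have : (2 * i) ^^^ 1 = 2 * i + 1 := by
        rw [Nat.xor_one_of_even (by exact ⟨i, by ring⟩)]
      omega
    · have : (2 * i + 1) ^^^ 1 = 2 * i := by
        rw [Nat.xor_one_of_odd (by exact ⟨i, by ring⟩)]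
        omega
      omega
  have hxx : ∀ l : ℕ, l ^^^ 1 ^^^ 1 = l := by
    intro l
    rw [Nat.xor_assoc, Nat.xor_self, Nat.xor_zero]
  have hxe : ∀ j : ℕ, (b2 + 2 * j) ^^^ 1 = b2 + 2 * j + 1 := by
    intro j
    rw [Nat.xor_one_of_even]
    rw [Nat.even_iff]
    omega
  have hxo : ∀ j : ℕ, (b2 + 2 * j + 1) ^^^ 1 = b2 + 2 * j := by
    intro j
    rw [← hxe, hxx]
  -- adjacency recorded in `E`
  have hadj : ∀ {k' l : ℕ}, l < b2 → E.testBit (b2 * k' + l) = true → adj l (b2 + 2 * k') := by
    intro k' l hl h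
    obtain ⟨-, h2⟩ := hE _ h
    unfold AdjC at h2
    have e1 : (b2 * k' + l) % b2 = l := by rw [Nat.mul_add_mod, Nat.mod_eq_of_lt hl]
    have e2 : (b2 * k' + l) / b2 = k' := by
      rw [Nat.mul_add_div (by omega), Nat.div_eq_of_lt hl, Nat.add_zero]
    rwa [e1, e2] at h2
  have htb : ∀ q : ℕ, (F ||| (1 <<< q)).testBit q = true := by
    intro q
    rw [Nat.testBit_or, Nat.testBit_shiftLeft]
    simp
  have htF : ∀ q l : ℕ, F.testBit l = true → (F ||| (1 <<< q)).testBit l = true := by
    intro q l h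
    rw [Nat.testBit_or, h, Bool.true_or]
  have hz01 : ∀ a : ZMod 2, a = 0 ∨ a = 1 := by decide
  have hclq : ∀ {j u l : ℕ}, j < m → u ≤ 1 → l < b2 → F.testBit l = true →
      val (F ||| (1 <<< (b2 + 2 * j + u))) = 1 → adj l (b2 + 2 * j + u) := by
    intro j u l hj hu hl h1 h2
    exact M.clq _ l (b2 + 2 * j + u) h2 (htF _ _ h1) (htb _) (by omega) (by omega) (by omega)
  have hu : fu % 2 = 0 ∨ fu % 2 = 1 := by omega
  have hval0 : ∀ j < m, j ≠ k → val (F ||| (1 <<< (b2 + 2 * j + fu % 2))) = 0 := by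
    intro j hj hne
    obtain ⟨l, hl1, hl2⟩ := hk j hj hne
    rcases hz01 (val (F ||| (1 <<< (b2 + 2 * j + fu % 2)))) with h | h
    · exact h
    exfalso
    rcases hu with hu | hu
    · obtain ⟨e1, -⟩ := hu0 hu
      rw [e1] at hl1
      have hlb := hlt hsw hl1
      rw [swp_testBit hF32] at hl1
      have h3 := hclq hj (by omega) (hxor l hlb) hl1 h
      rw [hu, Nat.add_zero] at h3
      exact M.excl _ _ (M.symm _ _ (hadj hlb hl2)) (M.symm _ _ h3)
    · obtain ⟨e1, -⟩ := hu1 hu
      rw [e1] at hl1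
      have hlb := hlt hFb hl1
      have h3 := hclq hj (by omega) hlb hl1 h
      rw [hu, ← hxe] at h3
      exact M.excl _ _ (hadj hlb hl2) h3
  have hsum := M.ful F hF (fu % 2) (by omega)
  have hkm : k < m := by
    by_contra hcon
    push Not at hcon
    rw [Finset.sum_eq_zero] at hsum
    · exact absurd hsum (by decide)
    · intro j hj
      have := Finset.mem_range.1 hj
      exact hval0 j this (by omega)
  have hv1 : val (F ||| (1 <<< (b2 + 2 * k + fu % 2))) = 1 := by
    rw [Finset.sum_eq_single k] at hsum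
    · exact hsum
    · intro j hj hne
      exact hval0 j (Finset.mem_range.1 hj) hne
    · intro h
      exact absurd (Finset.mem_range.2 hkm) h
  refine ⟨?_, hkm, hFb, hv1⟩
  intro c hc
  rw [Nat.testBit_or, Bool.or_eq_true] at hc
  rcases hc with hc | hc
  · exact hE c hc
  rw [Nat.testBit_shiftLeft, Bool.and_eq_true, decide_eq_true_eq] at hc
  obtain ⟨hc1, hc2⟩ := hc
  obtain ⟨l, rfl⟩ := Nat.exists_eq_add_of_le hc1
  rw [Nat.add_sub_cancel_left] at hc2
  have hgb : g' < 2 ^ b2 := by
    rcases hu with hu | hu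
    · rw [(hu0 hu).2]; exact hFb
    · rw [(hu1 hu).2]; exact hsw
  have hlb := hlt hgb hc2
  refine ⟨?_, ?_⟩
  · calc b2 * k + l < b2 * k + b2 := by omega
      _ = b2 * (k + 1) := by ring
      _ ≤ b2 * m := Nat.mul_le_mul_left _ hkm
  · unfold AdjC
    have e1 : (b2 * k + l) % b2 = l := by rw [Nat.mul_add_mod, Nat.mod_eq_of_lt hlb]
    have e2 : (b2 * k + l) / b2 = k := by
      rw [Nat.mul_add_div (by omega), Nat.div_eq_of_lt hlb, Nat.add_zero]
    rw [e1, e2]
    rcases hu with hu | hu
    · rw [(hu0 hu).2] at hc2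
      have h3 := hclq hkm (by omega) hlb hc2 hv1
      rwa [hu, Nat.add_zero] at h3
    · rw [(hu1 hu).2, swp_testBit hF32] at hc2
      have h3 := M.anti _ _ (hclq hkm (by omega) (hxor l hlb) hc2 hv1)
      rwa [hu, hxx, hxo] at h3

/-- reading the pushed slot -/
theorem slt_push_zero {Y x : ℕ} (hx : x < 2 ^ 64) : slt ((Y <<< 64) ||| x) 0 = x := by
  show (((Y <<< 64) ||| x) >>> (64 * 0)) &&& 18446744073709551615 = x
  rw [Nat.mul_zero, Nat.shiftRight_zero]
  have e : (18446744073709551615 : ℕ) = 2 ^ 64 - 1 := by norm_num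
  rw [e]
  apply Nat.eq_of_testBit_eq
  intro i
  rw [Nat.testBit_and, Nat.testBit_or, Nat.testBit_shiftLeft, Nat.testBit_two_pow_sub_one]
  by_cases hi : i < 64
  · have h1 : ¬ (i ≥ 64) := by omega
    simp [hi, h1]
  · have h1 : x.testBit i = false :=
      Nat.testBit_lt_two_pow (lt_of_lt_of_le hx (Nat.pow_le_pow_right (by norm_num) (by omega)))
    simp [hi, h1]

/-- reading the other slots -/
theorem slt_push_succ {Y x : ℕ} (hx : x < 2 ^ 64) (s : ℕ) :
    slt ((Y <<< 64) ||| x) (s + 1) = slt Y s := by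
  show (((Y <<< 64) ||| x) >>> (64 * (s + 1))) &&& 18446744073709551615 =
    (Y >>> (64 * s)) &&& 18446744073709551615
  congr 1
  apply Nat.eq_of_testBit_eq
  intro i
  rw [Nat.testBit_shiftRight, Nat.testBit_shiftRight, Nat.testBit_or, Nat.testBit_shiftLeft]
  have h1 : x.testBit (64 * (s + 1) + i) = false :=
    Nat.testBit_lt_two_pow (lt_of_lt_of_le hx (Nat.pow_le_pow_right (by norm_num) (by omega)))
  have h2 : 64 * (s + 1) + i - 64 = 64 * s + i := by omega
  have h3 : 64 * (s + 1) + i ≥ 64 := by omega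
  rw [h1, h2]
  simp [h3]

/-- E2c: pushing a value -/
theorem invY_push {Y F v : ℕ} (hnl : b2 + 2 * m ≤ 62) (hY : InvY b2 m val Y)
    (hF : F < 2 ^ (b2 + 2 * m)) (hv : v < 2) (h1 : v = 1 → val F = 1) (h0 : v = 0 → val F = 0) :
    InvY b2 m val ((Y <<< 64) ||| (2 * F + v)) := by
  have hF62 : F < 2 ^ 62 := lt_of_lt_of_le hF (Nat.pow_le_pow_right (by norm_num) hnl)
  have hx : 2 * F + v < 2 ^ 64 := by
    have : (2 : ℕ) ^ 64 = 4 * 2 ^ 62 := by norm_num
    omega
  intro s
  rcases s with _ | s
  · rw [slt_push_zero hx]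
    have e1 : (2 * F + v) / 2 = F := by omega
    have e2 : (2 * F + v) % 2 = v := by omega
    rw [e1, e2]
    exact ⟨hF, h1, h0⟩
  · rw [slt_push_succ hx]
    exact hY s

/-- E2d -/
theorem sCOV_sound (M : Mdl b2 m rc full adj val) (hG : GTok full GT) {h E N Y : ℕ}
    (hE : InvE b2 m adj E) (hN : InvN b2 m adj N) (hY : InvY b2 m val Y)
    (hih : ∀ h' E' N' Y', InvE b2 m adj E' → InvN b2 m adj N' → InvY b2 m val Y' →
      ih h' E' N' Y' = true → G)
    (hr : sCOV b2 m GT h E N Y ih = true) : G := by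
  unfold sCOV at hr
  rcases hkt : kt b2 E (ent GT 32 4294967295 (Nat.mod h 256)) (Nat.mod (Nat.div h 256) 8) m with
    _ | _
  · rw [hkt] at hr
    exact (Bool.false_ne_true hr).elim
  · rw [hkt] at hr
    obtain ⟨h1, -, -, -⟩ := cov_main M hG hE hkt
    exact hih _ _ _ _ h1 hN hY hr

/-- E2e -/
theorem sCOVS_sound (M : Mdl b2 m rc full adj val) (hG : GTok full GT) {h E N Y : ℕ}
    (hE : InvE b2 m adj E) (hN : InvN b2 m adj N) (hY : InvY b2 m val Y)
    (hih : ∀ h' E' N' Y', InvE b2 m adj E' → InvN b2 m adj N' → InvY b2 m val Y' →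
      ih h' E' N' Y' = true → G)
    (hr : sCOVS b2 m GT h E N Y ih = true) : G := by
  unfold sCOVS at hr
  rcases hkt : kt b2 E (ent GT 32 4294967295 (Nat.mod h 256)) (Nat.mod (Nat.div h 256) 8) m with
    _ | _
  · rw [hkt] at hr
    exact (Bool.false_ne_true hr).elim
  · rw [hkt] at hr
    obtain ⟨h1, h2, h3, h4⟩ := cov_main M hG hE hkt
    refine hih _ _ _ _ h1 hN ?_ hr
    have hmod : Nat.mod h 256 % 2 = h % 2 := by
      show h % 256 % 2 = h % 2
      omega
    rw [hmod] at h4
    have hlt : ent GT 32 4294967295 (Nat.mod h 256 ||| 1) |||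
        (1 <<< (b2 + 2 * Nat.mod (Nat.div h 256) 8 + h % 2)) < 2 ^ (b2 + 2 * m) := by
      apply Nat.or_lt_two_pow
      · exact lt_of_lt_of_le h3 (Nat.pow_le_pow_right (by norm_num) (by omega))
      · rw [Nat.one_shiftLeft]
        exact Nat.pow_lt_pow_right (by norm_num) (by omega)
    exact invY_push M.hnl hY hlt (by norm_num) (fun _ => h4) (fun h => absurd h (by norm_num))

end Steps

end Pool.Agent.H775
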