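import Pool.Agent.H775.EngE2

/-!
Skeleton: soundness of the checker in `Eng.lean` (definitions there are fixed and tested: do not
change them). All `Nat.land`, `Nat.lor`, ... are definitionally the usual operations `&&&`, `|||`, ...
(`Nat.land a b = a &&& b` is `rfl`), `Bool.rec f t b` is `if b then t else f` (`cases b <;> rfl`), and
`Nat.rec` unfolds by `rfl` on `n + 1`.
`mkM : List ℕ → ℕ` and `testBit_mkM : (mkM L).testBit l = true ↔ l ∈ L` are in the library file
`Pool/Graph/R_seed8/TH651/RP5/Cert.lean`.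
-/

set_option autoImplicit false

namespace Pool.Agent.H775

open Pool.Agent.TH651.RP5 (mkM testBit_mkM)

/-! ### E3 -/

theorem e3_land (a b : ℕ) : Nat.land a b = a &&& b := rfl
theorem e3_lor (a b : ℕ) : Nat.lor a b = a ||| b := rfl
theorem e3_xor (a b : ℕ) : Nat.xor a b = a ^^^ b := rfl
theorem e3_shl (a b : ℕ) : Nat.shiftLeft a b = a <<< b := rfl
theorem e3_shr (a b : ℕ) : Nat.shiftRight a b = a >>> b := rfl

theorem e3_beq {a b : ℕ} : Nat.beq a b = true ↔ a = b := by rw [Nat.beq_eq]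

theorem e3_rec_false {b x : Bool} (h : Bool.rec false x b = true) : b = true ∧ x = true := by
  cases b
  · exact absurd h (by simp)
  · exact ⟨rfl, h⟩

theorem e3_rec_true {b x : Bool} (h : Bool.rec x false b = true) : b = false ∧ x = true := by
  cases b
  · exact ⟨rfl, h⟩
  · exact absurd h (by simp)

theorem e3_one_shl (n i : ℕ) : (1 <<< n : ℕ).testBit i = true ↔ i = n := by
  rw [Nat.one_shiftLeft, Nat.testBit_two_pow]
  simp [eq_comm]

theorem e3_xor_even {n : ℕ} (h : n % 2 = 0) : n ^^^ 1 = n + 1 :=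
  Nat.xor_one_of_even (Nat.even_iff.mpr h)

theorem e3_xor_odd {n : ℕ} (h : n % 2 = 1) : n ^^^ 1 = n - 1 :=
  Nat.xor_one_of_odd (Nat.odd_iff.mpr h)

theorem e3_xx (n : ℕ) : (n ^^^ 1) ^^^ 1 = n := by
  rw [Nat.xor_assoc, Nat.xor_self, Nat.xor_zero]

/-- the code `c ^^^ 1` -/
theorem e3_code {b2 c : ℕ} (he : b2 % 2 = 0) (hb : 0 < b2) :
    (c ^^^ 1) % b2 = (c % b2) ^^^ 1 ∧ (c ^^^ 1) / b2 = c / b2 := by
  obtain ⟨t, rfl⟩ : ∃ t, b2 = 2 * t := ⟨b2 / 2, by omega⟩
  have h0 := Nat.div_add_mod c (2 * t)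
  have h1 := Nat.mod_lt c hb
  have hp : (2 * t * (c / (2 * t))) % 2 = 0 := by
    rw [mul_assoc]; exact Nat.mul_mod_right _ _
  rcases Nat.mod_two_eq_zero_or_one c with h | h
  · have h2 : (c % (2 * t)) % 2 = 0 := by omega
    rw [e3_xor_even h, e3_xor_even h2]
    have h3 : c + 1 = (c % (2 * t) + 1) + 2 * t * (c / (2 * t)) := by omega
    have h4 : c % (2 * t) + 1 < 2 * t := by omega
    constructor
    · rw [h3, Nat.add_mul_mod_self_left, Nat.mod_eq_of_lt h4]
    · conv_lhs => rw [h3]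
      rw [Nat.add_mul_div_left _ _ hb, Nat.div_eq_of_lt h4, zero_add]
  · have h2 : (c % (2 * t)) % 2 = 1 := by omega
    rw [e3_xor_odd h, e3_xor_odd h2]
    have h3 : c - 1 = (c % (2 * t) - 1) + 2 * t * (c / (2 * t)) := by omega
    have h4 : c % (2 * t) - 1 < 2 * t := by omega
    constructor
    · rw [h3, Nat.add_mul_mod_self_left, Nat.mod_eq_of_lt h4]
    · conv_lhs => rw [h3]
      rw [Nat.add_mul_div_left _ _ hb, Nat.div_eq_of_lt h4, zero_add]

theorem e3_code_lt {b2 m c : ℕ} (he : b2 % 2 = 0) (hc : c < b2 * m) : c ^^^ 1 < b2 * m := by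
  have hp : (b2 * m) % 2 = 0 := by rw [Nat.mul_mod, he, zero_mul, Nat.zero_mod]
  rcases Nat.mod_two_eq_zero_or_one c with h | h
  · rw [e3_xor_even h]; omega
  · rw [e3_xor_odd h]; omega

theorem e3_pos {b2 m c : ℕ} (hc : c < b2 * m) : 0 < b2 :=
  Nat.pos_of_ne_zero fun h => by rw [h, zero_mul] at hc; exact absurd hc (Nat.not_lt_zero _)

/-- adding a bit -/
theorem e3_inv_add {b2 m c : ℕ} {adj : ℕ → ℕ → Prop} {E : ℕ} (hE : InvE b2 m adj E) (hc : c < b2 * m)
    (ha : AdjC b2 adj c) : InvE b2 m adj (E ||| (1 <<< c)) := by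
  intro x hx
  rw [Nat.testBit_or, Bool.or_eq_true, e3_one_shl] at hx
  rcases hx with hx | rfl
  · exact hE x hx
  · exact ⟨hc, ha⟩

section Steps

variable {b2 m rc FM DB bound GT : ℕ} {full : List ℕ} {adj : ℕ → ℕ → Prop} {val : ℕ → ZMod 2}
variable {κ : ℕ → Bool} {G : Prop} {ih : ℕ → ℕ → ℕ → ℕ → Bool}

/-- `c` or `c ^^^ 1` is an adjacency -/
theorem e3_tot (M : Mdl b2 m rc full adj val) {c : ℕ} (hc : c < b2 * m) (h : ¬ AdjC b2 adj c) :
    AdjC b2 adj (c ^^^ 1) := by
  have hb := e3_pos hc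
  have hk : c / b2 < m := Nat.div_lt_of_lt_mul hc
  have hl : c % b2 < b2 := Nat.mod_lt _ hb
  have he := M.even
  unfold AdjC at h ⊢
  rw [(e3_code he hb).1, (e3_code he hb).2]
  have h1 := M.tot (c % b2) (b2 + 2 * (c / b2)) (by omega) (by omega) (by omega)
  rcases h1 with h1 | h1
  · exact absurd h1 h
  · have h2 := M.anti _ _ h1
    rwa [e3_xx] at h2

/-- not both -/
theorem e3_excl (M : Mdl b2 m rc full adj val) {c : ℕ} (hc : c < b2 * m) (h : AdjC b2 adj c)
    (h' : AdjC b2 adj (c ^^^ 1)) : False := by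
  have hb := e3_pos hc
  unfold AdjC at h h'
  rw [(e3_code M.even hb).1, (e3_code M.even hb).2] at h'
  have h2 := M.anti _ _ h'
  rw [e3_xx] at h2
  exact M.excl _ _ h h2

/-- E3a: if all codes of the clause except possibly `c ^^^ 1` are recorded in `E`, the true one must
be `c ^^^ 1`, so (`M.tot`) `AdjC c`. -/
theorem sUNIT_sound (M : Mdl b2 m rc full adj val)
    (hDB : ∀ i < bound, clT b2 m adj (ent DB 132 5444517870735015415413993718908291383295 i))
    {h E N Y : ℕ}
    (hE : InvE b2 m adj E) (hN : InvN b2 m adj N) (hY : InvY b2 m val Y)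
    (hih : ∀ h' E' N' Y', InvE b2 m adj E' → InvN b2 m adj N' → InvY b2 m val Y' →
      ih h' E' N' Y' = true → G)
    (hr : sUNIT DB bound h E N Y ih = true) : G := by
  unfold sUNIT at hr
  obtain ⟨h1, h2⟩ := e3_rec_true hr
  obtain ⟨h3, h4⟩ := e3_rec_false h2
  rw [e3_beq] at h3
  have hi : Nat.mod (Nat.div h 256) 16384 < bound := by
    by_contra hcon
    have : Nat.ble bound (Nat.mod (Nat.div h 256) 16384) = true := Nat.ble_eq.mpr (not_lt.mp hcon)
    rw [this] at h1
    exact absurd h1 (by simp)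
  obtain ⟨c, hc, hcD, hcA⟩ := hDB _ hi
  have h5 : c ^^^ 1 = Nat.mod h 256 := by
    have h6 := congrArg (fun x => Nat.testBit x c) h3
    simp only [e3_lor, e3_shl, e3_xor, Nat.testBit_or, hcD, Bool.or_true] at h6
    have h7 := h6.symm
    rw [Bool.or_eq_true, e3_one_shl] at h7
    rcases h7 with h7 | h7
    · exact absurd (hE c h7).2 hcA
    · rw [h7, e3_xx]
  refine hih _ _ _ _ ?_ hN hY h4
  rw [← h5]
  exact e3_inv_add hE (e3_code_lt M.even hc) (e3_tot M hc hcA)

/-- E3b -/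
theorem nad_inv (M : Mdl b2 m rc full adj val) {N l k : ℕ} (hl : l < b2) (hk : k < m)
    (hN : InvN b2 m adj N) (ha : adj l (b2 + 2 * k)) : InvN b2 m adj (nad N l (b2 + 2 * k)) := by
  have he := M.even
  have hnl := M.hnl
  have hq : (b2 + 2 * k) ^^^ 1 = b2 + 2 * k + 1 := e3_xor_even (by omega)
  have hl1 : l ^^^ 1 < b2 := by
    rcases Nat.mod_two_eq_zero_or_one l with h | h
    · rw [e3_xor_even h]; omega
    · rw [e3_xor_odd h]; omega
  have a1 : ¬ adj l (b2 + 2 * k + 1) := by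
    rw [← hq]; exact M.excl _ _ ha
  have a2 : ¬ adj (l ^^^ 1) (b2 + 2 * k) := by
    have h1 := M.excl _ _ (M.anti _ _ ha)
    rwa [e3_xx] at h1
  intro r z hr hz hb
  have hb' : (N ||| (1 <<< (64 * l + (b2 + 2 * k + 1))) ||| (1 <<< (64 * (b2 + 2 * k + 1) + l)) |||
      (1 <<< (64 * (l ^^^ 1) + (b2 + 2 * k))) ||| (1 <<< (64 * (b2 + 2 * k) + (l ^^^ 1)))).testBit
        (64 * r + z) = true := hb
  simp only [Nat.testBit_or, Bool.or_eq_true, e3_one_shl] at hb'
  rcases hb' with (((h | h) | h) | h) | h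
  · exact hN r z hr hz h
  · have e1 : r = l := by omega
    have e2 : z = b2 + 2 * k + 1 := by omega
    rw [e1, e2]; exact a1
  · have e1 : r = b2 + 2 * k + 1 := by omega
    have e2 : z = l := by omega
    rw [e1, e2]; exact fun h => a1 (M.symm _ _ h)
  · have e1 : r = l ^^^ 1 := by omega
    have e2 : z = b2 + 2 * k := by omega
    rw [e1, e2]; exact a2
  · have e1 : r = b2 + 2 * k := by omega
    have e2 : z = l ^^^ 1 := by omega
    rw [e1, e2]; exact fun h => a2 (M.symm _ _ h)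

/-- bits by shift and remainder -/
theorem e3_bit {E c : ℕ} : Nat.mod (Nat.shiftRight E c) 2 = 1 ↔ E.testBit c = true := by
  rw [Nat.testBit_eq_decide_div_mod_eq, decide_eq_true_eq]
  show (E >>> c) % 2 = 1 ↔ _
  rw [Nat.shiftRight_eq_div_pow]

/-- E3c -/
theorem sNADD_sound (M : Mdl b2 m rc full adj val) {h E N Y : ℕ}
    (hE : InvE b2 m adj E) (hN : InvN b2 m adj N) (hY : InvY b2 m val Y)
    (hih : ∀ h' E' N' Y', InvE b2 m adj E' → InvN b2 m adj N' → InvY b2 m val Y' →
      ih h' E' N' Y' = true → G)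
    (hr : sNADD b2 h E N Y ih = true) : G := by
  unfold sNADD at hr
  obtain ⟨h1, h2⟩ := e3_rec_true hr
  have h3 : E.testBit (Nat.mod h 256) = true := by
    rw [← e3_bit]
    rcases Nat.mod_two_eq_zero_or_one (Nat.shiftRight E (Nat.mod h 256)) with h4 | h4
    · have h' : Nat.mod (Nat.shiftRight E (Nat.mod h 256)) 2 = 0 := h4
      rw [h'] at h1
      exact absurd h1 (by simp)
    · exact h4
  obtain ⟨hc, ha⟩ := hE _ h3
  have hb := e3_pos hc
  refine hih _ _ _ _ hE ?_ hY h2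
  exact nad_inv M (Nat.mod_lt _ hb) (Nat.div_lt_of_lt_mul hc) hN ha

/-- E3d: the slot contains a face of value 1 containing the literal `(c % b2) ^^^ u` and the block
literal `b2 + 2 (c / b2) + u` (so `c / b2 < m` since the mask is `< 2 ^ (b2 + 2 m)`, and `u < 2`),
which are adjacent by `clq`; apply `anti` if `u = 1`. (`b2 > 0` holds, as otherwise `ful`... if
`b2 = 0`, then `c % 0 = c`, `c / 0 = 0`: the case can be excluded or treated: the hypothesis
`0 < b2` is given.) -/
theorem sEDGE_sound (M : Mdl b2 m rc full adj val) (hb : 0 < b2) {h E N Y : ℕ}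
    (hE : InvE b2 m adj E) (hN : InvN b2 m adj N) (hY : InvY b2 m val Y)
    (hih : ∀ h' E' N' Y', InvE b2 m adj E' → InvN b2 m adj N' → InvY b2 m val Y' →
      ih h' E' N' Y' = true → G)
    (hr : sEDGE b2 h E N Y ih = true) : G := by
  unfold sEDGE at hr
  obtain ⟨h1, h2⟩ := e3_rec_false hr
  rw [e3_beq] at h1
  set c := Nat.mod h 256 with hc
  set u := Nat.mod (Nat.div h 256) 2 with hu
  set s := Nat.mod (Nat.div h 512) 512 with hs
  have hu2 : u < 2 := Nat.mod_lt _ (by norm_num)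
  obtain ⟨y1, y2, -⟩ := hY s
  set S := slt Y s with hS
  have he := M.even
  have h1' : S &&& ((2 <<< ((c % b2) ^^^ u)) ||| (2 <<< (b2 + 2 * (c / b2) + u)) ||| 1) =
    ((2 <<< ((c % b2) ^^^ u)) ||| (2 <<< (b2 + 2 * (c / b2) + u)) ||| 1) := h1
  have hbit : ∀ i, ((2 <<< ((c % b2) ^^^ u)) ||| (2 <<< (b2 + 2 * (c / b2) + u)) ||| 1).testBit i = true →
      S.testBit i = true := by
    intro i hi
    rw [← h1', Nat.testBit_and, Bool.and_eq_true] at hi
    exact hi.1
  have h2sh : ∀ n : ℕ, (2 <<< n : ℕ) = 1 <<< (n + 1) := by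
    intro n
    rw [Nat.shiftLeft_eq, Nat.shiftLeft_eq, pow_succ]
    ring
  have b0 : S % 2 = 1 := by
    have := hbit 0 (by rw [Nat.testBit_or, Bool.or_eq_true]; right; rfl)
    rw [Nat.testBit_eq_decide_div_mod_eq, decide_eq_true_eq] at this
    simpa using this
  have b1 : (S / 2).testBit ((c % b2) ^^^ u) = true := by
    have := hbit ((c % b2 ^^^ u) + 1) (by
      rw [Nat.testBit_or, Nat.testBit_or, Bool.or_eq_true, Bool.or_eq_true, h2sh, e3_one_shl]
      left; left; rfl)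
    rwa [Nat.testBit_succ] at this
  have b2' : (S / 2).testBit (b2 + 2 * (c / b2) + u) = true := by
    have := hbit ((b2 + 2 * (c / b2) + u) + 1) (by
      rw [Nat.testBit_or, Nat.testBit_or, Bool.or_eq_true, Bool.or_eq_true, h2sh, h2sh, e3_one_shl,
        e3_one_shl]
      left; right; rfl)
    rwa [Nat.testBit_succ] at this
  have hv := y2 b0
  have hlt : b2 + 2 * (c / b2) + u < b2 + 2 * m := by
    by_contra hcon
    push Not at hcon
    have h3 : S / 2 < 2 ^ (b2 + 2 * (c / b2) + u) :=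
      lt_of_lt_of_le y1 (Nat.pow_le_pow_right (by norm_num) hcon)
    rw [Nat.testBit_lt_two_pow h3] at b2'
    exact absurd b2' (by simp)
  have hk : c / b2 < m := by omega
  have hcl : c < b2 * m := by
    have h3 := Nat.div_add_mod c b2
    have h4 := Nat.mod_lt c hb
    have h5 : b2 * (c / b2 + 1) ≤ b2 * m := Nat.mul_le_mul_left _ hk
    rw [Nat.mul_add, Nat.mul_one] at h5
    omega
  have hlb : (c % b2) ^^^ u < b2 := by
    have h4 := Nat.mod_lt c hb
    have hu' : u = 0 ∨ u = 1 := by omega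
    rcases hu' with hu' | hu'
    · rw [hu', Nat.xor_zero]; exact h4
    · rw [hu']
      rcases Nat.mod_two_eq_zero_or_one (c % b2) with h | h
      · rw [e3_xor_even h]; omega
      · rw [e3_xor_odd h]; omega
  have hadj := M.clq (S / 2) _ _ hv b1 b2' (by omega) (by omega) hlt
  have hA : AdjC b2 adj c := by
    unfold AdjC
    have hu' : u = 0 ∨ u = 1 := by omega
    rcases hu' with hu' | hu'
    · rw [hu', Nat.xor_zero, Nat.add_zero] at hadj
      exact hadj
    · rw [hu'] at hadj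
      have h3 := M.anti _ _ hadj
      have h4 : (b2 + 2 * (c / b2) + 1) ^^^ 1 = b2 + 2 * (c / b2) := by
        rw [e3_xor_odd (by omega)]; omega
      rwa [e3_xx, h4] at h3
  exact hih _ _ _ _ (e3_inv_add hE hcl hA) hN hY h2

/-- E3e -/
theorem sEND_sound (M : Mdl b2 m rc full adj val) {h E Y : ℕ}
    (hE : InvE b2 m adj E) (hY : InvY b2 m val Y)
    (hκ : ∀ Y', InvY b2 m val Y' → κ Y' = true → G)
    (hr : sEND κ h E Y = true) : G := by
  unfold sEND at hr
  cases h1 : Nat.beq (Nat.mod (Nat.shiftRight E (Nat.mod h 256)) 2) 1 with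
  | false =>
    rw [h1] at hr
    exact hκ Y hY hr
  | true =>
    rw [h1] at hr
    cases h2 : Nat.beq (Nat.mod (Nat.shiftRight E (Nat.xor (Nat.mod h 256) 1)) 2) 1 with
    | false =>
      rw [h2] at hr
      exact hκ Y hY hr
    | true =>
      rw [e3_beq, e3_bit] at h1 h2
      obtain ⟨hc, ha⟩ := hE _ h1
      exact (e3_excl M hc ha (hE _ h2).2).elim

end Steps

end Pool.Agent.H775
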