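import Pool.Agent.H775.EngE3

/-!
E4a - E4d (helper599). The two definitions `InvY`, `phi` are copied from the skeleton.
-/

set_option autoImplicit false

namespace Pool.Agent.H775

open Pool.Agent.TH651.RP5 (mkM testBit_mkM)

/-! copied from the skeleton -/

/-! end of the copied part -/

theorem e4_or_lt {a b n : ℕ} (ha : a < 2 ^ n) (hb : b < 2 ^ n) : a ||| b < 2 ^ n :=
  Nat.or_lt_two_pow ha hb

/-- E2c: pushing a value -/
theorem e4_invY_push {b2 m : ℕ} {val : ℕ → ZMod 2} {Y F v : ℕ} (hnl : b2 + 2 * m ≤ 62)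
    (hY : InvY b2 m val Y)
    (hF : F < 2 ^ (b2 + 2 * m)) (hv : v < 2) (h1 : v = 1 → val F = 1) (h0 : v = 0 → val F = 0) :
    InvY b2 m val ((Y <<< 64) ||| (2 * F + v)) := by
  have hFb : F < 2 ^ 62 := lt_of_lt_of_le hF (Nat.pow_le_pow_right (by norm_num) hnl)
  have ha : 2 * F + v < 2 ^ 64 := by
    have e1 : (2:ℕ) ^ 64 = 4 * 2 ^ 62 := by norm_num
    omega
  have hslt : ∀ Z s, slt Z s = (Z >>> (64 * s)) % 2 ^ 64 := by
    intro Z s
    have : slt Z s = (Z >>> (64 * s)) &&& (2 ^ 64 - 1) := rfl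
    rw [this, Nat.and_two_pow_sub_one_eq_mod]
  intro s
  rcases s with _ | s
  · have e : slt ((Y <<< 64) ||| (2 * F + v)) 0 = 2 * F + v := by
      rw [hslt]
      apply Nat.eq_of_testBit_eq
      intro i
      rw [Nat.testBit_mod_two_pow, Nat.mul_zero, Nat.shiftRight_zero, Nat.testBit_or,
        Nat.testBit_shiftLeft]
      by_cases hi : i < 64
      · have : ¬ 64 ≤ i := by omega
        simp [hi, this]
      · have : (2 * F + v).testBit i = false :=
          Nat.testBit_lt_two_pow (lt_of_lt_of_le ha (Nat.pow_le_pow_right (by norm_num) (by omega)))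
        simp [hi, this]
    rw [e]
    have e2 : (2 * F + v) / 2 = F := by omega
    have e3 : (2 * F + v) % 2 = v := by omega
    rw [e2, e3]
    exact ⟨hF, h1, h0⟩
  · have e : slt ((Y <<< 64) ||| (2 * F + v)) (s + 1) = slt Y s := by
      rw [hslt, hslt]
      apply Nat.eq_of_testBit_eq
      intro i
      rw [Nat.testBit_mod_two_pow, Nat.testBit_mod_two_pow]
      by_cases hi : i < 64
      · simp only [hi, decide_true, Bool.true_and]
        rw [Nat.testBit_shiftRight, Nat.testBit_shiftRight, Nat.testBit_or, Nat.testBit_shiftLeft]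
        have h64 : 64 ≤ 64 * (s + 1) + i := by omega
        have h3 : (2 * F + v).testBit (64 * (s + 1) + i) = false :=
          Nat.testBit_lt_two_pow (lt_of_lt_of_le ha (Nat.pow_le_pow_right (by norm_num) h64))
        have h4 : 64 * (s + 1) + i - 64 = 64 * s + i := by omega
        rw [h3, h4, Bool.or_false]
        simp [h64]
      · simp [hi]
    rw [e]
    exact hY s

theorem rdR_gen {N : ℕ} {κ3 : ℕ → ℕ → ℕ → Bool} : ∀ (rc h R X : ℕ) (L0 : List ℕ), R = mkM L0 →
    (∀ z, X.testBit z = true → ∃ l ∈ L0, N.testBit (64 * l + z) = true) →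
    rdR N rc h R X κ3 = true → ∃ (L : List ℕ) (h' R' X' : ℕ), L.length = rc + L0.length ∧
      R' = mkM L ∧ (∀ z, X'.testBit z = true → ∃ l ∈ L, N.testBit (64 * l + z) = true) ∧
      κ3 h' R' X' = true := by
  intro rc
  induction rc with
  | zero =>
    intro h R X L0 hR hX hr
    exact ⟨L0, h, R, X, by simp, hR, hX, hr⟩
  | succ rc ih =>
    intro h R X L0 hR hX hr
    have hr' : rdR N rc (h / 64) (R ||| (1 <<< (h % 64))) (X ||| (N >>> (64 * (h % 64)))) κ3 = true :=
      hr
    obtain ⟨L, h', R', X', h1, h2, h3, h4⟩ := ih (h / 64) _ _ ((h % 64) :: L0)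
      (by rw [hR]; rfl)
      (by
        intro z hz
        rw [Nat.testBit_or, Bool.or_eq_true] at hz
        rcases hz with hz | hz
        · obtain ⟨l, hl, hl'⟩ := hX z hz
          exact ⟨l, List.mem_cons_of_mem _ hl, hl'⟩
        · rw [Nat.testBit_shiftRight] at hz
          exact ⟨h % 64, List.mem_cons_self, hz⟩) hr'
    refine ⟨L, h', R', X', ?_, h2, h3, h4⟩
    rw [h1, List.length_cons]; omega

/-- E4a: reading `rc` literals `L` -/
theorem rdR_sound {N rc : ℕ} {κ3 : ℕ → ℕ → ℕ → Bool} {h : ℕ}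
    (hr : rdR N rc h 0 0 κ3 = true) : ∃ (L : List ℕ) (h' R X : ℕ), L.length = rc ∧ R = mkM L ∧
      (∀ z, X.testBit z = true → ∃ l ∈ L, N.testBit (64 * l + z) = true) ∧ κ3 h' R X = true := by
  obtain ⟨L, h', R, X, h1, h2, h3, h4⟩ := rdR_gen rc h 0 0 [] rfl (by simp) hr
  exact ⟨L, h', R, X, by simpa using h1, h2, h3, h4⟩

section Steps

variable {b2 m rc FM DB bound GT : ℕ} {full : List ℕ} {adj : ℕ → ℕ → Prop} {val : ℕ → ZMod 2}
variable {κ : ℕ → Bool} {G : Prop} {ih : ℕ → ℕ → ℕ → ℕ → Bool}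

/-- E4b -/
theorem phi_xor (NL R S T : ℕ) : phi val NL R (S ^^^ T) = phi val NL R S + phi val NL R T := by
  unfold phi
  rw [← Finset.sum_add_distrib]
  apply Finset.sum_congr rfl
  intro z _
  rw [Nat.testBit_xor]
  rcases S.testBit z <;> rcases T.testBit z <;> simp
  exact (CharTwo.add_self_eq_zero _).symm

theorem phi_zero (NL R : ℕ) : phi val NL R 0 = 0 := by
  unfold phi
  apply Finset.sum_eq_zero
  intro z _
  simp

theorem phi_one (NL R z : ℕ) (hz : z < NL) : phi val NL R (1 <<< z) = val (R ||| (1 <<< z)) := by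
  unfold phi
  rw [Finset.sum_eq_single z]
  · simp [Nat.testBit_shiftLeft]
  · intro w _ hw
    have : (1 <<< z : ℕ).testBit w = false := by
      rw [Nat.one_shiftLeft, Nat.testBit_two_pow]
      exact decide_eq_false (Ne.symm hw)
    simp [this]
  · intro h; exact absurd (Finset.mem_range.2 hz) h

theorem e4_lt_of_or {R z n : ℕ} (h : R ||| (1 <<< z) < 2 ^ n) : z < n := by
  by_contra hcon
  push Not at hcon
  have h1 : (R ||| (1 <<< z)).testBit z = true := by
    rw [Nat.testBit_or, Nat.one_shiftLeft, Nat.testBit_two_pow_self, Bool.or_true]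
  have h2 : (R ||| (1 <<< z)).testBit z = false :=
    Nat.testBit_lt_two_pow (lt_of_lt_of_le h (Nat.pow_le_pow_right (by norm_num) hcon))
  rw [h1] at h2
  exact Bool.noConfusion h2

/-- the value read from a slot -/
theorem e4_slot {Y s F v : ℕ} (hY : InvY b2 m val Y) (hv : v < 2) (h : slt Y s = 2 * F + v) :
    F < 2 ^ (b2 + 2 * m) ∧ val F = (v : ZMod 2) := by
  obtain ⟨h1, h2, h3⟩ := hY s
  have e2 : slt Y s / 2 = F := by omega
  have e3 : slt Y s % 2 = v := by omega
  rw [e2] at h1 h2 h3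
  rw [e3] at h2 h3
  refine ⟨h1, ?_⟩
  have : v = 0 ∨ v = 1 := by omega
  rcases this with rfl | rfl
  · rw [h3 rfl]; rfl
  · rw [h2 rfl]; rfl

/-- E4c: reading items keeps `phi acc + par` constant -/
theorem rdI_sound {Y R cnt : ℕ} (hnl : b2 + 2 * m ≤ 62) (hY : InvY b2 m val Y)
    {κ3 : ℕ → ℕ → ℕ → Bool} {h acc par : ℕ}
    (hr : rdI Y R cnt h acc par κ3 = true) : ∃ h' acc' par' : ℕ,
      phi val (b2 + 2 * m) R acc' + (par' : ZMod 2) = phi val (b2 + 2 * m) R acc + (par : ZMod 2) ∧
      κ3 h' acc' par' = true := by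
  induction cnt generalizing h acc par with
  | zero => exact ⟨h, acc, par, rfl, hr⟩
  | succ cnt ih =>
    have hr1 : (Bool.rec false
        (rdI Y R cnt (h / 65536) (acc ^^^ (1 <<< (h % 64))) (par + (h / 64) % 2) κ3)
        (Nat.beq (slt Y ((h / 128) % 512)) (2 * (R ||| (1 <<< (h % 64))) + (h / 64) % 2)) : Bool)
        = true := hr
    cases hb : Nat.beq (slt Y ((h / 128) % 512)) (2 * (R ||| (1 <<< (h % 64))) + (h / 64) % 2) with
    | false => rw [hb] at hr1; exact Bool.noConfusion hr1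
    | true =>
      rw [hb] at hr1
      have hb' := Nat.eq_of_beq_eq_true hb
      obtain ⟨h1, h2⟩ := e4_slot hY (Nat.mod_lt _ (by norm_num)) hb'
      have hz := e4_lt_of_or h1
      obtain ⟨h', acc', par', h3, h4⟩ := ih hr1
      refine ⟨h', acc', par', ?_, h4⟩
      rw [h3, phi_xor, phi_one _ _ _ hz, h2, Nat.cast_add]
      have : ((h / 64 % 2 : ℕ) : ZMod 2) + ((h / 64 % 2 : ℕ) : ZMod 2) = 0 :=
        CharTwo.add_self_eq_zero _
      linear_combination this

/-- E4d: linear steps: if `phi (X &&& M) = 0` and `phi M = rhs` -/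
theorem lin_sound {Y Mk rhs z cnt h R X : ℕ} {κ2 : ℕ → ℕ → Bool} (hnl : b2 + 2 * m ≤ 62)
    (hY : InvY b2 m val Y) (hR : R < 2 ^ (b2 + 2 * m)) (hM : Mk < 2 ^ (b2 + 2 * m))
    (h0 : phi val (b2 + 2 * m) R (X &&& Mk) = 0)
    (h1 : phi val (b2 + 2 * m) R Mk = (rhs : ZMod 2))
    (hκ : ∀ h' Y', InvY b2 m val Y' → κ2 h' Y' = true → G)
    (hr : lin Y Mk rhs z cnt h R X κ2 = true) : G := by
  obtain ⟨h', acc, par, h2, h3⟩ := rdI_sound (κ3 := linE Mk z R Y κ2) hnl hY
    (show rdI Y R cnt h (X &&& Mk) rhs (linE Mk z R Y κ2) = true from hr)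
  rw [h0, zero_add] at h2
  have h4 : (Bool.rec false
      (Bool.rec
        (κ2 h' ((Y <<< 64) ||| (2 * (R ||| ((1 <<< z) &&& Mk)) + par % 2)))
        (Nat.beq (par % 2) 1)
        (Nat.beq ((1 <<< z) &&& Mk) 0) : Bool)
      (Nat.beq (acc ^^^ ((1 <<< z) &&& Mk)) Mk) : Bool) = true := h3
  cases hb : Nat.beq (acc ^^^ ((1 <<< z) &&& Mk)) Mk with
  | false => rw [hb] at h4; exact Bool.noConfusion h4
  | true =>
    rw [hb] at h4
    have hb' := Nat.eq_of_beq_eq_true hb
    -- phi of the mask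
    have h5 : phi val (b2 + 2 * m) R ((1 <<< z) &&& Mk) = (par : ZMod 2) := by
      have e := phi_xor (val := val) (b2 + 2 * m) R acc ((1 <<< z) &&& Mk)
      rw [hb', h1] at e
      linear_combination (-1 : ZMod 2) * e - h2
    have hpar : (par : ZMod 2) = ((par % 2 : ℕ) : ZMod 2) := by simp
    cases hc : Nat.beq ((1 <<< z) &&& Mk) 0 with
    | true =>
      exfalso
      rw [hc] at h4
      have h4' : Nat.beq (par % 2) 1 = true := h4
      have h6 := Nat.eq_of_beq_eq_true h4'
      have h7 := Nat.eq_of_beq_eq_true hc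
      rw [h7, phi_zero, hpar, h6] at h5
      exact zero_ne_one h5
    | false =>
      rw [hc] at h4
      have h4' : κ2 h' ((Y <<< 64) ||| (2 * (R ||| ((1 <<< z) &&& Mk)) + par % 2)) = true := h4
      have h7 : (1 <<< z) &&& Mk ≠ 0 := by
        intro h8
        rw [h8] at hc
        exact Bool.noConfusion hc
      -- the bit z of Mk is set
      have h8 : Mk.testBit z = true := by
        by_contra hcon
        rw [Bool.not_eq_true] at hcon
        apply h7
        apply Nat.eq_of_testBit_eq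
        intro i
        rw [Nat.testBit_and, Nat.zero_testBit, Nat.one_shiftLeft, Nat.testBit_two_pow]
        by_cases hi : z = i
        · subst hi; simp [hcon]
        · simp [hi]
      have h9 : (1 <<< z) &&& Mk = 1 <<< z := by
        apply Nat.eq_of_testBit_eq
        intro i
        rw [Nat.testBit_and, Nat.one_shiftLeft, Nat.testBit_two_pow]
        by_cases hi : z = i
        · subst hi; simp [h8]
        · simp [hi]
      have hz : z < b2 + 2 * m := by
        by_contra hcon
        push Not at hcon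
        rw [Nat.testBit_lt_two_pow (lt_of_lt_of_le hM (Nat.pow_le_pow_right (by norm_num) hcon))] at h8
        exact Bool.noConfusion h8
      rw [h9] at h4' h5
      rw [phi_one _ _ _ hz, hpar] at h5
      refine hκ _ _ (e4_invY_push hnl hY ?_ (Nat.mod_lt _ (by norm_num)) ?_ ?_) h4'
      · apply e4_or_lt hR
        rw [Nat.one_shiftLeft]
        exact Nat.pow_lt_pow_right (by norm_num) hz
      · intro h10; rw [h5, h10]; rfl
      · intro h10; rw [h5, h10]; rfl

end Steps

end Pool.Agent.H775
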