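import Pool.Agent.H775.EngE4

/-!
E4e, E4f: soundness of the linear steps `sXOR`, `sFULL`.
-/

set_option autoImplicit false

namespace Pool.Agent.H775

open Pool.Agent.TH651.RP5 (mkM testBit_mkM)

theorem e4b_testBit_lt {R NL l : ℕ} (hR : R < 2 ^ NL) (h : R.testBit l = true) : l < NL := by
  by_contra hc
  have h1 : R < 2 ^ l := lt_of_lt_of_le hR (Nat.pow_le_pow_right (by norm_num) (not_lt.mp hc))
  rw [Nat.testBit_lt_two_pow h1] at h
  exact absurd h (by simp)

theorem e4b_or_self {L : List ℕ} {z : ℕ} (hz : z ∈ L) : mkM L ||| (1 <<< z) = mkM L := by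
  apply Nat.eq_of_testBit_eq
  intro i
  rw [Nat.testBit_lor, Nat.one_shiftLeft, Nat.testBit_two_pow]
  by_cases h : z = i
  · subst h
    rw [(testBit_mkM _ _).mpr hz]
    simp
  · simp [h]

theorem e4b_zmod2 (x : ZMod 2) (h : x ≠ 1) : x = 0 := by
  revert x; decide

/-- bits of `(4 ^ m - 1) / 3` -/
theorem e4b_quarter (m j : ℕ) : ((4 ^ m - 1) / 3).testBit j = true ↔ j % 2 = 0 ∧ j / 2 < m := by
  induction m generalizing j with
  | zero => simp
  | succ m ih =>
    have h4 : (4 ^ (m + 1) - 1) / 3 = 2 ^ 2 * ((4 ^ m - 1) / 3) + 1 := by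
      have h3 : 3 ∣ 4 ^ m - 1 := by
        have := Nat.sub_dvd_pow_sub_pow 4 1 m
        simpa using this
      obtain ⟨c, hc⟩ := h3
      have h1 : 1 ≤ 4 ^ m := Nat.one_le_pow _ _ (by norm_num)
      have h5 : 4 ^ m = 3 * c + 1 := by omega
      rw [pow_succ, h5]
      omega
    rw [h4, Nat.testBit_two_pow_mul_add _ (by norm_num)]
    by_cases hj : j < 2
    · rw [if_pos hj]
      interval_cases j
      · simp
      · simp [Nat.testBit]
    · rw [if_neg hj, ih]
      omega

/-- bits of the mask of the block -/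
theorem e4b_mask (b2 u m z : ℕ) : (((4 ^ m - 1) / 3) <<< (b2 + u)).testBit z = true ↔
    ∃ k < m, z = b2 + 2 * k + u := by
  rw [Nat.testBit_shiftLeft, Bool.and_eq_true, decide_eq_true_iff, e4b_quarter]
  constructor
  · rintro ⟨h1, h2, h3⟩
    exact ⟨(z - (b2 + u)) / 2, h3, by omega⟩
  · rintro ⟨k, hk, rfl⟩
    refine ⟨by omega, by omega, by omega⟩

section Steps

variable {b2 m rc FM DB bound GT : ℕ} {full : List ℕ} {adj : ℕ → ℕ → Prop} {val : ℕ → ZMod 2}
variable {κ : ℕ → Bool} {G : Prop} {ih : ℕ → ℕ → ℕ → ℕ → Bool}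

/-- a vertex which is not adjacent to a vertex of the ridge contributes zero -/
theorem e4b_val (M : Mdl b2 m rc full adj val) {N : ℕ} (hN : InvN b2 m adj N) {L : List ℕ}
    (hL : L.length = rc) (hR : mkM L < 2 ^ (b2 + 2 * m)) {z : ℕ} (hz : z < b2 + 2 * m)
    (h : ∃ l ∈ L, N.testBit (64 * l + z) = true) : val (mkM L ||| (1 <<< z)) = 0 := by
  by_cases hzL : z ∈ L
  · rw [e4b_or_self hzL]
    exact M.zero L hL.le
  · obtain ⟨l, hl, hb⟩ := h
    apply e4b_zmod2
    intro hv
    have hlt : l < b2 + 2 * m := e4b_testBit_lt hR ((testBit_mkM _ _).mpr hl)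
    have hlz : l ≠ z := by
      rintro rfl
      exact hzL hl
    refine hN l z hlt hz hb (M.clq _ l z hv ?_ ?_ hlz hlt hz)
    · rw [Nat.testBit_lor, (testBit_mkM _ _).mpr hl, Bool.true_or]
    · rw [Nat.testBit_lor, Nat.one_shiftLeft, Nat.testBit_two_pow]
      simp

theorem e4b_phi0 (M : Mdl b2 m rc full adj val) {N : ℕ} (hN : InvN b2 m adj N) {L : List ℕ}
    (hL : L.length = rc) (hR : mkM L < 2 ^ (b2 + 2 * m)) {X : ℕ}
    (hX : ∀ z, X.testBit z = true → ∃ l ∈ L, N.testBit (64 * l + z) = true) (Mk : ℕ) :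
    phi val (b2 + 2 * m) (mkM L) (X &&& Mk) = 0 := by
  unfold phi
  apply Finset.sum_eq_zero
  intro z hz
  rw [Finset.mem_range] at hz
  by_cases hb : (X &&& Mk).testBit z = true
  · rw [if_pos hb]
    rw [Nat.testBit_land, Bool.and_eq_true] at hb
    exact e4b_val M hN hL hR hz (hX z hb.1)
  · rw [if_neg hb]

/-- E4e -/
theorem sXOR_sound (M : Mdl b2 m rc full adj val) (hFM : FM = 2 ^ (b2 + 2 * m) - 1) {h E N Y : ℕ}
    (hE : InvE b2 m adj E) (hN : InvN b2 m adj N) (hY : InvY b2 m val Y)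
    (hih : ∀ h' E' N' Y', InvE b2 m adj E' → InvN b2 m adj N' → InvY b2 m val Y' →
      ih h' E' N' Y' = true → G)
    (hr : sXOR FM rc h E N Y ih = true) : G := by
  obtain ⟨L, h', R, X, hL, hRL, hX, hk⟩ := rdR_sound (show rdR N rc (Nat.div h 2048) 0 0 _ = true from hr)
  subst hRL
  cases hc : Nat.ble (mkM L) FM with
  | false => rw [hc] at hk; exact absurd hk (by simp)
  | true =>
    rw [hc] at hk
    have hle : mkM L ≤ FM := Nat.le_of_ble_eq_true hc
    have hpos : 0 < 2 ^ (b2 + 2 * m) := Nat.two_pow_pos _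
    have hR : mkM L < 2 ^ (b2 + 2 * m) := by omega
    have hlt : ∀ l ∈ L, l < b2 + 2 * m := fun l hl => e4b_testBit_lt hR ((testBit_mkM _ _).mpr hl)
    refine lin_sound (G := G) M.hnl hY hR (by omega) (e4b_phi0 M hN hL hR hX FM) ?_ ?_ hk
    · have h1 := M.cyc L hL hlt
      unfold phi
      rw [Nat.cast_zero, ← h1]
      apply Finset.sum_congr rfl
      intro z hz
      rw [Finset.mem_range] at hz
      rw [if_pos]
      rw [hFM, Nat.testBit_two_pow_sub_one]
      simpa using hz
    · intro h2 Y' hY' hi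
      exact hih h2 E N Y' hE hN hY' hi

/-- E4f: `(4^m - 1)/3 = ∑_{k<m} 4^k`, so the mask is `∑_k 2^(b2 + 2 k + u)` -/
theorem sFULL_sound (M : Mdl b2 m rc full adj val) (hG : GTok full GT) {h E N Y : ℕ}
    (hE : InvE b2 m adj E) (hN : InvN b2 m adj N) (hY : InvY b2 m val Y)
    (hih : ∀ h' E' N' Y', InvE b2 m adj E' → InvN b2 m adj N' → InvY b2 m val Y' →
      ih h' E' N' Y' = true → G)
    (hr : sFULL b2 m GT rc h E N Y ih = true) : G := by
  obtain ⟨L, h', R, X, hL, hRL, hX, hk⟩ :=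
    rdR_sound (show rdR N rc (Nat.div h 524288) 0 0 _ = true from hr)
  subst hRL
  cases hc : Nat.beq (ent GT 32 4294967295 (Nat.lor (Nat.mod h 256) 1)) (mkM L) with
  | false => rw [hc] at hk; exact absurd hk (by simp)
  | true =>
    rw [hc] at hk
    have heq : ent GT 32 4294967295 (Nat.lor (Nat.mod h 256) 1) = mkM L := Nat.eq_of_beq_eq_true hc
    have hfull : mkM L ∈ full := by
      rcases hG (Nat.mod h 256) with h1 | h1
      · exfalso
        have h0 : mkM L = 0 := by rw [← heq]; exact h1.2.2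
        have hne : L ≠ [] := by
          rintro rfl
          have := M.hrc
          simp at hL
          omega
        obtain ⟨l, hl⟩ := List.exists_mem_of_ne_nil L hne
        have := (testBit_mkM _ _).mpr hl
        rw [h0] at this
        simp at this
      · rw [← heq]; exact h1.1
    have hRb : mkM L < 2 ^ b2 := M.fullb _ hfull
    have hR : mkM L < 2 ^ (b2 + 2 * m) :=
      lt_of_lt_of_le hRb (Nat.pow_le_pow_right (by norm_num) (by omega))
    have hu : Nat.mod h 2 ≤ 1 := by
      have := Nat.mod_lt h (show 0 < 2 by norm_num)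
      exact Nat.le_of_lt_succ this
    obtain ⟨u, hue⟩ : ∃ u, u = Nat.mod h 2 := ⟨_, rfl⟩
    rw [← hue] at hu
    have hMk : ∀ z, (Nat.shiftLeft (Nat.div (Nat.sub (Nat.pow 4 m) 1) 3)
        (Nat.add b2 (Nat.mod h 2))).testBit z = true ↔ ∃ k < m, z = b2 + 2 * k + u := by
      intro z
      rw [← hue]
      exact e4b_mask b2 u m z
    refine lin_sound (G := G) M.hnl hY hR ?_ (e4b_phi0 M hN hL hR hX _) ?_ ?_ hk
    · apply Nat.lt_pow_two_of_testBit
      intro i hi
      by_contra hcon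
      rw [Bool.not_eq_false, hMk] at hcon
      obtain ⟨k, hk1, rfl⟩ := hcon
      omega
    · have h1 := M.ful _ hfull u hu
      unfold phi
      rw [Nat.cast_one, ← h1]
      rw [← Finset.sum_filter]
      symm
      apply Finset.sum_bij (fun k _ => b2 + 2 * k + u)
      · intro k hk1
        rw [Finset.mem_range] at hk1
        rw [Finset.mem_filter, Finset.mem_range, hMk]
        exact ⟨by omega, k, hk1, rfl⟩
      · intro k _ k' _ h2
        omega
      · intro z hz
        rw [Finset.mem_filter, hMk] at hz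
        obtain ⟨-, k, hk1, rfl⟩ := hz
        exact ⟨k, Finset.mem_range.mpr hk1, rfl⟩
      · intro k _
        rfl
    · intro h2 Y' hY' hi
      exact hih h2 E N Y' hE hN hY' hi

end Steps

end Pool.Agent.H775
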