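import Pool.Agent.H775.EngE5

set_option autoImplicit false

namespace Pool.Agent.H775

open Pool.Agent.TH651.RP5 (mkM testBit_mkM)

section Steps

variable {b2 m rc FM DB bound GT : ℕ} {full : List ℕ} {adj : ℕ → ℕ → Prop} {val : ℕ → ZMod 2}
variable {κ : ℕ → Bool} {G : Prop} {ih : ℕ → ℕ → ℕ → ℕ → Bool}

/-- E5a -/
theorem run_sound (M : Mdl b2 m rc full adj val) (hb : 0 < b2) (hFM : FM = 2 ^ (b2 + 2 * m) - 1)
    (hG : GTok full GT)
    (hDB : ∀ i < bound, clT b2 m adj (ent DB 132 5444517870735015415413993718908291383295 i))
    (hκ : ∀ Y', InvY b2 m val Y' → κ Y' = true → G) :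
    ∀ fuel h E N Y, InvE b2 m adj E → InvN b2 m adj N → InvY b2 m val Y →
      run b2 m rc FM GT DB bound κ fuel h E N Y = true → G := by
  intro fuel
  induction fuel with
  | zero => intro h E N Y _ _ _ hr; exact absurd hr (by simp [run])
  | succ n IH =>
    intro h E N Y hE hN hY hr
    have key : ∀ (F0 F1 F2 F3 F4 F5 F6 F7 : Bool),
        (F0 = true → G) → (F1 = true → G) → (F2 = true → G) → (F3 = true → G) →
        (F4 = true → G) → (F5 = true → G) → (F6 = true → G) → (F7 = true → G) →
        ∀ (c0 c1 c2 c3 c4 c5 c6 : Bool),
        (Bool.rec (motive := fun _ => Bool) (Bool.rec (motive := fun _ => Bool)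
          (Bool.rec (motive := fun _ => Bool) (Bool.rec (motive := fun _ => Bool)
          (Bool.rec (motive := fun _ => Bool) (Bool.rec (motive := fun _ => Bool)
          (Bool.rec (motive := fun _ => Bool) F7 F5 c5) F3 c3) F6 c6) F4 c4) F2 c2) F1 c1) F0 c0) = true →
          G := by
      intro F0 F1 F2 F3 F4 F5 F6 F7 h0 h1 h2 h3 h4 h5 h6 h7 c0 c1 c2 c3 c4 c5 c6 hh
      cases c0
      · cases c1
        · cases c2
          · cases c4
            · cases c6
              · cases c3
                · cases c5
                  · exact h7 hh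
                  · exact h5 hh
                · exact h3 hh
              · exact h6 hh
            · exact h4 hh
          · exact h2 hh
        · exact h1 hh
      · exact h0 hh
    refine key _ _ _ _ _ _ _ _ ?_ ?_ ?_ ?_ ?_ ?_ ?_ ?_ _ _ _ _ _ _ _ hr
    · exact sCOV_sound M hG hE hN hY IH
    · exact sUNIT_sound M hDB hE hN hY IH
    · exact sNADD_sound M hE hN hY IH
    · exact sEDGE_sound M hb hE hN hY IH
    · exact sXOR_sound M hFM hE hN hY IH
    · exact sFULL_sound M hG hE hN hY IH
    · exact sCOVS_sound M hG hE hN hY IH
    · exact sEND_sound M hE hY hκ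

theorem invY_zero (M : Mdl b2 m rc full adj val) : InvY b2 m val 0 := by
  intro s
  have h0 : slt 0 s = 0 := by
    show Nat.land (Nat.shiftRight 0 (Nat.mul 64 s)) 18446744073709551615 = 0
    have : Nat.shiftRight 0 (Nat.mul 64 s) = 0 := by
      show 0 >>> (64 * s) = 0
      simp
    rw [this]
    rfl
  have hv : val 0 = 0 := by
    have := M.zero [] (by simp)
    simpa [mkM] using this
  rw [h0]
  refine ⟨by positivity, ?_, ?_⟩
  · intro h; simp at h
  · intro _; exact hv

theorem ent_lt (T i c : ℕ) (h : (ent T 132 5444517870735015415413993718908291383295 i).testBit c = true) :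
    c < 132 := by
  by_contra hc
  have h1 : ent T 132 5444517870735015415413993718908291383295 i < 2 ^ 132 := by
    have : ent T 132 5444517870735015415413993718908291383295 i ≤
        5444517870735015415413993718908291383295 := Nat.and_le_right
    calc _ ≤ 5444517870735015415413993718908291383295 := this
      _ < 2 ^ 132 := by norm_num
  have h2 := Nat.testBit_lt_two_pow (lt_of_lt_of_le h1
    (Nat.pow_le_pow_right (by norm_num) (not_lt.1 hc)))
  rw [h2] at h
  exact absurd h (by simp)

/-- E5b -/
theorem chk_sound (M : Mdl b2 m rc full adj val) (hb : 0 < b2) (hFM : FM = 2 ^ (b2 + 2 * m) - 1)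
    (hG : GTok full GT) (h132 : b2 * m = 132) {E0 N0 : ℕ} (hE : InvE b2 m adj E0)
    (hN : InvN b2 m adj N0) : ∀ (L : List ℕ) (i : ℕ),
      (∀ j < i, clT b2 m adj (ent DB 132 5444517870735015415413993718908291383295 j)) →
      chk b2 m rc FM GT DB E0 N0 L i = true →
      ∀ j < i + L.length, clT b2 m adj (ent DB 132 5444517870735015415413993718908291383295 j) := by
  intro L
  induction L with
  | nil => intro i hi _ j hj; exact hi j (by simpa using hj)
  | cons h L IH =>
    intro i hi hc
    have hc' : (Bool.rec (motive := fun _ => Bool) false (chk b2 m rc FM GT DB E0 N0 L (i + 1))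
      (run b2 m rc FM GT DB i (fun _ => false) 2000 (Nat.div h 1048576)
        (Nat.lor E0 (ent DB 132 5444517870735015415413993718908291383295 i)) N0 0)) = true := by
      have e : chk b2 m rc FM GT DB E0 N0 (h :: L) i =
        (Bool.rec (motive := fun _ => Bool) false
          (Pool.Agent.TH651.RP5.st (Nat.add i 1) (chk b2 m rc FM GT DB E0 N0 L))
          (run b2 m rc FM GT DB i (fun _ => false) 2000 (Nat.div h 1048576)
          (Nat.lor E0 (ent DB 132 5444517870735015415413993718908291383295 i)) N0 0)) := rfl
      rw [e, Pool.Agent.TH651.RP5.st_eq] at hc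
      exact hc
    have hsplit : run b2 m rc FM GT DB i (fun _ => false) 2000 (Nat.div h 1048576)
        (Nat.lor E0 (ent DB 132 5444517870735015415413993718908291383295 i)) N0 0 = true ∧
        chk b2 m rc FM GT DB E0 N0 L (i + 1) = true := by
      revert hc'
      generalize run b2 m rc FM GT DB i (fun _ => false) 2000 (Nat.div h 1048576)
        (Nat.lor E0 (ent DB 132 5444517870735015415413993718908291383295 i)) N0 0 = c
      intro hc'
      cases c
      · exact absurd hc' (by simp)
      · exact ⟨rfl, hc'⟩
    have hcl : clT b2 m adj (ent DB 132 5444517870735015415413993718908291383295 i) := by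
      by_contra hno
      unfold clT at hno
      push Not at hno
      have hE' : InvE b2 m adj (Nat.lor E0 (ent DB 132 5444517870735015415413993718908291383295 i)) := by
        intro c hc
        have hc2 : (E0 ||| ent DB 132 5444517870735015415413993718908291383295 i).testBit c = true := hc
        rw [Nat.testBit_or, Bool.or_eq_true] at hc2
        rcases hc2 with h1 | h1
        · exact hE c h1
        · have hlt : c < b2 * m := by
            rw [h132]; exact ent_lt _ _ _ h1
          exact ⟨hlt, hno c hlt h1⟩
      exact run_sound (G := False) M hb hFM hG hi (fun _ _ h => absurd h (by simp)) 2000 _ _ N0 0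
        hE' hN (invY_zero M) hsplit.1
    intro j hj
    refine IH (i + 1) ?_ hsplit.2 j ?_
    · intro j' hj'
      rcases Nat.lt_succ_iff_lt_or_eq.1 hj' with h1 | h1
      · exact hi j' h1
      · rw [h1]; exact hcl
    · rw [List.length_cons] at hj
      omega

end Steps

end Pool.Agent.H775
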