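import Pool.Agent.H775.Gl11
import Pool.Agent.H775.Cs0
import Pool.Agent.H775.Cs1
import Pool.Agent.H775.Cs2
import Pool.Agent.H775.Cs3
import Pool.Agent.H775.Cs4
import Pool.Agent.H775.Cs5
import Pool.Agent.H775.Cs6
import Pool.Agent.H775.Cs7
import Pool.Agent.H775.Cs8
import Pool.Agent.H775.Cs9
import Pool.Agent.H775.Cs10
import Pool.Agent.H775.Cs11
import Pool.Agent.H775.Cs12
import Pool.Agent.H775.Cs13
import Pool.Agent.H775.Cs14
import Pool.Agent.H775.Kc0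
import Pool.Agent.H775.Kc1
import Pool.Agent.H775.Kc2
import Pool.Agent.H775.Kc3
import Pool.Agent.H775.Kc4
import Pool.Agent.H775.Kc5
import Pool.Agent.H775.Kc6
import Pool.Agent.H775.Kc7
import Pool.Agent.H775.Sp176
import Pool.Agent.H775.Sp209
import Pool.Agent.H775.Sp217
import Pool.Agent.H775.Tsix

/-!
Assembly: 23 pairs do not carry a symmetric good cycle of dimension five.
-/

set_option autoImplicit false
set_option maxRecDepth 1000000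
set_option maxHeartbeats 0

namespace Pool.Agent.H775

open Pool.Agent.TH651.RP5

section

variable {X : Type} [Fintype X] [DecidableEq X] {g : SG X}

theorem all_cls : ∀ c ∈ CLS, QC g c := by
  unfold CLS
  exact List.forall_mem_cons.mpr ⟨qc0,
    List.forall_mem_cons.mpr ⟨qc1,
    List.forall_mem_cons.mpr ⟨qc2,
    List.forall_mem_cons.mpr ⟨qc3,
    List.forall_mem_cons.mpr ⟨qc4,
    List.forall_mem_cons.mpr ⟨qc5,
    List.forall_mem_cons.mpr ⟨qc6,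
    List.forall_mem_cons.mpr ⟨qc7,
    List.forall_mem_cons.mpr ⟨qc8,
    List.forall_mem_cons.mpr ⟨qc9,
    List.forall_mem_cons.mpr ⟨qc10,
    List.forall_mem_cons.mpr ⟨qc11,
    List.forall_mem_cons.mpr ⟨qc12,
    List.forall_mem_cons.mpr ⟨qc13,
    List.forall_mem_cons.mpr ⟨qc14,
    List.forall_mem_cons.mpr ⟨qc15,
    List.forall_mem_cons.mpr ⟨qc16,
    List.forall_mem_cons.mpr ⟨qc17,
    List.forall_mem_cons.mpr ⟨qc18,
    List.forall_mem_cons.mpr ⟨qc19,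
    List.forall_mem_cons.mpr ⟨qc20,
    List.forall_mem_cons.mpr ⟨qc21,
    List.forall_mem_cons.mpr ⟨qc22,
    List.forall_mem_cons.mpr ⟨qc23,
    List.forall_mem_cons.mpr ⟨qc24,
    List.forall_mem_cons.mpr ⟨qc25,
    List.forall_mem_cons.mpr ⟨qc26,
    List.forall_mem_cons.mpr ⟨qc27,
    List.forall_mem_cons.mpr ⟨qc28,
    List.forall_mem_cons.mpr ⟨qc29,
    List.forall_mem_cons.mpr ⟨qc30,
    List.forall_mem_cons.mpr ⟨qc31,
    List.forall_mem_cons.mpr ⟨qc32,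
    List.forall_mem_cons.mpr ⟨qc33,
    List.forall_mem_cons.mpr ⟨qc34,
    List.forall_mem_cons.mpr ⟨qc35,
    List.forall_mem_cons.mpr ⟨qc36,
    List.forall_mem_cons.mpr ⟨qc37,
    List.forall_mem_cons.mpr ⟨qc38,
    List.forall_mem_cons.mpr ⟨qc39,
    List.forall_mem_cons.mpr ⟨qc40,
    List.forall_mem_cons.mpr ⟨qc41,
    List.forall_mem_cons.mpr ⟨qc42,
    List.forall_mem_cons.mpr ⟨qc43,
    List.forall_mem_cons.mpr ⟨qc44,
    List.forall_mem_cons.mpr ⟨qc45,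
    List.forall_mem_cons.mpr ⟨qc46,
    List.forall_mem_cons.mpr ⟨qc47,
    List.forall_mem_cons.mpr ⟨qc48,
    List.forall_mem_cons.mpr ⟨qc49,
    List.forall_mem_cons.mpr ⟨qc50,
    List.forall_mem_cons.mpr ⟨qc51,
    List.forall_mem_cons.mpr ⟨qc52,
    List.forall_mem_cons.mpr ⟨qc53,
    List.forall_mem_cons.mpr ⟨qc54,
    List.forall_mem_cons.mpr ⟨qc55,
    List.forall_mem_cons.mpr ⟨qc56,
    List.forall_mem_cons.mpr ⟨qc57,
    List.forall_mem_cons.mpr ⟨qc58,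
    List.forall_mem_cons.mpr ⟨qc59,
    List.forall_mem_cons.mpr ⟨qc60,
    List.forall_mem_cons.mpr ⟨qc61,
    List.forall_mem_cons.mpr ⟨qc62,
    List.forall_mem_cons.mpr ⟨qc63,
    List.forall_mem_cons.mpr ⟨qc64,
    List.forall_mem_cons.mpr ⟨qc65,
    List.forall_mem_cons.mpr ⟨qc66,
    List.forall_mem_cons.mpr ⟨qc67,
    List.forall_mem_cons.mpr ⟨qc68,
    List.forall_mem_cons.mpr ⟨qc69,
    List.forall_mem_cons.mpr ⟨qc70,
    List.forall_mem_cons.mpr ⟨qc71,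
    List.forall_mem_cons.mpr ⟨qc72,
    List.forall_mem_cons.mpr ⟨qc73,
    List.forall_mem_cons.mpr ⟨qc74,
    List.forall_mem_cons.mpr ⟨qc75,
    List.forall_mem_cons.mpr ⟨qc76,
    List.forall_mem_cons.mpr ⟨qc77,
    List.forall_mem_cons.mpr ⟨qc78,
    List.forall_mem_cons.mpr ⟨qc79,
    List.forall_mem_cons.mpr ⟨qc80,
    List.forall_mem_cons.mpr ⟨qc81,
    List.forall_mem_cons.mpr ⟨qc82,
    List.forall_mem_cons.mpr ⟨qc83,
    List.forall_mem_cons.mpr ⟨qc84,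
    List.forall_mem_cons.mpr ⟨qc85,
    List.forall_mem_cons.mpr ⟨qc86,
    List.forall_mem_cons.mpr ⟨qc87,
    List.forall_mem_cons.mpr ⟨qc88,
    List.forall_mem_cons.mpr ⟨qc89,
    List.forall_mem_cons.mpr ⟨qc90,
    List.forall_mem_cons.mpr ⟨qc91,
    List.forall_mem_cons.mpr ⟨qc92,
    List.forall_mem_cons.mpr ⟨qc93,
    List.forall_mem_cons.mpr ⟨qc94,
    List.forall_mem_cons.mpr ⟨qc95,
    List.forall_mem_cons.mpr ⟨qc96,
    List.forall_mem_cons.mpr ⟨qc97,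
    List.forall_mem_cons.mpr ⟨qc98,
    List.forall_mem_cons.mpr ⟨qc99,
    List.forall_mem_cons.mpr ⟨qc100,
    List.forall_mem_cons.mpr ⟨qc101,
    List.forall_mem_cons.mpr ⟨qc102,
    List.forall_mem_cons.mpr ⟨qc103,
    List.forall_mem_cons.mpr ⟨qc104,
    List.forall_mem_cons.mpr ⟨qc105,
    List.forall_mem_cons.mpr ⟨qc106,
    List.forall_mem_cons.mpr ⟨qc107,
    List.forall_mem_cons.mpr ⟨qc108,
    List.forall_mem_cons.mpr ⟨qc109,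
    List.forall_mem_cons.mpr ⟨qc110,
    List.forall_mem_cons.mpr ⟨qc111,
    List.forall_mem_cons.mpr ⟨qc112,
    List.forall_mem_cons.mpr ⟨qc113,
    List.forall_mem_cons.mpr ⟨qc114,
    List.forall_mem_cons.mpr ⟨qc115,
    List.forall_mem_cons.mpr ⟨qc116,
    List.forall_mem_cons.mpr ⟨qc117,
    List.forall_mem_cons.mpr ⟨qc118,
    List.forall_mem_cons.mpr ⟨qc119,
    List.forall_mem_cons.mpr ⟨qc120,
    List.forall_mem_cons.mpr ⟨qc121,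
    List.forall_mem_cons.mpr ⟨qc122,
    List.forall_mem_cons.mpr ⟨qc123,
    List.forall_mem_cons.mpr ⟨qc124,
    List.forall_mem_cons.mpr ⟨qc125,
    List.forall_mem_cons.mpr ⟨qc126,
    List.forall_mem_cons.mpr ⟨qc127,
    List.forall_mem_cons.mpr ⟨qc128,
    List.forall_mem_cons.mpr ⟨qc129,
    List.forall_mem_cons.mpr ⟨qc130,
    List.forall_mem_cons.mpr ⟨qc131,
    List.forall_mem_cons.mpr ⟨qc132,
    List.forall_mem_cons.mpr ⟨qc133,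
    List.forall_mem_cons.mpr ⟨qc134,
    List.forall_mem_cons.mpr ⟨qc135,
    List.forall_mem_cons.mpr ⟨qc136,
    List.forall_mem_cons.mpr ⟨qc137,
    List.forall_mem_cons.mpr ⟨qc138,
    List.forall_mem_cons.mpr ⟨qc139,
    List.forall_mem_cons.mpr ⟨qc140,
    List.forall_mem_cons.mpr ⟨qc141,
    List.forall_mem_cons.mpr ⟨qc142,
    List.forall_mem_cons.mpr ⟨qc143,
    List.forall_mem_cons.mpr ⟨qc144,
    List.forall_mem_cons.mpr ⟨qc145,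
    List.forall_mem_cons.mpr ⟨qc146,
    List.forall_mem_cons.mpr ⟨qc147,
    List.forall_mem_cons.mpr ⟨qc148,
    List.forall_mem_cons.mpr ⟨qc149,
    List.forall_mem_cons.mpr ⟨qc150,
    List.forall_mem_cons.mpr ⟨qc151,
    List.forall_mem_cons.mpr ⟨qc152,
    List.forall_mem_cons.mpr ⟨qc153,
    List.forall_mem_cons.mpr ⟨qc154,
    List.forall_mem_cons.mpr ⟨qc155,
    List.forall_mem_cons.mpr ⟨qc156,
    List.forall_mem_cons.mpr ⟨qc157,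
    List.forall_mem_cons.mpr ⟨qc158,
    List.forall_mem_cons.mpr ⟨qc159,
    List.forall_mem_cons.mpr ⟨qc160,
    List.forall_mem_cons.mpr ⟨qc161,
    List.forall_mem_cons.mpr ⟨qc162,
    List.forall_mem_cons.mpr ⟨qc163,
    List.forall_mem_cons.mpr ⟨qc164,
    List.forall_mem_cons.mpr ⟨qc165,
    List.forall_mem_cons.mpr ⟨qc166,
    List.forall_mem_cons.mpr ⟨qc167,
    List.forall_mem_cons.mpr ⟨qc168,
    List.forall_mem_cons.mpr ⟨qc169,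
    List.forall_mem_cons.mpr ⟨qc170,
    List.forall_mem_cons.mpr ⟨qc171,
    List.forall_mem_cons.mpr ⟨qc172,
    List.forall_mem_cons.mpr ⟨qc173,
    List.forall_mem_cons.mpr ⟨qc174,
    List.forall_mem_cons.mpr ⟨qc175,
    List.forall_mem_cons.mpr ⟨qc176,
    List.forall_mem_cons.mpr ⟨qc177,
    List.forall_mem_cons.mpr ⟨qc178,
    List.forall_mem_cons.mpr ⟨qc179,
    List.forall_mem_cons.mpr ⟨qc180,
    List.forall_mem_cons.mpr ⟨qc181,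
    List.forall_mem_cons.mpr ⟨qc182,
    List.forall_mem_cons.mpr ⟨qc183,
    List.forall_mem_cons.mpr ⟨qc184,
    List.forall_mem_cons.mpr ⟨qc185,
    List.forall_mem_cons.mpr ⟨qc186,
    List.forall_mem_cons.mpr ⟨qc187,
    List.forall_mem_cons.mpr ⟨qc188,
    List.forall_mem_cons.mpr ⟨qc189,
    List.forall_mem_cons.mpr ⟨qc190,
    List.forall_mem_cons.mpr ⟨qc191,
    List.forall_mem_cons.mpr ⟨qc192,
    List.forall_mem_cons.mpr ⟨qc193,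
    List.forall_mem_cons.mpr ⟨qc194,
    List.forall_mem_cons.mpr ⟨qc195,
    List.forall_mem_cons.mpr ⟨qc196,
    List.forall_mem_cons.mpr ⟨qc197,
    List.forall_mem_cons.mpr ⟨qc198,
    List.forall_mem_cons.mpr ⟨qc199,
    List.forall_mem_cons.mpr ⟨qc200,
    List.forall_mem_cons.mpr ⟨qc201,
    List.forall_mem_cons.mpr ⟨qc202,
    List.forall_mem_cons.mpr ⟨qc203,
    List.forall_mem_cons.mpr ⟨qc204,
    List.forall_mem_cons.mpr ⟨qc205,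
    List.forall_mem_cons.mpr ⟨qc206,
    List.forall_mem_cons.mpr ⟨qc207,
    List.forall_mem_cons.mpr ⟨qc208,
    List.forall_mem_cons.mpr ⟨qc209,
    List.forall_mem_cons.mpr ⟨qc210,
    List.forall_mem_cons.mpr ⟨qc211,
    List.forall_mem_cons.mpr ⟨qc212,
    List.forall_mem_cons.mpr ⟨qc213,
    List.forall_mem_cons.mpr ⟨qc214,
    List.forall_mem_cons.mpr ⟨qc215,
    List.forall_mem_cons.mpr ⟨qc216,
    List.forall_mem_cons.mpr ⟨qc217,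
    List.forall_mem_cons.mpr ⟨qc218,
    List.forall_mem_cons.mpr ⟨qc219,
    List.forall_mem_cons.mpr ⟨qc220,
    List.forall_mem_cons.mpr ⟨qc221,
    List.forall_mem_cons.mpr ⟨qc222,
    List.forall_mem_cons.mpr ⟨qc223,
    List.forall_mem_cons.mpr ⟨qc224,
    List.forall_mem_cons.mpr ⟨qc225,
    List.forall_mem_cons.mpr ⟨qc226,
    List.forall_mem_cons.mpr ⟨qc227,
    List.forall_mem_cons.mpr ⟨qc228,
    List.forall_mem_cons.mpr ⟨qc229,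
    List.forall_mem_cons.mpr ⟨qc230,
    List.forall_mem_cons.mpr ⟨qc231,
    List.forall_mem_cons.mpr ⟨qc232,
    List.forall_mem_cons.mpr ⟨qc233,
    List.forall_mem_cons.mpr ⟨qc234,
    List.forall_mem_cons.mpr ⟨qc235,
    List.forall_mem_cons.mpr ⟨qc236,
    List.forall_mem_cons.mpr ⟨qc237,
    List.forall_mem_cons.mpr ⟨qc238,
    List.forall_mem_cons.mpr ⟨qc239,
    List.forall_mem_cons.mpr ⟨qc240,
    List.forall_mem_cons.mpr ⟨qc241,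
    List.forall_mem_cons.mpr ⟨qc242,
    List.forall_mem_cons.mpr ⟨qc243,
    fun c hc => absurd hc (List.not_mem_nil)⟩⟩⟩⟩⟩⟩⟩⟩⟩⟩⟩⟩⟩⟩⟩⟩⟩⟩⟩⟩⟩⟩⟩⟩⟩⟩⟩⟩⟩⟩⟩⟩⟩⟩⟩⟩⟩⟩⟩⟩⟩⟩⟩⟩⟩⟩⟩⟩⟩⟩⟩⟩⟩⟩⟩⟩⟩⟩⟩⟩⟩⟩⟩⟩⟩⟩⟩⟩⟩⟩⟩⟩⟩⟩⟩⟩⟩⟩⟩⟩⟩⟩⟩⟩⟩⟩⟩⟩⟩⟩⟩⟩⟩⟩⟩⟩⟩⟩⟩⟩⟩⟩⟩⟩⟩⟩⟩⟩⟩⟩⟩⟩⟩⟩⟩⟩⟩⟩⟩⟩⟩⟩⟩⟩⟩⟩⟩⟩⟩⟩⟩⟩⟩⟩⟩⟩⟩⟩⟩⟩⟩⟩⟩⟩⟩⟩⟩⟩⟩⟩⟩⟩⟩⟩⟩⟩⟩⟩⟩⟩⟩⟩⟩⟩⟩⟩⟩⟩⟩⟩⟩⟩⟩⟩⟩⟩⟩⟩⟩⟩⟩⟩⟩⟩⟩⟩⟩⟩⟩⟩⟩⟩⟩⟩⟩⟩⟩⟩⟩⟩⟩⟩⟩⟩⟩⟩⟩⟩⟩⟩⟩⟩⟩⟩⟩⟩⟩⟩⟩⟩⟩⟩⟩⟩⟩⟩⟩⟩⟩⟩⟩⟩⟩⟩⟩⟩⟩⟩⟩⟩⟩⟩⟩⟩

theorem base0 {A P : Finset X} {y : Ch X} (hb : Bas g CLS A P y) {x0 : ℕ → X}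
    (hFr : Fr g x0 11 B0 (A \ (P ∪ P.image g.a))) : False := by
  refine base_of (K := 13) base_chk0 fullB0 hb ?_ (fun x hc => c0_13 hc) hFr
  intro s hs x hc
  interval_cases s
  · exact c0_0 hc
  · exact c0_1 hc
  · exact c0_2 hc
  · exact c0_3 hc
  · exact c0_4 hc
  · exact c0_5 hc
  · exact c0_6 hc
  · exact c0_7 hc
  · exact c0_8 hc
  · exact c0_9 hc
  · exact c0_10 hc
  · exact c0_11 hc
  · exact c0_12 hc

theorem base1 {A P : Finset X} {y : Ch X} (hb : Bas g CLS A P y) {x0 : ℕ → X}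
    (hFr : Fr g x0 11 B1 (A \ (P ∪ P.image g.a))) : False := by
  refine base_of (K := 28) base_chk1 fullB1 hb ?_ (fun x hc => c1_28 hc) hFr
  intro s hs x hc
  interval_cases s
  · exact c1_0 hc
  · exact c1_1 hc
  · exact c1_2 hc
  · exact c1_3 hc
  · exact c1_4 hc
  · exact c1_5 hc
  · exact c1_6 hc
  · exact c1_7 hc
  · exact c1_8 hc
  · exact c1_9 hc
  · exact c1_10 hc
  · exact c1_11 hc
  · exact c1_12 hc
  · exact c1_13 hc
  · exact c1_14 hc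
  · exact c1_15 hc
  · exact c1_16 hc
  · exact c1_17 hc
  · exact c1_18 hc
  · exact c1_19 hc
  · exact c1_20 hc
  · exact c1_21 hc
  · exact c1_22 hc
  · exact c1_23 hc
  · exact c1_24 hc
  · exact c1_25 hc
  · exact c1_26 hc
  · exact c1_27 hc

theorem base2 {A P : Finset X} {y : Ch X} (hb : Bas g CLS A P y) {x0 : ℕ → X}
    (hFr : Fr g x0 11 B2 (A \ (P ∪ P.image g.a))) : False := by
  refine base_of (K := 8) base_chk2 fullB2 hb ?_ (fun x hc => c2_8 hc) hFr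
  intro s hs x hc
  interval_cases s
  · exact c2_0 hc
  · exact c2_1 hc
  · exact c2_2 hc
  · exact c2_3 hc
  · exact c2_4 hc
  · exact c2_5 hc
  · exact c2_6 hc
  · exact c2_7 hc

theorem base3 {A P : Finset X} {y : Ch X} (hb : Bas g CLS A P y) {x0 : ℕ → X}
    (hFr : Fr g x0 11 B3 (A \ (P ∪ P.image g.a))) : False := by
  refine base_of (K := 43) base_chk3 fullB3 hb ?_ (fun x hc => c3_43 hc) hFr
  intro s hs x hc
  interval_cases s
  · exact c3_0 hc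
  · exact c3_1 hc
  · exact c3_2 hc
  · exact c3_3 hc
  · exact c3_4 hc
  · exact c3_5 hc
  · exact c3_6 hc
  · exact c3_7 hc
  · exact c3_8 hc
  · exact c3_9 hc
  · exact c3_10 hc
  · exact c3_11 hc
  · exact c3_12 hc
  · exact c3_13 hc
  · exact c3_14 hc
  · exact c3_15 hc
  · exact c3_16 hc
  · exact c3_17 hc
  · exact c3_18 hc
  · exact c3_19 hc
  · exact c3_20 hc
  · exact c3_21 hc
  · exact c3_22 hc
  · exact c3_23 hc
  · exact c3_24 hc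
  · exact c3_25 hc
  · exact c3_26 hc
  · exact c3_27 hc
  · exact c3_28 hc
  · exact c3_29 hc
  · exact c3_30 hc
  · exact c3_31 hc
  · exact c3_32 hc
  · exact c3_33 hc
  · exact c3_34 hc
  · exact c3_35 hc
  · exact c3_36 hc
  · exact c3_37 hc
  · exact c3_38 hc
  · exact c3_39 hc
  · exact c3_40 hc
  · exact c3_41 hc
  · exact c3_42 hc

/-- 23 pairs do not carry a symmetric good cycle of dimension five -/
theorem main46 {A : Finset X} {y : Ch X} (hA : A.image g.a = A) (hc : A.card = 46)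
    (hy : Good g 5 A y) (hs : act g.a y = y) : False := by
  refine all_of (CLS := CLS) (g := g) ?_ ?_ ?_ hA hc hy hs
  · intro A P y hA hc hP hPc hPA hy
    exact no7 hA hc hP hPc hPA hy
  · intro k hk A P y hb x0 hFr
    have hcs : k = 0 ∨ k = 1 ∨ k = 2 ∨ k = 3 := by omega
    rcases hcs with rfl | rfl | rfl | rfl
    · exact base0 hb hFr
    · exact base1 hb hFr
    · exact base2 hb hFr
    · exact base3 hb hFr
  · intro c hc
    exact all_cls c hc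

end

end Pool.Agent.H775
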