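import Pool.Agent.H775.GlDef
import Pool.Graph.R_seed8.TH651.RP5.S16

/-!
G1: the model of a good cycle.
-/

set_option autoImplicit false
set_option linter.unusedSectionVars false

namespace Pool.Agent.H775

open Pool.Agent.TH651.RP5

variable {X : Type} [Fintype X] [DecidableEq X] {g : SG X}

theorem G1_mem_F64 {m l : ℕ} : l ∈ F64 m ↔ l < 64 ∧ m.testBit l = true := by
  rw [F64, Finset.mem_filter, Finset.mem_range]

/-- G1a -/
theorem fs64_eq {x : ℕ → X} {F : ℕ} (hF : F < 2 ^ 32) : fs64 g x F = fs g x F := by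
  have h : F64 F = FS F := by
    ext l
    rw [G1_mem_F64, mem_FS]
    constructor
    · rintro ⟨-, h2⟩
      refine ⟨?_, h2⟩
      by_contra hl
      have h3 : F < 2 ^ l := lt_of_lt_of_le hF (Nat.pow_le_pow_right (by norm_num) (by omega))
      rw [Nat.testBit_lt_two_pow h3] at h2
      exact Bool.false_ne_true h2
    · rintro ⟨h1, h2⟩
      exact ⟨by omega, h2⟩
  rw [fs64, fs, h]

theorem G1_F64_sub (L : List ℕ) : F64 (mkM L) ⊆ L.toFinset := by
  intro l hl
  rw [G1_mem_F64, testBit_mkM] at hl
  exact List.mem_toFinset.mpr hl.2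

theorem G1_F64_or {F z : ℕ} (hz : z < 64) : F64 (F ||| (1 <<< z)) = insert z (F64 F) := by
  ext l
  rw [G1_mem_F64, Finset.mem_insert, G1_mem_F64, Nat.testBit_or, testBit_one_shiftLeft]
  by_cases h : l = z
  · subst h; simp [hz]
  · simp [h]

theorem G1_fs_or {x : ℕ → X} {F z : ℕ} (hz : z < 64) :
    fs64 g x (F ||| (1 <<< z)) = insert (lt g x z) (fs64 g x F) := by
  rw [fs64, G1_F64_or hz, Finset.image_insert]; rfl

theorem G1_mem_fs {x : ℕ → X} {n : ℕ} (hn : 2 * n ≤ 64) (h : Inj g x n) {F z : ℕ}
    (hz : z < 2 * n) (hF : ∀ l, F.testBit l = true → l < 2 * n) :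
    lt g x z ∈ fs64 g x F ↔ F.testBit z = true := by
  rw [fs64, Finset.mem_image]
  constructor
  · rintro ⟨l, hl, e⟩
    rw [G1_mem_F64] at hl
    have := lt_inj h (hF l hl.2) hz e
    rw [← this]; exact hl.2
  · intro h2
    exact ⟨z, G1_mem_F64.mpr ⟨by omega, h2⟩, rfl⟩

theorem G1_card_le {x : ℕ → X} (L : List ℕ) : (fs64 g x (mkM L)).card ≤ L.length :=
  (Finset.card_image_le.trans (Finset.card_le_card (G1_F64_sub L))).trans (List.toFinset_card_le L)

theorem G1_fs_sub {x : ℕ → X} {F b : ℕ} (hF : F < 2 ^ b) : fs64 g x F ⊆ img g x b := by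
  rw [fs64, img]
  refine Finset.image_subset_image ?_
  intro l hl
  rw [G1_mem_F64] at hl
  rw [Finset.mem_range]
  by_contra hcon
  have h3 : F < 2 ^ l := lt_of_lt_of_le hF (Nat.pow_le_pow_right (by norm_num) (by omega))
  rw [Nat.testBit_lt_two_pow h3] at hl
  exact Bool.false_ne_true hl.2

theorem G1_xor_div (l : ℕ) : (l ^^^ 1) / 2 = l / 2 := by
  have := Nat.xor_div_two (a := l) (b := 1)
  simpa using this

/-- G1b. -/
theorem mdl_of {x : ℕ → X} {y : Ch X} {n1 m r : ℕ} {full : List ℕ} (hm : 2 ≤ m)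
    (h32 : 2 * n1 ≤ 32) (hnl : 2 * n1 + 2 * m ≤ 62) (hi : Inj g x (n1 + m))
    (hy : Good g (r + 1) (img g x (2 * (n1 + m))) y) (hP : Clique g (blk x n1 (n1 + m)))
    (hfb : ∀ F ∈ full, F < 2 ^ (2 * n1))
    (hfull : ∀ y' : Ch X, Good g r (img g x (2 * n1)) y' → ∀ F ∈ full, y' (fs64 g x F) = 1) :
    Mdl (2 * n1) m (r + 1) full (adjx g x) (fun F => y (fs64 g x F)) := by
  have hsupp : Supp g (r + 1) (img g x (2 * (n1 + m))) y := hy.supp g (img_inv _)
  have hzero : ∀ L : List ℕ, L.length ≤ r + 1 → y (fs64 g x (mkM L)) = 0 := by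
    intro L hL
    by_contra hne
    have h1 := (hsupp _ hne).1
    have h2 := G1_card_le (g := g) (x := x) L
    omega
  refine
    { even := by omega
      b32 := h32
      hm := hm
      hrc := by omega
      hnl := hnl
      symm := fun l z h => g.symm h
      excl := fun l z h => ?_
      anti := fun l z h => ?_
      tot := fun l z hl hz hne => ?_
      clq := fun F l z hv hFl hFz hne hl hz => ?_
      zero := hzero
      cyc := fun L hlen hL => ?_
      ful := fun F hF u hu => ?_
      fullb := hfb }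
  · unfold adjx at h ⊢
    rw [lt_xor]
    exact g.excl h
  · unfold adjx at h ⊢
    rw [lt_xor, lt_xor]
    exact g.eqv h
  · unfold adjx
    rw [lt_xor]
    refine g.tot ?_ ?_
    · intro e
      exact hne (by rw [lt_inj hi (by omega) (by omega) e])
    · intro e
      rw [← lt_xor] at e
      have h1 := G1_xor_div l
      have h2 := lt_inj hi (by omega) (by omega) e
      apply hne
      rw [h2, h1]
  · have h1 := hsupp (fs64 g x F) (by rw [hv]; exact one_ne_zero)
    refine h1.2.1 _ ?_ _ ?_ (fun e2 => hne (lt_inj hi (by omega) (by omega) e2))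
    · exact Finset.mem_image_of_mem _ (G1_mem_F64.mpr ⟨by omega, hFl⟩)
    · exact Finset.mem_image_of_mem _ (G1_mem_F64.mpr ⟨by omega, hFz⟩)
  · -- cycle
    have hF : ∀ l, (mkM L).testBit l = true → l < 2 * (n1 + m) := fun l hl => by
      have := hL _ ((testBit_mkM _ _).mp hl); omega
    have h0 : bd y (fs64 g x (mkM L)) = 0 := congrFun (hy.cycle g) _
    rw [bd] at h0
    have hsplit : ∑ z ∈ Finset.range (2 * n1 + 2 * m), y (fs64 g x (mkM L ||| (1 <<< z))) =
        ∑ z ∈ (Finset.range (2 * n1 + 2 * m)).filter (fun z => (mkM L).testBit z = false),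
          y (insert (lt g x z) (fs64 g x (mkM L))) := by
      rw [Finset.sum_filter]
      refine Finset.sum_congr rfl (fun z hz => ?_)
      rw [Finset.mem_range] at hz
      rw [G1_fs_or (by omega)]
      split_ifs with h
      · rfl
      · rw [Bool.not_eq_false] at h
        have h2 : lt g x z ∈ fs64 g x (mkM L) :=
          (G1_mem_fs (by omega) hi (by omega) hF).mpr h
        rw [Finset.insert_eq_of_mem h2]
        exact hzero L (by omega)
    show ∑ z ∈ Finset.range (2 * n1 + 2 * m), y (fs64 g x (mkM L ||| (1 <<< z))) = 0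
    rw [hsplit, ← h0]
    have himg : ((Finset.range (2 * n1 + 2 * m)).filter
        (fun z => (mkM L).testBit z = false)).image (lt g x) ⊆ (fs64 g x (mkM L))ᶜ := by
      intro v hv
      rw [Finset.mem_image] at hv
      obtain ⟨z, hz, rfl⟩ := hv
      rw [Finset.mem_filter, Finset.mem_range] at hz
      rw [Finset.mem_compl, G1_mem_fs (by omega) hi (by omega) hF, hz.2]
      exact Bool.false_ne_true
    rw [← Finset.sum_subset himg]
    · rw [Finset.sum_image]
      intro z hz w hw e2
      rw [Finset.mem_coe, Finset.mem_filter, Finset.mem_range] at hz hw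
      exact lt_inj hi (by omega) (by omega) e2
    · intro v hv hv2
      by_contra hne
      have h1 := hsupp _ hne
      have h2 : v ∈ img g x (2 * (n1 + m)) := h1.2.2 (Finset.mem_insert_self _ _)
      rw [img, Finset.mem_image] at h2
      obtain ⟨z, hz, rfl⟩ := h2
      rw [Finset.mem_range] at hz
      rw [Finset.mem_compl, G1_mem_fs (by omega) hi (by omega) hF, Bool.not_eq_true] at hv
      apply hv2
      refine Finset.mem_image_of_mem _ ?_
      rw [Finset.mem_filter, Finset.mem_range]
      exact ⟨by omega, hv⟩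
  · -- full ridges
    have hsub : fs64 g x F ⊆ img g x (2 * n1) := G1_fs_sub (hfb F hF)
    have hcong : ∀ k ∈ Finset.range m, y (fs64 g x (F ||| (1 <<< (2 * n1 + 2 * k + u)))) =
        y (insert (lt g x (2 * (n1 + k) + u)) (fs64 g x F)) := by
      intro k hk
      rw [Finset.mem_range] at hk
      rw [G1_fs_or (by omega), show 2 * n1 + 2 * k + u = 2 * (n1 + k) + u by ring]
    show ∑ k ∈ Finset.range m, y (fs64 g x (F ||| (1 <<< (2 * n1 + 2 * k + u)))) = 1
    rw [Finset.sum_congr rfl hcong]
    rcases Nat.le_one_iff_eq_zero_or_eq_one.mp hu with rfl | rfl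
    · have h2 := Good.desc g hP hy
      rw [img_sdiff hi (by omega) (le_refl _)] at h2
      have h3 := hfull _ h2 F hF
      rw [D_blk hi (by omega) (le_refl _) hsub] at h3
      rw [← h3, Nat.add_sub_cancel_left]
      refine Finset.sum_congr rfl (fun p _ => ?_)
      rw [add_zero, lt_even]
    · have h2 := Good.desc g hP.image hy
      rw [image_image g.ha, Finset.union_comm, img_sdiff hi (by omega) (le_refl _)] at h2
      have h3 := hfull _ h2 F hF
      rw [D_blk_anti hi (by omega) (le_refl _) hsub] at h3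
      rw [← h3, Nat.add_sub_cancel_left]
      refine Finset.sum_congr rfl (fun p _ => ?_)
      rw [lt_odd]

end Pool.Agent.H775
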