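import Pool.Agent.H775.GlDef
import Pool.Graph.R_seed8.TH651.RP5.S16

/-!
RP^5 project (helper775), part G6: automorphisms (helper766)
-/

set_option autoImplicit false
set_option linter.unusedSectionVars false

namespace Pool.Agent.H775

open Pool.Agent.TH651.RP5

variable {X : Type} [Fintype X] [DecidableEq X] {g : SG X}

/-- `relabel` with the explicit new enumeration -/
theorem G6_relabel {x : ℕ → X} {n : ℕ} {C C' lam : List ℕ} {A : Finset X} (h : Fr g x n C A)
    (hr : relOK n C lam C' = true) :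
    Fr g (fun i => lt g x (lam.getD i 0)) n C' A ∧ ∀ j < n, lam.getD j 0 < 2 * n := by
  have hr1 : ∀ j < n, lam.getD j 0 < 2 * n := by
    intro j hj
    rw [relOK, List.all_eq_true] at hr
    have := hr j (List.mem_range.mpr hj)
    rw [Bool.and_eq_true, Nat.ble_eq] at this
    omega
  have hr2 : ∀ i j, i < j → j < n → lam.getD i 0 / 2 ≠ lam.getD j 0 / 2 ∧
      (C'.getD j 0).testBit i = nadj C (lam.getD i 0) (lam.getD j 0) := by
    intro i j hij hj
    rw [relOK, List.all_eq_true] at hr
    have := hr j (List.mem_range.mpr hj)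
    rw [Bool.and_eq_true, List.all_eq_true] at this
    have := this.2 i (List.mem_range.mpr hij)
    rw [Bool.and_eq_true, beq_iff_eq] at this
    refine ⟨fun e => ?_, this.2⟩
    rw [(beq_iff _ _).mpr e] at this
    exact absurd this.1 (by decide)
  let x' : ℕ → X := fun i => lt g x (lam.getD i 0)
  have hanti : ∀ l, lt g x (l ^^^ 1) = g.a (lt g x l) := lt_xor g x
  have hhalf : ∀ l : ℕ, (l ^^^ 1) / 2 = l / 2 := by
    intro l
    have := Nat.xor_div_two (a := l) (b := 1)
    simpa using this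
  have hinj : Inj g x' n := by
    intro i hi j hj hij
    have hne : lam.getD i 0 / 2 ≠ lam.getD j 0 / 2 := by
      rcases Nat.lt_or_gt_of_ne hij with h1 | h1
      · exact (hr2 i j h1 hj).1
      · exact fun e => (hr2 j i h1 hi).1 e.symm
    have h1 := hr1 i hi
    have h2 := hr1 j hj
    have h3 := hhalf (lam.getD j 0)
    constructor
    · intro e
      have := lt_inj h.inj h1 h2 e
      rw [this] at hne; exact hne rfl
    · intro e
      have e' : lt g x (lam.getD i 0) = lt g x (lam.getD j 0 ^^^ 1) := by rw [hanti]; exact e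
      have := lt_inj h.inj h1 (by omega) e'
      rw [this, h3] at hne; exact hne rfl
  refine ⟨⟨hinj, ?_, ?_⟩, hr1⟩
  · intro i j hij hj
    obtain ⟨h1, h2⟩ := hr2 i j hij hj
    rw [h2]
    exact (nadj_spec' h.inj h.sg (hr1 i (by omega)) (hr1 j hj) h1).symm
  · rw [← h.im]
    refine Finset.eq_of_subset_of_card_le ?_ ?_
    · intro v hv
      rw [img, Finset.mem_image] at hv
      obtain ⟨l, hl, rfl⟩ := hv
      rw [Finset.mem_range] at hl
      have hl2 := hr1 (l / 2) (by omega)
      have h3 := hhalf (lam.getD (l / 2) 0)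
      unfold lt
      split_ifs
      · exact lt_mem_img hl2
      · show g.a (lt g x (lam.getD (l / 2) 0)) ∈ _
        rw [← hanti]
        exact lt_mem_img (by omega)
    · rw [img_card hinj, img_card h.inj]

/-- digits of `rmap` -/
theorem G6_testBit_rmap (lam v : ℕ) : ∀ (n i : ℕ), (rmap lam v n).testBit i = true ↔
    i < n ∧ (v / 2 ^ (lam / 64 ^ i % 64 / 2) + lam / 64 ^ i % 64) % 2 = 1
  | 0, i => by
    have : rmap lam v 0 = 0 := rfl
    rw [this]
    simp
  | n + 1, i => by
    have h1 : rmap lam v (n + 1) = rmap lam v n |||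
        (((v >>> ((lam >>> (6 * n)) % 64 / 2)) + (lam >>> (6 * n)) % 64) % 2) <<< n := rfl
    have h2 : lam >>> (6 * n) = lam / 64 ^ n := by
      rw [Nat.shiftRight_eq_div_pow, pow_mul]
      norm_num
    rw [h1, Nat.testBit_or, Bool.or_eq_true, G6_testBit_rmap lam v n i, h2,
      Nat.shiftRight_eq_div_pow, Nat.testBit_shiftLeft]
    generalize hb : (v / 2 ^ (lam / 64 ^ n % 64 / 2) + lam / 64 ^ n % 64) % 2 = b
    have hb2 : b < 2 := by rw [← hb]; exact Nat.mod_lt _ (by norm_num)
    constructor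
    · rintro (⟨h3, h4⟩ | h3)
      · exact ⟨by omega, h4⟩
      · rw [Bool.and_eq_true, decide_eq_true_eq] at h3
        obtain ⟨h3, h4⟩ := h3
        have hb1 : b ≠ 0 := by
          rintro rfl
          simp at h4
        have h5 : i - n = 0 := by
          by_contra hne
          have : b < 2 ^ (i - n) := lt_of_lt_of_le hb2 (by
            calc 2 = 2 ^ 1 := by norm_num
              _ ≤ 2 ^ (i - n) := Nat.pow_le_pow_right (by norm_num) (by omega))
          rw [Nat.testBit_lt_two_pow this] at h4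
          exact absurd h4 (by decide)
        have h6 : i = n := by omega
        subst h6
        exact ⟨by omega, by rw [hb]; omega⟩
    · rintro ⟨h3, h4⟩
      by_cases h5 : i < n
      · exact Or.inl ⟨h5, h4⟩
      · right
        have h6 : i = n := by omega
        subst h6
        rw [hb] at h4
        subst h4
        simp

/-- G6a: explicit form of `relabel`, and the rows -/
theorem row_relabel {x : ℕ → X} {n lam : ℕ} {C C' : List ℕ} {A : Finset X} (h : Fr g x n C A)
    (hr : relOK n C (lamL n lam) C' = true) (hA : A.image g.a = A) :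
    ∃ x' : ℕ → X, Fr g x' n C' A ∧ ∀ w : X, w ∉ A → row g x' n w = rmap lam (row g x n w) n := by
  obtain ⟨h1, h2⟩ := G6_relabel h hr
  refine ⟨_, h1, fun w hw => ?_⟩
  apply Nat.eq_of_testBit_eq
  intro i
  apply Bool.eq_iff_iff.2
  rw [testBit_row, G6_testBit_rmap]
  refine and_congr_right fun hi => ?_
  have hget : (lamL n lam).getD i 0 = lam / 64 ^ i % 64 := by
    unfold lamL
    rw [List.getD_eq_getElem _ _ (by simpa using hi)]
    simp
  have hl := h2 i hi
  rw [hget] at hl ⊢
  generalize lam / 64 ^ i % 64 = l at hl ⊢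
  have hl2 : l / 2 < n := by omega
  have m1 : x (l / 2) ∈ A := by
    rw [← h.im, ← lt_even g x]
    exact lt_mem_img (by omega)
  have m2 : g.a (x (l / 2)) ∈ A := by
    rw [← h.im, ← lt_odd g x]
    exact lt_mem_img (by omega)
  have n1 : w ≠ x (l / 2) := fun e => hw (e ▸ m1)
  have n2 : w ≠ g.a (x (l / 2)) := fun e => hw (e ▸ m2)
  have hrow := testBit_row (g := g) (x := x) (n := n) (v := w) (l / 2)
  rw [Nat.testBit_eq_decide_div_mod_eq, decide_eq_true_eq] at hrow
  have hrow' : row g x n w / 2 ^ (l / 2) % 2 = 1 ↔ ¬ g.Adj (x (l / 2)) w := by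
    rw [hrow]
    exact ⟨fun h => h.2, fun h => ⟨hl2, h⟩⟩
  have e1 := adj_iff_not_anti (g := g) (u := x (l / 2)) (v := w) n1 n2
  unfold lt
  rcases Nat.mod_two_eq_zero_or_one l with h3 | h3
  · rw [if_pos h3, ← hrow']
    omega
  · rw [if_neg (by omega), anti_adj, e1, ← hrow']
    omega

/-- stability of the complement -/
theorem G6_stable {A P : Finset X} (hA : A.image g.a = A) :
    (A \ (P ∪ P.image g.a)).image g.a = A \ (P ∪ P.image g.a) := by
  have key : ∀ v, v ∈ A \ (P ∪ P.image g.a) → g.a v ∈ A \ (P ∪ P.image g.a) := by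
    intro v hv
    rw [Finset.mem_sdiff, Finset.mem_union, not_or] at hv ⊢
    obtain ⟨h1, h2, h3⟩ := hv
    refine ⟨?_, ?_, ?_⟩
    · rw [← hA]; exact Finset.mem_image_of_mem _ h1
    · intro h4
      apply h3
      rw [Finset.mem_image]
      exact ⟨g.a v, h4, g.ha v⟩
    · intro h4
      rw [Finset.mem_image] at h4
      obtain ⟨u, hu, e⟩ := h4
      have := g.ha.injective e
      rw [this] at hu
      exact h2 hu
  ext v
  rw [Finset.mem_image]
  constructor
  · rintro ⟨u, hu, rfl⟩
    exact key u hu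
  · intro hv
    exact ⟨g.a v, key v hv, g.ha v⟩

theorem G6_autB {n wA mA AT VT RT JT : ℕ} : ∀ (N : ℕ), autB n wA mA AT VT RT JT N = true →
    ∀ v < N, ent JT 8 255 v ≠ 0 →
      rmap (ent AT wA mA (ent VT 8 255 v)) v n = ent RT 16 65535 (ent JT 8 255 v)
  | 0, _, v, hv, _ => by omega
  | N + 1, h, v, hv, h0 => by
    have h1 : autB n wA mA AT VT RT JT (N + 1) =
        Bool.rec (Bool.rec false (autB n wA mA AT VT RT JT N)
          (Nat.beq (rmap (ent AT wA mA (ent VT 8 255 N)) N n) (ent RT 16 65535 (ent JT 8 255 N))))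
          (autB n wA mA AT VT RT JT N) (Nat.beq (ent JT 8 255 N) 0) := rfl
    rw [h1] at h
    have h2 : autB n wA mA AT VT RT JT N = true ∧ (ent JT 8 255 N ≠ 0 →
        rmap (ent AT wA mA (ent VT 8 255 N)) N n = ent RT 16 65535 (ent JT 8 255 N)) := by
      cases e1 : Nat.beq (ent JT 8 255 N) 0
      · rw [e1] at h
        cases e2 : Nat.beq (rmap (ent AT wA mA (ent VT 8 255 N)) N n)
            (ent RT 16 65535 (ent JT 8 255 N))
        · rw [e2] at h
          exact absurd (show false = true from h) (by decide)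
        · rw [e2] at h
          exact ⟨h, fun _ => Nat.eq_of_beq_eq_true e2⟩
      · rw [e1] at h
        exact ⟨h, fun hne => absurd (Nat.eq_of_beq_eq_true e1) hne⟩
    rcases Nat.lt_succ_iff_lt_or_eq.1 hv with h3 | rfl
    · exact G6_autB N h2.1 v h3 h0
    · exact h2.2 h0

/-- G6b: `AL` is a list of automorphisms (all `lam ∈ AL` satisfy `relOK`), the table `VTL` gives for
each eliminated row the number of an automorphism moving it to its representative. -/
theorem forb_of {A P : Finset X} {B JTL AL VTL RTL : List ℕ} {s : ℕ}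
    (hA : A.image g.a = A) (hPA : P ⊆ A) (hP : Clique g P)
    (hAL : ∀ lam ∈ AL, relOK 11 B (lamL 11 lam) B = true) (hAb : ∀ lam ∈ AL, lam < 2 ^ 66)
    (h0 : AL.getD 0 0 ≠ 0) (hV : ∀ a ∈ VTL, a < AL.length) (hV2 : ∀ a ∈ VTL, a < 256)
    (haut : autB 11 66 73786976294838206463 (tblK 66 AL) (tblK 8 VTL) (tblK 16 RTL) (tblK 8 JTL)
      2048 = true)
    (hQ : ∀ j, 1 ≤ j → j ≤ s → QR g B A P (ent (tblK 16 RTL) 16 65535 j)) :
    ∀ x0 : ℕ → X, Fr g x0 11 B (A \ (P ∪ P.image g.a)) →
      ∀ p ∈ P, ∀ v, 1 ≤ ent (tblK 8 JTL) 8 255 v → ent (tblK 8 JTL) 8 255 v ≤ s →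
      row g x0 11 p ≠ v := by
  intro x0 hFr p hp v hv1 hv2 hrow
  have hvlt : v < 2048 := by
    rw [← hrow]
    exact lt_of_lt_of_eq row_lt (by norm_num)
  have h1 := G6_autB 2048 haut v hvlt (by omega)
  have h2 : ent (tblK 8 VTL) 8 255 v = VTL.getD v 0 := ent_tblK 8 VTL hV2 v
  have hlen : 0 < AL.length := by
    rcases AL with _ | ⟨a, L⟩
    · simp at h0
    · simp
  have ha : VTL.getD v 0 < AL.length := by
    rcases Nat.lt_or_ge v VTL.length with h3 | h3
    · rw [List.getD_eq_getElem _ _ h3]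
      exact hV _ (List.getElem_mem h3)
    · rw [List.getD_eq_default _ _ h3]
      exact hlen
  have h3 : ent (tblK 66 AL) 66 73786976294838206463 (VTL.getD v 0) =
      AL.getD (VTL.getD v 0) 0 := ent_tblK 66 AL hAb _
  have h4 : AL.getD (VTL.getD v 0) 0 ∈ AL := by
    rw [List.getD_eq_getElem _ _ ha]
    exact List.getElem_mem ha
  rw [h2, h3] at h1
  obtain ⟨x', hx', hx2⟩ := row_relabel hFr (hAL _ h4) (G6_stable hA)
  have hpn : p ∉ A \ (P ∪ P.image g.a) := by
    rw [Finset.mem_sdiff, Finset.mem_union]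
    exact fun h => h.2 (Or.inl hp)
  have h5 := hx2 p hpn
  rw [hrow, h1] at h5
  exact hQ _ hv1 hv2 x' hx' p hp h5

end Pool.Agent.H775
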