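import Pool.Agent.H775.IntC

set_option autoImplicit false
set_option linter.unusedSectionVars false

namespace Pool.Agent.H140.Int

open Pool.Agent.TH651.RP5 Pool.Agent.H775.Int

/-- the masks of the faces of the icosahedron covered by the 64 sign vectors -/
def MI : List ℕ := [328721, 328832, 360464, 360640, 262169, 262144, 311320, 311360, 0, 128, 32768,
  32992, 8, 0, 57352, 57440, 1043, 1024, 16, 0, 31, 0, 16412, 16384, 2, 0, 0, 32, 131086, 131072,
  155660, 155680, 68609, 68992, 65536, 65984, 1, 0, 0, 64, 2048, 2944, 0, 992, 0, 512, 8192, 8800,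
  7171, 7424, 0, 256, 4103, 4096, 4, 0, 530434, 531200, 524288, 525088, 659462, 659968, 663556,
  664096]

/-- number of binary digits one below `2 ^ n` -/
def pc : ℕ → ℕ → ℕ
  | 0, _ => 0
  | n + 1, m => pc n m + (m >>> n) % 2

def TM (m : ℕ) : Finset ℕ := (Finset.range 20).filter (fun i => m.testBit i = true)

theorem pc_eq (n m : ℕ) : pc n m = ((Finset.range n).filter (fun i => m.testBit i = true)).card := by
  induction n with
  | zero => simp [pc]
  | succ n ih =>
    rw [pc, ih, Finset.range_add_one, Finset.filter_insert]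
    have h : (m >>> n) % 2 = (m.testBit n).toNat := by
      rw [Nat.testBit_eq_decide_div_mod_eq, Nat.shiftRight_eq_div_pow]
      rcases Nat.mod_two_eq_zero_or_one (m / 2 ^ n) with h | h <;> simp [h]
    rw [h]
    by_cases h2 : m.testBit n = true
    · rw [if_pos h2, Finset.card_insert_of_notMem (by simp), h2]; rfl
    · rw [if_neg h2, Bool.not_eq_true _ |>.mp h2]; rfl

theorem TM_or (a b : ℕ) : TM (a ||| b) = TM a ∪ TM b := by
  ext i
  simp only [TM, Finset.mem_filter, Finset.mem_union, Nat.testBit_or, Bool.or_eq_true]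
  tauto

def chk0 : Bool := (List.range 64).all (fun r => (List.range 20).all (fun i =>
  inclB 6 r (ICO.getD i 0) == (MI.getD r 0).testBit i))

theorem chk0_ok : chk0 = true := by decide +kernel

def chk1 : Bool := MI.all (fun m => Nat.ble (pc 20 m) 5)

theorem chk1_ok : chk1 = true := by decide +kernel

def chk2 : Bool := MI.all (fun a => MI.all (fun b => Nat.ble (pc 20 (a ||| b)) 9 ||
  MI.all (fun c => Nat.ble (pc 20 (a ||| b ||| c)) 14 ||
    MI.all (fun d => Nat.ble (pc 20 (a ||| b ||| c ||| d)) 19))))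

theorem chk2_ok : chk2 = true := by decide +kernel

theorem cov4 {a b c d : ℕ} (ha : a ∈ MI) (hb : b ∈ MI) (hc : c ∈ MI) (hd : d ∈ MI) :
    (TM (a ||| b ||| c ||| d)).card ≤ 19 := by
  have h1 := chk1_ok
  rw [chk1, List.all_eq_true] at h1
  have hc1 := h1 c hc
  have hd1 := h1 d hd
  rw [Nat.ble_eq, pc_eq] at hc1 hd1
  change (TM c).card ≤ 5 at hc1
  change (TM d).card ≤ 5 at hd1
  have h2 := chk2_ok
  rw [chk2, List.all_eq_true] at h2
  have h3 := h2 a ha
  rw [List.all_eq_true] at h3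
  have h4 := h3 b hb
  rw [Bool.or_eq_true, Nat.ble_eq, pc_eq] at h4
  rcases h4 with h4 | h4
  · change (TM (a ||| b)).card ≤ 9 at h4
    rw [TM_or, TM_or]
    have e1 := Finset.card_union_le (TM (a ||| b) ∪ TM c) (TM d)
    have e2 := Finset.card_union_le (TM (a ||| b)) (TM c)
    omega
  · rw [List.all_eq_true] at h4
    have h5 := h4 c hc
    rw [Bool.or_eq_true, Nat.ble_eq, pc_eq] at h5
    rcases h5 with h5 | h5
    · change (TM (a ||| b ||| c)).card ≤ 14 at h5
      rw [TM_or]
      have e1 := Finset.card_union_le (TM (a ||| b ||| c)) (TM d)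
      omega
    · rw [List.all_eq_true] at h5
      have h6 := h5 d hd
      rw [Nat.ble_eq, pc_eq] at h6
      exact h6

theorem no_cover4 (r : Fin 4 → ℕ) (hr : ∀ j, r j < 64)
    (h : ∀ F ∈ ICO, ∃ j, inclB 6 (r j) F = true) : False := by
  have hl : MI.length = 64 := by decide +kernel
  have hm : ∀ j, MI.getD (r j) 0 ∈ MI := by
    intro j
    rw [List.getD_eq_getElem _ _ (by rw [hl]; exact hr j)]
    exact List.getElem_mem _
  have h1 := cov4 (hm 0) (hm 1) (hm 2) (hm 3)
  have h2 : TM (MI.getD (r 0) 0 ||| MI.getD (r 1) 0 ||| MI.getD (r 2) 0 ||| MI.getD (r 3) 0) =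
      Finset.range 20 := by
    unfold TM
    rw [Finset.filter_eq_self]
    intro i hi
    rw [Finset.mem_range] at hi
    have hL : ICO.length = 20 := by decide +kernel
    obtain ⟨j, hj⟩ := h (ICO.getD i 0) (by
      rw [List.getD_eq_getElem _ _ (by rw [hL]; exact hi)]
      exact List.getElem_mem _)
    have h0 := chk0_ok
    rw [chk0, List.all_eq_true] at h0
    have h3 := h0 (r j) (List.mem_range.mpr (hr j))
    rw [List.all_eq_true] at h3
    have h4 := h3 i (List.mem_range.mpr hi)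
    rw [beq_iff_eq, hj] at h4
    simp only [Nat.testBit_or, Bool.or_eq_true]
    fin_cases j
    · exact Or.inl (Or.inl (Or.inl h4.symm))
    · exact Or.inl (Or.inl (Or.inr h4.symm))
    · exact Or.inl (Or.inr h4.symm)
    · exact Or.inr h4.symm
  rw [h2, Finset.card_range] at h1
  omega

variable {X : Type} [Fintype X] [DecidableEq X] {g : SG X}

theorem exists_ne {k : ℕ} {A : Finset X} {y : Ch X} (hA : A.image g.a = A) (hy : Good g k A y)
    (h : A.card < (k + 2) * (k + 3)) :
    ∃ P : Finset X, y P ≠ 0 ∧ P.card = k + 1 ∧ Clique g P ∧ P ⊆ A := by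
  obtain ⟨P, hP⟩ := Function.ne_iff.mp (Good.ne_zero hA hy h)
  have := Good.supp g hA hy P hP
  exact ⟨P, hP, this.1, this.2.1, this.2.2⟩

/-- one step of the descent -/
theorem step {k m : ℕ} {A : Finset X} {y : Ch X} (hA : A.image g.a = A) (hy : Good g (k + 1) A y)
    (hs : act g.a y = y) (hi : Isec g y) (hc : A.card = m) (h : m < (k + 3) * (k + 4)) :
    ∃ P : Finset X, Clique g P ∧ P.card = k + 2 ∧
      (A \ (P ∪ P.image g.a)).image g.a = A \ (P ∪ P.image g.a) ∧
      Good g k (A \ (P ∪ P.image g.a)) (D g P y) ∧ act g.a (D g P y) = D g P y ∧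
      Isec g (D g P y) ∧ (A \ (P ∪ P.image g.a)).card + 2 * (k + 2) = m := by
  obtain ⟨P, h1, h2, h3, h4⟩ := exists_ne hA hy (by rw [hc]; exact h)
  refine ⟨P, h3, h2, A_inv g hA, Good.desc g h3 hy, D_sym hA hy hs hi h1, D_isec hA hy hs hi h1, ?_⟩
  have := sdiff_Q_card hA h4 h3
  rw [h2, hc] at this
  exact this

theorem two_cliques {A : Finset X} {y : Ch X} (hA : A.image g.a = A) (hc : A.card = 46)
    (hy : Good g 5 A y) (hs : act g.a y = y) :
    ∃ P Q : Finset X, P.card = 6 ∧ Clique g P ∧ P ⊆ A ∧ Q.card = 6 ∧ Clique g Q ∧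
      Q ⊆ A \ (P ∪ P.image g.a) := by
  by_contra hno
  have hi : Isec g y := by
    intro F F' hF hF'
    by_contra hcon
    obtain ⟨h1, h2, h3⟩ := Good.supp g hA hy F hF
    obtain ⟨h1', h2', h3'⟩ := Good.supp g hA hy F' hF'
    refine hno ⟨F, F', h1, h2, h3, h1', h2', ?_⟩
    intro w hw
    rw [Finset.mem_sdiff, Finset.mem_union, mem_image_iff g.ha]
    refine ⟨h3' hw, ?_⟩
    rintro (h | h)
    · exact hcon ⟨w, h, Or.inl hw⟩
    · exact hcon ⟨g.a w, h, Or.inr (by rw [g.ha]; exact hw)⟩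
  obtain ⟨P6, -, -, a1, a2, a3, a4, a5⟩ := step (k := 4) hA hy hs hi hc (by norm_num)
  obtain ⟨P5, -, -, b1, b2, b3, b4, b5⟩ := step (k := 3) (m := 34) a1 a2 a3 a4 (by omega)
    (by norm_num)
  obtain ⟨P4, -, c0, c1, c2, c3, c4, c5⟩ := step (k := 2) (m := 24) b1 b2 b3 b4 (by omega)
    (by norm_num)
  obtain ⟨x, -, -, -, hx⟩ := level2 c1 (by omega) c2 c3 c4
  let e := Finset.equivFinOfCardEq c0
  refine no_cover4 (fun j => row g x 6 (e.symm j : X)) (fun j => row_lt) ?_
  intro F hF
  obtain ⟨v, hv, -, h3⟩ := cover_step (Good.supp g b1 b2) (hx F hF)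
  refine ⟨e ⟨v, hv⟩, ?_⟩
  rw [Equiv.symm_apply_apply]
  exact cov_incl (cov_of_adj (by norm_num) (Finset.Subset.refl _) h3)

end Pool.Agent.H140.Int
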