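import Pool.Agent.H775.Gl5
import Pool.Agent.H775.Gl6
import Pool.Agent.H775.IntD

/-!
G10: the induction over the eliminated rows of a base, and the assembly.
-/

set_option autoImplicit false
set_option linter.unusedSectionVars false

namespace Pool.Agent.H775

open Pool.Agent.TH651.RP5

variable {X : Type} [Fintype X] [DecidableEq X] {g : SG X}

theorem G10_baseB {B full AL VTL RTL JTL : List ℕ} {NsL : List (List ℕ)} {Nf : List ℕ} {K : ℕ}
    (h : baseB B full AL VTL RTL JTL NsL Nf K = true) :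
    B.length = 11 ∧ (∀ F ∈ full, F < 2 ^ 22) ∧
      (∀ lam ∈ AL, relOK 11 B (lamL 11 lam) B = true) ∧ (∀ lam ∈ AL, lam < 2 ^ 66) ∧
      AL.getD 0 0 ≠ 0 ∧ (∀ a ∈ VTL, a < AL.length) ∧ (∀ a ∈ VTL, a < 256) ∧
      (∀ a ∈ RTL, a < 2 ^ 16) ∧
      (∀ s < K, nsOK full (NsL.getD s []) 1 (RTL.getD (s + 1) 0) = true ∧
        (NsL.getD s []).length ≤ 5) ∧
      nsOK full Nf 0 0 = true ∧ Nf.length ≤ 6 ∧
      autB 11 66 73786976294838206463 (tblK 66 AL) (tblK 8 VTL) (tblK 16 RTL) (tblK 8 JTL)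
        2048 = true := by
  unfold baseB at h
  simp only [Bool.and_eq_true, Bool.not_eq_true', Nat.ble_eq, List.all_eq_true] at h
  obtain ⟨⟨⟨⟨⟨⟨⟨⟨⟨h1, h2⟩, h3⟩, h4⟩, h5⟩, h6⟩, h7⟩, h8⟩, h9⟩, h10⟩ := h
  refine ⟨Nat.eq_of_beq_eq_true h1, fun F hF => h2 F hF, fun lam hl => (h3 lam hl).1,
    fun lam hl => (h3 lam hl).2, Nat.ne_of_beq_eq_false h4, fun a ha => (h5 a ha).1,
    fun a ha => (h5 a ha).2, fun a ha => h6 a ha, fun s hs => h7 s (List.mem_range.mpr hs),
    h8, h9, h10⟩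

/-- G10a: strong induction on `j` for `QR g B A P (RTL.getD j 0)`, `1 ≤ j ≤ K` (`forb_of`,
`step_rep`; `ent (tblK 16 RTL) 16 65535 j = RTL.getD j 0` by `ent_tblK`), then `step_none`. -/
theorem base_of {B full CLS AL VTL RTL JTL : List ℕ} {NsL : List (List ℕ)} {Nf : List ℕ} {K : ℕ}
    (hchk : baseB B full AL VTL RTL JTL NsL Nf K = true)
    (hf : FullB g B full) {y : Ch X} {A P : Finset X} (hb : Bas g CLS A P y)
    (hcert : ∀ s < K, ∀ x : ℕ → X,
      Ctx g x y B full CLS JTL s 1 (RTL.getD (s + 1) 0) (NsL.getD s []) → False)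
    (hfin : ∀ x : ℕ → X, Ctx g x y B full CLS JTL K 0 0 Nf → False)
    {x0 : ℕ → X} (hFr : Fr g x0 11 B (A \ (P ∪ P.image g.a))) : False := by
  obtain ⟨hBl, hfb, hAL, hAb, h0, hV, hV2, hR, hNs, hokf, hNf, haut⟩ := G10_baseB hchk
  have hent : ∀ j, ent (tblK 16 RTL) 16 65535 j = RTL.getD j 0 := by
    intro j
    have h := ent_tblK 16 RTL hR j
    norm_num at h ⊢
    exact h
  have hforb : ∀ s : ℕ, (∀ j, 1 ≤ j → j ≤ s → QR g B A P (RTL.getD j 0)) →
      ∀ x0 : ℕ → X, Fr g x0 11 B (A \ (P ∪ P.image g.a)) →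
        ∀ p ∈ P, ∀ v, 1 ≤ ent (tblK 8 JTL) 8 255 v → ent (tblK 8 JTL) 8 255 v ≤ s →
        row g x0 11 p ≠ v := by
    intro s hq
    exact forb_of (s := s) hb.hA hb.hPA hb.hP hAL hAb h0 hV hV2 haut
      (fun j h1 h2 => by rw [hent]; exact hq j h1 h2)
  have key : ∀ s : ℕ, s ≤ K → ∀ j, 1 ≤ j → j ≤ s → QR g B A P (RTL.getD j 0) := by
    intro s
    induction s with
    | zero => intro _ j h1 h2; omega
    | succ s ih =>
      intro hs j h1 h2
      have ih' := ih (by omega)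
      rcases Nat.lt_or_ge s j with h3 | h3
      · have hj : j = s + 1 := by omega
        subst hj
        exact step_rep hb hf hfb hBl (hNs s (by omega)).2 (hNs s (by omega)).1
          (hcert s (by omega)) (hforb s ih')
      · exact ih' j h1 h3
  exact step_none hb hf hfb hBl hNf hokf hfin hFr (hforb K (key K le_rfl) x0 hFr)

/-- G10b: assembly. `two_cliques` (in `IntD.lean`, namespace `Pool.Agent.H140.Int`) gives `P, Q`;
`A \ (P ∪ -P)` has 34 elements; the base frame is obtained as in the proof of `thm_T16`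
(`S16.lean`: `thm_P6`, `full_ico`, `enum_step E3_ok`) from the 6-clique `Q` instead of `P`.-/
theorem all_of {CLS : List ℕ}
    (h7 : ∀ (A P : Finset X) (y : Ch X), A.image g.a = A → A.card = 46 → Clique g P →
      P.card = 7 → P ⊆ A → Good g 5 A y → False)
    (hbase : ∀ k < 4, ∀ (A P : Finset X) (y : Ch X), Bas g CLS A P y → ∀ x0 : ℕ → X,
      Fr g x0 11 (E3.reps.getD k []) (A \ (P ∪ P.image g.a)) → False)
    (hcls : ∀ c ∈ CLS, ∀ (A P : Finset X) (y : Ch X), A.image g.a = A → Clique g P →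
      P.card = 6 → P ⊆ A → Good g 5 A y → (∀ F : Finset X, F ⊆ A → F.card = 7 → ¬ Clique g F) →
      ∀ x : ℕ → X, Fr g x 17 (rowsOf c) (A \ (P ∪ P.image g.a)) → False)
    {A : Finset X} (hA : A.image g.a = A) (hc : A.card = 46) {y : Ch X} (hy : Good g 5 A y)
    (hs : act g.a y = y) : False := by
  obtain ⟨P, Q, hPc, hP, hPA, hQc, hQ, hQA⟩ :=
    Pool.Agent.H140.Int.two_cliques hA hc hy hs
  have hno7 : ∀ F : Finset X, F ⊆ A → F.card = 7 → ¬ Clique g F :=
    fun F h1 h2 h3 => h7 A F y hA hc h3 h2 h1 hy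
  have hc1 := sdiff_Q_card hA hPA hP
  have hA1 : (A \ (P ∪ P.image g.a)).image g.a = A \ (P ∪ P.image g.a) := A_inv g hA
  have hy4 : Good g 4 (A \ (P ∪ P.image g.a)) (D g P y) := Good.desc g hP hy
  have hbas : Bas g CLS (A \ (P ∪ P.image g.a)) Q (D g P y) :=
    { hA := hA1
      hP := hQ
      hPc := hQc
      hPA := hQA
      good := hy4
      no7 := fun F h1 h2 => hno7 F (h1.trans Finset.sdiff_subset) h2
      hcls := fun c hcC hx => by
        obtain ⟨x', hx'⟩ := hx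
        exact hcls c hcC A P y hA hP hPc hPA hy hno7 x' hx' }
  set A17 := A \ (P ∪ P.image g.a) with hA17
  have hc2 := sdiff_Q_card hA1 hQA hQ
  have hA2 : (A17 \ (Q ∪ Q.image g.a)).image g.a = A17 \ (Q ∪ Q.image g.a) := A_inv g hA1
  have hy3 := Good.desc g hQ hy4
  set A11 := A17 \ (Q ∪ Q.image g.a) with hA11
  obtain ⟨R, hRc, hR, hRA⟩ := thm_beta hA2 (by omega) hy3
  have hc3 := sdiff_Q_card hA2 hRA hR
  have hA3 : (A11 \ (R ∪ R.image g.a)).image g.a = A11 \ (R ∪ R.image g.a) := A_inv g hA2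
  have hy2 := Good.desc g hR hy3
  obtain ⟨x, hx⟩ := thm_P6 hA3 (by omega) hy2
  have hf := full_ico hx hy2
  have hcov : ∀ F ∈ E3.Fs, ∃ v ∈ R, Cvr g x E3.n v F := by
    intro F hF
    obtain ⟨v, hv, -, h3⟩ := cover_step (Good.supp g hA2 hy3) (hf F hF)
    exact ⟨v, hv, cov_of_adj (by decide +kernel) (Finset.Subset.refl _) h3⟩
  obtain ⟨k, hk, x', hx'⟩ := enum_step E3_ok hx hR hRc Finset.sdiff_disjoint hcov
    (by decide +kernel)
  rw [sdiff_union_Q hA2 hRA] at hx'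
  have hk4 : k < 4 := by
    have : E3.reps.length = 4 := by decide +kernel
    omega
  exact hbase k hk4 A17 Q (D g P y) hbas x' hx'

end Pool.Agent.H775
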