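import Pool.Agent.H775.Pad
import Pool.Graph.R_seed8.TH651.RP5.Topo2

/-!
G11: the final theorem from the combinatorial statement.
-/

set_option autoImplicit false
set_option linter.unusedSectionVars false

namespace Pool.Agent.H775

open Pool.Agent.TH651.RP5

/-- G11: the final theorem from the combinatorial statement. -/
theorem final_of
    (hmain : ∀ (X : Type) [Fintype X] [DecidableEq X] (g : SG X) (A : Finset X) (y : Ch X),
      A.image g.a = A → A.card = 46 → Good g 5 A y → act g.a y = y → False)
    {n : ℕ} (K : Geometry.SimplicialComplex ℝ (EuclideanSpace ℝ (Fin n)))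
    (hK : K.vertices.Finite) (Ψ : Nonempty (K.space ≃ₜ Quot rel)) : 24 ≤ K.vertices.ncard := by
  classical
  obtain ⟨Ψ⟩ := Ψ
  by_contra hlt
  have hle : K.vertices.ncard ≤ 23 := by omega
  haveI : Fintype K.vertices := hK.fintype
  obtain ⟨s, hs, c, hS⟩ := exists_smith K hK Ψ
  have hcard : Fintype.card K.vertices = K.vertices.ncard := by
    rw [← Nat.card_eq_fintype_card]
    rfl
  obtain ⟨W, iF, iD, s', hs', c', hW, hS'⟩ := Pad.pad s hs c 5 hS 23 (by rw [hcard]; exact hle)
  have hgood : Good (SG.ofSign s' hs') 5 (Finset.univ : Finset (W × Bool))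
      (c' 5 + act (SG.ofSign s' hs').a (c' 5) + bd 0) :=
    ⟨c', 0, hS', Supp.zero _ _ _, rfl⟩
  refine hmain (W × Bool) (SG.ofSign s' hs') Finset.univ _ ?_ ?_ hgood ?_
  · ext v
    rw [mem_image_iff (SG.ofSign s' hs').ha]
    simp
  · rw [Finset.card_univ, Fintype.card_prod, hW, Fintype.card_bool]
  · rw [bd_zero, add_zero, act_add, act_act (SG.ofSign s' hs').ha, add_comm]

end Pool.Agent.H775
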