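import Pool.Agent.H775.GlDef
import Pool.Graph.R_seed8.TH651.RP5.S16

/-!
G2: matrix invariants.
-/

set_option autoImplicit false
set_option linter.unusedSectionVars false

namespace Pool.Agent.H775

open Pool.Agent.TH651.RP5

variable {X : Type} [Fintype X] [DecidableEq X] {g : SG X}

/-! ### G2: matrices -/

theorem G2_xor_lt {l n : ℕ} (he : n % 2 = 0) (hl : l < n) : l ^^^ 1 < n := by
  rcases Nat.mod_two_eq_zero_or_one l with h | h
  · rw [e3_xor_even h]; omega
  · rw [e3_xor_odd h]; omega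

/-- G2a (compare `nad_inv` in `EngE3.lean`) -/
theorem nad_inv' {b2 m rc : ℕ} {full : List ℕ} {adj : ℕ → ℕ → Prop} {val : ℕ → ZMod 2}
    (M : Mdl b2 m rc full adj val) {N l q : ℕ} (hl : l < b2 + 2 * m) (hq : q + 1 < b2 + 2 * m)
    (he : q % 2 = 0) (hN : InvN b2 m adj N) (ha : adj l q) : InvN b2 m adj (nad N l q) := by
  have hev := M.even
  have hnl := M.hnl
  have hq1 : q ^^^ 1 = q + 1 := e3_xor_even he
  have hl1 : l ^^^ 1 < b2 + 2 * m := G2_xor_lt (by omega) hl
  have a1 : ¬ adj l (q + 1) := by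
    rw [← hq1]; exact M.excl _ _ ha
  have a2 : ¬ adj (l ^^^ 1) q := by
    have h1 := M.excl _ _ (M.anti _ _ ha)
    rwa [e3_xx] at h1
  intro r z hr hz hb
  have hb' : (N ||| (1 <<< (64 * l + (q + 1))) ||| (1 <<< (64 * (q + 1) + l)) |||
      (1 <<< (64 * (l ^^^ 1) + q)) ||| (1 <<< (64 * q + (l ^^^ 1)))).testBit
        (64 * r + z) = true := hb
  simp only [Nat.testBit_or, Bool.or_eq_true, e3_one_shl] at hb'
  rcases hb' with (((h | h) | h) | h) | h
  · exact hN r z hr hz h
  · have e1 : r = l := by omega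
    have e2 : z = q + 1 := by omega
    rw [e1, e2]; exact a1
  · have e1 : r = q + 1 := by omega
    have e2 : z = l := by omega
    rw [e1, e2]; exact fun h => a1 (M.symm _ _ h)
  · have e1 : r = l ^^^ 1 := by omega
    have e2 : z = q := by omega
    rw [e1, e2]; exact a2
  · have e1 : r = q := by omega
    have e2 : z = l ^^^ 1 := by omega
    rw [e1, e2]; exact fun h => a2 (M.symm _ _ h)

theorem G2_three {n i : ℕ} (h : (3 <<< n : ℕ).testBit i = true) : i = n ∨ i = n + 1 := by
  rw [Nat.testBit_shiftLeft, Bool.and_eq_true, decide_eq_true_eq] at h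
  obtain ⟨h1, h2⟩ := h
  by_contra hcon
  have h3 : (3 : ℕ) < 2 ^ (i - n) := by
    calc (3 : ℕ) < 2 ^ 2 := by norm_num
      _ ≤ 2 ^ (i - n) := Nat.pow_le_pow_right (by norm_num) (by omega)
  rw [Nat.testBit_lt_two_pow h3] at h2
  exact absurd h2 (by simp)

/-- G2b -/
theorem ndia_inv {b2 m : ℕ} {adj : ℕ → ℕ → Prop} (h1 : ∀ l, ¬ adj l l) (h2 : ∀ l, ¬ adj l (l ^^^ 1))
    (hnl : b2 + 2 * m ≤ 62) (n : ℕ) : InvN b2 m adj (ndia n) := by
  induction n with
  | zero =>
    intro r z _ _ hb
    have hb' : (0 : ℕ).testBit (64 * r + z) = true := hb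
    rw [Nat.zero_testBit] at hb'
    exact absurd hb' (by simp)
  | succ p ih =>
    intro r z hr hz hb
    have hb' : (ndia p ||| (3 <<< (128 * p + 2 * p)) ||| (3 <<< (128 * p + 64 + 2 * p))).testBit
        (64 * r + z) = true := hb
    simp only [Nat.testBit_or, Bool.or_eq_true] at hb'
    rcases hb' with (h | h) | h
    · exact ih r z hr hz h
    · rcases G2_three h with h | h
      · have e1 : r = 2 * p := by omega
        have e2 : z = 2 * p := by omega
        rw [e1, e2]; exact h1 _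
      · have e1 : r = 2 * p := by omega
        have e2 : z = 2 * p + 1 := by omega
        rw [e1, e2, ← e3_xor_even (n := 2 * p) (by omega)]; exact h2 _
    · rcases G2_three h with h | h
      · have e1 : r = 2 * p + 1 := by omega
        have e2 : z = 2 * p := by omega
        have e3 : (2 * p + 1) ^^^ 1 = 2 * p := by
          rw [e3_xor_odd (n := 2 * p + 1) (by omega)]; omega
        have := h2 (2 * p + 1)
        rw [e3] at this
        rw [e1, e2]; exact this
      · have e1 : r = 2 * p + 1 := by omega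
        have e2 : z = 2 * p + 1 := by omega
        rw [e1, e2]; exact h1 _

theorem G2_nrow {b2 m rc : ℕ} {full : List ℕ} {adj : ℕ → ℕ → Prop} {val : ℕ → ZMod 2}
    (M : Mdl b2 m rc full adj val) {r j N : ℕ} (hj : 2 * j + 1 < b2 + 2 * m)
    (hN : InvN b2 m adj N) : ∀ i ≤ j, (∀ i' < i, adj (2 * i' + r / 2 ^ i' % 2) (2 * j)) →
    InvN b2 m adj (nrow r j N i) := by
  intro i
  induction i with
  | zero => intro _ _; exact hN
  | succ i ih =>
    intro hi ha
    have h1 := ih (by omega) (fun i' hi' => ha i' (by omega))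
    have h2 := ha i (by omega)
    rw [← Nat.shiftRight_eq_div_pow] at h2
    have hb : (r >>> i) % 2 < 2 := Nat.mod_lt _ (by norm_num)
    exact nad_inv' M (l := 2 * i + (r >>> i) % 2) (q := 2 * j) (by omega) hj (by omega) h1 h2

theorem G2_nmat {b2 m rc : ℕ} {full : List ℕ} {adj : ℕ → ℕ → Prop} {val : ℕ → ZMod 2}
    (M : Mdl b2 m rc full adj val) (C : List ℕ) : ∀ (j N : ℕ), 2 * (j + C.length) ≤ b2 + 2 * m →
    (∀ t < C.length, ∀ i < j + t, adj (2 * i + C.getD t 0 / 2 ^ i % 2) (2 * (j + t))) →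
    InvN b2 m adj N → InvN b2 m adj (nmat C j N) := by
  induction C with
  | nil => intro j N _ _ hN; exact hN
  | cons r C ih =>
    intro j N hC hs hN
    rw [List.length_cons] at hC
    have h1 : InvN b2 m adj (nrow r j N j) := by
      apply G2_nrow M (by omega) hN j le_rfl
      intro i' hi'
      have := hs 0 (by rw [List.length_cons]; omega) i' (by omega)
      simpa using this
    refine ih (j + 1) (nrow r j N j) (by omega) ?_ h1
    intro t ht i hi
    have := hs (t + 1) (by rw [List.length_cons]; omega) i (by omega)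
    rw [List.getD_cons_succ] at this
    have e : j + (t + 1) = j + 1 + t := by omega
    rw [e] at this
    exact this

/-- G2c -/
theorem nmat_inv {b2 m rc : ℕ} {full : List ℕ} {adj : ℕ → ℕ → Prop} {val : ℕ → ZMod 2}
    (M : Mdl b2 m rc full adj val) {C : List ℕ} {N : ℕ} (hC : 2 * C.length ≤ b2 + 2 * m)
    (hs : ∀ i j, i < j → j < C.length → adj (2 * i + C.getD j 0 / 2 ^ i % 2) (2 * j))
    (hN : InvN b2 m adj N) : InvN b2 m adj (nmat C 0 N) := by
  apply G2_nmat M C 0 N (by omega) _ hN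
  intro t ht i hi
  rw [Nat.zero_add] at hi ⊢
  exact hs i t hi ht

theorem G2_nrowb {n1 m rc : ℕ} {full : List ℕ} {adj : ℕ → ℕ → Prop} {val : ℕ → ZMod 2}
    (M : Mdl (2 * n1) m rc full adj val) {k N : ℕ} (hk : k < m) (hN : InvN (2 * n1) m adj N) :
    ∀ i ≤ k, (∀ i' < i, adj (2 * (n1 + i')) (2 * (n1 + k))) →
    InvN (2 * n1) m adj (nrowb n1 k N i) := by
  intro i
  induction i with
  | zero => intro _ _; exact hN
  | succ i ih =>
    intro hi ha
    have h1 := ih (by omega) (fun i' hi' => ha i' (by omega))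
    have h2 := ha i (by omega)
    exact nad_inv' M (l := 2 * (n1 + i)) (q := 2 * (n1 + k)) (by omega) (by omega) (by omega) h1 h2

/-- G2d -/
theorem nblk_inv {n1 m rc : ℕ} {full : List ℕ} {adj : ℕ → ℕ → Prop} {val : ℕ → ZMod 2}
    (M : Mdl (2 * n1) m rc full adj val) {N : ℕ}
    (hb : ∀ i k, i < k → k < m → adj (2 * (n1 + i)) (2 * (n1 + k)))
    (hN : InvN (2 * n1) m adj N) : InvN (2 * n1) m adj (nblk n1 N m) := by
  have key : ∀ j ≤ m, InvN (2 * n1) m adj (nblk n1 N j) := by
    intro j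
    induction j with
    | zero => intro _; exact hN
    | succ k ih =>
      intro hk
      exact G2_nrowb M (by omega) (ih (by omega)) k le_rfl (fun i' hi' => hb i' k hi' (by omega))
  exact key m le_rfl

/-- G2e -/
theorem ncod_inv {b2 m rc : ℕ} {full : List ℕ} {adj : ℕ → ℕ → Prop} {val : ℕ → ZMod 2}
    (M : Mdl b2 m rc full adj val) {L : List ℕ} (hL : ∀ c ∈ L, c < b2 * m ∧ AdjC b2 adj c) {N : ℕ}
    (hN : InvN b2 m adj N) : InvN b2 m adj (ncod b2 L N) := by
  induction L with
  | nil => exact hN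
  | cons c L ih =>
    obtain ⟨hc, ha⟩ := hL c List.mem_cons_self
    have h1 := ih (fun c' hc' => hL c' (List.mem_cons_of_mem _ hc'))
    have hb := e3_pos hc
    exact nad_inv M (Nat.mod_lt _ hb) (Nat.div_lt_of_lt_mul hc) h1 ha

/-- G2f -/
theorem ecod_inv {b2 m : ℕ} {adj : ℕ → ℕ → Prop} {L : List ℕ}
    (hL : ∀ c ∈ L, c < b2 * m ∧ AdjC b2 adj c) : InvE b2 m adj (ecod L) := by
  induction L with
  | nil =>
    intro c hc
    have hb' : (0 : ℕ).testBit c = true := hc
    rw [Nat.zero_testBit] at hb'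
    exact absurd hb' (by simp)
  | cons a L ih =>
    have h1 := ih (fun c' hc' => hL c' (List.mem_cons_of_mem _ hc'))
    intro c hc
    have hb' : (ecod L ||| (1 <<< a)).testBit c = true := hc
    rw [Nat.testBit_or, Bool.or_eq_true, e3_one_shl] at hb'
    rcases hb' with h | h
    · exact h1 c h
    · rw [h]; exact hL a List.mem_cons_self

/-- G2g -/
theorem adj_of_sg {x : ℕ → X} {n : ℕ} {C : List ℕ} (hi : Inj g x n) (hs : Sg g x n C) {i j : ℕ}
    (hij : i < j) (hj : j < n) : adjx g x (2 * i + C.getD j 0 / 2 ^ i % 2) (2 * j) := by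
  have hb : C.getD j 0 / 2 ^ i % 2 < 2 := Nat.mod_lt _ (by norm_num)
  have h1 := hs i j hij hj
  rw [Nat.testBit_eq_decide_div_mod_eq, decide_eq_true_eq] at h1
  generalize C.getD j 0 / 2 ^ i % 2 = b at hb h1 ⊢
  have e1 : (2 * i + b) / 2 = i := by omega
  have e2 : 2 * j / 2 = j := by omega
  unfold adjx
  rw [adj_lt hi (l := 2 * i + b) (m := 2 * j) (by omega) (by omega) (by omega), e1, e2, h1]
  constructor
  · intro h; omega
  · intro h; omega

end Pool.Agent.H775
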