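import Pool.Agent.H775.GlDef
import Pool.Graph.R_seed8.TH651.RP5.S16

/-!
G3a-G3d (helper289): soundness of the check of blocked solutions.
-/

set_option autoImplicit false
set_option linter.unusedSectionVars false

namespace Pool.Agent.H775

open Pool.Agent.TH651.RP5

variable {X : Type} [Fintype X] [DecidableEq X] {g : SG X}

theorem G3a_tb (N i : ℕ) : tb N i = N.testBit i := by
  unfold tb
  rw [Bool.eq_iff_iff, e3_beq]
  exact e3_bit

theorem G3a_half (l b : ℕ) (hb : b < 2) : (l ^^^ b) / 2 = l / 2 := by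
  have h := Nat.xor_div_two (a := l) (b := b)
  have h2 : b / 2 = 0 := by omega
  rw [h, h2, Nat.xor_zero]

theorem G3a_lt (l b n : ℕ) (hb : b < 2) (h : l < 2 * n) : l ^^^ b < 2 * n := by
  have h1 := G3a_half l b hb
  omega

theorem G3a_lt_ne {x : ℕ → X} {n l z : ℕ} (hi : Inj g x n) (hl : l < 2 * n) (hz : z < 2 * n)
    (hlz : l / 2 ≠ z / 2) : lt g x z ≠ lt g x l ∧ lt g x z ≠ g.a (lt g x l) := by
  constructor
  · intro e
    have := lt_inj hi hz hl e
    exact hlz (by rw [this])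
  · intro e
    rw [← lt_xor] at e
    have h1 := lt_inj hi hz (G3a_lt l 1 n (by omega) hl) e
    have h2 := G3a_half l 1 (by omega)
    exact hlz (by rw [h1, h2])

section Ax

variable {x : ℕ → X} {BN D : ℕ}

theorem G3a_base {k u w : ℕ} (hu : u < 2) (h : adjx g x (w ^^^ u) (22 + 2 * k)) :
    adjx g x w (22 + 2 * k + u) := by
  have hu' : u = 0 ∨ u = 1 := by omega
  rcases hu' with rfl | rfl
  · rw [Nat.xor_zero] at h
    exact h
  · unfold adjx at h ⊢
    have h1 := g.eqv h
    rw [← lt_xor, ← lt_xor, e3_xx, e3_xor_even (by omega)] at h1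
    exact h1

/-- G3a -/
theorem adB_sound (hi : Inj g x 17) (hP : Clique g (blk x 11 17))
    (hBN : ∀ r z, r < 34 → z < 34 → BN.testBit (64 * r + z) = true → ¬ adjx g x r z)
    (hD : ∀ c < 132, D.testBit c = true → AdjC 22 (adjx g x) c) {l z : ℕ} (hl : l < 34)
    (hz : z < 34) (hlz : l / 2 ≠ z / 2) (h : adB BN D l z = true) : adjx g x l z := by
  have hb1 : ∀ a : ℕ, Nat.ble 22 a = decide (22 ≤ a) := by
    intro a
    rw [Bool.eq_iff_iff, Nat.ble_eq, decide_eq_true_eq]
  -- codes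
  have hcode : ∀ k u w : ℕ, k < 6 → u < 2 → w < 22 →
      tb D (Nat.add (Nat.mul 22 k) (Nat.xor w u)) = true → adjx g x w (22 + 2 * k + u) := by
    intro k u w hk hu hw ht
    rw [G3a_tb] at ht
    have h1 : w ^^^ u < 22 := G3a_lt w u 11 hu hw
    have ht' : D.testBit (22 * k + (w ^^^ u)) = true := ht
    have h2 := hD (22 * k + (w ^^^ u)) (by omega) ht'
    unfold AdjC at h2
    have h3 : (22 * k + (w ^^^ u)) % 22 = w ^^^ u := by omega
    have h4 : (22 * k + (w ^^^ u)) / 22 = k := by omega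
    rw [h3, h4] at h2
    exact G3a_base hu h2
  unfold adB at h
  rw [hb1, hb1] at h
  by_cases hz2 : 22 ≤ z
  · rw [decide_eq_true hz2] at h
    by_cases hl2 : 22 ≤ l
    · rw [decide_eq_true hl2] at h
      have h1 : (l + z) % 2 = 0 := e3_beq.1 h
      have hne : x (l / 2) ≠ x (z / 2) := (hi (l/2) (by omega) (z/2) (by omega) hlz).1
      have hadj : g.Adj (x (l / 2)) (x (z / 2)) := by
        refine hP _ ?_ _ ?_ hne
        · exact Finset.mem_image_of_mem _ (Finset.mem_Ico.2 ⟨by omega, by omega⟩)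
        · exact Finset.mem_image_of_mem _ (Finset.mem_Ico.2 ⟨by omega, by omega⟩)
      unfold adjx lt
      by_cases hl3 : l % 2 = 0
      · have hz3 : z % 2 = 0 := by omega
        rw [if_pos hl3, if_pos hz3]
        exact hadj
      · have hz3 : ¬ z % 2 = 0 := by omega
        rw [if_neg hl3, if_neg hz3]
        exact g.eqv hadj
    · rw [decide_eq_false hl2] at h
      have h1 := hcode ((z - 22) / 2) (z % 2) l (by omega) (by omega) (by omega) h
      have h2 : 22 + 2 * ((z - 22) / 2) + z % 2 = z := by omega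
      rw [h2] at h1
      exact h1
  · rw [decide_eq_false hz2] at h
    by_cases hl2 : 22 ≤ l
    · rw [decide_eq_true hl2] at h
      have h1 := hcode ((l - 22) / 2) (l % 2) z (by omega) (by omega) (by omega) h
      have h2 : 22 + 2 * ((l - 22) / 2) + l % 2 = l := by omega
      rw [h2] at h1
      exact g.symm h1
    · rw [decide_eq_false hl2] at h
      have h0 : tb BN (Nat.add (Nat.mul 64 l) (Nat.xor z 1)) = true := h
      rw [G3a_tb] at h0
      have h1 : BN.testBit (64 * l + (z ^^^ 1)) = true := h0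
      have h2 := hBN l (z ^^^ 1) hl (G3a_lt z 1 17 (by omega) hz) h1
      obtain ⟨h3, h4⟩ := G3a_lt_ne hi hl hz hlz
      rcases g.tot h3 h4 with h5 | h5
      · exact h5
      · exfalso
        apply h2
        unfold adjx
        rw [lt_xor]
        exact h5

/-- digits in base 64, last one first -/
def G3a_pl (lam : ℕ) : ℕ → List ℕ
  | 0 => []
  | j + 1 => (lam / 64 ^ j % 64) :: G3a_pl lam j

theorem G3a_solI {r z lam : ℕ} : ∀ j, solI BN D r z (G3a_pl lam j) j = true →
    ∀ i < j, lam / 64 ^ i % 64 / 2 ≠ z / 2 ∧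
      adB BN D (lam / 64 ^ i % 64) (z ^^^ (r / 2 ^ i % 2)) = true := by
  intro j
  induction j with
  | zero => intro _ i hi; omega
  | succ j ih =>
    intro h i hi
    have h1 : (Bool.rec false (Bool.rec (solI BN D r z (G3a_pl lam j) (Nat.sub (j+1) 1)) false
        (Nat.beq (Nat.div (lam / 64 ^ j % 64) 2) (Nat.div z 2)))
        (adB BN D (lam / 64 ^ j % 64)
          (Nat.xor z (Nat.mod (Nat.shiftRight r (Nat.sub (j+1) 1)) 2))) : Bool) = true := h
    obtain ⟨h2, h3⟩ := e3_rec_false h1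
    obtain ⟨h4, h5⟩ := e3_rec_true h3
    have hj : Nat.sub (j+1) 1 = j := rfl
    rw [hj] at h2 h5
    rcases Nat.lt_succ_iff_lt_or_eq.1 hi with h6 | rfl
    · exact ih h5 i h6
    · refine ⟨?_, ?_⟩
      · intro e
        have h7 : Nat.beq (Nat.div (lam / 64 ^ i % 64) 2) (Nat.div z 2) = true := e3_beq.2 e
        rw [h7] at h4
        exact absurd h4 (by decide)
      · have h8 : Nat.mod (Nat.shiftRight r i) 2 = r / 2 ^ i % 2 := by
          show (r >>> i) % 2 = _
          rw [Nat.shiftRight_eq_div_pow]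
        rw [h8] at h2
        exact h2

theorem G3a_solO {lam cls : ℕ} : ∀ n j, solO BN D n (lam / 64 ^ j) (cls / 65536 ^ j)
    (G3a_pl lam j) j = true → ∀ k, j ≤ k → k < j + n → lam / 64 ^ k % 64 < 34 ∧
      ∀ i < k, lam / 64 ^ i % 64 / 2 ≠ lam / 64 ^ k % 64 / 2 ∧
        adB BN D (lam / 64 ^ i % 64)
          ((lam / 64 ^ k % 64) ^^^ (cls / 65536 ^ k % 65536 / 2 ^ i % 2)) = true := by
  intro n
  induction n with
  | zero => intro j _ k h1 h2; omega
  | succ n ih =>
    intro j h k hjk hk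
    have h1 : (Bool.rec false
        (Bool.rec false
          (solO BN D n (Nat.div (lam / 64 ^ j) 64) (Nat.div (cls / 65536 ^ j) 65536)
            (Nat.mod (lam / 64 ^ j) 64 :: G3a_pl lam j) (Nat.add j 1))
          (solI BN D (Nat.mod (cls / 65536 ^ j) 65536) (Nat.mod (lam / 64 ^ j) 64)
            (G3a_pl lam j) j))
        (Nat.ble (Nat.mod (lam / 64 ^ j) 64) 33) : Bool) = true := h
    obtain ⟨h2, h3⟩ := e3_rec_false h1
    obtain ⟨h4, h5⟩ := e3_rec_false h3
    rcases Nat.eq_or_lt_of_le hjk with rfl | hlt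
    · refine ⟨?_, ?_⟩
      · rw [Nat.ble_eq] at h2
        have h7 : lam / 64 ^ j % 64 ≤ 33 := h2
        omega
      · exact G3a_solI j h4
    · have e1 : Nat.div (lam / 64 ^ j) 64 = lam / 64 ^ (j+1) := by
        show lam / 64 ^ j / 64 = _
        rw [Nat.div_div_eq_div_mul, ← pow_succ]
      have e2 : Nat.div (cls / 65536 ^ j) 65536 = cls / 65536 ^ (j+1) := by
        show cls / 65536 ^ j / 65536 = _
        rw [Nat.div_div_eq_div_mul, ← pow_succ]
      rw [e1, e2] at h5
      exact ih (j+1) h5 k (by omega) (by omega)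

/-- G3b (induction on `n` with the accumulated list of earlier literals) -/
theorem solO_sound (hi : Inj g x 17) (hP : Clique g (blk x 11 17))
    (hBN : ∀ r z, r < 34 → z < 34 → BN.testBit (64 * r + z) = true → ¬ adjx g x r z)
    (hD : ∀ c < 132, D.testBit c = true → AdjC 22 (adjx g x) c) {n lam cls : ℕ}
    (h : solO BN D n lam cls [] 0 = true) :
    (∀ j < n, lam / 64 ^ j % 64 < 34) ∧ ∀ i j, i < j → j < n →
      lam / 64 ^ i % 64 / 2 ≠ lam / 64 ^ j % 64 / 2 ∧
      adjx g x (lam / 64 ^ i % 64) ((lam / 64 ^ j % 64) ^^^ (cls / 65536 ^ j % 65536 / 2 ^ i % 2)) := by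
  have h' : solO BN D n (lam / 64 ^ 0) (cls / 65536 ^ 0) (G3a_pl lam 0) 0 = true := by
    rw [pow_zero, pow_zero, Nat.div_one, Nat.div_one]
    exact h
  have h1 := G3a_solO n 0 h'
  refine ⟨fun j hj => (h1 j (by omega) (by omega)).1, ?_⟩
  intro i j hij hj
  obtain ⟨h2, h3⟩ := h1 j (by omega) (by omega)
  obtain ⟨h4, h5⟩ := h3 i hij
  have h6 := (h1 i (by omega) (by omega)).1
  have hb : cls / 65536 ^ j % 65536 / 2 ^ i % 2 < 2 := Nat.mod_lt _ (by omega)
  refine ⟨h4, adB_sound hi hP hBN hD h6 (G3a_lt _ _ 17 hb h2) ?_ h5⟩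
  rw [G3a_half _ _ hb]
  exact h4

theorem G3a_rows (cls j : ℕ) (hj : j < 17) : (rowsOf cls).getD j 0 = cls / 65536 ^ j % 65536 := by
  unfold rowsOf
  rw [List.getD_eq_getElem _ _ (by simpa using hj), List.getElem_map, List.getElem_range]

theorem G3a_img {x' : ℕ → X} {n : ℕ} (hi : Inj g x n) (hi' : Inj g x' n)
    (h : ∀ i < n, x' i ∈ img g x (2 * n)) : img g x' (2 * n) = img g x (2 * n) := by
  refine Finset.eq_of_subset_of_card_le ?_ ?_
  · intro v hv
    rw [img, Finset.mem_image] at hv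
    obtain ⟨l, hl, rfl⟩ := hv
    rw [Finset.mem_range] at hl
    have h1 := h (l / 2) (by omega)
    unfold lt
    split_ifs
    · exact h1
    · rw [← img_inv n]
      exact Finset.mem_image_of_mem _ h1
  · rw [img_card hi, img_card hi']

/-- G3c: `x' i = lt g x (lam / 64 ^ i % 64)`; for the image compare the proof of `relabel` -/
theorem sol_frame (hi : Inj g x 17) (hP : Clique g (blk x 11 17))
    (hBN : ∀ r z, r < 34 → z < 34 → BN.testBit (64 * r + z) = true → ¬ adjx g x r z)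
    (hD : ∀ c < 132, D.testBit c = true → AdjC 22 (adjx g x) c) {lam cls : ℕ}
    (h : solO BN D 17 lam cls [] 0 = true) :
    ∃ x' : ℕ → X, Fr g x' 17 (rowsOf cls) (img g x 34) := by
  obtain ⟨h1, h2⟩ := solO_sound hi hP hBN hD h
  have hinj : Inj g (fun i => lt g x (lam / 64 ^ i % 64)) 17 := by
    intro i hi1 j hj hij
    have hne : lam / 64 ^ j % 64 / 2 ≠ lam / 64 ^ i % 64 / 2 := by
      rcases Nat.lt_or_gt_of_ne hij with h3 | h3
      · exact (h2 i j h3 hj).1.symm
      · exact (h2 j i h3 hi1).1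
    exact G3a_lt_ne hi (h1 j hj) (h1 i hi1) hne
  refine ⟨fun i => lt g x (lam / 64 ^ i % 64), hinj, ?_, ?_⟩
  · intro i j hij hj
    obtain ⟨_, h4⟩ := h2 i j hij hj
    rw [G3a_rows cls j hj, Nat.testBit_eq_decide_div_mod_eq, decide_eq_true_eq]
    rcases Nat.mod_two_eq_zero_or_one (cls / 65536 ^ j % 65536 / 2 ^ i) with h5 | h5
    · rw [h5, Nat.xor_zero] at h4
      constructor
      · intro h6; exact absurd h4 h6
      · intro h6; omega
    · rw [h5] at h4
      unfold adjx at h4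
      rw [lt_xor] at h4
      constructor
      · intro _; exact h5
      · intro _ h6
        exact g.excl h6 h4
  · exact G3a_img hi hinj (fun i hi1 => lt_mem_img (h1 i hi1))

/-- G3d -/
theorem om_clique (hi : Inj g x 17) (hP : Clique g (blk x 11 17))
    (hBN : ∀ r z, r < 34 → z < 34 → BN.testBit (64 * r + z) = true → ¬ adjx g x r z)
    (hD : ∀ c < 132, D.testBit c = true → AdjC 22 (adjx g x) c) {lam : ℕ}
    (h : solO BN D 7 lam 0 [] 0 = true) :
    ∃ F : Finset X, F ⊆ img g x 34 ∧ F.card = 7 ∧ Clique g F := by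
  obtain ⟨h1, h2⟩ := solO_sound hi hP hBN hD h
  have h3 : ∀ i j, i < j → j < 7 → lam / 64 ^ i % 64 / 2 ≠ lam / 64 ^ j % 64 / 2 ∧
      g.Adj (lt g x (lam / 64 ^ i % 64)) (lt g x (lam / 64 ^ j % 64)) := by
    intro i j hij hj
    obtain ⟨h4, h5⟩ := h2 i j hij hj
    have h6 : 0 / 65536 ^ j % 65536 / 2 ^ i % 2 = 0 := by
      rw [Nat.zero_div, Nat.zero_mod, Nat.zero_div, Nat.zero_mod]
    rw [h6, Nat.xor_zero] at h5
    exact ⟨h4, h5⟩
  refine ⟨(Finset.range 7).image (fun i => lt g x (lam / 64 ^ i % 64)), ?_, ?_, ?_⟩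
  · intro v hv
    rw [Finset.mem_image] at hv
    obtain ⟨i, hi1, rfl⟩ := hv
    exact lt_mem_img (h1 i (Finset.mem_range.1 hi1))
  · rw [Finset.card_image_of_injOn, Finset.card_range]
    intro i hi1 j hj e
    rw [Finset.mem_coe, Finset.mem_range] at hi1 hj
    by_contra hne
    have hij : lam / 64 ^ i % 64 / 2 ≠ lam / 64 ^ j % 64 / 2 := by
      rcases Nat.lt_or_gt_of_ne hne with h4 | h4
      · exact (h3 i j h4 hj).1
      · exact (h3 j i h4 hi1).1.symm
    exact (G3a_lt_ne hi (h1 j hj) (h1 i hi1) hij.symm).1 e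
  · intro u hu v hv huv
    rw [Finset.mem_image] at hu hv
    obtain ⟨i, hi1, rfl⟩ := hu
    obtain ⟨j, hj, rfl⟩ := hv
    rw [Finset.mem_range] at hi1 hj
    have hij : i ≠ j := fun e => huv (by rw [e])
    rcases Nat.lt_or_gt_of_ne hij with h4 | h4
    · exact (h3 i j h4 hj).2
    · exact g.symm (h3 j i h4 hi1).2

end Ax

end Pool.Agent.H775
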