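import Pool.Agent.H775.Gl1
import Pool.Agent.H775.Gl2
import Pool.Agent.H775.Gl3a

set_option autoImplicit false
set_option linter.unusedSectionVars false

namespace Pool.Agent.H775

open Pool.Agent.TH651.RP5

variable {X : Type} [Fintype X] [DecidableEq X] {g : SG X}

theorem G3b_spr_succ (v n : ℕ) : spr v (n + 1) = spr v n ||| (1 <<< (2 * n + v / 2 ^ n % 2)) := by
  have h : spr v (n + 1) = spr v n ||| (1 <<< (2 * n + (v >>> n) % 2)) := rfl
  rw [h, Nat.shiftRight_eq_div_pow]

theorem G3b_spr_testBit (v : ℕ) : ∀ (n l : ℕ), l / 2 < n → l % 2 = v / 2 ^ (l / 2) % 2 →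
    (spr v n).testBit l = true
  | 0, l, h, _ => absurd h (by omega)
  | n + 1, l, h, h2 => by
    rw [G3b_spr_succ, Nat.testBit_or, Bool.or_eq_true]
    by_cases h3 : l / 2 < n
    · exact Or.inl (G3b_spr_testBit v n l h3 h2)
    · right
      have h4 : l / 2 = n := by omega
      rw [h4] at h2
      have h5 : l = 2 * n + v / 2 ^ n % 2 := by omega
      rw [Nat.one_shiftLeft, Nat.testBit_two_pow, ← h5]
      simp

theorem G3b_bit (v i : ℕ) : v.testBit i = true ↔ v / 2 ^ i % 2 = 1 := by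
  rw [Nat.testBit_eq_decide_div_mod_eq, decide_eq_true_eq]

section Ax

variable {x : ℕ → X} {BN D : ℕ}

/-- G3e -/
theorem spr_row (hi : Inj g x 17) {v k : ℕ} (hv : v < 2048) (hk : k < 6)
    (hD : ∀ c < 132, (Nat.shiftLeft (spr v 11) (Nat.mul 22 k)).testBit c = true →
      AdjC 22 (adjx g x) c) : row g x 11 (x (11 + k)) = v := by
  apply Nat.eq_of_testBit_eq
  intro i
  by_cases hi11 : i < 11
  · have hb : v / 2 ^ i % 2 < 2 := Nat.mod_lt _ (by norm_num)
    obtain ⟨l, hl⟩ : ∃ l, l = 2 * i + v / 2 ^ i % 2 := ⟨_, rfl⟩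
    have hl2 : l / 2 = i := by omega
    have hl3 : l % 2 = v / 2 ^ (l / 2) % 2 := by rw [hl2]; omega
    have h1 := G3b_spr_testBit v 11 l (by omega) hl3
    have h2 := hD (22 * k + l) (by omega) (by
      have e : Nat.shiftLeft (spr v 11) (Nat.mul 22 k) = (spr v 11) <<< (22 * k) := rfl
      rw [e, Nat.testBit_shiftLeft]
      have e2 : 22 * k + l - 22 * k = l := by omega
      rw [e2, h1, Bool.and_true, decide_eq_true_eq]
      omega)
    unfold AdjC at h2
    have e1 : (22 * k + l) % 22 = l := by omega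
    have e2 : (22 * k + l) / 22 = k := by omega
    rw [e1, e2] at h2
    have h3 : g.Adj (lt g x l) (lt g x (22 + 2 * k)) := h2
    have e3 : 22 + 2 * k = 2 * (11 + k) := by ring
    have h4 := (adj_lt hi (l := l) (m := 22 + 2 * k) (by omega) (by omega) (by omega)).1 h3
    have e4 : (22 + 2 * k) / 2 = 11 + k := by omega
    rw [e4, hl2] at h4
    rw [Bool.eq_iff_iff, testBit_row, G3b_bit]
    have h5 : (l + (22 + 2 * k)) % 2 = 1 ↔ v / 2 ^ i % 2 = 1 := by omega
    rw [h5] at h4
    constructor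
    · rintro ⟨-, h6⟩
      exact h4.1 h6
    · intro h6
      exact ⟨hi11, h4.2 h6⟩
  · have h1 : (2 : ℕ) ^ 11 ≤ 2 ^ i := Nat.pow_le_pow_right (by norm_num) (by omega)
    rw [Nat.testBit_lt_two_pow (lt_of_lt_of_le (row_lt (g := g) (x := x)) h1),
      Nat.testBit_lt_two_pow (lt_of_lt_of_le (show v < 2 ^ 11 by norm_num; exact hv) h1)]

theorem G3b_rec_ff {b t : Bool} (h : Bool.rec (motive := fun _ => Bool) false t b = true) :
    b = true ∧ t = true := by
  cases b
  · exact absurd h (by simp)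
  · exact ⟨rfl, h⟩

theorem G3b_rec_ft {b t : Bool} (h : Bool.rec (motive := fun _ => Bool) t false b = true) :
    b = false ∧ t = true := by
  cases b
  · exact ⟨rfl, h⟩
  · exact absurd h (by simp)

/-- G3f -/
theorem axB_sound {y : Ch X} {B full CLS JTL : List ℕ} {s off rep : ℕ} {Ns : List ℕ}
    (hc : Ctx g x y B full CLS JTL s off rep Ns) (hCLS : ∀ c ∈ CLS, c < 2 ^ 272)
    (hBN : ∀ r z, r < 34 → z < 34 → BN.testBit (64 * r + z) = true → ¬ adjx g x r z) {e : ℕ}
    (h : axB BN (tblK 272 CLS) (tblK 8 JTL) s D e = true) : clT 22 6 (adjx g x) D := by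
  by_contra hno
  have hD : ∀ c < 132, D.testBit c = true → AdjC 22 (adjx g x) c := by
    intro c hc' hb
    by_contra h'
    exact hno ⟨c, hc', hb, h'⟩
  unfold axB at h
  by_cases h0 : Nat.beq (Nat.mod e 4) 0 = true
  · rw [h0] at h
    have h := G3b_rec_ft h
    obtain ⟨h1, h2⟩ := h
    obtain ⟨idx, hidx⟩ : ∃ idx, idx = Nat.div (Nat.div e 4194304) 5070602400912917605986812821504 :=
      ⟨_, rfl⟩
    rw [← hidx] at h1 h2
    have e1 : ent (tblK 272 CLS) 272 M272 idx = CLS.getD idx 0 := by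
      have e2 : M272 = 2 ^ 272 - 1 := by
        set_option exponentiation.threshold 300 in norm_num
      rw [e2]
      exact ent_tblK 272 CLS hCLS idx
    rw [e1] at h1 h2
    have h3 : CLS.getD idx 0 ≠ 0 := by
      intro h3
      rw [h3] at h1
      exact absurd h1 (by decide)
    have h4 : CLS.getD idx 0 ∈ CLS := by
      by_cases h5 : idx < CLS.length
      · rw [List.getD_eq_getElem _ _ h5]
        exact List.getElem_mem h5
      · exact absurd (List.getD_eq_default _ _ (not_lt.1 h5)) h3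
    exact hc.hcls _ h4 (sol_frame hc.inj hc.cl hBN hD h2)
  · have h0' : Nat.beq (Nat.mod e 4) 0 = false := by
      rwa [Bool.not_eq_true] at h0
    rw [h0'] at h
    by_cases h1 : Nat.beq (Nat.mod e 4) 1 = true
    · rw [h1] at h
      obtain ⟨F, hF1, hF2, hF3⟩ := om_clique hc.inj hc.cl hBN hD h
      exact hc.no7 F hF1 hF2 hF3
    · have h1' : Nat.beq (Nat.mod e 4) 1 = false := by
        rwa [Bool.not_eq_true] at h1
      rw [h1'] at h
      have ha := G3b_rec_ff h
      have hb := G3b_rec_ff ha.2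
      have hcc := G3b_rec_ff hb.2
      have hd := G3b_rec_ft hcc.2
      have he := G3b_rec_ff hd.2
      obtain ⟨k, hk⟩ : ∃ k, k = Nat.mod (Nat.div e 4194304) 8 := ⟨_, rfl⟩
      obtain ⟨v, hv⟩ : ∃ v, v = Nat.div (Nat.div e 4194304) 8 := ⟨_, rfl⟩
      have hk5 : k < 6 := by
        have := Nat.le_of_ble_eq_true hcc.1
        rw [← hk] at this
        omega
      have hv5 : v < 2048 := by
        have := Nat.le_of_ble_eq_true hb.1
        rw [← hv] at this
        omega
      have h2 : D = Nat.shiftLeft (spr v 11) (Nat.mul 22 k) := by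
        rw [hk, hv]
        exact Nat.eq_of_beq_eq_true he.2
      have h3 : ent (tblK 8 JTL) 8 255 v ≤ s := by
        rw [hv]
        exact Nat.le_of_ble_eq_true he.1
      have h4 : 1 ≤ ent (tblK 8 JTL) 8 255 v := by
        rw [Nat.one_le_iff_ne_zero]
        intro h4
        have h5 := hd.1
        rw [← hv, h4] at h5
        exact absurd h5 (by decide)
      subst h2
      exact hc.hfo k hk5 v h4 h3 (spr_row hc.inj hv5 hk5 hD)

end Ax

theorem G3b_inj {x : ℕ → X} {n m : ℕ} (h : Inj g x n) (hm : m ≤ n) : Inj g x m :=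
  fun i hi j hj hij => h i (by omega) j (by omega) hij

/-- G3g: model and matrix of a context -/
theorem Ctx.mdl {x : ℕ → X} {y : Ch X} {B full CLS JTL : List ℕ} {s off rep : ℕ} {Ns : List ℕ}
    (hc : Ctx g x y B full CLS JTL s off rep Ns) :
    Mdl 22 6 4 full (adjx g x) (fun F => y (fs64 g x F)) ∧ InvN 22 6 (adjx g x) (nbase B 11 6) := by
  have M : Mdl (2 * 11) 6 (3 + 1) full (adjx g x) (fun F => y (fs64 g x F)) :=
    mdl_of (g := g) (x := x) (y := y) (n1 := 11) (m := 6) (r := 3) (full := full) (by norm_num)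
      (by norm_num) (by norm_num) hc.inj hc.good hc.cl hc.hfub hc.hfu
  refine ⟨M, ?_⟩
  have h1 : InvN (2 * 11) 6 (adjx g x) (ndia 17) := by
    refine ndia_inv (fun l h => g.irr _ h) (fun l h => ?_) (by norm_num) 17
    unfold adjx at h
    rw [lt_xor] at h
    exact g.irr' _ h
  have h2 : InvN (2 * 11) 6 (adjx g x) (nmat B 0 (ndia 17)) := by
    refine nmat_inv M (by rw [hc.hBl]; norm_num) ?_ h1
    intro i j hij hj
    rw [hc.hBl] at hj
    exact adj_of_sg (n := 11) (G3b_inj hc.inj (by norm_num)) hc.sgB hij hj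
  refine nblk_inv (n1 := 11) M ?_ h2
  intro i k hik hk
  unfold adjx
  rw [lt_even, lt_even]
  refine hc.cl _ ?_ _ ?_ ?_
  · exact Finset.mem_image_of_mem _ (Finset.mem_Ico.2 ⟨by omega, by omega⟩)
  · exact Finset.mem_image_of_mem _ (Finset.mem_Ico.2 ⟨by omega, by omega⟩)
  · exact (hc.inj (11 + i) (by omega) (11 + k) (by omega) (by omega)).1

theorem G3b_axA {BN CT JT DB s : ℕ} {P : ℕ → Prop}
    (hP : ∀ i e, axB BN CT JT s (ent DB 132 M132 i) e = true → P i) :
    ∀ (L : List ℕ) (i0 : ℕ), axA BN CT JT DB s L i0 = true →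
      ∀ j, i0 ≤ j → j < i0 + L.length → P j := by
  intro L
  induction L with
  | nil => intro i0 _ j h1 h2; exact absurd h2 (by simpa using h1)
  | cons e L IH =>
    intro i0 h j h1 h2
    have e1 : axA BN CT JT DB s (e :: L) i0 = (Bool.rec (motive := fun _ => Bool) false
      (st (Nat.add i0 1) (axA BN CT JT DB s L)) (axB BN CT JT s (ent DB 132 M132 i0) e)) := rfl
    rw [e1, st_eq] at h
    have h3 := G3b_rec_ff h
    by_cases hj : j = i0
    · rw [hj]
      exact hP i0 e h3.1
    · refine IH (i0 + 1) h3.2 j (by omega) ?_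
      rw [List.length_cons] at h2
      omega

/-- G3h -/
theorem Ctx.ax {x : ℕ → X} {y : Ch X} {B full CLS JTL : List ℕ} {s off rep : ℕ} {Ns : List ℕ}
    (hc : Ctx g x y B full CLS JTL s off rep Ns) (hCLS : ∀ c ∈ CLS, c < 2 ^ 272)
    {DBL AXL : List ℕ} {i0 : ℕ} (h : caseA B CLS JTL DBL AXL s i0 = true) :
    ∀ j, i0 ≤ j → j < i0 + AXL.length → CL g x DBL j := by
  unfold caseA at h
  rw [st_eq, st_eq, st_eq, st_eq] at h
  refine G3b_axA (P := CL g x DBL) ?_ AXL i0 h
  intro i e he
  exact axB_sound hc hCLS (fun r z hr hz hb => (Ctx.mdl hc).2 r z (by omega) (by omega) hb) he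

end Pool.Agent.H775
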