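import Pool.Agent.H775.Gl3b

/-!
G4: initial codes, learned clauses, context from a frame.
-/

set_option autoImplicit false
set_option linter.unusedSectionVars false

namespace Pool.Agent.H775

open Pool.Agent.TH651.RP5

variable {X : Type} [Fintype X] [DecidableEq X] {g : SG X}

/-- the literal given by the row of `v` is adjacent to `v` -/
theorem G4_adj_row {x : ℕ → X} (hi : Inj g x 17) {k : ℕ} (hk : k < 6) {b : ℕ} (hb : b < 11) :
    g.Adj (lt g x (2 * b + row g x 11 (x (11 + k)) / 2 ^ b % 2)) (x (11 + k)) := by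
  have h1 := testBit_row (g := g) (x := x) (n := 11) (v := x (11 + k)) b
  rw [Nat.testBit_eq_decide_div_mod_eq, decide_eq_true_eq] at h1
  rcases Nat.mod_two_eq_zero_or_one (row g x 11 (x (11 + k)) / 2 ^ b) with h2 | h2
  · rw [h2, Nat.add_zero, lt_even]
    by_contra h3
    have h4 := h1.mpr ⟨hb, h3⟩
    omega
  · have h3 := (h1.mp h2).2
    rw [h2, lt_odd, anti_adj]
    obtain ⟨h4, h5⟩ := hi (11 + k) (by omega) b (by omega) (by omega)
    exact (adj_iff_not_anti h4 h5).mpr h3

/-- G4a: the initial codes are adjacencies -/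
theorem Ctx.e0 {x : ℕ → X} {y : Ch X} {B full CLS JTL : List ℕ} {s off rep : ℕ} {Ns : List ℕ}
    (hc : Ctx g x y B full CLS JTL s off rep Ns) :
    ∀ c ∈ e0L off rep Ns, c < 22 * 6 ∧ AdjC 22 (adjx g x) c := by
  intro c hcm
  unfold e0L at hcm
  rw [List.mem_append] at hcm
  rcases hcm with h | h
  · by_cases h1 : off = 1
    · rw [if_pos h1, List.mem_map] at h
      obtain ⟨b, hb, rfl⟩ := h
      rw [List.mem_range] at hb
      have h2 := hc.hrep h1
      have h3 : rep / 2 ^ b % 2 < 2 := Nat.mod_lt _ (by norm_num)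
      have h4 := G4_adj_row hc.inj (k := 0) (by norm_num) hb
      rw [Nat.add_zero, h2] at h4
      refine ⟨by omega, ?_⟩
      unfold AdjC adjx
      have e1 : (2 * b + rep / 2 ^ b % 2) % 22 = 2 * b + rep / 2 ^ b % 2 :=
        Nat.mod_eq_of_lt (by omega)
      have e2 : (2 * b + rep / 2 ^ b % 2) / 22 = 0 := Nat.div_eq_of_lt (by omega)
      have e3 : 22 + 2 * 0 = 2 * 11 := rfl
      rw [e1, e2, e3, lt_even]
      exact h4
    · rw [if_neg h1] at h
      simp at h
  · rw [List.mem_flatMap] at h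
    obtain ⟨t, ht, h⟩ := h
    rw [List.mem_range] at ht
    rw [List.mem_map] at h
    obtain ⟨l, hl, rfl⟩ := h
    rw [List.mem_filter, List.mem_range] at hl
    have h1 := hc.hns t ht l (by omega) hl.2
    have h2 := hc.hNs
    refine ⟨by omega, ?_⟩
    unfold AdjC adjx
    have e1 : (22 * (t + off) + l) % 22 = l := by omega
    have e2 : (22 * (t + off) + l) / 22 = t + off := by omega
    have e3 : 22 + 2 * (t + off) = 2 * (11 + t + off) := by omega
    rw [e1, e2, e3, lt_even]
    exact h1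

/-- G4b -/
theorem Ctx.learn {x : ℕ → X} {y : Ch X} {B full CLS JTL : List ℕ} {s off rep : ℕ} {Ns : List ℕ}
    (hc : Ctx g x y B full CLS JTL s off rep Ns) {DBL HL : List ℕ} {i0 : ℕ}
    (h0 : ∀ j < i0, CL g x DBL j)
    (h : caseC B full DBL (e0L off rep Ns) HL i0 = true) :
    ∀ j < i0 + HL.length, CL g x DBL j := by
  unfold caseC at h
  simp only [st_eq] at h
  have hE0 := Ctx.e0 hc
  have hG : GTok full (tblK 32 (gtL full)) := gt_ok (fun F hF => by
    have := hc.hfub F hF
    exact lt_of_lt_of_le this (by norm_num))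
  exact chk_sound hc.mdl.1 (by norm_num) (by norm_num) hG (by norm_num) (ecod_inv hE0)
    (ncod_inv hc.mdl.1 hE0 hc.mdl.2) HL i0 h0 h

theorem G4_F64_lt {m n : ℕ} (hm : m < 2 ^ n) {l : ℕ} (hl : l ∈ F64 m) : l < n := by
  rw [F64, Finset.mem_filter] at hl
  by_contra hcon
  rw [Nat.testBit_lt_two_pow (lt_of_lt_of_le hm
    (Nat.pow_le_pow_right (by norm_num) (not_lt.mp hcon)))] at hl
  exact absurd hl.2 (by simp)

theorem G4_fs64_ex {x : ℕ → X} {b : List X} {F : ℕ} (hF : F < 2 ^ 22) :
    fs64 g (ex x 11 b) F = fs64 g x F := by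
  unfold fs64
  refine Finset.image_congr (fun l hl => ?_)
  have h1 : l < 22 := G4_F64_lt hF hl
  exact lt_ex (by omega)

theorem G4_row_ex {x : ℕ → X} {b : List X} {v : X} :
    row g (ex x 11 b) 11 v = row g x 11 v := by
  apply Nat.eq_of_testBit_eq
  intro i
  rw [Bool.eq_iff_iff, testBit_row, testBit_row]
  constructor
  · rintro ⟨h1, h2⟩
    rw [ex_lt h1] at h2
    exact ⟨h1, h2⟩
  · rintro ⟨h1, h2⟩
    refine ⟨h1, ?_⟩
    rw [ex_lt h1]
    exact h2

theorem G4_Cvr_ex {x : ℕ → X} {b : List X} {v : X} {F : ℕ} (h : Cvr g x 11 v F) :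
    Cvr g (ex x 11 b) 11 v F := by
  intro l hl hF
  rw [lt_ex hl]
  exact h l hl hF

/-- G4c: a context from a frame with 11 pairs and an enumeration of the block, `x = ex x0 11 b` -/
theorem Ctx.of {x0 : ℕ → X} {y : Ch X} {A P : Finset X} {B full CLS JTL : List ℕ}
    {s off rep : ℕ} {Ns : List ℕ} (hb : Bas g CLS A P y) (hf : FullB g B full)
    (hfb : ∀ F ∈ full, F < 2 ^ 22) (hNb : ∀ F ∈ Ns, F < 2 ^ 22) (hBl : B.length = 11)
    (hoff : off ≤ 1) (hNs : Ns.length + off ≤ 6)
    (hFr : Fr g x0 11 B (A \ (P ∪ P.image g.a)))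
    {b : List X} (hb1 : b.Nodup) (hb2 : b.toFinset = P)
    (hrep : off = 1 → ∀ h : 0 < b.length, row g x0 11 b[0] = rep)
    (hns : ∀ t, t < Ns.length → ∀ h : t + off < b.length, Cvr g x0 11 b[t + off] (Ns.getD t 0))
    (hforb : ∀ p ∈ P, ∀ v, 1 ≤ ent (tblK 8 JTL) 8 255 v → ent (tblK 8 JTL) 8 255 v ≤ s →
      row g x0 11 p ≠ v) :
    Ctx g (ex x0 11 b) y B full CLS JTL s off rep Ns := by
  have hbl : b.length = 6 := by
    rw [← hb.hPc, ← hb2, List.toFinset_card_of_nodup hb1]
  have hE := hFr.ext (b := b) hBl hb1 (by rw [hb2]; exact hb.hP)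
    (by rw [hb2]; exact Finset.sdiff_disjoint)
  rw [hb2, hbl, sdiff_union_Q hb.hA hb.hPA] at hE
  have hblk : blk (ex x0 11 b) 11 17 = P := by
    have h1 : blk (ex x0 11 b) 11 (11 + b.length) = b.toFinset := ex_block
    rw [hbl, hb2] at h1
    exact h1
  have him : img g (ex x0 11 b) 34 = A := hE.im
  have h22 : img g (ex x0 11 b) 22 = A \ (P ∪ P.image g.a) := by
    rw [← hFr.im]
    exact img_ex (p := 11) (le_refl _)
  have hk : ∀ k (hk : k < 6), ex x0 11 b (11 + k) = b[k]'(by omega) := fun k hk => ex_add (by omega)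
  exact
    { inj := hE.inj
      sgB := by
        intro i j hij hj
        rw [ex_lt (by omega), ex_lt hj]
        exact hFr.sg i j hij hj
      cl := by rw [hblk]; exact hb.hP
      good := by rw [him]; exact hb.good
      hfu := by
        intro y' hy' F hF
        rw [h22] at hy'
        rw [G4_fs64_ex (hfb F hF)]
        exact hf x0 _ hFr y' hy' F hF
      hfub := hfb
      hBl := hBl
      hoff := hoff
      hNs := hNs
      hNb := hNb
      hrep := by
        intro h1
        have h2 := hk 0 (by norm_num)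
        rw [Nat.add_zero] at h2
        rw [h2, G4_row_ex]
        exact hrep h1 (by omega)
      hns := by
        intro t ht
        have h2 := hk (t + off) (by omega)
        rw [← Nat.add_assoc] at h2
        rw [h2]
        exact G4_Cvr_ex (hns t ht (by omega))
      hfo := by
        intro k hk6 v h1 h2
        rw [hk k hk6, G4_row_ex]
        refine hforb _ ?_ v h1 h2
        rw [← hb2]
        exact List.mem_toFinset.mpr (List.getElem_mem _)
      no7 := by rw [him]; exact hb.no7
      hcls := by rw [him]; exact hb.hcls }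

end Pool.Agent.H775
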