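import Pool.Agent.H775.GlDef
import Pool.Graph.R_seed8.TH651.RP5.S16

/-!
Checks for the sphere with 32 vertices and for the tables of a base.
-/

set_option autoImplicit false

namespace Pool.Agent.H775

open Pool.Agent.TH651.RP5

/-- a vector `v` and a two-level node for the faces not covered by `v` -/
structure Nd where
  v : ℕ
  D : ℕ
  D' : ℕ
  M : ℕ
  L : List (ℕ × ℕ)
  T : List (ℕ × ℕ × List (ℕ × ℕ))

/-- the faces of `N.L` are faces of `Fs` not covered by `N.v`, and no `m` vectors cover them -/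
noncomputable def ndB (n m : ℕ) (Fs : List ℕ) (N : Nd) : Bool :=
  bc (subB n N.v Fs N.L) (bc (Nat.ble 1 N.D) (bc (Nat.ble 1 N.D')
    (nodeB N.D N.D' n m [] N.L N.M N.T) false) false) false

/-- automorphisms of `T16` moving the vectors to `v` -/
noncomputable def autT (v : ℕ) (TA : List (ℕ × ℕ)) : Bool :=
  TA.all (fun t => relOK 16 T16 (lamL 16 t.2) T16 && Nat.beq (rmap t.2 t.1 16) v)

/-- checks on the normalization faces -/
def nsOK (full Ns : List ℕ) (off rep : ℕ) : Bool :=
  Ns.all (fun N => full.any (fun F => Nat.beq F N)) && incN 11 Ns &&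
    (Nat.beq off 0 || Ns.all (fun N => !(inclB 11 rep N)))

/-- checks of the tables of a base with `K` eliminated orbits -/
noncomputable def baseB (B full AL VTL RTL JTL : List ℕ) (NsL : List (List ℕ)) (Nf : List ℕ)
    (K : ℕ) : Bool :=
  Nat.beq B.length 11 && full.all (fun F => Nat.ble (F + 1) (2 ^ 22)) &&
  AL.all (fun lam => relOK 11 B (lamL 11 lam) B && Nat.ble (lam + 1) (2 ^ 66)) &&
  !(Nat.beq (AL.getD 0 0) 0) &&
  VTL.all (fun a => Nat.ble (a + 1) AL.length && Nat.ble (a + 1) 256) &&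
  RTL.all (fun a => Nat.ble (a + 1) (2 ^ 16)) &&
  (List.range K).all (fun s => nsOK full (NsL.getD s []) 1 (RTL.getD (s + 1) 0) &&
    Nat.ble (NsL.getD s []).length 5) &&
  nsOK full Nf 0 0 && Nat.ble Nf.length 6 &&
  autB 11 66 73786976294838206463 (tblK 66 AL) (tblK 8 VTL) (tblK 16 RTL) (tblK 8 JTL) 2048

end Pool.Agent.H775
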