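import Pool.Agent.H775.Gl4
import Pool.Agent.H775.GlDef2

/-!
G5: steps of the elimination. Uses `Ctx.of` (G4c) only.
-/

set_option autoImplicit false
set_option linter.unusedSectionVars false

namespace Pool.Agent.H775

open Pool.Agent.TH651.RP5

variable {X : Type} [Fintype X] [DecidableEq X] {g : SG X}

/-! ### G5: steps of the elimination -/

theorem G5_mem {full Ns : List ℕ} {off rep : ℕ} (h : nsOK full Ns off rep = true) :
    ∀ N ∈ Ns, N ∈ full := by
  intro N hN
  rw [nsOK, Bool.and_eq_true, Bool.and_eq_true, List.all_eq_true] at h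
  have h1 := h.1.1 N hN
  rw [List.any_eq_true] at h1
  obtain ⟨F, hF, h2⟩ := h1
  rw [beq_iff] at h2
  rw [← h2]
  exact hF

theorem G5_inc {full Ns : List ℕ} {off rep : ℕ} (h : nsOK full Ns off rep = true) {x : ℕ → X}
    {s t : ℕ} (hs : s < Ns.length) (ht : t < Ns.length) (hst : s ≠ t) {v : X}
    (h1 : Cvr g x 11 v (Ns.getD s 0)) (h2 : Cvr g x 11 v (Ns.getD t 0)) : False := by
  rw [nsOK, Bool.and_eq_true, Bool.and_eq_true] at h
  have hinc := h.1.2
  rw [incN, List.all_eq_true] at hinc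
  have h4 := hinc s (List.mem_range.mpr hs)
  rw [List.all_eq_true] at h4
  have h5 := h4 t (List.mem_range.mpr ht)
  have h6 : Nat.beq s t = false := by
    rw [← Bool.not_eq_true, beq_iff]; exact hst
  rw [h6, Bool.false_or, List.any_eq_true] at h5
  obtain ⟨l, hl, hl2⟩ := h5
  rw [List.mem_range] at hl
  rw [Bool.and_eq_true] at hl2
  have h7 := h1 l hl hl2.1
  have hx : l ^^^ 1 < 2 * 11 := by
    have h3 : (l ^^^ 1) / 2 = l / 2 := by
      have := Nat.xor_div_two (a := l) (b := 1)
      simpa using this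
    omega
  have h8 := h2 (l ^^^ 1) hx hl2.2
  rw [lt_xor, anti_adj] at h8
  exact g.excl h7 h8

theorem G5_rep {full Ns : List ℕ} {rep : ℕ} (h : nsOK full Ns 1 rep = true) {x : ℕ → X}
    {t : ℕ} (ht : t < Ns.length) {v : X} (h1 : row g x 11 v = rep)
    (h2 : Cvr g x 11 v (Ns.getD t 0)) : False := by
  rw [nsOK, Bool.and_eq_true, Bool.and_eq_true, Bool.or_eq_true] at h
  have h3 := h.2
  rcases h3 with h3 | h3
  · exact absurd h3 (by decide)
  · rw [List.all_eq_true] at h3
    have h4 := h3 (Ns.getD t 0) (by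
      rw [List.getD_eq_getElem _ _ ht]; exact List.getElem_mem ht)
    have h5 := cov_incl h2
    rw [h1] at h5
    rw [h5] at h4
    exact absurd h4 (by decide)

theorem G5_cov {y : Ch X} {A P : Finset X} {B full CLS : List ℕ}
    (hb : Bas g CLS A P y) (hf : FullB g B full)
    {x0 : ℕ → X} (hFr : Fr g x0 11 B (A \ (P ∪ P.image g.a))) :
    ∀ F ∈ full, ∃ v ∈ P, Cvr g x0 11 v F := by
  intro F hF
  have hy3 : Good g 3 (A \ (P ∪ P.image g.a)) (D g P y) := Good.desc g hb.hP hb.good
  have h1 := hf x0 _ hFr _ hy3 F hF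
  obtain ⟨v, hv, -, h3⟩ := cover_step (Good.supp g hb.hA hb.good) h1
  refine ⟨v, hv, fun l hl hFl => h3 _ ?_⟩
  exact Finset.mem_image_of_mem _ (Finset.mem_filter.mpr ⟨Finset.mem_range.mpr (by omega), hFl⟩)

/-- G5a. Coverage: `y3 = D g P y` is good of dimension 3 on `A \ (P ∪ -P)`, so all faces of
`full` have value 1 (`FullB`), `cover_step` gives `v ∈ P` adjacent to the face. `exists_enum` with
`T = Ns.length` and `c t v = Cvr g x0 11 v (Ns.getD t 0)` (as in `ext_frame`). -/
theorem step_none {y : Ch X} {A P : Finset X} {B full CLS JTL : List ℕ} {s rep : ℕ} {Ns : List ℕ}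
    (hb : Bas g CLS A P y) (hf : FullB g B full) (hfb : ∀ F ∈ full, F < 2 ^ 22)
    (hBl : B.length = 11) (hNs : Ns.length ≤ 6) (hok : nsOK full Ns 0 rep = true)
    (hcert : ∀ x : ℕ → X, Ctx g x y B full CLS JTL s 0 rep Ns → False)
    {x0 : ℕ → X} (hFr : Fr g x0 11 B (A \ (P ∪ P.image g.a)))
    (hforb : ∀ p ∈ P, ∀ v, 1 ≤ ent (tblK 8 JTL) 8 255 v → ent (tblK 8 JTL) 8 255 v ≤ s →
      row g x0 11 p ≠ v) : False := by
  have hcov := G5_cov hb hf hFr
  have hmem := G5_mem hok
  obtain ⟨b, hb1, hb2, hb3, hb4⟩ := exists_enum P Ns.length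
    (fun t v => Cvr g x0 11 v (Ns.getD t 0)) (by
      intro t ht
      refine hcov _ (hmem _ ?_)
      rw [List.getD_eq_getElem _ _ ht]
      exact List.getElem_mem ht)
    (fun s hs t ht hst v _ h1 h2 => G5_inc hok hs ht hst h1 h2)
  refine hcert (ex x0 11 b) (Ctx.of hb hf hfb (fun F hF => hfb F (hmem F hF)) hBl (by omega)
    (by omega) hFr hb1 hb2 (fun h => absurd h (by omega)) ?_ hforb)
  intro t ht h
  exact hb4 t h ht

/-- G5b. The same with the first element of the enumeration being an element with row `rep`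
(`exists_enum` with `T = Ns.length + 1`, `c 0 v = (row g x0 11 v = rep)`,
`c (t+1) v = Cvr g x0 11 v (Ns.getD t 0)`; incompatibility by `cov_incl` and `nsOK`). -/
theorem step_rep {y : Ch X} {A P : Finset X} {B full CLS JTL : List ℕ} {s rep : ℕ} {Ns : List ℕ}
    (hb : Bas g CLS A P y) (hf : FullB g B full) (hfb : ∀ F ∈ full, F < 2 ^ 22)
    (hBl : B.length = 11) (hNs : Ns.length ≤ 5) (hok : nsOK full Ns 1 rep = true)
    (hcert : ∀ x : ℕ → X, Ctx g x y B full CLS JTL s 1 rep Ns → False)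
    (hforb : ∀ x0 : ℕ → X, Fr g x0 11 B (A \ (P ∪ P.image g.a)) →
      ∀ p ∈ P, ∀ v, 1 ≤ ent (tblK 8 JTL) 8 255 v → ent (tblK 8 JTL) 8 255 v ≤ s →
      row g x0 11 p ≠ v) : QR g B A P rep := by
  intro x0 hFr p hp hrow
  have hcov := G5_cov hb hf hFr
  have hmem := G5_mem hok
  obtain ⟨b, hb1, hb2, hb3, hb4⟩ := exists_enum P (Ns.length + 1)
    (fun t v => if t = 0 then row g x0 11 v = rep else Cvr g x0 11 v (Ns.getD (t - 1) 0)) (by
      intro t ht
      by_cases h0 : t = 0
      · exact ⟨p, hp, by rw [if_pos h0]; exact hrow⟩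
      · have ht' : t - 1 < Ns.length := by omega
        obtain ⟨v, hv, h1⟩ := hcov (Ns.getD (t - 1) 0) (hmem _ (by
          rw [List.getD_eq_getElem _ _ ht']
          exact List.getElem_mem ht'))
        exact ⟨v, hv, by rw [if_neg h0]; exact h1⟩) (by
      intro s hs t ht hst v _ h1 h2
      by_cases hs0 : s = 0
      · rw [if_pos hs0] at h1
        rw [if_neg (by omega)] at h2
        exact G5_rep hok (by omega) h1 h2
      · rw [if_neg hs0] at h1
        by_cases ht0 : t = 0
        · rw [if_pos ht0] at h2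
          exact G5_rep hok (by omega) h2 h1
        · rw [if_neg ht0] at h2
          exact G5_inc hok (by omega) (by omega) (by omega) h1 h2)
  refine hcert (ex x0 11 b) (Ctx.of hb hf hfb (fun F hF => hfb F (hmem F hF)) hBl (le_refl 1)
    (by omega) hFr hb1 hb2 (fun _ h => ?_) ?_ (hforb x0 hFr))
  · have := hb4 0 h (by omega)
    rw [if_pos rfl] at this
    exact this
  · intro t ht h
    have := hb4 (t + 1) h (by omega)
    rw [if_neg (by omega), Nat.add_sub_cancel] at this
    exact this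

end Pool.Agent.H775
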