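import Pool.Agent.H775.Gl1
import Pool.Agent.H775.Gl2

/-!
G7a-G7c. Imports G2 (`GlE2` = helper775_G2_done.lean): uses `nmat_inv`, `ndia_inv`, `adj_of_sg`.
-/

set_option autoImplicit false
set_option linter.unusedSectionVars false

namespace Pool.Agent.H775

open Pool.Agent.TH651.RP5

variable {X : Type} [Fintype X] [DecidableEq X] {g : SG X}


theorem G7_irr {x : ℕ → X} {l z : ℕ} (h : l / 2 = z / 2) : ¬ adjx g x l z := by
  unfold adjx lt
  rw [h]
  intro h'
  split_ifs at h'
  · exact g.irr _ h'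
  · exact g.irr' _ h'
  · rw [anti_adj] at h'; exact g.irr' _ h'
  · exact g.irr _ h'

theorem G7_xor_half (l : ℕ) : (l ^^^ 1) / 2 = l / 2 := by
  have := Nat.xor_div_two (a := l) (b := 1)
  simpa using this

theorem G7_mdl {x : ℕ → X} {n : ℕ} (hi : Inj g x n) (hn2 : 2 ≤ n) (hn : 2 * n ≤ 62) :
    Mdl 0 n 1 [] (adjx g x) (fun _ => 0) where
  even := rfl
  b32 := by omega
  hm := hn2
  hrc := le_refl _
  hnl := by omega
  symm := fun l z h => g.symm h
  excl := by
    intro l z h h'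
    unfold adjx at h h'
    rw [lt_xor] at h'
    exact g.excl h h'
  anti := by
    intro l z h
    unfold adjx at h ⊢
    rw [lt_xor, lt_xor]
    exact g.eqv h
  tot := by
    intro l z hl hz hlz
    unfold adjx
    rw [lt_xor]
    refine g.tot ?_ ?_
    · intro e
      have := lt_inj hi (by omega) (by omega) e
      exact hlz (by rw [this])
    · intro e
      rw [← lt_xor] at e
      have h1 := G7_xor_half l
      have := lt_inj hi (by omega) (by omega) e
      exact hlz (by rw [this, h1])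
  clq := fun F l z h => absurd h (by decide)
  zero := fun _ _ => rfl
  cyc := fun _ _ _ => by simp
  ful := by simp
  fullb := by simp

theorem G7_tb {N i : ℕ} : tb N i = true ↔ N.testBit i = true := by
  unfold tb
  rw [beq_iff]
  exact e3_bit

theorem G7_adA_cons {N l z : ℕ} {L : List ℕ} (h : adA N l (z :: L) = true) :
    N.testBit (64 * l + (z ^^^ 1)) = true ∧ l / 2 ≠ z / 2 ∧ adA N l L = true := by
  have e : adA N l (z :: L) = Bool.rec false (Bool.rec (adA N l L) false
    (Nat.beq (Nat.div l 2) (Nat.div z 2))) (tb N (Nat.add (Nat.mul 64 l) (Nat.xor z 1))) := rfl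
  rw [e] at h
  obtain ⟨h1, h2⟩ := e3_rec_false h
  obtain ⟨h3, h4⟩ := e3_rec_true h2
  refine ⟨G7_tb.1 h1, ?_, h4⟩
  intro h5
  have h6 : Nat.beq (Nat.div l 2) (Nat.div z 2) = true := (beq_iff _ _).2 h5
  rw [h6] at h3
  exact absurd h3 (by decide)

theorem G7_clqB_cons {N b l : ℕ} {T : List ℕ} (h : clqB N b (l :: T) = true) :
    l < b ∧ adA N l T = true ∧ clqB N b T = true := by
  have e : clqB N b (l :: T) = Bool.rec false (Bool.rec false (clqB N b T) (adA N l T))
    (Nat.ble (Nat.add l 1) b) := rfl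
  rw [e] at h
  obtain ⟨h1, h2⟩ := e3_rec_false h
  obtain ⟨h3, h4⟩ := e3_rec_false h2
  exact ⟨Nat.le_of_ble_eq_true h1, h3, h4⟩

theorem G7_adA {x : ℕ → X} {n N : ℕ} (M : Mdl 0 n 1 [] (adjx g x) (fun _ => 0))
    (hN : InvN 0 n (adjx g x) N) {l : ℕ} (hl : l < 2 * n) :
    ∀ L : List ℕ, (∀ z ∈ L, z < 2 * n) → adA N l L = true →
      ∀ z ∈ L, l / 2 ≠ z / 2 ∧ adjx g x l z
  | [], _, _, z, hz => by simp at hz
  | w :: L, hL, h, z, hz => by
    obtain ⟨h1, h2, h3⟩ := G7_adA_cons h
    rcases List.mem_cons.1 hz with rfl | hz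
    · refine ⟨h2, ?_⟩
      have hz2 := hL z List.mem_cons_self
      have h5 := G7_xor_half z
      have h4 := hN l (z ^^^ 1) (by omega) (by omega) h1
      rcases M.tot l z (by omega) (by omega) h2 with h6 | h6
      · exact h6
      · exact absurd h6 h4
    · exact G7_adA M hN hl L (fun z hz => hL z (List.mem_cons_of_mem _ hz)) h3 z hz

theorem G7_clqB {x : ℕ → X} {n N : ℕ} (M : Mdl 0 n 1 [] (adjx g x) (fun _ => 0))
    (hN : InvN 0 n (adjx g x) N) :
    ∀ L : List ℕ, clqB N (2 * n) L = true → (∀ z ∈ L, z < 2 * n) ∧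
      L.Pairwise (fun l z => l / 2 ≠ z / 2 ∧ adjx g x l z)
  | [], _ => by simp
  | l :: T, h => by
    obtain ⟨h1, h2, h3⟩ := G7_clqB_cons h
    obtain ⟨h4, h5⟩ := G7_clqB M hN T h3
    refine ⟨?_, ?_⟩
    · intro z hz
      rcases List.mem_cons.1 hz with rfl | hz
      · exact h1
      · exact h4 z hz
    · rw [List.pairwise_cons]
      exact ⟨G7_adA M hN h1 T h4 h2, h5⟩

theorem G7_mkK (L : List ℕ) (l : ℕ) : (mkK L).testBit l = true ↔ l ∈ L := by
  induction L with
  | nil => simp [mkK]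
  | cons a L ih =>
    have e : mkK (a :: L) = mkK L ||| (1 <<< a) := rfl
    rw [e, Nat.testBit_or, Bool.or_eq_true, ih, testBit_one_shiftLeft, decide_eq_true_eq,
      List.mem_cons]
    tauto

theorem G7_F64 {L : List ℕ} (hL : ∀ l ∈ L, l < 64) : F64 (mkK L) = L.toFinset := by
  ext l
  rw [F64, Finset.mem_filter, Finset.mem_range, G7_mkK, List.mem_toFinset]
  exact ⟨fun h => h.2, fun h => ⟨hL l h, h⟩⟩



/-- G7a: cliques of the list `Ks` (for `nmat_inv`: `Mdl 0 n 1 [] (adjx g x) 0` holds) -/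
theorem clqB_sound {x : ℕ → X} {n : ℕ} {C K : List ℕ} {A : Finset X} (h : Fr g x n C A)
    (hn2 : 2 ≤ n) (hn : 2 * n ≤ 62) (hC : C.length = n)
    (hK : clqB (nmat C 0 (ndia n)) (2 * n) K = true) :
    (fs64 g x (mkK K)).card = K.length ∧ Clique g (fs64 g x (mkK K)) ∧ fs64 g x (mkK K) ⊆ A ∧
      mkK K < 2 ^ (2 * n) := by
  have M := G7_mdl h.inj hn2 hn
  have hN : InvN 0 n (adjx g x) (nmat C 0 (ndia n)) := by
    refine nmat_inv M (by omega) ?_ ?_
    · intro i j hij hj
      exact adj_of_sg h.inj h.sg hij (by omega)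
    · exact ndia_inv (fun l => G7_irr rfl) (fun l => G7_irr (G7_xor_half l).symm) (by omega) n
  obtain ⟨h1, h2⟩ := G7_clqB M hN K hK
  have hnd : K.Nodup := by
    refine h2.imp ?_
    intro a b hab e
    exact hab.1 (by rw [e])
  have hF : F64 (mkK K) = K.toFinset := G7_F64 (fun l hl => by have := h1 l hl; omega)
  have hinj : ∀ l ∈ K, ∀ z ∈ K, lt g x l = lt g x z → l = z := by
    intro l hl z hz e
    exact lt_inj h.inj (h1 l hl) (h1 z hz) e
  have hsym : ∀ l ∈ K, ∀ z ∈ K, l ≠ z → adjx g x l z := by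
    have h3 : K.Pairwise (fun l z => adjx g x l z) := h2.imp (fun h => h.2)
    have : Std.Symm (fun l z => adjx g x l z) := ⟨fun _ _ h => g.symm h⟩
    intro l hl z hz hlz
    exact h3.forall hl hz hlz
  refine ⟨?_, ?_, ?_, ?_⟩
  · rw [fs64, hF, Finset.card_image_of_injOn, List.toFinset_card_of_nodup hnd]
    intro l hl z hz e
    rw [Finset.mem_coe, List.mem_toFinset] at hl hz
    exact hinj l hl z hz e
  · intro u hu v hv huv
    rw [fs64, hF, Finset.mem_image] at hu hv
    obtain ⟨l, hl, rfl⟩ := hu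
    obtain ⟨z, hz, rfl⟩ := hv
    rw [List.mem_toFinset] at hl hz
    exact hsym l hl z hz (fun e => huv (by rw [e]))
  · intro u hu
    rw [fs64, hF, Finset.mem_image] at hu
    obtain ⟨l, hl, rfl⟩ := hu
    rw [List.mem_toFinset] at hl
    rw [← h.im]
    exact lt_mem_img (h1 l hl)
  · apply Nat.lt_pow_two_of_testBit
    intro i hi
    by_contra hcon
    rw [Bool.not_eq_false, G7_mkK] at hcon
    have := h1 i hcon
    omega

/-- G7b: `inclB n (row g x n v) K = true` implies that `v` is adjacent to all of `fs64 g x K` -/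
theorem incl_adj {x : ℕ → X} {n : ℕ} {C : List ℕ} {A : Finset X} (h : Fr g x n C A)
    (hn : 2 * n ≤ 62) (hA : A.image g.a = A) {v : X} (hv : v ∉ A) {K : ℕ} (hK : K < 2 ^ (2 * n))
    (hi : inclB n (row g x n v) K = true) : ∀ u ∈ fs64 g x K, g.Adj u v := by
  intro u hu
  rw [fs64, Finset.mem_image] at hu
  obtain ⟨l, hl, rfl⟩ := hu
  rw [F64, Finset.mem_filter, Finset.mem_range] at hl
  have hl2 : l < 2 * n := by
    by_contra hcon
    have h1 : K < 2 ^ l := lt_of_lt_of_le hK (Nat.pow_le_pow_right (by norm_num) (by omega))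
    rw [Nat.testBit_lt_two_pow h1] at hl
    exact absurd hl.2 (by decide)
  have h1 := (inclB_iff n _ K).1 hi l hl2 hl.2
  have hx : x (l / 2) ∈ A := by
    rw [← h.im, ← lt_even g x]
    exact lt_mem_img (by omega)
  have hax : g.a (x (l / 2)) ∈ A := by
    rw [← h.im, ← lt_odd g x]
    exact lt_mem_img (by omega)
  unfold lt
  split_ifs with h2
  · by_contra hcon
    have h3 : (row g x n v).testBit (l / 2) = true := (testBit_row _).2 ⟨by omega, hcon⟩
    rw [h1, decide_eq_true_eq] at h3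
    omega
  · have h3 : (row g x n v).testBit (l / 2) = true := by
      rw [h1, decide_eq_true_eq]; omega
    have h4 := ((testBit_row _).1 h3).2
    rw [anti_adj]
    refine (adj_iff_not_anti ?_ ?_).2 h4
    · rintro rfl; exact hv hx
    · rintro rfl; exact hv hax

/-- G7c -/
theorem cls_contra {x : ℕ → X} {A P : Finset X} {y : Ch X} {C : List ℕ} {Ks : List (List ℕ)}
    {D D' M : ℕ} {L : List (ℕ × ℕ)} {T : List (ℕ × ℕ × List (ℕ × ℕ))}
    (hA : A.image g.a = A) (hP : Clique g P) (hPc : P.card = 6) (hPA : P ⊆ A)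
    (hy : Good g 5 A y) (hno7 : ∀ F : Finset X, F ⊆ A → F.card = 7 → ¬ Clique g F)
    (hC : C.length = 17) (hFr : Fr g x 17 C (A \ (P ∪ P.image g.a)))
    (hD : 0 < D) (hD' : 0 < D') (hcls : clsB C 17 D D' 6 M Ks L T = true)
    (hL : ∀ p ∈ L, p.1 < 2 ^ 34)
    (hfull : ∀ y4 : Ch X, Good g 4 (A \ (P ∪ P.image g.a)) y4 →
      ∀ p ∈ L, y4 (fs64 g x p.1) = 1) : False := by
  set A2 := A \ (P ∪ P.image g.a) with hA2
  have hy4 : Good g 4 A2 (Pool.Agent.TH651.RP5.D g P y) := Good.desc g hP hy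
  have hf := hfull _ hy4
  have hA2i : A2.image g.a = A2 := A_inv g hA
  unfold clsB at hcls
  rw [bc_eq] at hcls
  by_cases hk : (st (nmat C 0 (ndia 17)) fun N => Ks.all (fun K => bc (Nat.beq K.length 6)
      (clqB N (Nat.mul 2 17) K) false)) = true
  swap
  · rw [if_neg hk] at hcls; exact absurd hcls (by decide)
  rw [if_pos hk] at hcls
  rw [st_eq, List.all_eq_true] at hk
  have hcl : ∀ K ∈ Ks, (fs64 g x (mkK K)).card = 6 ∧ Clique g (fs64 g x (mkK K)) ∧
      fs64 g x (mkK K) ⊆ A2 ∧ mkK K < 2 ^ (2 * 17) := by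
    intro K hK
    have h1 := hk K hK
    rw [bc_eq] at h1
    by_cases h2 : Nat.beq K.length 6 = true
    swap
    · rw [if_neg h2] at h1; exact absurd h1 (by decide)
    rw [if_pos h2] at h1
    obtain ⟨h3, h4, h5, h6⟩ := clqB_sound hFr (by norm_num) (by norm_num) hC h1
    rw [beq_iff] at h2
    exact ⟨by rw [h3, h2], h4, h5, h6⟩
  have hns := node_sound hD hD' (by norm_num) hcls
  refine hns X P (row g x 17) (le_of_eq hPc) (fun p _ => row_lt) ?_ ?_
  · intro v hv K' hK'
    rw [List.mem_map] at hK'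
    obtain ⟨K, hK, rfl⟩ := hK'
    obtain ⟨h3, h4, h5, h6⟩ := hcl K hK
    by_contra hcon
    rw [Bool.not_eq_false] at hcon
    have hv2 : v ∉ A2 := by
      rw [hA2, Finset.mem_sdiff, Finset.mem_union]
      intro h; exact h.2 (Or.inl hv)
    have h7 := incl_adj hFr (by norm_num) hA2i hv2 h6 hcon
    have hvF : v ∉ fs64 g x (mkK K) := fun h => hv2 (h5 h)
    refine hno7 (insert v (fs64 g x (mkK K))) ?_ ?_ ?_
    · refine Finset.insert_subset (hPA hv) (h5.trans ?_)
      rw [hA2]; exact Finset.sdiff_subset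
    · rw [Finset.card_insert_of_notMem hvF, h3]
    · intro a ha b hb hab
      rw [Finset.mem_insert] at ha hb
      rcases ha with rfl | ha <;> rcases hb with rfl | hb
      · exact absurd rfl hab
      · exact g.symm (h7 b hb)
      · exact h7 a ha
      · exact h4 a ha b hb hab
  · intro F hF
    rw [List.mem_map] at hF
    obtain ⟨p, hp, rfl⟩ := hF
    obtain ⟨v, hv, -, h3⟩ := cover_step (Good.supp g hA hy) (hf p hp)
    refine ⟨v, hv, cov_incl ?_⟩
    intro l hl hFl
    refine h3 _ ?_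
    rw [fs64, Finset.mem_image]
    refine ⟨l, ?_, rfl⟩
    rw [F64, Finset.mem_filter, Finset.mem_range]
    exact ⟨by omega, hFl⟩

end Pool.Agent.H775
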