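import Pool.Agent.H775.Gl1
import Pool.Agent.H775.Gl2

/-!
G8: derivation of full faces. Uses the statements G1b (`mdl_of`), G2b (`ndia_inv`), G2c (`nmat_inv`),
G2g (`adj_of_sg`) of the skeleton `GlSk.lean`.
-/

set_option autoImplicit false
set_option linter.unusedSectionVars false

namespace Pool.Agent.H775

open Pool.Agent.TH651.RP5

variable {X : Type} [Fintype X] [DecidableEq X] {g : SG X}

theorem G8_facesB {b2 m : ℕ} {val : ℕ → ZMod 2} {Y : ℕ} (hY : InvY b2 m val Y) :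
    ∀ L : List (ℕ × ℕ), facesB Y L = true → ∀ p ∈ L, val p.1 = 1 := by
  intro L
  induction L with
  | nil => intro _ p hp; exact absurd hp (by simp)
  | cons q L IH =>
    intro h p hp
    have e : facesB Y (q :: L) = (Bool.rec (motive := fun _ => Bool) false (facesB Y L)
      (Nat.beq (slt Y q.2) (Nat.add (Nat.mul 2 q.1) 1))) := rfl
    rw [e] at h
    have h' := e3_rec_false h
    rw [List.mem_cons] at hp
    rcases hp with rfl | hp
    · have h1 : slt Y p.2 = 2 * p.1 + 1 := e3_beq.1 h'.1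
      obtain ⟨-, h2, -⟩ := hY p.2
      rw [h1] at h2
      have h3 : (2 * p.1 + 1) / 2 = p.1 := by omega
      have h4 : (2 * p.1 + 1) % 2 = 1 := by omega
      rw [h3] at h2
      exact h2 h4
    · exact IH h'.2 p hp

/-- G8. Model by `mdl_of` (the frame restricted to the first `n1` pairs has signs `Cb`, hence
the hypothesis `hfb` applies to it), matrix by `nmat_inv`, `run_sound` with
`G := ∀ p ∈ L, y (fs64 g x p.1) = 1`. -/
theorem derive_sound {x : ℕ → X} {A : Finset X} {y : Ch X} {C Cb full : List ℕ}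
    {n1 m r fuel h : ℕ} {L : List (ℕ × ℕ)} (hm : 2 ≤ m) (hn1 : 0 < n1) (h32 : 2 * n1 ≤ 32)
    (hnl : 2 * n1 + 2 * m ≤ 62) (hC : C.length = n1 + m) (hFr : Fr g x (n1 + m) C A)
    (hy : Good g (r + 1) A y) (hcl : clOK C n1 (n1 + m) = true) (hCb : eqC n1 C Cb = true)
    (hfl : ∀ F ∈ full, F < 2 ^ (2 * n1))
    (hfb : ∀ (x' : ℕ → X) (A' : Finset X), Fr g x' n1 Cb A' → ∀ y' : Ch X, Good g r A' y' →
      ∀ F ∈ full, y' (fs64 g x' F) = 1)
    (hd : deriveB C full n1 m (r + 1) fuel h L = true) : ∀ p ∈ L, y (fs64 g x p.1) = 1 := by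
  have hP : Clique g (blk x n1 (n1 + m)) := blk_clique hFr.sg le_rfl hcl
  have M : Mdl (2 * n1) m (r + 1) full (adjx g x) (fun F => y (fs64 g x F)) :=
    mdl_of hm h32 hnl hFr.inj (by rw [hFr.im]; exact hy) hP hfl
      (fun y' hy' F hF => hfb x _ (hFr.take (Nat.le_add_right n1 m) hCb) y' hy' F hF)
  have h1 : ∀ l, ¬ adjx g x l l := fun l => g.irr _
  have h2 : ∀ l, ¬ adjx g x l (l ^^^ 1) := by
    intro l
    unfold adjx
    rw [lt_xor]
    exact g.irr' _
  have hN : InvN (2 * n1) m (adjx g x) (nmat C 0 (ndia (Nat.add n1 m))) := by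
    refine nmat_inv M ?_ ?_ (ndia_inv h1 h2 hnl _)
    · rw [hC]; omega
    · intro i j hij hj
      rw [hC] at hj
      exact adj_of_sg hFr.inj hFr.sg hij hj
  have hd' : run (Nat.mul 2 n1) m (r + 1) (Nat.sub (Nat.pow 2 (Nat.mul 2 (Nat.add n1 m))) 1)
      (tblK 32 (gtL full)) 0 0 (fun Y => facesB Y L) fuel h 0 (nmat C 0 (ndia (Nat.add n1 m))) 0
      = true := by
    have e := hd
    unfold deriveB at e
    rw [st_eq, st_eq, st_eq] at e
    exact e
  have hFM : Nat.sub (Nat.pow 2 (Nat.mul 2 (Nat.add n1 m))) 1 = 2 ^ (2 * n1 + 2 * m) - 1 := by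
    show 2 ^ (2 * (n1 + m)) - 1 = 2 ^ (2 * n1 + 2 * m) - 1
    rw [Nat.mul_add]
  have hG : GTok full (tblK 32 (gtL full)) := by
    refine gt_ok ?_
    intro F hF
    exact lt_of_lt_of_le (hfl F hF) (Nat.pow_le_pow_right (by norm_num) h32)
  have hE : InvE (2 * n1) m (adjx g x) 0 := by
    intro c hc
    simp at hc
  exact run_sound (G := ∀ p ∈ L, y (fs64 g x p.1) = 1) M (by omega) hFM hG
    (fun i hi => absurd hi (Nat.not_lt_zero _))
    (fun Y' hY' hk => G8_facesB (val := fun F => y (fs64 g x F)) hY' L hk)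
    fuel h 0 _ 0 hE hN (invY_zero M) hd'

end Pool.Agent.H775
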