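import Pool.Agent.H775.Gl6
import Pool.Agent.H775.Gl1
import Pool.Agent.H775.GlDef2

/-!
G9: no clique with 7 elements.
-/

set_option autoImplicit false
set_option linter.unusedSectionVars false

namespace Pool.Agent.H775

open Pool.Agent.TH651.RP5

variable {X : Type} [Fintype X] [DecidableEq X] {g : SG X}

/-- coverage of the faces of `FT16` by the rows of the elements of `P` -/
theorem G9_cov {A P : Finset X} (hA : A.image g.a = A) (hP : Clique g P) {y : Ch X}
    (hy : Good g 5 A y) {x : ℕ → X} (hx : Fr g x 16 T16 (A \ (P ∪ P.image g.a))) :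
    ∀ F ∈ FT16, ∃ p ∈ P, inclB 16 (row g x 16 p) F = true := by
  intro F hF
  have hy4 := Good.desc g hP hy
  have hf := full_t16 hx hy4 F hF
  obtain ⟨v, hv, -, h3⟩ := cover_step (Good.supp g hA hy) hf
  exact ⟨v, hv, cov_incl (cov_of_adj (le_refl 16) (Finset.Subset.refl _) h3)⟩

/-- a row equal to `N.v` gives a contradiction -/
theorem G9_node {A P : Finset X} (hA : A.image g.a = A) (hP : Clique g P) (hPc : P.card = 7)
    {y : Ch X} (hy : Good g 5 A y) {x : ℕ → X} (hx : Fr g x 16 T16 (A \ (P ∪ P.image g.a)))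
    {N : Nd} (hN : ndB 16 6 FT16 N = true) {p : X} (hp : p ∈ P) (hr : row g x 16 p = N.v) : False := by
  classical
  unfold ndB at hN
  rw [bc_eq] at hN
  by_cases h1 : subB 16 N.v FT16 N.L = true
  swap
  · rw [if_neg h1] at hN; exact absurd hN (by simp)
  rw [if_pos h1, bc_eq] at hN
  by_cases h2 : Nat.ble 1 N.D = true
  swap
  · rw [if_neg h2] at hN; exact absurd hN (by simp)
  rw [if_pos h2, bc_eq] at hN
  by_cases h3 : Nat.ble 1 N.D' = true
  swap
  · rw [if_neg h3] at hN; exact absurd hN (by simp)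
  rw [if_pos h3] at hN
  have hns := node_sound (Nat.le_of_ble_eq_true h2) (Nat.le_of_ble_eq_true h3) (by norm_num) hN
  refine hns X (P.erase p) (row g x 16) ?_ (fun q _ => row_lt) (fun q _ K hK => absurd hK (by simp)) ?_
  · rw [Finset.card_erase_of_mem hp, hPc]
  · intro F hF
    obtain ⟨f, hf, rfl⟩ := List.mem_map.1 hF
    unfold subB at h1
    rw [List.all_eq_true] at h1
    have h4 := h1 f hf
    rw [Bool.and_eq_true, List.any_eq_true] at h4
    obtain ⟨⟨F', hF', he⟩, h5⟩ := h4
    have he' : F' = f.1 := Nat.eq_of_beq_eq_true he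
    subst he'
    obtain ⟨q, hq, hqF⟩ := G9_cov hA hP hy hx f.1 hF'
    refine ⟨q, Finset.mem_erase.2 ⟨?_, hq⟩, hqF⟩
    rintro rfl
    rw [← hr, hqF] at h5
    exact absurd h5 (by simp)

/-- the case of an exceptional vector -/
theorem G9_aut {A P : Finset X} (hA : A.image g.a = A) (hP : Clique g P) (hPc : P.card = 7)
    {y : Ch X} (hy : Good g 5 A y) {x : ℕ → X} (hx : Fr g x 16 T16 (A \ (P ∪ P.image g.a)))
    {N : Nd} (hN : ndB 16 6 FT16 N = true) {TA : List (ℕ × ℕ)} (ha : autT N.v TA = true)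
    {p : X} (hp : p ∈ P) {t : ℕ × ℕ} (ht : t ∈ TA) (hr : row g x 16 p = t.1) : False := by
  unfold autT at ha
  rw [List.all_eq_true] at ha
  have h1 := ha t ht
  rw [Bool.and_eq_true] at h1
  obtain ⟨h2, h3⟩ := h1
  have hA1 : (A \ (P ∪ P.image g.a)).image g.a = A \ (P ∪ P.image g.a) := A_inv g hA
  obtain ⟨x', hx', hrow⟩ := row_relabel hx h2 hA1
  refine G9_node hA hP hPc hy hx' hN hp ?_
  rw [hrow p (fun h => (Finset.mem_sdiff.1 h).2 (Finset.mem_union_left _ hp)), hr]
  exact Nat.eq_of_beq_eq_true h3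

/-- G9: no clique with 7 elements. `A \ (P ∪ -P)` has 32 elements and carries the good cycle
`D g P y` of dimension 4, so it has a frame with signs `T16` (`thm_T16`) on which the faces of `FT16`
have value 1 (`full_t16`), hence are covered by the rows of the 7 elements of `P`
(`cover_step`, `cov_of_adj`, `cov_incl`). By `hroot` and `bnd_exists` (`CovE3.lean`), some `p ∈ P` has
its row among the vectors of `TA0 ++ TA1` (`tops_testBit`). `row_relabel` gives a new frame on which
the row of `p` is `N0.v` or `N1.v`; again all faces of `FT16` are covered, and `P.erase p` covers the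
faces of `N0.L` (or `N1.L`): contradiction to `node_sound`. -/
theorem t16_contra {D M : ℕ} (hD : 0 < D) {TA0 TA1 : List (ℕ × ℕ)} {N0 N1 : Nd}
    (hroot : bndB D 16 7 M (tops D ((TA0 ++ TA1).map Prod.fst)) (FT16.map (fun F => (F, 1))) = true)
    (h0 : autT N0.v TA0 = true) (h1 : autT N1.v TA1 = true)
    (hN0 : ndB 16 6 FT16 N0 = true) (hN1 : ndB 16 6 FT16 N1 = true)
    {A P : Finset X} (hA : A.image g.a = A) (hc : A.card = 46) (hP : Clique g P) (hPc : P.card = 7)
    (hPA : P ⊆ A) {y : Ch X} (hy : Good g 5 A y) : False := by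
  have hc1 := sdiff_Q_card hA hPA hP
  have hA1 : (A \ (P ∪ P.image g.a)).image g.a = A \ (P ∪ P.image g.a) := A_inv g hA
  have hy4 := Good.desc g hP hy
  obtain ⟨x, hx⟩ := thm_T16 hA1 (by omega) hy4
  have hcov := G9_cov hA hP hy hx
  obtain ⟨p, hp, hX⟩ := bnd_exists hD hroot P (row g x 16) hPc.le (fun q _ => row_lt) (by
    intro F hF
    rw [List.map_map] at hF
    obtain ⟨F', hF', rfl⟩ := List.mem_map.1 hF
    exact hcov F' hF')
  have hmem := (tops_testBit hD _ _).1 hX
  obtain ⟨t, ht, htr⟩ := List.mem_map.1 hmem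
  rcases List.mem_append.1 ht with ht | ht
  · exact G9_aut hA hP hPc hy hx hN0 h0 hp ht htr.symm
  · exact G9_aut hA hP hPc hy hx hN1 h1 hp ht htr.symm

end Pool.Agent.H775
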