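import Pool.Agent.H775.EngE6
import Pool.Agent.H775.CovE3
import Pool.Agent.H775.CaseDef
import Pool.Graph.R_seed8.TH651.RP5.Top

/-!
Definitions used to connect the checks to signed graphs and good cycles.
-/

set_option autoImplicit false
set_option linter.unusedSectionVars false

namespace Pool.Agent.H775

open Pool.Agent.TH651.RP5

variable {X : Type} [Fintype X] [DecidableEq X]

/-- the literals of a mask -/
def F64 (m : ℕ) : Finset ℕ := (Finset.range 64).filter (fun l => m.testBit l = true)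

/-- the set of vertices of a mask -/
def fs64 (g : SG X) (x : ℕ → X) (m : ℕ) : Finset X := (F64 m).image (lt g x)

/-- adjacency of literals -/
def adjx (g : SG X) (x : ℕ → X) (l z : ℕ) : Prop := g.Adj (lt g x l) (lt g x z)

/-- digits in base 64 -/
def lamL (n lam : ℕ) : List ℕ := (List.range n).map (fun i => lam / 64 ^ i % 64)

/-- clause number `j` of the table is true -/
def CL (g : SG X) (x : ℕ → X) (DBL : List ℕ) (j : ℕ) : Prop :=
  clT 22 6 (adjx g x) (ent (tblK 132 DBL) 132 M132 j)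

/-- hypotheses on a frame `x` with 17 pairs: base of 11 pairs with signs `B` and block of 6 -/
structure Ctx (g : SG X) (x : ℕ → X) (y : Ch X) (B full CLS JTL : List ℕ) (s off rep : ℕ)
    (Ns : List ℕ) : Prop where
  inj : Inj g x 17
  sgB : Sg g x 11 B
  cl : Clique g (blk x 11 17)
  good : Good g 4 (img g x 34) y
  hfu : ∀ y' : Ch X, Good g 3 (img g x 22) y' → ∀ F ∈ full, y' (fs64 g x F) = 1
  hfub : ∀ F ∈ full, F < 2 ^ 22
  hBl : B.length = 11
  hoff : off ≤ 1
  hNs : Ns.length + off ≤ 6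
  hNb : ∀ F ∈ Ns, F < 2 ^ 22
  hrep : off = 1 → row g x 11 (x 11) = rep
  hns : ∀ t < Ns.length, Cvr g x 11 (x (11 + t + off)) (Ns.getD t 0)
  hfo : ∀ k < 6, ∀ v, 1 ≤ ent (tblK 8 JTL) 8 255 v → ent (tblK 8 JTL) 8 255 v ≤ s →
    row g x 11 (x (11 + k)) ≠ v
  no7 : ∀ F : Finset X, F ⊆ img g x 34 → F.card = 7 → ¬ Clique g F
  hcls : ∀ c ∈ CLS, ¬ ∃ x' : ℕ → X, Fr g x' 17 (rowsOf c) (img g x 34)

/-- hypotheses on a set `A` of 17 pairs and a 6-clique `P` in it -/
structure Bas (g : SG X) (CLS : List ℕ) (A P : Finset X) (y : Ch X) : Prop where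
  hA : A.image g.a = A
  hP : Clique g P
  hPc : P.card = 6
  hPA : P ⊆ A
  good : Good g 4 A y
  no7 : ∀ F : Finset X, F ⊆ A → F.card = 7 → ¬ Clique g F
  hcls : ∀ c ∈ CLS, ¬ ∃ x' : ℕ → X, Fr g x' 17 (rowsOf c) A

/-- no element of `P` has the row `r` in any frame with signs `B` -/
def QR (g : SG X) (B : List ℕ) (A P : Finset X) (r : ℕ) : Prop :=
  ∀ x : ℕ → X, Fr g x 11 B (A \ (P ∪ P.image g.a)) → ∀ p ∈ P, row g x 11 p ≠ r

/-- good cycles of dimension 3 on frames with signs `B` are full -/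
def FullB (g : SG X) (B full : List ℕ) : Prop :=
  ∀ (x : ℕ → X) (A : Finset X), Fr g x 11 B A → ∀ y : Ch X, Good g 3 A y →
    ∀ F ∈ full, y (fs64 g x F) = 1

end Pool.Agent.H775
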