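import Pool.Agent.H775.Gl10
import Pool.Agent.H775.Gl7
import Pool.Agent.H775.Gl8
import Pool.Agent.H775.CovDef2

/-!
Lemmas used by the modules with the data.
-/

set_option autoImplicit false
set_option linter.unusedSectionVars false

namespace Pool.Agent.H775

open Pool.Agent.TH651.RP5

variable {X : Type} [Fintype X] [DecidableEq X] {g : SG X}

theorem CL_nil {x : ℕ → X} {DBL : List ℕ} : ∀ j < 0, CL g x DBL j :=
  fun j hj => absurd hj (Nat.not_lt_zero j)

/-- one chunk of axioms -/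
theorem CL_ax {x : ℕ → X} {y : Ch X} {B full CLS JTL : List ℕ} {s off rep : ℕ} {Ns : List ℕ}
    (hc : Ctx g x y B full CLS JTL s off rep Ns) (hCLS : ∀ c ∈ CLS, c < 2 ^ 272)
    {DBL AXL : List ℕ} {i0 i1 : ℕ} (h0 : ∀ j < i0, CL g x DBL j)
    (h : (bc (Nat.beq (Nat.add i0 AXL.length) i1) (caseA B CLS JTL DBL AXL s i0) false) = true) :
    ∀ j < i1, CL g x DBL j := by
  rw [bc_eq] at h
  split_ifs at h with h1
  have h2 : i0 + AXL.length = i1 := Nat.eq_of_beq_eq_true h1
  intro j hj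
  by_cases hj0 : j < i0
  · exact h0 j hj0
  · exact hc.ax hCLS h j (by omega) (by omega)

/-- one chunk of learned clauses -/
theorem CL_le {x : ℕ → X} {y : Ch X} {B full CLS JTL : List ℕ} {s off rep : ℕ} {Ns : List ℕ}
    (hc : Ctx g x y B full CLS JTL s off rep Ns) {DBL HL : List ℕ} {i0 i1 : ℕ}
    (h0 : ∀ j < i0, CL g x DBL j)
    (h : (bc (Nat.beq (Nat.add i0 HL.length) i1) (caseC B full DBL (e0L off rep Ns) HL i0)
      false) = true) :
    ∀ j < i1, CL g x DBL j := by
  rw [bc_eq] at h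
  split_ifs at h with h1
  have h2 : i0 + HL.length = i1 := Nat.eq_of_beq_eq_true h1
  intro j hj
  exact hc.learn h0 h j (by omega)

/-- the last clause is empty -/
theorem CL_end {x : ℕ → X} {DBL : List ℕ} {i1 : ℕ} (h : ∀ j < i1, CL g x DBL j)
    (hz : (bc (Nat.ble 1 i1) (Nat.beq (ent (tblK 132 DBL) 132 M132 (Nat.sub i1 1)) 0)
      false) = true) : False := by
  rw [bc_eq] at hz
  split_ifs at hz with h1
  have h2 : 1 ≤ i1 := Nat.le_of_ble_eq_true h1
  have h3 : ent (tblK 132 DBL) 132 M132 (Nat.sub i1 1) = 0 := Nat.eq_of_beq_eq_true hz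
  have h4 := h (Nat.sub i1 1) (by
    show i1 - 1 < i1
    omega)
  unfold CL clT at h4
  rw [h3] at h4
  obtain ⟨c, -, hc, -⟩ := h4
  simp at hc

/-- fullness of a base from the icosahedron -/
theorem fullB_of {B full : List ℕ} {fuel h : ℕ} {L : List (ℕ × ℕ)}
    (hchk : (bc (Nat.beq B.length 11) (bc (clOK B 6 11) (bc (eqC 6 B M6)
      (deriveB B ICO 6 5 3 fuel h L) false) false) false) = true)
    (hL : full = L.map Prod.fst) : FullB g B full := by
  rw [bc_eq] at hchk
  split_ifs at hchk with h1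
  rw [bc_eq] at hchk
  split_ifs at hchk with h2
  rw [bc_eq] at hchk
  split_ifs at hchk with h3
  intro x A hFr y hy F hF
  rw [hL, List.mem_map] at hF
  obtain ⟨p, hp, rfl⟩ := hF
  have hico : ∀ F ∈ ICO, F < 2 ^ 12 := by decide +kernel
  refine derive_sound (n1 := 6) (m := 5) (r := 2) (by norm_num) (by norm_num) (by norm_num)
    (by norm_num) (Nat.eq_of_beq_eq_true h1) hFr hy h2 h3 hico ?_ hchk p hp
  intro x' A' hFr' y' hy' F hF
  rw [fs64_eq (lt_of_lt_of_le (hico F hF) (by norm_num))]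
  exact full_ico hFr' hy' F hF

/-- all checks of a class; in the list `L` of the faces: mask, weight, slot -/
noncomputable def clsD (B full : List ℕ) (c fuel h : ℕ) (L : List (ℕ × ℕ × ℕ)) : Bool :=
  bc (clOK (rowsOf c) 11 17) (bc (eqC 11 (rowsOf c) B)
    (deriveB (rowsOf c) full 11 6 4 fuel h (L.map (fun t => (t.1, t.2.2)))) false) false

theorem rowsOf_length (c : ℕ) : (rowsOf c).length = 17 := by
  rw [rowsOf, List.length_map, List.length_range]

/-- contradiction for a class -/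
theorem cls_of {B full : List ℕ} {c D D' M fuel h : ℕ} {Ks : List (List ℕ)}
    {L : List (ℕ × ℕ × ℕ)} {T : List (ℕ × ℕ × List (ℕ × ℕ))} (hB : FullB g B full)
    (hfull : full.all (fun F => Nat.ble (F + 1) (2 ^ 22)) = true)
    (hd : clsD B full c fuel h L = true) (hK : clsK (rowsOf c) 17 Ks = true) (hD : 0 < D) (hD' : 0 < D')
    (hL : L.all (fun t => Nat.ble (t.1 + 1) (2 ^ 34)) = true)
    (hn : nodeB D D' 17 6 (Ks.map mkK) (L.map (fun t => (t.1, t.2.1))) M T = true)
    {A P : Finset X} {y : Ch X} (hA : A.image g.a = A) (hP : Clique g P) (hPc : P.card = 6)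
    (hPA : P ⊆ A) (hy : Good g 5 A y)
    (hno7 : ∀ F : Finset X, F ⊆ A → F.card = 7 → ¬ Clique g F) {x : ℕ → X}
    (hFr : Fr g x 17 (rowsOf c) (A \ (P ∪ P.image g.a))) : False := by
  rw [List.all_eq_true] at hfull hL
  have hfull' : ∀ F ∈ full, F < 2 ^ 22 := fun F hF => by
    have := Nat.le_of_ble_eq_true (hfull F hF)
    omega
  have hLl : ∀ t ∈ L, t.1 < 2 ^ 34 := fun t ht => by
    have := Nat.le_of_ble_eq_true (hL t ht)
    omega
  unfold clsD at hd
  rw [bc_eq] at hd
  split_ifs at hd with h1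
  rw [bc_eq] at hd
  split_ifs at hd with h2
  have hcB : clsB (rowsOf c) 17 D D' 6 M Ks (L.map (fun t => (t.1, t.2.1))) T = true :=
    clsB_of hK hn
  have hlen := rowsOf_length c
  generalize rowsOf c = C at *
  have key := cls_contra hA hP hPc hPA hy hno7 hlen hFr hD hD' hcB
  have k1 : ∀ p ∈ L.map (fun t => (t.1, t.2.1)), p.1 < 2 ^ 34 := by
    intro p hp
    rw [List.mem_map] at hp
    obtain ⟨t, ht, rfl⟩ := hp
    exact hLl t ht
  have k2 : ∀ y4 : Ch X, Good g 4 (A \ (P ∪ P.image g.a)) y4 →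
      ∀ p ∈ L.map (fun t => (t.1, t.2.1)), y4 (fs64 g x p.1) = 1 := by
    intro y4 hy4 p hp
    rw [List.mem_map] at hp
    obtain ⟨t, ht, rfl⟩ := hp
    exact derive_sound (n1 := 11) (m := 6) (r := 3) (by norm_num) (by norm_num) (by norm_num)
      (by norm_num) hlen hFr hy4 h1 h2 hfull' hB hd (t.1, t.2.2)
      (List.mem_map.mpr ⟨t, ht, rfl⟩)
  exact key k1 k2

end Pool.Agent.H775
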