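import Pool.Agent.H775.GlFin
import Pool.Agent.H775.Gl9

/-!
Contradiction for the classes.
-/

set_option autoImplicit false
set_option linter.unusedSectionVars false

namespace Pool.Agent.H775

open Pool.Agent.TH651.RP5

variable {X : Type} [Fintype X] [DecidableEq X]

/-- the class `c` is impossible -/
def QC (g : SG X) (c : ℕ) : Prop :=
  ∀ (A P : Finset X) (y : Ch X), A.image g.a = A → Clique g P →
      P.card = 6 → P ⊆ A → Good g 5 A y → (∀ F : Finset X, F ⊆ A → F.card = 7 → ¬ Clique g F) →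
      ∀ x : ℕ → X, Fr g x 17 (rowsOf c) (A \ (P ∪ P.image g.a)) → False

/-- check of a list of faces: masks below `2^34` -/
noncomputable def lstB (L : List (ℕ × ℕ × ℕ)) : Bool :=
  L.all (fun t => Nat.ble (t.1 + 1) (2 ^ 34))

noncomputable def lw (L : List (ℕ × ℕ × ℕ)) : List (ℕ × ℕ) := L.map (fun t => (t.1, t.2.1))

/-- all checks of a class -/
noncomputable def clsAll (B full : List ℕ) (c D M fuel h : ℕ) (L : List (ℕ × ℕ × ℕ))
    (Ks : List (List ℕ)) : Bool :=
  bc (clsD B full c fuel h L) (bc (clsK (rowsOf c) 17 Ks) (bc (Nat.ble 1 D) (bc (lstB L)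
    (nodeB D 1 17 6 (Ks.map mkK) (lw L) M []) false) false) false) false

variable {g : SG X}

theorem QC_node {B full : List ℕ} {c D D' M fuel h : ℕ} {L : List (ℕ × ℕ × ℕ)}
    {Ks : List (List ℕ)} {T : List (ℕ × ℕ × List (ℕ × ℕ))} (hB : FullB g B full)
    (hfull : full.all (fun F => Nat.ble (F + 1) (2 ^ 22)) = true)
    (h1 : clsD B full c fuel h L = true) (h2 : clsK (rowsOf c) 17 Ks = true) (h3 : Nat.ble 1 D = true)
    (h3' : Nat.ble 1 D' = true) (h4 : lstB L = true)
    (h5 : nodeB D D' 17 6 (Ks.map mkK) (lw L) M T = true) : QC g c := by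
  intro A P y hA hP hPc hPA hy hno7 x hFr
  have hD : 0 < D := Nat.le_of_ble_eq_true h3
  have hD' : 0 < D' := Nat.le_of_ble_eq_true h3'
  exact cls_of hB hfull h1 h2 hD hD' h4 h5 hA hP hPc hPA hy hno7 hFr

theorem QC_of {B full : List ℕ} {c D M fuel h : ℕ} {L : List (ℕ × ℕ × ℕ)}
    {Ks : List (List ℕ)} (hB : FullB g B full)
    (hfull : full.all (fun F => Nat.ble (F + 1) (2 ^ 22)) = true)
    (hk : clsAll B full c D M fuel h L Ks = true) : QC g c := by
  unfold clsAll at hk
  generalize hR : rowsOf c = R at hk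
  rw [bc_eq] at hk
  split_ifs at hk with h1
  rw [bc_eq] at hk
  split_ifs at hk with h2
  rw [bc_eq] at hk
  split_ifs at hk with h3
  rw [bc_eq] at hk
  split_ifs at hk with h4
  rw [← hR] at h2
  exact QC_node hB hfull h1 h2 h3 (by decide) h4 hk

theorem lw_lt {L : List (ℕ × ℕ × ℕ)} (h : lstB L = true) :
    ∀ F ∈ (lw L).map Prod.fst, F < 2 ^ (2 * 17) := by
  intro F hF
  unfold lstB at h
  rw [List.all_eq_true] at h
  rw [List.mem_map] at hF
  obtain ⟨p, hp, rfl⟩ := hF
  unfold lw at hp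
  rw [List.mem_map] at hp
  obtain ⟨t, ht, rfl⟩ := hp
  have := Nat.le_of_ble_eq_true (h t ht)
  show t.1 < 2 ^ 34
  omega

end Pool.Agent.H775
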