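import Pool.Graph.R_seed8.TH651.RP5.P6

/-!
T1a-d: descent lemmas for symmetric good cycles with pairwise meeting supports.
(Subtask for helper775; statements of `Pool/Agent/H775/IntSk.lean`.)
-/

set_option autoImplicit false
set_option linter.unusedSectionVars false

namespace Pool.Agent.H775.Int

open Pool.Agent.TH651.RP5

variable {X : Type} [Fintype X] [DecidableEq X] {g : SG X}

/-- any two simplices of the support share a vertex up to antipode -/
def Isec (g : SG X) (y : Ch X) : Prop :=
  ∀ F F' : Finset X, y F ≠ 0 → y F' ≠ 0 → ∃ v ∈ F, v ∈ F' ∨ g.a v ∈ F'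

/-- T1a. -/
theorem Good.card_le {k : ℕ} : ∀ {A : Finset X} {y : Ch X}, A.image g.a = A → Good g k A y →
    (k + 1) * (k + 2) ≤ A.card := by
  induction k with
  | zero =>
    intro A y hA hy
    obtain ⟨P, hPc, hP, hPA⟩ := Good.exists_clique g hy
    have hc := sdiff_Q_card hA hPA hP
    rw [hPc] at hc
    omega
  | succ k ih =>
    intro A y hA hy
    obtain ⟨P, hPc, hP, hPA⟩ := Good.exists_clique g hy
    have hc := sdiff_Q_card hA hPA hP
    have h2 := ih (A_inv g hA) (Good.desc g hP hy)
    rw [hPc] at hc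
    have h3 : (k + 1 + 1) * (k + 1 + 2) = (k + 1) * (k + 2) + 2 * (k + 1 + 1) := by ring
    omega

/-- T1b. -/
theorem Good.ne_zero {k : ℕ} {A : Finset X} {y : Ch X} (hA : A.image g.a = A) (hy : Good g k A y)
    (h : A.card < (k + 2) * (k + 3)) : y ≠ 0 := by
  intro h0
  obtain ⟨c, r, hc, hr, he⟩ := hy
  rw [h0] at he
  have hbd : bd r = c k + act g.a (c k) := by
    have h1 : c k + act g.a (c k) + bd r + bd r = bd r := by rw [← he, zero_add]
    rw [add_assoc, ch_add_self, add_zero] at h1
    exact h1.symm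
  have hS : Smith g (k + 1) A (Function.update c (k + 1) r) := by
    refine ⟨?_, ?_, ?_⟩
    · intro j hj
      by_cases hjk : j = k + 1
      · subst hjk
        rw [Function.update_self]
        exact hr
      · rw [Function.update_of_ne hjk]
        exact hc.supp j (by omega)
    · intro j hj
      rw [Function.update_of_ne (show j ≠ k + 1 by omega)]
      by_cases hjk : j = k
      · subst hjk
        rw [Function.update_self]
        exact hbd
      · rw [Function.update_of_ne (show j + 1 ≠ k + 1 by omega)]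
        exact hc.step j (by omega)
    · rw [Function.update_of_ne (show 0 ≠ k + 1 by omega)]
      exact hc.base
  have hG : Good g (k + 1) A (Function.update c (k + 1) r (k + 1) +
      act g.a (Function.update c (k + 1) r (k + 1)) + bd 0) :=
    ⟨_, 0, hS, Supp.zero g _ _, rfl⟩
  have := Good.card_le hA hG
  have h3 : (k + 1 + 1) * (k + 1 + 2) = (k + 2) * (k + 3) := by ring
  omega

/-- T1c. -/
theorem D_sym {k : ℕ} {A P : Finset X} {y : Ch X} (hA : A.image g.a = A)
    (hy : Good g (k + 1) A y) (hs : act g.a y = y) (hi : Isec g y) (hP : y P ≠ 0) :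
    act g.a (D g P y) = D g P y := by
  have hPc : Clique g P := (Good.supp g hA hy P hP).2.1
  have h1 : act g.a (D g P y) = D g (P.image g.a) y := by rw [act_D, hs]
  have h2 := D_add_D_anti g hPc y
  have h3 : res (P ∪ P.image g.a) y = 0 := by
    funext F
    simp only [res, Pi.zero_apply]
    split_ifs with hd
    · by_contra hne
      obtain ⟨v, hv, hv2⟩ := hi P F hP hne
      rcases hv2 with hv2 | hv2
      · exact Finset.disjoint_left.mp hd hv2 (Finset.mem_union_left _ hv)
      · exact Finset.disjoint_left.mp hd hv2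
          (Finset.mem_union_right _ (Finset.mem_image_of_mem _ hv))
    · rfl
  have h4 : res (P ∪ P.image g.a) (bd y) = 0 := by
    rw [Good.cycle g hy]
    funext F
    simp [res]
  rw [h3, h4, bd_zero, add_zero] at h2
  rw [h1]
  have h5 : D g P y + (D g P y + D g (P.image g.a) y) = D g P y := by rw [h2, add_zero]
  rw [← add_assoc, ch_add_self, zero_add] at h5
  exact h5

/-- two faces of the link of `P` that do not meet (up to antipode) have the same apex -/
theorem same_apex {P : Finset X} {y : Ch X} (hi : Isec g y) (hP : Clique g P)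
    {F F' : Finset X} (hF : Disjoint F (P ∪ P.image g.a)) (hF' : Disjoint F' (P ∪ P.image g.a))
    (hno : ∀ v ∈ F, ¬ (v ∈ F' ∨ g.a v ∈ F')) {p p' : X} (hp : p ∈ P) (hp' : p' ∈ P)
    (h : y (insert p F) ≠ 0) (h' : y (insert p' F') ≠ 0) : p = p' := by
  obtain ⟨v, hv, hv2⟩ := hi _ _ h h'
  rw [Finset.mem_insert] at hv
  rw [Finset.mem_insert, Finset.mem_insert] at hv2
  have hpQ : p ∈ P ∪ P.image g.a := Finset.mem_union_left _ hp
  have hpQ' : g.a p ∈ P ∪ P.image g.a :=
    Finset.mem_union_right _ (Finset.mem_image_of_mem _ hp)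
  have hqQ : p' ∈ P ∪ P.image g.a := Finset.mem_union_left _ hp'
  rcases hv with rfl | hv
  · rcases hv2 with (hv2 | hv2) | (hv2 | hv2)
    · exact hv2
    · exact absurd hpQ (Finset.disjoint_left.mp hF' hv2)
    · exfalso
      refine Clique.not_anti hP hP hp hp hp' ?_
      rw [← hv2]
      exact Finset.mem_image_of_mem _ hp
    · exact absurd hpQ' (Finset.disjoint_left.mp hF' hv2)
  · exfalso
    rcases hv2 with (hv2 | hv2) | (hv2 | hv2)
    · rw [hv2] at hv
      exact Finset.disjoint_left.mp hF hv hqQ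
    · exact hno v hv (Or.inl hv2)
    · refine Finset.disjoint_left.mp hF hv (Finset.mem_union_right _ ?_)
      rw [mem_image_iff g.ha, hv2]
      exact hp'
    · exact hno v hv (Or.inr hv2)

/-- an apex of a face in the support of `D_P y` -/
theorem exists_apex {P : Finset X} {y : Ch X} {F : Finset X} (h : D g P y F ≠ 0) :
    Disjoint F (P ∪ P.image g.a) ∧ ∃ p ∈ P, y (insert p F) ≠ 0 := by
  have hd : Disjoint F (P ∪ P.image g.a) := by
    by_contra hd
    exact h (by simp only [D, hd, if_false])
  refine ⟨hd, ?_⟩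
  simp only [D, hd, if_true] at h
  exact Finset.exists_ne_zero_of_sum_ne_zero h

/-- T1d. -/
theorem D_isec {k : ℕ} {A P : Finset X} {y : Ch X} (hA : A.image g.a = A)
    (hy : Good g (k + 1) A y) (hs : act g.a y = y) (hi : Isec g y) (hP : y P ≠ 0) :
    Isec g (D g P y) := by
  intro F F' hF hF'
  by_contra hcon
  push Not at hcon
  have hno : ∀ v ∈ F, ¬ (v ∈ F' ∨ g.a v ∈ F') := by
    intro v hv h
    rcases h with h | h
    · exact (hcon v hv).1 h
    · exact (hcon v hv).2 h
  have hPc : Clique g P := (Good.supp g hA hy P hP).2.1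
  have hsym := D_sym hA hy hs hi hP
  have hF'' : D g P y (F'.image g.a) ≠ 0 := by
    have := congrFun hsym F'
    simp only [act] at this
    rw [this]
    exact hF'
  obtain ⟨hd, p, hp, hpy⟩ := exists_apex hF
  obtain ⟨hd', p', hp', hpy'⟩ := exists_apex hF'
  obtain ⟨hd'', p'', hp'', hpy''⟩ := exists_apex hF''
  have e1 : p = p' := same_apex hi hPc hd hd' hno hp hp' hpy hpy'
  have hno' : ∀ v ∈ F, ¬ (v ∈ F'.image g.a ∨ g.a v ∈ F'.image g.a) := by
    intro v hv h
    rw [mem_image_iff g.ha, mem_image_iff g.ha, g.ha] at h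
    exact hno v hv h.symm
  have e2 : p = p'' := same_apex hi hPc hd hd'' hno' hp hp'' hpy hpy''
  subst e1
  subst e2
  have hsup := ((Good.supp g hA hy).D (P := P)) F' hF'
  obtain ⟨u, hu⟩ : F'.Nonempty := by
    rw [← Finset.card_pos]
    omega
  have hpQ : p ∈ P ∪ P.image g.a := Finset.mem_union_left _ hp
  have hpQ' : g.a p ∈ P ∪ P.image g.a :=
    Finset.mem_union_right _ (Finset.mem_image_of_mem _ hp)
  have hpu : p ≠ u := fun e => Finset.disjoint_left.mp hd' hu (e ▸ hpQ)
  have hpu' : p ≠ g.a u := by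
    intro e
    refine Finset.disjoint_left.mp hd' hu ?_
    have : g.a p = u := by rw [e, g.ha]
    rw [← this]
    exact hpQ'
  have a1 : g.Adj p u := (Good.supp g hA hy _ hpy').2.1 p (Finset.mem_insert_self _ _) u
    (Finset.mem_insert_of_mem hu) hpu
  have a2 : g.Adj p (g.a u) := (Good.supp g hA hy _ hpy'').2.1 p (Finset.mem_insert_self _ _)
    (g.a u) (Finset.mem_insert_of_mem (Finset.mem_image_of_mem _ hu)) hpu'
  exact g.excl a1 a2

end Pool.Agent.H775.Int
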