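import Pool.Agent.H775.IntA

set_option autoImplicit false
set_option linter.unusedSectionVars false

namespace Pool.Agent.H775.Int

open Pool.Agent.TH651.RP5

variable {X : Type} [Fintype X] [DecidableEq X] {g : SG X}

/-! ### auxiliary facts -/

theorem T2_other {s : Finset X} {f : X → ZMod 2} {b : X} (h : ∑ v ∈ s, f v = 0) (hb : b ∈ s)
    (hf : f b ≠ 0) : ∃ c ∈ s, c ≠ b ∧ f c ≠ 0 := by
  by_contra hcon
  push Not at hcon
  apply hf
  rw [← h]
  exact (Finset.sum_eq_single_of_mem b hb (fun c hc hcb => hcon c hc hcb)).symm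

/-- a ridge of a cycle is in another simplex of the support -/
theorem T2_ridge {y : Ch X} (hbd : bd y = 0) {F : Finset X} {b : X} (hb : b ∉ F)
    (hy : y (insert b F) ≠ 0) : ∃ c, c ∉ F ∧ c ≠ b ∧ y (insert c F) ≠ 0 := by
  have h1 : ∑ v ∈ Fᶜ, y (insert v F) = 0 := congrFun hbd F
  obtain ⟨c, hc, hcb, hc2⟩ := T2_other (f := fun v => y (insert v F)) h1
    (Finset.mem_compl.mpr hb) hy
  exact ⟨c, Finset.mem_compl.mp hc, hcb, hc2⟩

/-- the indicator of one simplex -/
def T2_e (S : Finset X) : Ch X := fun F => if F = S then 1 else 0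

theorem T2_bd_e (S F : Finset X) :
    bd (T2_e S) F = ∑ v ∈ S, (if F = S.erase v then (1 : ZMod 2) else 0) := by
  have h1 : bd (T2_e S) F = ∑ v, (if v ∉ F ∧ insert v F = S then (1 : ZMod 2) else 0) := by
    unfold bd T2_e
    rw [← Finset.sum_filter, ← Finset.sum_filter]
    refine Finset.sum_congr ?_ (fun _ _ => rfl)
    ext v
    simp only [Finset.mem_filter, Finset.mem_compl, Finset.mem_univ, true_and]
  have h2 : ∑ v ∈ S, (if F = S.erase v then (1 : ZMod 2) else 0) =
      ∑ v, (if v ∉ F ∧ insert v F = S then (1 : ZMod 2) else 0) := by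
    rw [← Finset.sum_filter, ← Finset.sum_filter]
    refine Finset.sum_congr ?_ (fun _ _ => rfl)
    ext v
    simp only [Finset.mem_filter, Finset.mem_univ, true_and]
    constructor
    · rintro ⟨h3, rfl⟩
      exact ⟨Finset.notMem_erase v S, Finset.insert_erase h3⟩
    · rintro ⟨h3, rfl⟩
      exact ⟨Finset.mem_insert_self v F, (Finset.erase_insert h3).symm⟩
  rw [h1, h2]

/-- a simplex meeting all edges of a triangle is an edge of the triangle, or its antipode -/
theorem T2_claim {y : Ch X} {S : Finset X} (hS : Clique g S) (hcard : S.card = 3)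
    (hsupp : ∀ F, y F ≠ 0 → F.card = 2 ∧ Clique g F) (hi : Isec g y)
    (hyS : ∀ u ∈ S, y (S.erase u) ≠ 0) {F : Finset X} (hF : y F ≠ 0) :
    ∃ u ∈ S, F = S.erase u ∨ F.image g.a = S.erase u := by
  obtain ⟨hF2, hFc⟩ := hsupp F hF
  have third : ∀ w1 w2, w1 ∈ S → w2 ∈ S → w1 ≠ w2 → ∃ u ∈ S, S.erase u = {w1, w2} := by
    intro w1 w2 h1 h2 h12
    have hsub : ({w1, w2} : Finset X) ⊆ S := by
      intro z hz
      rw [Finset.mem_insert, Finset.mem_singleton] at hz
      rcases hz with rfl | rfl <;> assumption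
    have hc : (S \ {w1, w2}).card = 1 := by
      rw [Finset.card_sdiff_of_subset hsub, hcard, Finset.card_pair h12]
    obtain ⟨u, hu⟩ := Finset.card_eq_one.mp hc
    have huS : u ∈ S ∧ u ∉ ({w1, w2} : Finset X) := by
      rw [← Finset.mem_sdiff, hu]
      exact Finset.mem_singleton_self u
    refine ⟨u, huS.1, ?_⟩
    symm
    apply Finset.eq_of_subset_of_card_le
    · intro z hz
      rw [Finset.mem_erase]
      exact ⟨fun e => huS.2 (e ▸ hz), hsub hz⟩
    · rw [Finset.card_erase_of_mem huS.1, hcard, Finset.card_pair h12]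
  have full : ∀ G : Finset X, G.card = 2 → ∀ w1 w2, w1 ∈ G → w2 ∈ G → w1 ≠ w2 → G = {w1, w2} := by
    intro G hG w1 w2 h1 h2 h12
    symm
    apply Finset.eq_of_subset_of_card_le
    · intro z hz
      rw [Finset.mem_insert, Finset.mem_singleton] at hz
      rcases hz with rfl | rfl <;> assumption
    · rw [hG, Finset.card_pair h12]
  obtain ⟨u0, hu0⟩ : S.Nonempty := by rw [← Finset.card_pos]; omega
  obtain ⟨v1, hv1F, hv1⟩ := hi F (S.erase u0) hF (hyS u0 hu0)
  obtain ⟨w1, hw1S, hw1⟩ : ∃ w1 ∈ S, v1 = w1 ∨ g.a v1 = w1 := by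
    rcases hv1 with h | h
    · exact ⟨v1, Finset.mem_of_mem_erase h, Or.inl rfl⟩
    · exact ⟨g.a v1, Finset.mem_of_mem_erase h, Or.inr rfl⟩
  obtain ⟨v2, hv2F, hv2⟩ := hi F (S.erase w1) hF (hyS w1 hw1S)
  obtain ⟨w2, hw2S, hw2⟩ : ∃ w2 ∈ S.erase w1, v2 = w2 ∨ g.a v2 = w2 := by
    rcases hv2 with h | h
    · exact ⟨v2, h, Or.inl rfl⟩
    · exact ⟨g.a v2, h, Or.inr rfl⟩
  rw [Finset.mem_erase] at hw2S
  obtain ⟨hne, hw2S⟩ := hw2S
  rcases hw1 with hw1 | hw1 <;> rcases hw2 with hw2 | hw2
  · obtain ⟨u, hu, hu2⟩ := third w1 w2 hw1S hw2S hne.symm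
    refine ⟨u, hu, Or.inl ?_⟩
    rw [hu2]
    exact full F hF2 w1 w2 (hw1 ▸ hv1F) (hw2 ▸ hv2F) hne.symm
  · exfalso
    refine Clique.not_anti hFc hS (x := v1) (y := v2) hv1F (hw1 ▸ hw1S) hv2F ?_
    rw [mem_image_iff g.ha, hw2]
    exact hw2S
  · exfalso
    refine Clique.not_anti hFc hS (x := v2) (y := v1) hv2F (hw2 ▸ hw2S) hv1F ?_
    rw [mem_image_iff g.ha, hw1]
    exact hw1S
  · obtain ⟨u, hu, hu2⟩ := third w1 w2 hw1S hw2S hne.symm
    refine ⟨u, hu, Or.inr ?_⟩
    rw [hu2]
    refine full (F.image g.a) ?_ w1 w2 ?_ ?_ hne.symm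
    · rw [Finset.card_image_of_injective _ g.ha.injective, hF2]
    · rw [mem_image_iff g.ha, ← hw1, g.ha]
      exact hv1F
    · rw [mem_image_iff g.ha, ← hw2, g.ha]
      exact hv2F

/-- the case of a triangle -/
theorem T2_triangle {A : Finset X} {y : Ch X} (hA : A.image g.a = A) (hc : A.card = 10)
    (hy : Good g 1 A y) (hs : act g.a y = y) (hi : Isec g y) {S : Finset X} (hS : Clique g S)
    (hcard : S.card = 3) (hSA : S ⊆ A) (hyS : ∀ u ∈ S, y (S.erase u) ≠ 0) : False := by
  have hsupp : ∀ F, y F ≠ 0 → F.card = 2 ∧ Clique g F := fun F hF =>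
    ⟨(Good.supp g hA hy F hF).1, (Good.supp g hA hy F hF).2.1⟩
  have hone : ∀ u ∈ S, ∑ v ∈ S, (if S.erase u = S.erase v then (1 : ZMod 2) else 0) = 1 := by
    intro u hu
    rw [Finset.sum_eq_single_of_mem u hu]
    · rw [if_pos rfl]
    · intro v hv hvu
      rw [if_neg]
      intro e
      have : v ∈ S.erase u := Finset.mem_erase.mpr ⟨hvu, hv⟩
      rw [e] at this
      exact Finset.notMem_erase v S this
  have hzero : ∀ u ∈ S, ∑ v ∈ S, (if (S.erase u).image g.a = S.erase v then (1 : ZMod 2) else 0)
      = 0 := by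
    intro u hu
    apply Finset.sum_eq_zero
    intro v hv
    rw [if_neg]
    intro e
    obtain ⟨w, hw⟩ : (S.erase u).Nonempty := by
      rw [← Finset.card_pos, Finset.card_erase_of_mem hu]; omega
    have hwS : w ∈ S := Finset.mem_of_mem_erase hw
    have h1 : g.a w ∈ S := by
      apply Finset.mem_of_mem_erase (a := v)
      rw [← e]
      exact Finset.mem_image_of_mem _ hw
    exact Clique.not_anti hS hS hwS hwS h1 (Finset.mem_image_of_mem _ hwS)
  have hyT : y = bd (T2_e S) + act g.a (bd (T2_e S)) := by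
    funext F
    have hsF : y (F.image g.a) = y F := congrFun hs F
    simp only [Pi.add_apply, act]
    rw [T2_bd_e, T2_bd_e]
    rcases z2_cases (y F) with h0 | h1
    · rw [h0]
      have e1 : ∑ v ∈ S, (if F = S.erase v then (1 : ZMod 2) else 0) = 0 := by
        apply Finset.sum_eq_zero
        intro v hv
        rw [if_neg]
        intro e
        exact hyS v hv (e ▸ h0)
      have e2 : ∑ v ∈ S, (if F.image g.a = S.erase v then (1 : ZMod 2) else 0) = 0 := by
        apply Finset.sum_eq_zero
        intro v hv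
        rw [if_neg]
        intro e
        refine hyS v hv ?_
        rw [← e, hsF, h0]
      rw [e1, e2, add_zero]
    · obtain ⟨u, hu, hF | hF⟩ := T2_claim hS hcard hsupp hi hyS
        (F := F) (by rw [h1]; exact one_ne_zero)
      · rw [h1, hF, hone u hu, hzero u hu, add_zero]
      · have hF' : F = (S.erase u).image g.a := by
          rw [← hF, image_image g.ha]
        rw [h1, hF, hone u hu, hF', hzero u hu, zero_add]
  have hT : Supp g 2 A (T2_e S + act g.a (T2_e S)) := by
    have h1 : Supp g 2 A (T2_e S) := by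
      intro F hF
      have hFS : F = S := by
        by_contra hne
        exact hF (if_neg hne)
      rw [hFS]
      exact ⟨hcard, hS, hSA⟩
    exact h1.add (h1.act hA)
  have hgood : Good g 1 A (0 : Ch X) := by
    obtain ⟨c, r, hc, hr, hyr⟩ := hy
    refine ⟨c, r + (T2_e S + act g.a (T2_e S)), hc, hr.add hT, ?_⟩
    rw [bd_add, bd_add, bd_act g.ha, ← hyT, ← add_assoc, ← hyr]
    exact (ch_add_self y).symm
  exact Good.ne_zero hA hgood (by rw [hc]; norm_num) rfl

/-- T2. The level one statement: there is a hexagon (frame `H3 = [0,0,1]`: `x0 ~ x1 ~ x2`,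
`x0 ≁ x2`) inside `A` all of whose edges (masks `HEX = [5,33,10,18,20,40]` in the literals
`2 i ↦ x i`, `2 i + 1 ↦ -x i`) have value `1`. -/
theorem level1 {A : Finset X} {y : Ch X} (hA : A.image g.a = A) (hc : A.card = 10)
    (hy : Good g 1 A y) (hs : act g.a y = y) (hi : Isec g y) :
    ∃ x : ℕ → X, (∀ i < 3, x i ∈ A) ∧ Inj g x 3 ∧ Sg g x 3 H3 ∧ ∀ F ∈ HEX, y (fs g x F) = 1 := by
  have hsupp := Good.supp g hA hy
  have hbd : bd y = 0 := Good.cycle g hy
  have hy0 : y ≠ 0 := Good.ne_zero hA hy (by rw [hc]; norm_num)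
  obtain ⟨F0, hF0⟩ : ∃ F, y F ≠ 0 := by
    by_contra hcon
    push Not at hcon
    exact hy0 (funext hcon)
  obtain ⟨a, b, hab, rfl⟩ := Finset.card_eq_two.mp (hsupp F0 hF0).1
  have padj : ∀ u v : X, u ≠ v → y {u, v} ≠ 0 → g.Adj u v := fun u v huv h =>
    (hsupp _ h).2.1 u (by simp) v (by simp) huv
  have hAab : g.Adj a b := padj a b hab hF0
  -- the neighbour of `a`
  obtain ⟨c, hca, hcb, hyc⟩ := T2_ridge hbd (F := {a}) (b := b)
    (by rw [Finset.mem_singleton]; exact hab.symm) (by rw [Finset.pair_comm]; exact hF0)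
  rw [Finset.mem_singleton] at hca
  -- the neighbour of `b`
  obtain ⟨d, hdb, hda, hyd⟩ := T2_ridge hbd (F := {b}) (b := a)
    (by rw [Finset.mem_singleton]; exact hab) hF0
  rw [Finset.mem_singleton] at hdb
  have hAca : g.Adj c a := padj c a hca hyc
  have hAdb : g.Adj d b := padj d b hdb hyd
  have key : d = c ∨ g.a d = c := by
    obtain ⟨v, hv, hv2⟩ := hi _ _ hyd hyc
    rw [Finset.mem_insert, Finset.mem_singleton] at hv
    rw [Finset.mem_insert, Finset.mem_singleton, Finset.mem_insert, Finset.mem_singleton] at hv2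
    rcases hv with rfl | rfl
    · rcases hv2 with (h | h) | (h | h)
      · exact Or.inl h
      · exact absurd h hda
      · exact Or.inr h
      · exfalso
        -- `a = -d`, `d ~ b`, `a ~ b`
        rw [← h, anti_adj] at hAab
        exact g.excl hAdb hAab
    · rcases hv2 with (h | h) | (h | h)
      · exact absurd h.symm hcb
      · exact absurd h.symm hab
      · exfalso
        rw [← h, anti_adj] at hAca
        exact g.excl (g.symm hAab) hAca
      · exfalso
        rw [← h] at hAab
        exact g.irr' _ (g.symm hAab)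
  rcases key with rfl | hdc
  · exfalso
    have hS : Clique g {a, b, d} := by
      refine clique_insert (clique_pair (g.symm hAdb)) ?_
      intro z hz
      rw [Finset.mem_insert, Finset.mem_singleton] at hz
      rcases hz with rfl | rfl
      · exact hAab
      · exact g.symm hAca
    have hSA : ({a, b, d} : Finset X) ⊆ A := by
      intro z hz
      simp only [Finset.mem_insert, Finset.mem_singleton] at hz
      have h1 := (hsupp _ hF0).2.2
      have h2 := (hsupp _ hyd).2.2
      rcases hz with rfl | rfl | rfl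
      · exact h1 (by simp)
      · exact h1 (by simp)
      · exact h2 (by simp)
    have hcard : ({a, b, d} : Finset X).card = 3 := by
      rw [Finset.card_insert_of_notMem, Finset.card_pair (Ne.symm hdb)]
      simp only [Finset.mem_insert, Finset.mem_singleton, not_or]
      exact ⟨hab, Ne.symm hda⟩
    refine T2_triangle hA hc hy hs hi hS hcard hSA ?_
    intro u hu
    have er : ∀ F : Finset X, F ⊆ ({a, b, d} : Finset X) → u ∉ F → F.card = 2 →
        ({a, b, d} : Finset X).erase u = F := by
      intro F h1 h2 h3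
      symm
      apply Finset.eq_of_subset_of_card_le
      · intro z hz
        rw [Finset.mem_erase]
        exact ⟨fun e => h2 (e ▸ hz), h1 hz⟩
      · rw [Finset.card_erase_of_mem hu, hcard, h3]
    simp only [Finset.mem_insert, Finset.mem_singleton] at hu
    rcases hu with rfl | rfl | rfl
    · rw [er {d, b} (by
        intro z hz
        simp only [Finset.mem_insert, Finset.mem_singleton] at hz ⊢
        tauto) (by
        simp only [Finset.mem_insert, Finset.mem_singleton, not_or]
        exact ⟨Ne.symm hda, hab⟩) (Finset.card_pair hdb)]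
      exact hyd
    · rw [er {d, a} (by
        intro z hz
        simp only [Finset.mem_insert, Finset.mem_singleton] at hz ⊢
        tauto) (by
        simp only [Finset.mem_insert, Finset.mem_singleton, not_or]
        exact ⟨Ne.symm hdb, Ne.symm hab⟩) (Finset.card_pair hda)]
      exact hyc
    · rw [er {a, b} (by
        intro z hz
        simp only [Finset.mem_insert, Finset.mem_singleton] at hz ⊢
        tauto) (by
        simp only [Finset.mem_insert, Finset.mem_singleton, not_or]
        exact ⟨hda, hdb⟩) (Finset.card_pair hab)]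
      exact hF0
  · -- the hexagon `c, a, b, -c, -a, -b`
    have hdc' : d = g.a c := by rw [← hdc, g.ha]
    have hcb' : ¬ g.Adj c b := by
      intro h
      rw [hdc', anti_adj] at hAdb
      exact g.excl h hAdb
    have hyb : y {g.a c, b} ≠ 0 := by
      rw [← hdc']
      exact hyd
    have hac : a ≠ c := fun e => hca e.symm
    have hbc : b ≠ c := fun e => hcb e.symm
    have n1 : c ≠ g.a a := adj_ne' hAca
    have n2 : a ≠ g.a c := adj_ne' (g.symm hAca)
    have n3 : a ≠ g.a b := adj_ne' hAab
    have n4 : b ≠ g.a a := adj_ne' (g.symm hAab)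
    have n5 : b ≠ g.a c := by
      rw [← hdc']
      exact fun e => hdb e.symm
    have n6 : c ≠ g.a b := fun e => n5 (by rw [e, g.ha])
    refine ⟨fun i => if i = 0 then c else if i = 1 then a else b, ?_, ?_, ?_, ?_⟩
    · intro i _
      have h1 := (hsupp _ hF0).2.2
      have h2 := (hsupp _ hyc).2.2
      have ma : a ∈ A := h1 (by simp)
      have mb : b ∈ A := h1 (by simp)
      have mc : c ∈ A := h2 (by simp)
      show (if i = 0 then c else if i = 1 then a else b) ∈ A
      split_ifs <;> assumption
    · intro i hi j hj hij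
      have hi' : i = 0 ∨ i = 1 ∨ i = 2 := by omega
      have hj' : j = 0 ∨ j = 1 ∨ j = 2 := by omega
      rcases hi' with rfl | rfl | rfl <;> rcases hj' with rfl | rfl | rfl
      · exact absurd rfl hij
      · exact ⟨hca, n1⟩
      · exact ⟨hcb, n6⟩
      · exact ⟨hac, n2⟩
      · exact absurd rfl hij
      · exact ⟨hab, n3⟩
      · exact ⟨hbc, n5⟩
      · exact ⟨hab.symm, n4⟩
      · exact absurd rfl hij
    · intro i j hij hj
      have hh : (i = 0 ∧ j = 1) ∨ (i = 0 ∧ j = 2) ∨ (i = 1 ∧ j = 2) := by omega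
      rcases hh with ⟨rfl, rfl⟩ | ⟨rfl, rfl⟩ | ⟨rfl, rfl⟩
      · show ¬ g.Adj c a ↔ _
        have : (H3.getD 1 0).testBit 0 = false := by decide +kernel
        rw [this]
        simp [hAca]
      · show ¬ g.Adj c b ↔ _
        have : (H3.getD 2 0).testBit 0 = true := by decide +kernel
        rw [this]
        simp [hcb']
      · show ¬ g.Adj a b ↔ _
        have : (H3.getD 2 0).testBit 1 = false := by decide +kernel
        rw [this]
        simp [hAab]
    · have hsF : ∀ F : Finset X, y (F.image g.a) = y F := fun F => congrFun hs F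
      have im2 : ∀ u v : X, ({u, v} : Finset X).image g.a = {g.a u, g.a v} := by
        intro u v
        rw [Finset.image_insert, Finset.image_singleton]
      have fs2 : ∀ (F l m : ℕ), FS F = {l, m} →
          fs g (fun i => if i = 0 then c else if i = 1 then a else b) F =
            {lt g (fun i => if i = 0 then c else if i = 1 then a else b) l,
             lt g (fun i => if i = 0 then c else if i = 1 then a else b) m} := by
        intro F l m h
        rw [fs, h, Finset.image_insert, Finset.image_singleton]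
      intro F hF
      have hF' : F = 5 ∨ F = 33 ∨ F = 10 ∨ F = 18 ∨ F = 20 ∨ F = 40 := by
        simpa [HEX] using hF
      rcases hF' with rfl | rfl | rfl | rfl | rfl | rfl
      · rw [fs2 5 0 2 (by decide +kernel)]
        show y {c, a} = 1
        exact z2_ne_zero.mp hyc
      · rw [fs2 33 0 5 (by decide +kernel)]
        show y {c, g.a b} = 1
        rw [← z2_ne_zero]
        have : ({c, g.a b} : Finset X) = ({g.a c, b} : Finset X).image g.a := by
          rw [im2, g.ha]
        rw [this, hsF]
        exact hyb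
      · rw [fs2 10 1 3 (by decide +kernel)]
        show y {g.a c, g.a a} = 1
        rw [← im2, hsF]
        exact z2_ne_zero.mp hyc
      · rw [fs2 18 1 4 (by decide +kernel)]
        show y {g.a c, b} = 1
        exact z2_ne_zero.mp hyb
      · rw [fs2 20 2 4 (by decide +kernel)]
        show y {a, b} = 1
        exact z2_ne_zero.mp hF0
      · rw [fs2 40 3 5 (by decide +kernel)]
        show y {g.a a, g.a b} = 1
        rw [← im2, hsF]
        exact z2_ne_zero.mp hF0

end Pool.Agent.H775.Int
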