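import Pool.Agent.H775.IntB

/-!
Skeleton: symmetric good cycles of dimension five on 23 pairs have two disjoint facets.
Everything uses the library modules `Pool.Graph.R_seed8.TH651.RP5.*` (run
`team-store fetch /workdir/pool Pool/Graph/R_seed8/TH651/RP5/P6.lean` first).
-/

set_option autoImplicit false
set_option linter.unusedSectionVars false

namespace Pool.Agent.H775.Int

open Pool.Agent.TH651.RP5

variable {X : Type} [Fintype X] [DecidableEq X] {g : SG X}


/-! ### T3: helper lemmas -/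

section T3

/-- three literals -/
theorem t3_fs {x : ℕ → X} {l m n : ℕ} (hl : l < 32) (hm : m < 32) (hn : n < 32) :
    fs g x (mkM [l, m, n]) = {lt g x l, lt g x m, lt g x n} := by
  rw [fs, FS_mkM (by
    intro k hk
    simp only [List.mem_cons, List.not_mem_nil, or_false] at hk
    omega)]
  simp only [List.toFinset_cons, List.toFinset_nil, Finset.image_insert, Finset.image_empty]
  rfl

theorem t3_fs2 {x : ℕ → X} {l m : ℕ} (hl : l < 32) (hm : m < 32) :
    fs g x (mkM [l, m]) = {lt g x l, lt g x m} := by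
  rw [fs, FS_mkM (by
    intro k hk
    simp only [List.mem_cons, List.not_mem_nil, or_false] at hk
    omega)]
  simp only [List.toFinset_cons, List.toFinset_nil, Finset.image_insert, Finset.image_empty]
  rfl

variable (g) in
/-- the face of three literals is in the support -/
def T3 (x : ℕ → X) (y : Ch X) (l m n : ℕ) : Prop := y {lt g x l, lt g x m, lt g x n} = 1

theorem T3.s12 {x : ℕ → X} {y : Ch X} {l m n : ℕ} (h : T3 g x y l m n) : T3 g x y m l n := by
  unfold T3 at *
  rwa [Finset.insert_comm]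

theorem T3.s23 {x : ℕ → X} {y : Ch X} {l m n : ℕ} (h : T3 g x y l m n) : T3 g x y l n m := by
  unfold T3 at *
  rwa [Finset.pair_comm]

theorem T3.anti {x : ℕ → X} {y : Ch X} (hs : act g.a y = y) {l m n : ℕ} (h : T3 g x y l m n) :
    T3 g x y (l ^^^ 1) (m ^^^ 1) (n ^^^ 1) := by
  unfold T3 at *
  rw [lt_xor, lt_xor, lt_xor, ← hs]
  unfold act
  rw [Finset.image_insert, Finset.image_insert, Finset.image_singleton, g.ha, g.ha, g.ha]
  exact h

theorem t3_half (l : ℕ) : (l ^^^ 1) / 2 = l / 2 := by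
  have := Nat.xor_div_two (a := l) (b := 1)
  simpa using this

theorem t3_ne {x : ℕ → X} (hx : Inj g x 6) {l m : ℕ} (hl : l < 12) (hm : m < 12)
    (h : l / 2 ≠ m / 2) : lt g x l ≠ lt g x m ∧ g.a (lt g x l) ≠ lt g x m := by
  have h3 := t3_half l
  refine ⟨fun e => h ?_, fun e => h ?_⟩
  · rw [lt_inj hx (by omega) (by omega) e]
  · rw [← lt_xor] at e
    rw [← lt_inj hx (by omega) (by omega) e, h3]

/-- a vertex of a face at a ridge -/
theorem t3_isec {y : Ch X} (hi : Isec g y) {x : ℕ → X} (hx : Inj g x 6) {p q r s b : ℕ}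
    (hp : p < 12) (hq : q < 12) (hr : r < 12) (hs : s < 12) (hb : b < 12)
    (h1 : p / 2 ≠ r / 2) (h2 : p / 2 ≠ s / 2) (h3 : p / 2 ≠ b / 2)
    (h4 : q / 2 ≠ r / 2) (h5 : q / 2 ≠ s / 2) (h6 : q / 2 ≠ b / 2)
    {v : X} (hv : y {v, lt g x p, lt g x q} ≠ 0) (hF : T3 g x y r s b) :
    (v = lt g x r ∨ g.a v = lt g x r) ∨ (v = lt g x s ∨ g.a v = lt g x s) ∨
      (v = lt g x b ∨ g.a v = lt g x b) := by
  obtain ⟨w, hw, hw2⟩ := hi _ _ hv (by rw [T3] at hF; rw [hF]; exact one_ne_zero)
  simp only [Finset.mem_insert, Finset.mem_singleton] at hw hw2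
  rcases hw with rfl | rfl | rfl
  · tauto
  · have e1 := t3_ne hx hp hr h1
    have e2 := t3_ne hx hp hs h2
    have e3 := t3_ne hx hp hb h3
    rcases hw2 with (h | h | h) | (h | h | h)
    · exact absurd h e1.1
    · exact absurd h e2.1
    · exact absurd h e3.1
    · exact absurd h e1.2
    · exact absurd h e2.2
    · exact absurd h e3.2
  · have e1 := t3_ne hx hq hr h4
    have e2 := t3_ne hx hq hs h5
    have e3 := t3_ne hx hq hb h6
    rcases hw2 with (h | h | h) | (h | h | h)
    · exact absurd h e1.1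
    · exact absurd h e2.1
    · exact absurd h e3.1
    · exact absurd h e1.2
    · exact absurd h e2.2
    · exact absurd h e3.2

theorem t3_ridge {A : Finset X} {y : Ch X} (hA : A.image g.a = A) (hy : Good g 2 A y)
    (hi : Isec g y) {x : ℕ → X} (hx : Inj g x 6) {p q r s b c : ℕ}
    (hp : p < 12) (hq : q < 12) (hr : r < 12) (hs : s < 12) (hb : b < 12) (hc : c < 12)
    (hd : [p / 2, q / 2, r / 2, s / 2, b / 2, c / 2].Nodup)
    (h0 : T3 g x y r p q) (h1 : T3 g x y r s b) (h2 : T3 g x y r s c)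
    (hps : g.Adj (lt g x p) (lt g x (s ^^^ 1))) : T3 g x y (s ^^^ 1) p q := by
  simp only [List.nodup_cons, List.mem_cons, List.not_mem_nil, or_false, not_or,
    List.nodup_nil, and_true, not_false_eq_true] at hd
  obtain ⟨⟨d1, d2, d3, d4, d5⟩, ⟨d6, d7, d8, d9⟩, ⟨d10, d11, d12⟩, ⟨d13, d14⟩, d15⟩ := hd
  have hbd : bd y {lt g x p, lt g x q} = 0 := by rw [hy.cycle g]; rfl
  have hex : ∃ v, v ≠ lt g x r ∧ v ∉ ({lt g x p, lt g x q} : Finset X) ∧
      y {v, lt g x p, lt g x q} ≠ 0 := by
    by_contra hcon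
    push Not at hcon
    have h3 : bd y {lt g x p, lt g x q} = y (insert (lt g x r) {lt g x p, lt g x q}) := by
      unfold bd
      refine Finset.sum_eq_single _ (fun v hv hvr => ?_) (fun hv => ?_)
      · rw [Finset.mem_compl] at hv
        exact hcon v hvr hv
      · rw [Finset.mem_compl, not_not, Finset.mem_insert, Finset.mem_singleton] at hv
        rcases hv with h | h
        · exact absurd h.symm (t3_ne hx hp hr d2).1
        · exact absurd h.symm (t3_ne hx hq hr d6).1
    rw [T3] at h0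
    rw [h0, hbd] at h3
    exact zero_ne_one h3
  obtain ⟨v, hvr, hvF, hv⟩ := hex
  rw [Finset.mem_insert, Finset.mem_singleton, not_or] at hvF
  have hsupp := hy.supp g hA
  have hvp : g.Adj v (lt g x p) := (hsupp _ hv).2.1 v (by simp) _ (by simp) hvF.1
  have hrp : g.Adj (lt g x r) (lt g x p) := by
    have h3 : y {lt g x r, lt g x p, lt g x q} ≠ 0 := by
      rw [T3] at h0; rw [h0]; exact one_ne_zero
    exact (hsupp _ h3).2.1 _ (by simp) _ (by simp) (t3_ne hx hp hr d2).1.symm
  have hvr' : g.a v ≠ lt g x r := by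
    intro e
    rw [← e, anti_adj] at hrp
    exact g.excl hvp hrp
  have k1 := t3_isec hi hx hp hq hr hs hb d2 d3 d4 d6 d7 d8 hv h1
  have k2 := t3_isec hi hx hp hq hr hs hc d2 d3 d5 d6 d7 d9 hv h2
  have hbc := t3_ne hx hb hc d15
  have hcb := t3_ne hx hc hb (Ne.symm d15)
  have hvs : v = lt g x s ∨ g.a v = lt g x s := by
    rcases k1 with (h | h) | h | h
    · exact absurd h hvr
    · exact absurd h hvr'
    · exact h
    · rcases k2 with (h' | h') | h' | h'
      · exact absurd h' hvr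
      · exact absurd h' hvr'
      · exact h'
      · exfalso
        rcases h with h | h <;> rcases h' with h' | h'
        · exact hbc.1 (h.symm.trans h')
        · rw [h] at h'
          exact hbc.2 h'
        · rw [h'] at h
          exact hcb.2 h
        · exact hbc.1 (h.symm.trans h')
  rcases hvs with h | h
  · exfalso
    rw [h] at hvp
    rw [lt_xor] at hps
    exact g.excl (g.symm hvp) hps
  · have h3 : v = lt g x (s ^^^ 1) := by rw [lt_xor, ← h, g.ha]
    rw [h3] at hv
    exact z2_ne_zero.1 hv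

/-- the mirror image of `M6` -/
def M6b : List ℕ := [0, 0, 1, 4, 1, 7]
def knX : List ℕ := [0, 1, 3, 3, 13, 30]
def sgX : List ℕ := [0, 0, 1, 0, 1, 6]

theorem t3_core {A P : Finset X} {y : Ch X} (hA : A.image g.a = A) (hs2 : Supp g 2 A y)
    (hPc : P.card = 3) (hP : Clique g P)
    {x : ℕ → X} (hxA : ∀ i < 3, x i ∈ A \ (P ∪ P.image g.a)) (hinj : Inj g x 3)
    (hsg : Sg g x 3 H3) (hF : ∀ F ∈ HEX, D g P y (fs g x F) = 1) :
    ∃ x' : ℕ → X, (∀ i < 3, x' i = x i) ∧ Inj g x' 6 ∧ blk x' 3 6 = P ∧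
      (Sg g x' 6 M6 ∨ Sg g x' 6 M6b) := by
  have hA1 : (A \ (P ∪ P.image g.a)).image g.a = A \ (P ∪ P.image g.a) := A_inv g hA
  have himg : img g x (2 * 3) ⊆ A \ (P ∪ P.image g.a) := by
    intro v hv
    rw [mem_img] at hv
    obtain ⟨l, hl, rfl⟩ := hv
    unfold lt
    split_ifs
    · exact hxA _ (by omega)
    · exact inv_mem hA1 (hxA _ (by omega))
  have hd : Disjoint (img g x (2 * 3)) (P ∪ P.image g.a) :=
    Finset.disjoint_of_subset_left himg Finset.sdiff_disjoint
  have hcov : ∀ F ∈ HEX, ∃ v ∈ P, Cvr g x 3 v F := by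
    intro F hF'
    obtain ⟨v, hv, -, h3⟩ := cover_step hs2 (hF F hF')
    exact ⟨v, hv, cov_of_adj (by decide +kernel) (Finset.Subset.refl _) h3⟩
  obtain ⟨x', hx1, hx2, -, hx4, hx5⟩ := ext_frame (n := 3) (m := 3) (C := H3) (Ns := NH)
    (kn := knX) (sg := sgX) (g := g) (x := x) ⟨hinj, hsg, rfl⟩ (by decide +kernel) hP hPc hd
    (fun F hF' => hcov F (by revert F; decide +kernel)) (by decide +kernel) (by decide +kernel)
  refine ⟨x', hx1, hx2, hx4, ?_⟩
  have kn : ∀ i j, i < j → j < 6 → (knX.getD j 0).testBit i = true →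
    (¬ g.Adj (x' i) (x' j) ↔ (sgX.getD j 0).testBit i = true) := hx5
  have k03 : g.Adj (x' 0) (x' 3) := by
    by_contra h
    exact absurd ((kn 0 3 (by omega) (by omega) (by decide +kernel)).1 h) (by decide +kernel)
  have k13 : g.Adj (x' 1) (x' 3) := by
    by_contra h
    exact absurd ((kn 1 3 (by omega) (by omega) (by decide +kernel)).1 h) (by decide +kernel)
  have k04 : ¬ g.Adj (x' 0) (x' 4) :=
    (kn 0 4 (by omega) (by omega) (by decide +kernel)).2 (by decide +kernel)
  have k15 : ¬ g.Adj (x' 1) (x' 5) :=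
    (kn 1 5 (by omega) (by omega) (by decide +kernel)).2 (by decide +kernel)
  have cov : ∀ F ∈ HEX, ∃ j, 3 ≤ j ∧ j < 6 ∧ ∀ l < 6, F.testBit l = true →
      g.Adj (lt g x' l) (x' j) := by
    intro F hF'
    obtain ⟨v, hv, hc⟩ := hcov F hF'
    rw [← hx4] at hv
    obtain ⟨j, h1, h2, rfl⟩ := blk_sub (n := 6) le_rfl hv
    refine ⟨j, h1, h2, fun l hl hFl => ?_⟩
    have h3 := hc l (by omega) hFl
    have h4 : lt g x' l = lt g x l := by
      unfold lt
      rw [hx1 _ (by omega)]
    rw [h4]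
    exact h3
  -- the edge x1 x2
  have c1 : g.Adj (x' 2) (x' 3) ∨ g.Adj (x' 1) (x' 4) := by
    obtain ⟨j, h1, h2, h3⟩ := cov 20 (by decide +kernel)
    have h4 : g.Adj (x' 1) (x' j) := h3 2 (by omega) (by decide +kernel)
    have h5 : g.Adj (x' 2) (x' j) := h3 4 (by omega) (by decide +kernel)
    have hj : j = 3 ∨ j = 4 ∨ j = 5 := by omega
    rcases hj with rfl | rfl | rfl
    · exact Or.inl h5
    · exact Or.inr h4
    · exact absurd h4 k15
  have c2 : ¬ g.Adj (x' 1) (x' 4) ∨ ¬ g.Adj (x' 0) (x' 5) := by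
    obtain ⟨j, h1, h2, h3⟩ := cov 10 (by decide +kernel)
    have h4 : g.Adj (g.a (x' 0)) (x' j) := h3 1 (by omega) (by decide +kernel)
    have h5 : g.Adj (g.a (x' 1)) (x' j) := h3 3 (by omega) (by decide +kernel)
    rw [anti_adj] at h4 h5
    have hj : j = 3 ∨ j = 4 ∨ j = 5 := by omega
    rcases hj with rfl | rfl | rfl
    · exact absurd h4 (g.excl k03)
    · exact Or.inl fun h => g.excl h h5
    · exact Or.inr fun h => g.excl h h4
  have c3 : ¬ g.Adj (x' 2) (x' 3) ∨ g.Adj (x' 0) (x' 5) := by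
    obtain ⟨j, h1, h2, h3⟩ := cov 33 (by decide +kernel)
    have h4 : g.Adj (x' 0) (x' j) := h3 0 (by omega) (by decide +kernel)
    have h5 : g.Adj (g.a (x' 2)) (x' j) := h3 5 (by omega) (by decide +kernel)
    rw [anti_adj] at h5
    have hj : j = 3 ∨ j = 4 ∨ j = 5 := by omega
    rcases hj with rfl | rfl | rfl
    · exact Or.inl fun h => g.excl h h5
    · exact absurd h4 k04
    · exact Or.inr h4
  by_cases ha : g.Adj (x' 2) (x' 3)
  · left
    have hc : g.Adj (x' 0) (x' 5) := by tauto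
    have hb : ¬ g.Adj (x' 1) (x' 4) := by tauto
    intro i j hij hj
    have hdec : ∀ j < 6, ∀ i < j, ((knX.getD j 0).testBit i = true ∧
        (sgX.getD j 0).testBit i = (M6.getD j 0).testBit i) ∨ (i = 2 ∧ j = 3) ∨
        (i = 1 ∧ j = 4) ∨ (i = 0 ∧ j = 5) := by decide +kernel
    rcases hdec j hj i hij with ⟨h1, h2⟩ | ⟨rfl, rfl⟩ | ⟨rfl, rfl⟩ | ⟨rfl, rfl⟩
    · rw [← h2]
      exact kn i j hij hj h1
    · exact ⟨fun h => absurd ha h, fun h => absurd h (by decide +kernel)⟩
    · exact ⟨fun _ => by decide +kernel, fun _ => hb⟩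
    · exact ⟨fun h => absurd hc h, fun h => absurd h (by decide +kernel)⟩
  · right
    have hb : g.Adj (x' 1) (x' 4) := by tauto
    have hc : ¬ g.Adj (x' 0) (x' 5) := by tauto
    intro i j hij hj
    have hdec : ∀ j < 6, ∀ i < j, ((knX.getD j 0).testBit i = true ∧
        (sgX.getD j 0).testBit i = (M6b.getD j 0).testBit i) ∨ (i = 2 ∧ j = 3) ∨
        (i = 1 ∧ j = 4) ∨ (i = 0 ∧ j = 5) := by decide +kernel
    rcases hdec j hj i hij with ⟨h1, h2⟩ | ⟨rfl, rfl⟩ | ⟨rfl, rfl⟩ | ⟨rfl, rfl⟩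
    · rw [← h2]
      exact kn i j hij hj h1
    · exact ⟨fun _ => by decide +kernel, fun _ => ha⟩
    · exact ⟨fun h => absurd hb h, fun h => absurd h (by decide +kernel)⟩
    · exact ⟨fun _ => by decide +kernel, fun _ => hc⟩

/-- the enumeration can be chosen with the signs `M6` -/
theorem t3_frame {A P : Finset X} {y : Ch X} (hA : A.image g.a = A) (hs2 : Supp g 2 A y)
    (hPc : P.card = 3) (hP : Clique g P) (hD : act g.a (D g P y) = D g P y)
    {x : ℕ → X} (hxA : ∀ i < 3, x i ∈ A \ (P ∪ P.image g.a)) (hinj : Inj g x 3)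
    (hsg : Sg g x 3 H3) (hF : ∀ F ∈ HEX, D g P y (fs g x F) = 1) :
    ∃ x' : ℕ → X, (∀ i < 3, x' i ∈ A \ (P ∪ P.image g.a)) ∧ Inj g x' 6 ∧ blk x' 3 6 = P ∧
      Sg g x' 6 M6 ∧ ∀ F ∈ HEX, D g P y (fs g x' F) = 1 := by
  have hfs : ∀ (x x' : ℕ → X), (∀ i < 3, x' i = x i) → ∀ F ∈ HEX, fs g x' F = fs g x F := by
    intro x x' h F hF'
    unfold fs
    refine Finset.image_congr fun l hl => ?_
    have hl' : l < 6 := by
      rw [Finset.mem_coe] at hl
      revert l F
      decide +kernel
    change lt g x' l = lt g x l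
    unfold lt
    rw [h _ (by omega)]
  have hA1 : (A \ (P ∪ P.image g.a)).image g.a = A \ (P ∪ P.image g.a) := A_inv g hA
  obtain ⟨x', hx1, hx2, hx3, hx4 | hx4⟩ := t3_core hA hs2 hPc hP hxA hinj hsg hF
  · exact ⟨x', fun i hi => by rw [hx1 i hi]; exact hxA i hi, hx2, hx3, hx4,
      fun F hF' => by rw [hfs x x' hx1 F hF']; exact hF F hF'⟩
  · -- the mirror image
    let z : ℕ → X := fun i => g.a (x i)
    have hz1 : ∀ i < 3, z i ∈ A \ (P ∪ P.image g.a) := fun i hi => inv_mem hA1 (hxA i hi)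
    have hz2 : Inj g z 3 := by
      intro i hi j hj hij
      refine ⟨fun e => (hinj i hi j hj hij).1 (g.ha.injective e), fun e => ?_⟩
      exact (hinj i hi j hj hij).2 (g.ha.injective e)
    have hz3 : Sg g z 3 H3 := by
      intro i j hij hj
      rw [← hsg i j hij hj]
      exact not_congr anti_anti_adj
    have hz4 : ∀ F ∈ HEX, D g P y (fs g z F) = 1 := by
      intro F hF'
      have h1 : fs g z F = (fs g x F).image g.a := by
        unfold fs
        rw [Finset.image_image]
        refine Finset.image_congr fun l _ => ?_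
        change (if l % 2 = 0 then g.a (x (l / 2)) else g.a (g.a (x (l / 2)))) =
          g.a (if l % 2 = 0 then x (l / 2) else g.a (x (l / 2)))
        split_ifs <;> rfl
      rw [h1]
      change act g.a (D g P y) (fs g x F) = 1
      rw [hD]
      exact hF F hF'
    obtain ⟨w, hw1, hw2, hw3, hw4 | hw4⟩ := t3_core hA hs2 hPc hP hz1 hz2 hz3 hz4
    · exact ⟨w, fun i hi => by rw [hw1 i hi]; exact hz1 i hi, hw2, hw3, hw4,
        fun F hF' => by rw [hfs z w hw1 F hF']; exact hz4 F hF'⟩
    · exfalso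
      -- `x' 5` is adjacent to the three vertices `w 0, w 1, w 2`
      have h5 : x' 5 ∈ blk w 3 6 := by
        rw [hw3, ← hx3]
        exact Finset.mem_image_of_mem _ (Finset.mem_Ico.2 ⟨by omega, by omega⟩)
      obtain ⟨j, h1, h2, h3⟩ := blk_sub (n := 6) le_rfl h5
      have hadj : ∀ i < 3, g.Adj (w i) (x' 5) := by
        intro i hi
        have e1 : ¬ g.Adj (x' i) (x' 5) := by
          refine (hx4 i 5 (by omega) (by omega)).2 ?_
          revert i
          decide +kernel
        have e2 := hx2 i (by omega) 5 (by omega) (by omega)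
        rw [hw1 i hi]
        change g.Adj (g.a (x i)) (x' 5)
        rw [← hx1 i hi, anti_adj, adj_iff_not_anti]
        · exact e1
        · exact fun e => e2.1 e.symm
        · intro e
          apply e2.2
          rw [e, g.ha]
      rw [← h3] at hadj
      have hj : j = 3 ∨ j = 4 ∨ j = 5 := by omega
      rcases hj with rfl | rfl | rfl
      · exact (hw4 2 3 (by omega) (by omega)).2 (by decide +kernel) (hadj 2 (by omega))
      · exact (hw4 0 4 (by omega) (by omega)).2 (by decide +kernel) (hadj 0 (by omega))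
      · exact (hw4 0 5 (by omega) (by omega)).2 (by decide +kernel) (hadj 0 (by omega))

/-- the faces over the hexagon -/
theorem t3_edge {A P : Finset X} {y : Ch X} (hs2 : Supp g 2 A y)
    {x : ℕ → X} (hinj : Inj g x 6) (hb : blk x 3 6 = P) (hsg : Sg g x 6 M6)
    {l m j : ℕ} (hl : l < 6) (hm : m < 6)
    (hF : D g P y (fs g x (mkM [l, m])) = 1)
    (hdec : ∀ i, 3 ≤ i → i < 6 → nadj M6 l (2 * i) = false → nadj M6 m (2 * i) = false → i = j) :
    T3 g x y (2 * j) l m := by
  rw [t3_fs2 (by omega) (by omega)] at hF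
  obtain ⟨v, hv, h1, h2⟩ := cover_step hs2 hF
  rw [← hb] at hv
  obtain ⟨i, h3, h4, rfl⟩ := blk_sub (n := 6) le_rfl hv
  have key : ∀ k < 6, g.Adj (lt g x k) (x i) → nadj M6 k (2 * i) = false := by
    intro k hk hadj
    by_contra h
    rw [Bool.not_eq_false] at h
    refine (nadj_spec' hinj hsg (by omega) (by omega) (by omega)).1 h ?_
    rw [lt_even]
    exact hadj
  have hij := hdec i h3 h4 (key l hl (h2 _ (by simp))) (key m hm (h2 _ (by simp)))
  subst hij
  unfold T3
  rw [lt_even]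
  exact h1

end T3

/-- T3. The level two statement: the full icosahedron (frame `M6 = [0,0,1,0,3,6]`, 20 faces `ICO`)
is in the support.
Proof: `y ≠ 0` by `Good.ne_zero` (16 < 20); take `P = {t1,t2,t3}` in the support. `y1 = D_P y` on the
5 remaining pairs satisfies `level1` (`Good.desc`, `D_sym`, `D_isec`, `sdiff_Q_card`): hexagon
`x0,x1,x2` whose six edges `e` have `∑_{t ∈ P} y (e ∪ t) = 1`, in particular (`cover_step`) each of the
six edges has a `t ∈ P` with `y (e ∪ t) = 1`, `t` adjacent to both ends of `e`.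
A vertex `t` is adjacent to exactly one of `±x0`, of `±x1`, of `±x2`; if the three are consecutive in
the hexagon `x0,x1,x2,-x0,-x1,-x2` it is adjacent to both ends of exactly two edges, otherwise of
none. Six edges, three `t`'s: each `t` covers exactly two consecutive edges, with centres
`{x1,-x0,-x2}` or `{-x1,x0,x2}`; in the second case replace `x i` by `-x i` (i < 3) (this keeps `H3` and
permutes the edges). So number `P` so that `x3` is adjacent to `x0,x1,x2` (centre `x1`),
`x4` to `x2,-x0,-x1` (centre `-x0`), `x5` to `x0,-x1,-x2` (centre `-x2`): signs `M6`.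
(Library alternative: `ext_frame` with `NH = [5,18,40]`: the three edges `{x0,x1}`,
`{-x0,x2}`, `{-x1,-x2}` are pairwise incompatible and each needs its own `t`;
the three remaining sign bits have two possible values, `[0,1,0]` giving `M6` and `[1,0,1]` giving
`[0,0,1,4,1,7]`, which is relabelled to `M6` keeping the block `{3,4,5}`.)
Known support: `{x3,x4,x5}`, the six `e ∪ t`, and antipodes (14 faces).
Ridge `{x3,x4}`: `bd y = 0` and `y {x3,x4,x5} = 1` give `v ≠ x5` with `y {v,x3,x4} = 1`;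
`v ≠ ±x3, ±x4, -x5`; `Isec` with `{x0,-x2,x5}` and `{-x1,-x2,x5}` gives `v = ±x2`, and
`x3 ~ x2` gives `v = x2`. Ridge `{x3,x5}`: `Isec` with `{x2,-x0,x4}`, `{-x0,-x1,x4}` gives
`v = ±x0`, `x3 ~ x0` gives `v = x0`. Ridge `{x4,x5}`: `Isec` with `{x0,x1,x3}`, `{x1,x2,x3}`
gives `v = ±x1`, `x4 ~ -x1` gives `v = -x1`. With the antipodes these are the 20 faces `ICO`
(check `ICO` in `Consts.lean`: masks in literals `2i`, `2i+1`). -/
theorem level2 {A : Finset X} {y : Ch X} (hA : A.image g.a = A) (hc : A.card = 16)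
    (hy : Good g 2 A y) (hs : act g.a y = y) (hi : Isec g y) :
    ∃ x : ℕ → X, (∀ i < 6, x i ∈ A) ∧ Inj g x 6 ∧ Sg g x 6 M6 ∧ ∀ F ∈ ICO, y (fs g x F) = 1 := by
  have hy0 : y ≠ 0 := Good.ne_zero hA hy (by rw [hc]; norm_num)
  obtain ⟨P, hP0⟩ : ∃ P, y P ≠ 0 := by
    by_contra hcon
    push Not at hcon
    exact hy0 (funext hcon)
  have hs2 : Supp g 2 A y := hy.supp g hA
  obtain ⟨hPc, hP, hPA⟩ := hs2 P hP0
  have hc1 := sdiff_Q_card hA hPA hP
  have hA1 : (A \ (P ∪ P.image g.a)).image g.a = A \ (P ∪ P.image g.a) := A_inv g hA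
  have hD := D_sym (k := 1) hA hy hs hi hP0
  obtain ⟨x0, a1, a2, a3, a4⟩ := level1 hA1 (by omega) (Good.desc g hP hy) hD
    (D_isec (k := 1) hA hy hs hi hP0)
  obtain ⟨x, b1, b2, b3, b4, b5⟩ := t3_frame hA hs2 hPc hP hD a1 a2 a3 a4
  have hmem : ∀ i < 6, x i ∈ A := by
    intro i hi6
    by_cases h3 : i < 3
    · exact (Finset.mem_sdiff.1 (b1 i h3)).1
    · apply hPA
      rw [← b3]
      exact Finset.mem_image_of_mem _ (Finset.mem_Ico.2 ⟨by omega, by omega⟩)
  -- the faces over the hexagon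
  have f1 : T3 g x y 6 0 2 := t3_edge (j := 3) hs2 b2 b3 b4 (by omega) (by omega)
    (b5 5 (by decide +kernel)) (by decide +kernel)
  have f2 : T3 g x y 6 2 4 := t3_edge (j := 3) hs2 b2 b3 b4 (by omega) (by omega)
    (b5 20 (by decide +kernel)) (by decide +kernel)
  have f3 : T3 g x y 8 1 4 := t3_edge (j := 4) hs2 b2 b3 b4 (by omega) (by omega)
    (b5 18 (by decide +kernel)) (by decide +kernel)
  have f4 : T3 g x y 8 1 3 := t3_edge (j := 4) hs2 b2 b3 b4 (by omega) (by omega)
    (b5 10 (by decide +kernel)) (by decide +kernel)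
  have f5 : T3 g x y 10 3 5 := t3_edge (j := 5) hs2 b2 b3 b4 (by omega) (by omega)
    (b5 40 (by decide +kernel)) (by decide +kernel)
  have f6 : T3 g x y 10 0 5 := t3_edge (j := 5) hs2 b2 b3 b4 (by omega) (by omega)
    (b5 33 (by decide +kernel)) (by decide +kernel)
  have f7 : T3 g x y 6 8 10 := by
    have h1 : ({lt g x 6, lt g x 8, lt g x 10} : Finset X) = P := by
      rw [← b3]
      have h2 : Finset.Ico 3 6 = {3, 4, 5} := by decide +kernel
      rw [blk, h2, Finset.image_insert, Finset.image_insert, Finset.image_singleton]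
      rfl
    unfold T3
    rw [h1]
    exact z2_ne_zero.1 hP0
  have adj : ∀ l m, l < 12 → m < 12 → l / 2 ≠ m / 2 → nadj M6 l m = false →
      g.Adj (lt g x l) (lt g x m) := by
    intro l m hl hm hne hn
    by_contra h
    rw [(nadj_spec' b2 b4 (by omega) (by omega) hne).2 h] at hn
    exact absurd hn (by decide)
  -- the remaining faces
  have f8 : T3 g x y 4 6 8 := t3_ridge (p := 6) (q := 8) (r := 10) (s := 5) (b := 0) (c := 3)
    hA hy hi b2 (by omega) (by omega) (by omega) (by omega) (by omega) (by omega)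
    (by decide +kernel) f7.s23.s12 f6.s23 f5.s23
    (adj 6 4 (by omega) (by omega) (by omega) (by decide +kernel))
  have f9 : T3 g x y 0 6 10 := t3_ridge (p := 6) (q := 10) (r := 8) (s := 1) (b := 4) (c := 3)
    hA hy hi b2 (by omega) (by omega) (by omega) (by omega) (by omega) (by omega)
    (by decide +kernel) f7.s12 f3 f4
    (adj 6 0 (by omega) (by omega) (by omega) (by decide +kernel))
  have f10 : T3 g x y 3 8 10 := t3_ridge (p := 8) (q := 10) (r := 6) (s := 2) (b := 0) (c := 4)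
    hA hy hi b2 (by omega) (by omega) (by omega) (by omega) (by omega) (by omega)
    (by decide +kernel) f7 f1.s23 f2
    (adj 8 3 (by omega) (by omega) (by omega) (by decide +kernel))
  have fin : ∀ l m n, l < 12 → m < 12 → n < 12 → T3 g x y l m n →
      y (fs g x (mkM [l, m, n])) = 1 ∧ y (fs g x (mkM [l ^^^ 1, m ^^^ 1, n ^^^ 1])) = 1 := by
    intro l m n hl hm hn h
    have e1 := t3_half l
    have e2 := t3_half m
    have e3 := t3_half n
    refine ⟨?_, ?_⟩
    · rw [t3_fs (by omega) (by omega) (by omega)]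
      exact h
    · rw [t3_fs (by omega) (by omega) (by omega)]
      exact h.anti hs
  obtain ⟨g1, g1'⟩ := fin _ _ _ (by omega) (by omega) (by omega) f1
  obtain ⟨g2, g2'⟩ := fin _ _ _ (by omega) (by omega) (by omega) f2
  obtain ⟨g3, g3'⟩ := fin _ _ _ (by omega) (by omega) (by omega) f3
  obtain ⟨g4, g4'⟩ := fin _ _ _ (by omega) (by omega) (by omega) f4
  obtain ⟨g5, g5'⟩ := fin _ _ _ (by omega) (by omega) (by omega) f5
  obtain ⟨g6, g6'⟩ := fin _ _ _ (by omega) (by omega) (by omega) f6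
  obtain ⟨g7, g7'⟩ := fin _ _ _ (by omega) (by omega) (by omega) f7
  obtain ⟨g8, g8'⟩ := fin _ _ _ (by omega) (by omega) (by omega) f8
  obtain ⟨g9, g9'⟩ := fin _ _ _ (by omega) (by omega) (by omega) f9
  obtain ⟨g10, g10'⟩ := fin _ _ _ (by omega) (by omega) (by omega) f10
  refine ⟨x, hmem, b2, b4, fun F hF => ?_⟩
  simp only [ICO, List.mem_cons, List.not_mem_nil, or_false] at hF
  rcases hF with rfl | rfl | rfl | rfl | rfl | rfl | rfl | rfl | rfl | rfl | rfl | rfl | rfl |
    rfl | rfl | rfl | rfl | rfl | rfl | rfl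
  · exact g1
  · exact g4'
  · exact g3'
  · exact g6
  · exact g9
  · exact g1'
  · exact g4
  · exact g3
  · exact g6'
  · exact g9'
  · exact g2
  · exact g5'
  · exact g10'
  · exact g2'
  · exact g5
  · exact g10
  · exact g8
  · exact g8'
  · exact g7
  · exact g7'

end Pool.Agent.H775.Int
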