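import Pool.Graph.R_seed8.TH651.RP5.Topo

/-!
T5: enlarging the vertex set of a Smith sequence by isolated pairs.
-/

set_option autoImplicit false
set_option linter.unusedSectionVars false

namespace Pool.Agent.H775.Pad

open Pool.Agent.TH651.RP5

section Push

variable {X Y : Type} [Fintype X] [DecidableEq X] [Fintype Y] [DecidableEq Y] (ι : X ↪ Y)

open Classical in
/-- push-forward of a chain along an injection -/
noncomputable def push (c : Ch X) : Ch Y := fun F =>
  if h : ∃ G : Finset X, G.map ι = F then c h.choose else 0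

theorem push_map (c : Ch X) (G : Finset X) : push ι c (G.map ι) = c G := by
  have h : ∃ G' : Finset X, G'.map ι = G.map ι := ⟨G, rfl⟩
  unfold push
  rw [dif_pos h]
  congr 1
  exact Finset.map_injective ι h.choose_spec

theorem push_of_not (c : Ch X) (F : Finset Y) (h : ¬ ∃ G : Finset X, G.map ι = F) :
    push ι c F = 0 := by
  unfold push
  rw [dif_neg h]

theorem push_add (c d : Ch X) : push ι (c + d) = push ι c + push ι d := by
  funext F
  by_cases h : ∃ G : Finset X, G.map ι = F
  · obtain ⟨G, rfl⟩ := h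
    simp only [Pi.add_apply, push_map]
  · simp only [Pi.add_apply, push_of_not ι _ F h, add_zero]

theorem isMap_iff (F : Finset Y) :
    (∃ G : Finset X, G.map ι = F) ↔ ∀ y ∈ F, ∃ x, ι x = y := by
  classical
  constructor
  · rintro ⟨G, rfl⟩ y hy
    obtain ⟨x, _, hx⟩ := Finset.mem_map.mp hy
    exact ⟨x, hx⟩
  · intro h
    refine ⟨Finset.univ.filter (fun x => ι x ∈ F), ?_⟩
    ext y
    rw [Finset.mem_map]
    constructor
    · rintro ⟨x, hx, rfl⟩
      exact (Finset.mem_filter.mp hx).2
    · intro hy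
      obtain ⟨x, rfl⟩ := h y hy
      exact ⟨x, by simp [hy], rfl⟩

theorem bd_push (c : Ch X) : bd (push ι c) = push ι (bd c) := by
  funext F
  by_cases h : ∃ G : Finset X, G.map ι = F
  · obtain ⟨G, rfl⟩ := h
    rw [push_map]
    simp only [bd]
    have hsub : (Gᶜ).map ι ⊆ (G.map ι)ᶜ := by
      intro y hy
      obtain ⟨x, hx, rfl⟩ := Finset.mem_map.mp hy
      rw [Finset.mem_compl] at hx ⊢
      intro h'
      obtain ⟨x', hx', e⟩ := Finset.mem_map.mp h'
      rw [ι.injective e] at hx'
      exact hx hx'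
    rw [← Finset.sum_subset hsub, Finset.sum_map]
    · refine Finset.sum_congr rfl (fun x _ => ?_)
      rw [← Finset.map_insert, push_map]
    · intro y hy hy'
      refine push_of_not ι _ _ ?_
      rw [isMap_iff]
      intro hall
      obtain ⟨x, rfl⟩ := hall y (Finset.mem_insert_self _ _)
      apply hy'
      rw [Finset.mem_map]
      refine ⟨x, ?_, rfl⟩
      rw [Finset.mem_compl] at hy ⊢
      intro hx
      exact hy (Finset.mem_map_of_mem _ hx)
  · rw [push_of_not ι _ F h]
    simp only [bd]
    refine Finset.sum_eq_zero (fun y _ => push_of_not ι _ _ ?_)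
    rw [isMap_iff] at h ⊢
    intro hall
    exact h (fun z hz => hall z (Finset.mem_insert_of_mem hz))

theorem act_push {a : X → X} {b : Y → Y} (hb : Function.Involutive b)
    (hab : ∀ x, b (ι x) = ι (a x)) (c : Ch X) : act b (push ι c) = push ι (act a c) := by
  have himg : ∀ G : Finset X, (G.map ι).image b = (G.image a).map ι := by
    intro G
    ext y
    simp only [Finset.mem_image, Finset.mem_map]
    constructor
    · rintro ⟨_, ⟨x, hx, rfl⟩, rfl⟩
      exact ⟨a x, ⟨x, hx, rfl⟩, (hab x).symm⟩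
    · rintro ⟨_, ⟨x, hx, rfl⟩, rfl⟩
      exact ⟨ι x, ⟨x, hx, rfl⟩, hab x⟩
  funext F
  by_cases h : ∃ G : Finset X, G.map ι = F
  · obtain ⟨G, rfl⟩ := h
    rw [push_map]
    simp only [act]
    rw [himg, push_map]
  · rw [push_of_not ι _ F h]
    simp only [act]
    refine push_of_not ι _ _ ?_
    rintro ⟨G, hG⟩
    apply h
    refine ⟨G.image a, ?_⟩
    rw [← himg, hG, image_image hb]

end Push

/-- the extended sign function -/
def sgn' {V : Type} (s : V → V → Bool) (m : ℕ) : V ⊕ Fin m → V ⊕ Fin m → Bool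
  | Sum.inl v, Sum.inl w => s v w
  | _, _ => false

/-- T5. Take `W = V ⊕ Fin (N - card V)`, `s'` equal to `s` on `V` and `false` otherwise, `ι : V × Bool →
W × Bool` the inclusion `(v,b) ↦ (Sum.inl v, b)`, and `c' k` the push-forward of `c k` along `ι`. -/
theorem pad {V : Type} [Fintype V] [DecidableEq V] (s : V → V → Bool) (hs : ∀ v w, s v w = s w v)
    (c : ℕ → Ch (V × Bool)) (k : ℕ) (hS : Smith (SG.ofSign s hs) k Finset.univ c) (N : ℕ)
    (hN : Fintype.card V ≤ N) :
    ∃ (W : Type) (_ : Fintype W) (_ : DecidableEq W) (s' : W → W → Bool)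
      (hs' : ∀ v w, s' v w = s' w v) (c' : ℕ → Ch (W × Bool)),
      Fintype.card W = N ∧ Smith (SG.ofSign s' hs') k Finset.univ c' := by
  have hs' : ∀ v w, sgn' s (N - Fintype.card V) v w = sgn' s (N - Fintype.card V) w v := by
    rintro (v | v) (w | w)
    · exact hs v w
    · rfl
    · rfl
    · rfl
  let ι : V × Bool ↪ (V ⊕ Fin (N - Fintype.card V)) × Bool :=
    ⟨fun x => (Sum.inl x.1, x.2), by
      rintro ⟨v, b⟩ ⟨w, b'⟩ h
      simp only [Prod.mk.injEq, Sum.inl.injEq] at h
      exact Prod.ext h.1 h.2⟩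
  have hab : ∀ x, (SG.ofSign (sgn' s (N - Fintype.card V)) hs').a (ι x) =
      ι ((SG.ofSign s hs).a x) := fun x => rfl
  refine ⟨V ⊕ Fin (N - Fintype.card V), inferInstance, inferInstance,
    sgn' s (N - Fintype.card V), hs', fun j => push ι (c j), ?_, ?_⟩
  · rw [Fintype.card_sum, Fintype.card_fin]
    omega
  · refine ⟨?_, ?_, ?_⟩
    · intro j hj F hF
      have h : ∃ G : Finset (V × Bool), G.map ι = F := by
        by_contra h
        exact hF (push_of_not ι _ F h)
      obtain ⟨G, rfl⟩ := h
      rw [push_map] at hF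
      obtain ⟨h1, h2, -⟩ := hS.supp j hj G hF
      refine ⟨by rw [Finset.card_map, h1], ?_, Finset.subset_univ _⟩
      intro x hx y hy hxy
      obtain ⟨x, hx', rfl⟩ := Finset.mem_map.mp hx
      obtain ⟨y, hy', rfl⟩ := Finset.mem_map.mp hy
      obtain ⟨h3, h4⟩ := h2 x hx' y hy' (fun e => hxy (by rw [e]))
      refine ⟨fun e => h3 (Sum.inl_injective e), ?_⟩
      exact h4
    · intro j hj
      show bd (push ι (c (j + 1))) = push ι (c j) + act _ (push ι (c j))
      rw [bd_push, hS.step j hj, push_add,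
        act_push ι (SG.ofSign (sgn' s (N - Fintype.card V)) hs').ha hab]
    · show bd (push ι (c 0)) ∅ = 1
      rw [bd_push]
      have : (∅ : Finset ((V ⊕ Fin (N - Fintype.card V)) × Bool)) = (∅ : Finset (V × Bool)).map ι :=
        (Finset.map_empty ι).symm
      rw [this, push_map]
      exact hS.base

end Pool.Agent.H775.Pad
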